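import Pool.Agent.Lib.MP_2c6a5a_lc.MxWorld

/-! The abstract layer of the classification: promise kinds, locality, generators. -/

namespace Pool.Agent.Lib.MP_2c6a5a_lc.Cl

open Finset Pool.Agent.Lib.MP_8a52c3_lc.Orc Pool.Agent.Lib.MP_2c6a5a_lc.Pf
  Pool.Agent.Lib.MP_2c6a5a_lc.Mx

set_option linter.unusedSectionVars false

/-- The eight kinds: DisjNP, CON^N, CON, UP, NP∩coNP, SAT, TFNP, DisjCoNP. -/
inductive Kd : Type
  | a | b | c | d | e | f | g | h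
  deriving DecidableEq

def isP (κ : Kd) : Prop := κ = .b ∨ κ = .c ∨ κ = .f

instance : DecidablePred isP := fun κ => by unfold isP; infer_instance

section kinds
variable {Y Ω Ω' : Type}

def Ex (ob : Bool → Y → Prop) (s : Bool) : Prop := ∃ y, ob s y

def Dis (ob : Bool → Y → Prop) : Prop := ¬ (Ex ob false ∧ Ex ob true)

def Cov (ob : Bool → Y → Prop) : Prop := Ex ob false ∨ Ex ob true

def Uni (ob : Bool → Y → Prop) : Prop := ∀ y y', ob true y → ob true y' → y = y'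

/-- The promise of an object. -/
def Prom (κ : Kd) (ob : Bool → Y → Prop) : Prop :=
  match κ with
  | .a => Dis ob
  | .b => Dis ob
  | .c => Dis ob
  | .d => Uni ob
  | .e => Dis ob ∧ Cov ob
  | .f => Ex ob false → Ex ob true
  | .g => Ex ob true
  | .h => Cov ob

/-- What the coding bits satisfy in any case. -/
def Unc (κ : Kd) (ob : Bool → Y → Prop) (bit : Bool → Ω → Prop) : Prop :=
  match κ with
  | .a => Dis bit
  | .b => ¬ (Ex bit false ∧ Ex ob true)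
  | .c => ¬ (Ex bit false ∧ Ex ob true)
  | .d => Uni bit
  | .e => Dis bit ∧ Cov bit
  | .f => Ex bit false → Ex ob true
  | .g => Ex bit true
  | .h => Cov bit

/-- The coding bits simulate the object. -/
def Cnd (κ : Kd) (ob : Bool → Y → Prop) (bit : Bool → Ω → Prop) (pj : Ω → Y) (ω₀ : Ω) : Prop :=
  match κ with
  | .a => ∀ s, Ex ob s → Ex bit s
  | .b => Ex ob false → Ex bit false
  | .c => Ex ob false → bit false ω₀
  | .d => Ex ob true ↔ Ex bit true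
  | .e => ∀ s, Ex ob s → Ex bit s
  | .f => Ex ob false → bit false ω₀
  | .g => ∀ ω, bit true ω → ob true (pj ω)
  | .h => ∀ s, Ex bit s → Ex ob s

theorem Dis.eq {ob : Bool → Y → Prop} (h : Dis ob) {s s' : Bool} (h1 : Ex ob s) (h2 : Ex ob s') :
    s = s' := by
  cases s <;> cases s'
  · rfl
  · exact absurd ⟨h1, h2⟩ h
  · exact absurd ⟨h2, h1⟩ h
  · rfl

theorem dis_of {ob : Bool → Y → Prop} (h : ∀ s s', Ex ob s → Ex ob s' → s = s') : Dis ob :=
  fun hh => by simpa using h _ _ hh.1 hh.2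

theorem Cov.ex {ob : Bool → Y → Prop} (h : Cov ob) : ∃ s, Ex ob s :=
  h.elim (fun h => ⟨_, h⟩) fun h => ⟨_, h⟩

theorem cov_of {ob : Bool → Y → Prop} {s : Bool} (h : Ex ob s) : Cov ob := by
  cases s
  · exact Or.inl h
  · exact Or.inr h

/-- Transfer along an encoding of the witnesses. -/
theorem transfer {κ : Kd} {ob : Bool → Y → Prop} {bit : Bool → Ω → Prop} {bit' : Bool → Ω' → Prop}
    {pj : Ω → Y} {pj' : Ω' → Y} {ω₀ : Ω} {ω₀' : Ω'} (F : Ω → Ω')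
    (hb : ∀ s w, bit' s w ↔ ∃ ω, ((κ = .c ∨ κ = .f) → ω = ω₀) ∧ w = F ω ∧ bit s ω)
    (hp : ¬ (κ = .c ∨ κ = .f) → ∀ ω, pj' (F ω) = pj ω) (h0 : (κ = .c ∨ κ = .f) → F ω₀ = ω₀') :
    (Unc κ ob bit → Unc κ ob bit') ∧ (Cnd κ ob bit pj ω₀ → Cnd κ ob bit' pj' ω₀') := by
  have e1 : ∀ s, Ex bit' s → Ex bit s := by
    rintro s ⟨w, hw⟩
    obtain ⟨ω, _, _, h⟩ := (hb s w).1 hw
    exact ⟨ω, h⟩
  have e2 : ¬ (κ = .c ∨ κ = .f) → ∀ s, Ex bit s → Ex bit' s := by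
    rintro hn s ⟨ω, h⟩
    exact ⟨F ω, (hb _ _).2 ⟨ω, fun h => absurd h hn, rfl, h⟩⟩
  cases κ
  · exact ⟨fun h hh => h ⟨e1 _ hh.1, e1 _ hh.2⟩, fun h s hs => e2 (by simp) s (h s hs)⟩
  · exact ⟨fun h hh => h ⟨e1 _ hh.1, hh.2⟩, fun h hs => e2 (by simp) _ (h hs)⟩
  · exact ⟨fun h hh => h ⟨e1 _ hh.1, hh.2⟩,
      fun h hs => (hb _ _).2 ⟨ω₀, fun _ => rfl, (h0 (by simp)).symm, h hs⟩⟩
  · refine ⟨fun h w w' hw hw' => ?_, fun h => h.trans ⟨e2 (by simp) _, e1 _⟩⟩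
    obtain ⟨ω, _, rfl, h1⟩ := (hb _ _).1 hw
    obtain ⟨ω', _, rfl, h2⟩ := (hb _ _).1 hw'
    rw [h ω ω' h1 h2]
  · exact ⟨fun h => ⟨fun hh => h.1 ⟨e1 _ hh.1, e1 _ hh.2⟩,
      h.2.imp (e2 (by simp) _) (e2 (by simp) _)⟩, fun h s hs => e2 (by simp) s (h s hs)⟩
  · exact ⟨fun h hh => h (e1 _ hh),
      fun h hs => (hb _ _).2 ⟨ω₀, fun _ => rfl, (h0 (by simp)).symm, h hs⟩⟩
  · refine ⟨fun h => e2 (by simp) _ h, fun h w hw => ?_⟩
    obtain ⟨ω, _, rfl, h1⟩ := (hb _ _).1 hw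
    rw [hp (by simp)]
    exact h ω h1
  · exact ⟨fun h => h.imp (e2 (by simp) _) (e2 (by simp) _), fun h s hs => h s (e1 s hs)⟩

/-- The identity coding. -/
def idB {U : Type} (ob : Bool → Str → Prop) : Bool → Option U × Str → Prop :=
  fun s ω => ω.1 = none ∧ ob s ω.2

theorem ex_idB {U : Type} (ob : Bool → Str → Prop) (s : Bool) : Ex (idB (U := U) ob) s ↔ Ex ob s :=
  ⟨fun ⟨ω, h⟩ => ⟨ω.2, h.2⟩, fun ⟨y, h⟩ => ⟨(none, y), rfl, h⟩⟩

theorem idB_unc {U : Type} {κ : Kd} {ob : Bool → Str → Prop} (h : Prom κ ob) :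
    Unc κ ob (idB (U := U) ob) := by
  cases κ <;> simp only [Unc, Prom, Dis, Cov, ex_idB] at h ⊢ <;> try exact h
  rintro ⟨u, y⟩ ⟨u', y'⟩ h1 h2
  have := h _ _ h1.2 h2.2
  have a1 := h1.1
  have a2 := h2.1
  simp only at this a1 a2
  rw [this, a1, a2]

theorem idB_cnd {U : Type} {κ : Kd} {ob : Bool → Str → Prop}
    (h0 : isP κ → ∀ y, ob false y → y = []) :
    Cnd κ ob (idB (U := U) ob) Prod.snd (none, []) := by
  cases κ <;> simp only [Cnd, ex_idB]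
  · exact fun _ h => h
  · exact fun h => h
  · rintro ⟨y, hy⟩
    exact ⟨rfl, h0 (by simp [isP]) y hy ▸ hy⟩
  · exact fun _ h => h
  · rintro ⟨y, hy⟩
    exact ⟨rfl, h0 (by simp [isP]) y hy ▸ hy⟩
  · exact fun ω h => h.2
  · exact fun _ h => h

/-- The witness object of a slot with content `mem`. -/
def wob {V : Type} (κ : Kd) (mem : Bool × V → Prop) (s : Bool) (y : Option (Bool × V)) : Prop :=
  if isP κ then (if s then ∃ z, y = some z ∧ mem z else y = none)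
  else if κ = .d ∨ κ = .g then s = true ∧ ∃ z, y = some z ∧ mem z
  else ∃ v, y = some (s, v) ∧ mem (s, v)

theorem wob_side {V : Type} {κ : Kd} (hκ : κ = .a ∨ κ = .e ∨ κ = .h) (mem : Bool × V → Prop)
    (s : Bool) : Ex (wob κ mem) s ↔ ∃ v, mem (s, v) := by
  have : wob κ mem s = fun y => ∃ v, y = some (s, v) ∧ mem (s, v) := by
    funext y
    rcases hκ with rfl | rfl | rfl <;> simp [wob, isP]
  unfold Ex
  rw [this]
  exact ⟨fun ⟨_, v, _, h⟩ => ⟨v, h⟩, fun ⟨v, h⟩ => ⟨_, v, rfl, h⟩⟩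

theorem wob_true {V : Type} {κ : Kd} (hκ : isP κ ∨ κ = .d ∨ κ = .g) (mem : Bool × V → Prop)
    (y : Option (Bool × V)) : wob κ mem true y ↔ ∃ z, y = some z ∧ mem z := by
  rcases hκ with h | h
  · simp [wob, h]
  · by_cases h' : isP κ
    · simp [wob, h']
    · simp [wob, h, h']

theorem wob_ex {V : Type} {κ : Kd} (hκ : isP κ ∨ κ = .d ∨ κ = .g) (mem : Bool × V → Prop) :
    Ex (wob κ mem) true ↔ ∃ z, mem z := by
  unfold Ex
  simp only [wob_true hκ]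
  exact ⟨fun ⟨_, z, _, h⟩ => ⟨z, h⟩, fun ⟨z, h⟩ => ⟨_, z, rfl, h⟩⟩

theorem wob_false {V : Type} {κ : Kd} (hκ : isP κ) (mem : Bool × V → Prop) :
    Ex (wob κ mem) false := ⟨none, by simp [wob, hκ]⟩

end kinds

section loc
variable {U U' : Type} [DecidableEq U] [DecidableEq U'] {α β : Type}

/-- Every value of `f` has a certificate of at most `K` allowed points. -/
def Loc (P : U → Prop) (K : ℕ) (f : Finset U → α) : Prop :=
  ∀ X, ∃ C : Finset U, C.card ≤ K ∧ (∀ u ∈ C, P u) ∧ ∀ X', Agree C X X' → f X' = f X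

theorem agree_refl (C X : Finset U) : Agree C X X := fun _ _ => Iff.rfl

theorem agree_symm {C X X' : Finset U} (h : Agree C X X') : Agree C X' X :=
  fun u hu => (h u hu).symm

theorem Loc.const (P : U → Prop) (K : ℕ) (x : α) : Loc P K fun _ => x :=
  fun _ => ⟨∅, by simp, by simp, fun _ _ => rfl⟩

theorem Loc.mono {P P' : U → Prop} {K K' : ℕ} {f : Finset U → α} (h : Loc P K f)
    (hP : ∀ u, P u → P' u) (hK : K ≤ K') : Loc P' K' f := fun X => by
  obtain ⟨C, h1, h2, h3⟩ := h X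
  exact ⟨C, h1.trans hK, fun u hu => hP u (h2 u hu), h3⟩

theorem Loc.comp {P : U → Prop} {K : ℕ} {f : Finset U → α} (h : Loc P K f) (g : α → β) :
    Loc P K fun X => g (f X) := fun X => by
  obtain ⟨C, h1, h2, h3⟩ := h X
  exact ⟨C, h1, h2, fun X' hX => congrArg g (h3 X' hX)⟩

theorem Loc.congr {P : U → Prop} {K : ℕ} {f g : Finset U → α} (h : Loc P K f)
    (e : ∀ X, g X = f X) : Loc P K g := by
  have : g = f := funext e
  rwa [this]

theorem Loc.bind {P : U → Prop} {K K' : ℕ} {f : Finset U → α} {g : α → Finset U → β}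
    (h : Loc P K f) (hg : ∀ x, Loc P K' (g x)) : Loc P (K + K') fun X => g (f X) X := fun X => by
  obtain ⟨C, h1, h2, h3⟩ := h X
  obtain ⟨C', a1, a2, a3⟩ := hg (f X) X
  refine ⟨C ∪ C', (card_union_le _ _).trans (by omega),
    fun u hu => (mem_union.1 hu).elim (h2 u) (a2 u), fun X' hX => ?_⟩
  show g (f X') X' = g (f X) X
  rw [h3 X' (hX.mono subset_union_left), a3 X' (hX.mono subset_union_right)]

theorem Loc.pair {P : U → Prop} {K K' : ℕ} {f : Finset U → α} {g : Finset U → β}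
    (h : Loc P K f) (hg : Loc P K' g) : Loc P (K + K') fun X => (f X, g X) :=
  h.bind (g := fun x X => (x, g X)) fun x => hg.comp fun y => (x, y)

theorem Loc.and {P : U → Prop} {K K' : ℕ} {f g : Finset U → Prop}
    (h : Loc P K f) (hg : Loc P K' g) : Loc P (K + K') fun X => f X ∧ g X :=
  (h.pair hg).comp fun z => z.1 ∧ z.2

theorem Loc.or {P : U → Prop} {K K' : ℕ} {f g : Finset U → Prop}
    (h : Loc P K f) (hg : Loc P K' g) : Loc P (K + K') fun X => f X ∨ g X :=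
  (h.pair hg).comp fun z => z.1 ∨ z.2

theorem Loc.inter {P : U → Prop} (C : Finset U) (hC : ∀ u ∈ C, P u) :
    Loc P C.card fun X => X ∩ C :=
  fun _ => ⟨C, le_rfl, hC, fun _ h => h.inter_eq⟩

theorem Loc.mem {P : U → Prop} {u : U} (hu : P u) : Loc P 1 fun X => u ∈ X :=
  fun _ => ⟨{u}, by simp, by simpa using hu, fun _ h => propext (h u (mem_singleton_self u))⟩

theorem Loc.pi {ι : Type} {P : U → Prop} {K : ℕ} (I : Finset ι) {f : ι → Finset U → Prop}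
    (h : ∀ i ∈ I, Loc P K (f i)) : Loc P (I.card * K) fun X => ∀ i ∈ I, f i X := fun X => by
  classical
  choose! C h1 h2 h3 using fun i hi => h i hi X
  refine ⟨I.biUnion C, card_biUnion_le_card_mul _ _ _ h1, fun u hu => ?_, fun X' hX => ?_⟩
  · obtain ⟨i, hi, hu⟩ := mem_biUnion.1 hu
    exact h2 i hi u hu
  · refine propext (forall_congr' fun i => forall_congr' fun hi => ?_)
    rw [h3 i hi X' (hX.mono (subset_biUnion_of_mem C hi))]

theorem Loc.pull {P : U → Prop} {P' : U' → Prop} {K : ℕ} {f : Finset U' → α} (h : Loc P' K f)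
    (F : Finset U → Finset U') (m : Finset U' → Finset U)
    (h1 : ∀ C, (m C).card ≤ C.card) (h2 : ∀ C, (∀ u ∈ C, P' u) → ∀ u ∈ m C, P u)
    (h3 : ∀ C X X', Agree (m C) X X' → Agree C (F X) (F X')) : Loc P K fun X => f (F X) :=
  fun X => by
  obtain ⟨C, a1, a2, a3⟩ := h (F X)
  exact ⟨m C, (h1 C).trans a1, h2 C a2, fun X' hX => a3 _ (h3 C X X' hX)⟩

theorem Loc.ofAdapt {P : U → Prop} {K : ℕ} {Q : Finset U → Finset U}
    (h1 : ∀ X, (Q X).card ≤ K) (h2 : ∀ X, ∀ u ∈ Q X, P u) {f : Finset U → α}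
    (h3 : ∀ X X', Agree (Q X) X X' → f X' = f X) : Loc P K f :=
  fun X => ⟨Q X, h1 X, h2 X, h3 X⟩

/-- A chosen certificate. -/
noncomputable def Loc.ct {P : U → Prop} {K : ℕ} {f : Finset U → α} (h : Loc P K f)
    (X : Finset U) : Finset U := (h X).choose

theorem Loc.ct_card {P : U → Prop} {K : ℕ} {f : Finset U → α} (h : Loc P K f)
    (X : Finset U) : (h.ct X).card ≤ K := (h X).choose_spec.1

theorem Loc.ct_ok {P : U → Prop} {K : ℕ} {f : Finset U → α} (h : Loc P K f)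
    (X : Finset U) : ∀ u ∈ h.ct X, P u := (h X).choose_spec.2.1

theorem Loc.ct_eq {P : U → Prop} {K : ℕ} {f : Finset U → α} (h : Loc P K f)
    {X X' : Finset U} (hX : Agree (h.ct X) X X') : f X' = f X := (h X).choose_spec.2.2 X' hX

theorem Loc.ct_of {P : U → Prop} {K : ℕ} {f : Finset U → Prop} (h : Loc P K f)
    {X X' : Finset U} (hX : Agree (h.ct X) X X') (hf : f X) : f X' := (h.ct_eq hX).symm ▸ hf

theorem agree_insert {C X : Finset U} {u : U} (hu : u ∉ C) : Agree C X (insert u X) := by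
  intro v hv
  rw [mem_insert]
  exact ⟨fun h => h.resolve_left fun e => hu (e ▸ hv), Or.inr⟩

theorem agree_union {C X Y : Finset U} (h : ∀ u ∈ Y, u ∉ C) : Agree C X (X ∪ Y) := by
  intro v hv
  rw [mem_union]
  exact ⟨fun h' => h'.resolve_right fun e => h v e hv, Or.inl⟩

theorem agree_trans {C X X' X'' : Finset U} (h : Agree C X X') (h' : Agree C X' X'') :
    Agree C X X'' := fun u hu => (h' u hu).trans (h u hu)

end loc

/-- Parameters of a stage. -/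
structure Par3 where
  n : ℕ
  τ : ℕ
  q : ℕ
  e : ℕ
  n0 : ℕ
  K0 : ℕ

/-- Parameters for the random restriction argument. -/
def par2 (q e τ : ℕ) : Par2 :=
  { q := q, e := e, τ := 2 * τ + 5, t := 2 * τ + 5 + 5,
    C := 7 * (2 * τ + 5 + (2 * τ + 5 + 5) + τ * (2 * τ + 5 + 5) + 5), Λ := Nat.log 2 τ + 1 }

def Psi3 (q τ : ℕ) : ℕ := ((par2 q 0 τ).X + 1) * (100 * (par2 q 0 τ).X) + 1

def Phi (q τ : ℕ) : ℕ := (2 * τ + 4) * (Psi3 q τ + 100)

def Par3.Ok (p : Par3) : Prop :=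
  p.n + 3 ≤ p.n0 ∧ p.n ≤ p.τ ∧ p.e < p.q ∧
    (Phi p.q p.τ * (p.K0 + 2)) ^ (Nat.log 2 p.τ + 8) ≤ 2 ^ p.n

abbrev Vn (n : ℕ) := List.Vector Bool n
abbrev Zt (n : ℕ) := Bool × Vn n
abbrev Ob (U : Type) := Bool → Str → Finset U → Prop
abbrev Bt (U : Type) := Bool → Option U × Str → Finset U → Prop

/-- The data of a group. -/
structure Inf where
  γ : Str
  κ : Kd
  j : ℕ
  t : ℕ
  K : ℕ

section gen
variable {U : Type} [DecidableEq U]

/-- The value of a family of predicates in a world. -/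
def atW {Y : Type} (ob : Bool → Y → Finset U → Prop) (X : Finset U) : Bool → Y → Prop :=
  fun s y => ob s y X

structure InfOk (π : Kd → Prop) (p : Par3) (sc : U → ℕ) (i : Inf) (ob : Ob U) : Prop where
  nπ : ¬ π i.κ
  ej : p.e < i.j
  jq : i.j < p.q
  nt : p.n0 ≤ i.t
  tγ : i.t ^ 2 ≤ i.γ.length
  γτ : i.γ.length < p.τ
  hK : i.K ≤ p.K0
  loc : ∀ s y, Loc (fun u => sc u ≤ i.t) i.K (ob s y)
  len : ∀ s y X, ob s y X → y.length ≤ i.t
  nil : isP i.κ → ∀ y X, ob false y X → y = []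

structure BitOk (Φ : ℕ) (sc : U → ℕ) (i : Inf) (bit : Bt U) : Prop where
  loc : ∀ s ω, Loc (fun u => sc u ≤ i.γ.length) (Φ * (i.K + 1) ^ 4) (bit s ω)
  nm : ∀ s ω X, bit s ω X → (∀ u, ω.1 = some u → sc u ≤ i.t + 1) ∧ ω.2.length ≤ i.t

/-- The groups of a stage. -/
structure Ctx (π : Kd → Prop) (p : Par3) (sc : U → ℕ) where
  act : Finset Str
  inf : Str → Inf
  l : Str → ℕ
  ob : Str → Ob U
  name : ∀ γ, (inf γ).γ = γ
  ok : ∀ γ ∈ act, InfOk π p sc (inf γ) (ob γ)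
  hl : ∀ γ ∈ act, γ.length ≤ l γ ∧ l γ < p.τ

variable {π : Kd → Prop} {p : Par3} {sc : U → ℕ}

def Ctx.Un (c : Ctx π p sc) (ext : Inf → Ob U → Bt U) (γ : Str) (X : Finset U) : Prop :=
  Unc (c.inf γ).κ (atW (c.ob γ) X) (atW (ext (c.inf γ) (c.ob γ)) X)

def Ctx.Cn (c : Ctx π p sc) (ext : Inf → Ob U → Bt U) (γ : Str) (X : Finset U) : Prop :=
  Cnd (c.inf γ).κ (atW (c.ob γ) X) (atW (ext (c.inf γ) (c.ob γ)) X) Prod.snd (none, [])

def Ctx.Pm (c : Ctx π p sc) (γ : Str) (X : Finset U) : Prop :=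
  Prom (c.inf γ).κ (atW (c.ob γ) X)

def Ctx.Fine (c : Ctx π p sc) (ext : Inf → Ob U → Bt U) (j l : ℕ) (X : Finset U) : Prop :=
  ∀ γ ∈ c.act, c.l γ < l → c.Un ext γ X ∧ ((c.inf γ).j < j → c.Cn ext γ X)

def Ctx.H (c : Ctx π p sc) (ext : Inf → Ob U → Bt U) (Wit : Finset U → Prop) : Prop :=
  ∀ γ ∈ c.act, ∀ X, c.Fine ext (c.inf γ).j ((c.inf γ).t + 1) X → Wit X → c.Pm γ X

theorem Ctx.lt (c : Ctx π p sc) (hp : p.Ok) {γ : Str} (h : γ ∈ c.act) :
    3 ≤ (c.inf γ).t ∧ 2 * (c.inf γ).t < γ.length ∧ (c.inf γ).t ^ 2 ≤ c.l γ := by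
  have h1 := (c.ok γ h).nt
  have h2 := (c.ok γ h).tγ
  have h3 := (c.hl γ h).1
  have h4 := hp.1
  rw [c.name] at h2
  refine ⟨by omega, by nlinarith, by omega⟩

end gen

section win
variable {n : ℕ} {U' : Type} [DecidableEq U']

def scU (n0 : ℕ) (sc' : U' → ℕ) : Zt n ⊕ U' → ℕ := Sum.elim (fun _ => n0) sc'

def slot (X : Finset (Zt n ⊕ U')) : Zt n → Prop := fun z => Sum.inl z ∈ X

def Wit (κ : Kd) (X : Finset (Zt n ⊕ U')) : Prop := Prom κ (wob κ (slot X))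

/-- A local candidate that keeps its promise on `W₀` fails to simulate the slot on `W`. -/
def LB (κ : Kd) (K : ℕ) (W W₀ : Finset (Zt n ⊕ U') → Prop) : Prop :=
  ∀ (cb : Bool → Str → Finset (Zt n ⊕ U') → Prop) (pj : Str → Finset (Zt n ⊕ U') → Option (Zt n)),
    (∀ s ω, Loc (fun _ => True) K (cb s ω)) → (∀ ω, Loc (fun _ => True) K (pj ω)) →
    (∀ X, W₀ X → Unc κ (wob κ (slot X)) (atW cb X)) →
    ∃ X, W X ∧ ¬ Cnd κ (wob κ (slot X)) (atW cb X) (fun ω => pj ω X) []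

theorem LB.mono {κ : Kd} {K : ℕ} {W W₀ W' W₀' : Finset (Zt n ⊕ U') → Prop} (h : LB κ K W W₀)
    (h1 : ∀ X, W X → W' X) (h2 : ∀ X, W₀ X → W₀' X) : LB κ K W' W₀' := by
  intro cb pj a b c
  obtain ⟨X, x1, x2⟩ := h cb pj a b fun X hX => c X (h2 X hX)
  exact ⟨X, h1 X x1, x2⟩

end win

/-- A generator: a way to code all kinds outside `π` that leaves room to defeat a candidate
of kind `κ`. -/
structure Gen (π : Kd → Prop) (κ : Kd) (p : Par3) where
  U' : Type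
  dec : DecidableEq U'
  sc' : U' → ℕ
  nm' : U' → Str
  inj : Function.Injective nm'
  len : ∀ u, (nm' u).length ≤ sc' u
  ext : Inf → Ob (Zt p.n ⊕ U') → Bt (Zt p.n ⊕ U')
  bok : ∀ i ob, InfOk π p (scU p.n0 sc') i ob → BitOk (Phi p.q p.τ) (scU p.n0 sc') i (ext i ob)
  win : ∀ c : Ctx π p (scU p.n0 sc'), c.H ext (Wit κ) →
    LB κ p.K0 (fun X => c.Fine ext p.q p.τ X ∧ Wit κ X) (c.Fine ext p.e p.τ)

theorem bitOk_false {U : Type} [DecidableEq U] (Φ : ℕ) (sc : U → ℕ) (i : Inf) :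
    BitOk Φ sc i fun _ _ _ => False :=
  ⟨fun _ _ => Loc.const _ _ _, fun _ _ _ h => h.elim⟩

/-- Generators from a fixed pair of world families. -/
theorem gen_of_pair {π : Kd → Prop} {κ : Kd} {p : Par3} (hp : p.Ok) (U' : Type) [DecidableEq U']
    (sc' : U' → ℕ) (nm' : U' → Str) (inj : Function.Injective nm')
    (len : ∀ u, (nm' u).length ≤ sc' u) (W W₀ : Finset (Zt p.n ⊕ U') → Prop)
    (hW : ∀ X, W X → W₀ X ∧ Wit κ X)
    (hext : ∀ i ob, InfOk π p (scU p.n0 sc') i ob → (∀ X, W X → Prom i.κ (atW ob X)) →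
      ∃ bit, BitOk (Phi p.q p.τ) (scU p.n0 sc') i bit ∧
        (∀ X, W₀ X → Unc i.κ (atW ob X) (atW bit X)) ∧
        ∀ X, W X → Cnd i.κ (atW ob X) (atW bit X) Prod.snd (none, []))
    (hlb : LB κ p.K0 W W₀) : Nonempty (Gen π κ p) := by
  classical
  let Sp : Inf → Ob (Zt p.n ⊕ U') → Bt (Zt p.n ⊕ U') → Prop := fun i ob bit =>
    BitOk (Phi p.q p.τ) (scU p.n0 sc') i bit ∧ (∀ X, W₀ X → Unc i.κ (atW ob X) (atW bit X)) ∧
      ∀ X, W X → Cnd i.κ (atW ob X) (atW bit X) Prod.snd (none, [])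
  let ext : Inf → Ob (Zt p.n ⊕ U') → Bt (Zt p.n ⊕ U') := fun i ob =>
    if h : ∃ bit, Sp i ob bit then h.choose else fun _ _ _ => False
  have hsp : ∀ i ob, (∃ bit, Sp i ob bit) → Sp i ob (ext i ob) := by
    intro i ob h
    simp only [ext, dif_pos h]
    exact h.choose_spec
  refine ⟨⟨U', inferInstance, sc', nm', inj, len, ext, fun i ob _ => ?_, fun c hH => ?_⟩⟩
  · by_cases h : ∃ bit, Sp i ob bit
    · exact (hsp i ob h).1
    · simp only [ext, dif_neg h]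
      exact bitOk_false _ _ _
  · have key : ∀ m, ∀ γ ∈ c.act, (c.inf γ).t < m → Sp (c.inf γ) (c.ob γ) (ext (c.inf γ) (c.ob γ)) := by
      intro m
      induction m with
      | zero => intro _ _ h; omega
      | succ m ih =>
        intro γ hγ ht
        refine hsp _ _ (hext _ _ (c.ok γ hγ) fun X hX => hH γ hγ X (fun γ' hγ' hl => ?_) (hW X hX).2)
        have := c.lt hp hγ'
        have := (c.hl γ' hγ').1
        have h := ih γ' hγ' (by omega)
        exact ⟨h.2.1 X (hW X hX).1, fun _ => h.2.2 X hX⟩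
    refine hlb.mono (fun X hX => ⟨fun γ hγ _ => ?_, (hW X hX).2⟩) fun X hX γ hγ _ => ?_
    · have h := key _ γ hγ (Nat.lt_succ_self _)
      exact ⟨h.2.1 X (hW X hX).1, fun _ => h.2.2 X hX⟩
    · have h := key _ γ hγ (Nat.lt_succ_self _)
      exact ⟨h.2.1 X hX, fun hj => absurd (c.ok γ hγ).ej (by omega)⟩

end Pool.Agent.Lib.MP_2c6a5a_lc.Cl
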