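import Pool.Agent.Lib.MP_2c6a5a_lc.MxMain

/-! The eight hypotheses, relative to an oracle. -/

namespace Pool.Agent.Lib.MP_2c6a5a_lc.Cl

open Pool.Agent.Lib.MP_8a52c3_lc.Orc Pool.Agent.Lib.MP_2c6a5a_lc.Mx

/-- `L` has a p-optimal proof system relative to `A`. -/
def POpt (A : List Bool → Bool) (L : Set (List Bool)) : Prop :=
  ∃ P, FP1 A P ∧ Set.range P = L ∧
    ∀ Q, FP1 A Q → Set.range Q = L → ∃ f, FP1 A f ∧ ∀ d, P (f d) = Q d

/-- `L` has a length-optimal proof system relative to `A`. -/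
def LOpt (A : List Bool → Bool) (L : Set (List Bool)) : Prop :=
  ∃ P, FP1 A P ∧ Set.range P = L ∧ ∀ Q, FP1 A Q → Set.range Q = L →
    ∃ k, ∀ d, ∃ π, π.length ≤ d.length ^ k + k ∧ P π = Q d

/-- The disjoint pairs of sets of the class `K` have no many-one complete pair. -/
def NoCompletePair (A : List Bool → Bool) (K : Set (List Bool) → Prop) : Prop :=
  ¬ ∃ C₀ C₁, K C₀ ∧ K C₁ ∧ Disjoint C₀ C₁ ∧ ∀ B₀ B₁, K B₀ → K B₁ → Disjoint B₀ B₁ →
    ∃ f, FP1 A f ∧ ∀ x, (x ∈ B₀ → f x ∈ C₀) ∧ (x ∈ B₁ → f x ∈ C₁)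

/-- The class `K` has no many-one complete set. -/
def NoCompleteSet (A : List Bool → Bool) (K : Set (List Bool) → Prop) : Prop :=
  ¬ ∃ C, K C ∧ ∀ B, K B → ∃ f, FP1 A f ∧ ∀ x, x ∈ B ↔ f x ∈ C

def DisjNP (A : List Bool → Bool) : Prop := NoCompletePair A (InNP A)

def CONN (A : List Bool → Bool) : Prop := ∃ L : Set (List Bool), L.Nonempty ∧ InNP A Lᶜ ∧ ¬ LOpt A L

def CON (A : List Bool → Bool) : Prop := ∃ L : Set (List Bool), L.Nonempty ∧ InNP A Lᶜ ∧ ¬ POpt A L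

def HypUP (A : List Bool → Bool) : Prop := NoCompleteSet A (InUP A)

def HypNPcoNP (A : List Bool → Bool) : Prop := NoCompleteSet A fun L => InNP A L ∧ InNP A Lᶜ

def SAT (A : List Bool → Bool) : Prop := ∃ L : Set (List Bool), L.Nonempty ∧ InNP A L ∧ ¬ POpt A L

def TFNP (A : List Bool → Bool) : Prop :=
  ¬ ∃ T, IsTFNP A T ∧ ∀ S, IsTFNP A S → Reduces A S T

def DisjCoNP (A : List Bool → Bool) : Prop := NoCompletePair A fun L => InNP A Lᶜ

end Pool.Agent.Lib.MP_2c6a5a_lc.Cl
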