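import Pool.Agent.Lib.MP_2c6a5a_lc.ClTool

/-! Generators with small good worlds. -/

namespace Pool.Agent.Lib.MP_2c6a5a_lc.Cl

open Finset Pool.Agent.Lib.MP_8a52c3_lc.Orc Pool.Agent.Lib.MP_2c6a5a_lc.Pf
  Pool.Agent.Lib.MP_2c6a5a_lc.Mx

set_option linter.unusedSectionVars false

theorem unc_indep {Y Y' Ω : Type} {κ : Kd} (hκ : ¬ isP κ) {ob : Bool → Y → Prop}
    {ob' : Bool → Y' → Prop} {bit : Bool → Ω → Prop} (h : Unc κ ob bit) : Unc κ ob' bit := by
  cases κ <;> first | exact h | exact absurd (by simp [isP]) hκ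

theorem unc_prom {Y Ω : Type} {κ : Kd} (hκ : ¬ isP κ) {ob : Bool → Y → Prop}
    {bit : Bool → Ω → Prop} : Unc κ ob bit ↔ Prom κ bit := by
  cases κ <;> first | exact Iff.rfl | exact absurd (by simp [isP]) hκ

section d2
variable {U : Type} [DecidableEq U] [Fintype U]

def Same (sd : U → Bool) (X : Finset U) : Prop := ∀ u ∈ X, ∀ u' ∈ X, sd u = sd u'

theorem d2 (sd : U → Bool) {K : ℕ} (ob : Str → Finset U → Prop)
    (hl : ∀ y, Loc (fun _ => True) K (ob y))
    (hP : ∀ X : Finset U, X.card = 2 → Same sd X → ∀ y y', ob y X → ob y' X → y = y') :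
    ∃ bit : Str → Finset U → Prop, (∀ y, Loc (fun _ => True) (100 * (K + 1) ^ 2) (bit y)) ∧
      (∀ y X, bit y X → y = [] ∨ ob y X) ∧
      (∀ X : Finset U, X.card ≤ 2 → ∀ y y', bit y X → bit y' X → y = y') ∧
      ∀ X : Finset U, X.card ≤ 2 → Same sd X → ((∃ y, ob y X) ↔ ∃ y, bit y X) := by
  classical
  let acc : Finset U → Prop := fun O => ∃ y, ob y O
  have : ∀ O, ∃ y, acc O → ob y O := fun O => by
    by_cases h : acc O
    · exact ⟨h.choose, fun _ => h.choose_spec⟩
    · exact ⟨[], fun a => absurd a h⟩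
  choose w hw using this
  let S : Finset U := univ.filter fun u => acc {u}
  have hS : ¬ acc ∅ → S.card ≤ 8 * K + 4 := by
    intro h0
    have side : ∀ s, (S.filter fun u => sd u = s).card ≤ 2 * (2 * K + 1) := by
      intro s
      by_contra hlt
      obtain ⟨i, hi, i', hi', hne, y, y', a, b, c⟩ := few_singles ob hl ∅
        (S.filter fun u => sd u = s) (by omega) (fun y hy => h0 ⟨y, hy⟩)
        (fun i hi => by simpa using (mem_filter.1 (mem_filter.1 hi).1).2)
      refine a (hP _ (by simp [hne]) ?_ y y' b c)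
      have e1 := (mem_filter.1 hi).2
      have e2 := (mem_filter.1 hi').2
      intro u hu u' hu'
      simp only [insert_empty_eq, mem_insert, mem_singleton] at hu hu'
      rcases hu with rfl | rfl <;> rcases hu' with rfl | rfl <;> simp [e1, e2]
    have h1 := card_filter_add_card_filter_not (s := S) fun u => sd u = true
    have h2 := side true
    have h3 := side false
    simp only [Bool.not_eq_true] at h1
    omega
  let H : Finset U → Finset U := fun O =>
    if acc O then (hl (w O)).ct O else if O = ∅ then S else ∅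
  obtain ⟨Pf, a1, a2, a3⟩ := search (P := fun _ => True) H (8 * K + 4) 2 (fun O => by
    simp only [H]
    split_ifs with h1 h2
    · exact ((hl _).ct_card O).trans (by omega)
    · exact hS (h2 ▸ h1)
    · simp) (fun _ _ _ => trivial)
  choose Q q1 q2 q3 using fun y => (hl y).adapt
  let R : Str → Finset U → Finset U := fun y X => Pf X ∪ X ∩ Q y X
  have hR : ∀ y X, R y X ⊆ X := fun y X => union_subset (a1 X) inter_subset_left
  refine ⟨fun y X => (acc (Pf X) ∧ y = []) ∨
    (¬ acc (Pf X) ∧ ob y X ∧ (R y X).card = 2 ∧ Same sd (R y X)), fun y => ?_, ?_, ?_, ?_⟩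
  · have l1 : Loc (fun _ => True) ((K + 1) * K) fun X => (X ∩ Q y X, ob y X) :=
      Loc.ofAdapt (Q := Q y) (q2 y) (fun _ _ _ => trivial) fun X X' h => by
        rw [q1 y X X' h, h.inter_eq, q3 y X X' h]
    exact ((a2.pair l1).comp fun z => (acc z.1.1 ∧ y = []) ∨
      (¬ acc z.1.1 ∧ z.2.2 ∧ (z.1.1 ∪ z.2.1).card = 2 ∧ Same sd (z.1.1 ∪ z.2.1))).mono
      (fun _ h => h) (by nlinarith)
  · rintro y X (h | h)
    · exact Or.inl h.2
    · exact Or.inr h.2.1
  · rintro X hX y y' (h | h) (h' | h')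
    · rw [h.2, h'.2]
    · exact absurd h.1 h'.1
    · exact absurd h'.1 h.1
    · have e : R y X = X := eq_of_subset_of_card_le (hR y X) (by omega)
      rw [e] at h
      exact hP X h.2.2.1 h.2.2.2 y y' h.2.1 h'.2.1
  · intro X hX hs
    have st := a3 X hX
    constructor
    · rintro ⟨y, hy⟩
      by_cases hacc : acc (Pf X)
      · exact ⟨[], Or.inl ⟨hacc, rfl⟩⟩
      have hB : Pf X = ∅ → ∀ u ∈ X, ¬ acc {u} := by
        intro h0 u hu ha
        have : u ∈ H (Pf X) := by
          simp only [H, if_neg hacc, if_pos h0]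
          exact mem_filter.2 ⟨mem_univ _, ha⟩
        have := (st u this).1 hu
        simp [h0] at this
      have hne : Pf X ≠ X := fun e => hacc (e.symm ▸ ⟨y, hy⟩)
      have hlt : (Pf X).card < X.card := card_lt_card ⟨a1 X, fun h => hne (Subset.antisymm (a1 X) h)⟩
      have h2 : X.card = 2 := by
        by_contra hn
        have h0 : Pf X = ∅ := card_eq_zero.1 (by omega)
        obtain ⟨u, rfl⟩ := card_eq_one.1 (show X.card = 1 by omega)
        exact hB h0 u (mem_singleton_self u) ⟨y, hy⟩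
      have e : R y X = X := by
        refine Subset.antisymm (hR y X) fun u hu => ?_
        by_cases hP' : u ∈ Pf X
        · exact mem_union_left _ hP'
        refine mem_union_right _ (mem_inter.2 ⟨hu, ?_⟩)
        by_contra hq
        have h3 : acc (X.erase u) := ⟨y, (q3 y X (X.erase u) fun v hv => by
          rw [mem_erase]
          exact ⟨fun h => h.2, fun h => ⟨fun e => hq (e ▸ hv), h⟩⟩).symm ▸ hy⟩
        have h4 : (X.erase u).card = 1 := by rw [card_erase_of_mem hu]; omega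
        have h5 : Pf X ⊆ X.erase u := fun v hv => mem_erase.2 ⟨fun e => hP' (e ▸ hv), a1 X hv⟩
        by_cases h0 : Pf X = ∅
        · obtain ⟨v, hv⟩ := card_eq_one.1 h4
          exact hB h0 v (mem_of_mem_erase (hv ▸ mem_singleton_self v)) (hv ▸ h3)
        · have := card_pos.2 (nonempty_iff_ne_empty.2 h0)
          exact hacc (eq_of_subset_of_card_le h5 (by omega) ▸ h3)
      exact ⟨y, Or.inr ⟨hacc, hy, by rw [e]; exact h2, by rw [e]; exact hs⟩⟩
    · rintro ⟨y, h | h⟩
      · refine ⟨w (Pf X), (hl _).ct_of ?_ (hw _ h.1)⟩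
        simpa only [H, if_pos h.1] using st
      · exact ⟨y, h.2.1⟩

end d2

section
variable {n : ℕ} {U' : Type} [DecidableEq U']

def sl (U' : Type) (s : Bool) (v : Vn n) : Zt n ⊕ U' := Sum.inl (s, v)

theorem sl_inj (s : Bool) : Function.Injective (sl (n := n) U' s) := fun _ _ h => by
  simpa [sl] using h

def sideSet (n : ℕ) (U' : Type) [DecidableEq U'] (s : Bool) : Finset (Zt n ⊕ U') :=
  univ.image (sl U' s)

theorem sideSet_card (s : Bool) : (sideSet n U' s).card = 2 ^ n := by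
  rw [sideSet, card_image_of_injective _ (sl_inj s)]
  simp

theorem mem_sideSet {s : Bool} {u : Zt n ⊕ U'} : u ∈ sideSet n U' s ↔ ∃ v, u = sl U' s v := by
  simp [sideSet, eq_comm]

def up (U' : Type) (A : Finset (Zt n)) : Finset (Zt n ⊕ U') := A.map Function.Embedding.inl

theorem mem_up {A : Finset (Zt n)} {u : Zt n ⊕ U'} : u ∈ up U' A ↔ ∃ z ∈ A, u = Sum.inl z := by
  simp [up, eq_comm]

theorem up_toLeft (A : Finset (Zt n)) : (up U' A).toLeft = A := by
  ext z; simp [up]

end

/-- Coding of UP objects from uniqueness on two-point one-sided slots. -/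
theorem d_ext {π : Kd → Prop} {p : Par3} (hp : p.Ok) {U' : Type} [DecidableEq U'] {sc' : U' → ℕ}
    {i : Inf} {ob : Ob (Zt p.n ⊕ U')} (h : InfOk π p (scU p.n0 sc') i ob)
    (hP : ∀ A : Finset (Zt p.n), A.card = 2 → Same Prod.fst A → Uni (atW ob (up U' A))) :
    ∃ bit, BitOk (Phi p.q p.τ) (scU p.n0 sc') i bit ∧
      (∀ X, X.toLeft.card ≤ 2 → Uni (atW bit X)) ∧
      ∀ A : Finset (Zt p.n), A.card ≤ 2 → Same Prod.fst A →
        (Ex (atW ob (up U' A)) true ↔ Ex (atW bit (up U' A)) true) := by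
  obtain ⟨bit, b1, b2, b3, b4⟩ := d2 (K := i.K) Prod.fst (fun y A => ob true y (up U' A))
    (fun y => (h.loc true y).pull (up U') toLeft (fun _ => card_toLeft_le)
      (fun _ _ _ _ => trivial) fun C X X' hh u hu => by
        rcases u with z | u
        · simpa [mem_up] using hh z (mem_toLeft.2 hu)
        · simp [mem_up]) hP
  refine ⟨fun _ ω X => ω.1 = none ∧ bit ω.2 X.toLeft, ⟨fun s ω => ?_, fun s ω X hb => ?_⟩,
    fun X hX => ?_, fun A h1 h2 => ?_⟩
  · have := (b1 ω.2).pull (P := fun u => scU p.n0 sc' u ≤ i.γ.length) toLeft (up U')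
      (fun C => by simp [up]) (fun C _ u hu => by
        obtain ⟨z, _, rfl⟩ := mem_up.1 hu
        have := h.tle hp
        have := h.nt
        simp only [scU, Sum.elim_inl]
        omega) fun C X X' hh z hz => by
        simpa using hh (Sum.inl z) (mem_up.2 ⟨z, hz, rfl⟩)
    exact (this.comp fun z => ω.1 = none ∧ z).mono (fun _ h => h) (le_phi (by nlinarith))
  · refine ⟨fun u hu => by simp [hb.1] at hu, ?_⟩
    rcases b2 _ _ hb.2 with e | e
    · simp [e]
    · exact h.len _ _ _ e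
  · rintro ⟨o, y⟩ ⟨o', y'⟩ ⟨c1, c2⟩ ⟨c3, c4⟩
    simp only at c1 c2 c3 c4
    rw [c1, c3, b3 _ hX y y' c2 c4]
  · refine (b4 A h1 h2).trans ⟨fun ⟨y, hy⟩ => ⟨(none, y), rfl, ?_⟩, fun ⟨ω, hω⟩ => ⟨ω.2, ?_⟩⟩
    · rwa [up_toLeft]
    · have := hω.2
      rwa [up_toLeft] at this

theorem gen_empty {π : Kd → Prop} {κ : Kd} {p : Par3} (hp : p.Ok)
    (W W₀ : Finset (Zt p.n ⊕ Empty) → Prop) (hW : ∀ X, W X → W₀ X ∧ Wit κ X)
    (hext : ∀ i ob, InfOk π p (scU p.n0 Empty.elim) i ob → (∀ X, W X → Prom i.κ (atW ob X)) →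
      ∃ bit, BitOk (Phi p.q p.τ) (scU p.n0 Empty.elim) i bit ∧
        (∀ X, W₀ X → Unc i.κ (atW ob X) (atW bit X)) ∧
        ∀ X, W X → Cnd i.κ (atW ob X) (atW bit X) Prod.snd (none, []))
    (hlb : LB κ p.K0 W W₀) : Nonempty (Gen π κ p) :=
  gen_of_pair hp Empty Empty.elim Empty.elim (fun u => u.elim) (fun u => u.elim) W W₀ hW hext hlb

theorem wit_bc {n : ℕ} {U' : Type} [DecidableEq U'] {κ : Kd} (hκ : κ = .b ∨ κ = .c)
    {X : Finset (Zt n ⊕ U')} (h : ∀ z, Sum.inl z ∉ X) : Wit κ X := by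
  have : ¬ Ex (wob κ (slot X)) true := by
    rw [wob_ex (by rcases hκ with rfl | rfl <;> simp [isP])]
    exact fun ⟨z, hz⟩ => h z hz
  rcases hκ with rfl | rfl <;> exact fun hh => this hh.2

/-- No length-optimal proof system. -/
theorem gen1 {π : Kd → Prop} {κ : Kd} {p : Par3} (hp : p.Ok) (hκ : κ = .b ∨ κ = .c)
    (hb : π .b) (hc : π .c) : Nonempty (Gen π κ p) := by
  have hP : isP κ := by rcases hκ with rfl | rfl <;> simp [isP]
  refine gen_empty hp (fun X => X = ∅) (fun _ => True)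
    (fun X hX => ⟨trivial, wit_bc hκ (by simp [hX])⟩) (fun i ob h hpr => ?_) ?_
  · by_cases had : i.κ = .a ∨ i.κ = .d
    · have hn : ¬ isP i.κ := by rcases had with e | e <;> simp [e, isP]
      refine ⟨_, idB_bok hp h fun _ => False, fun X _ => ?_, ?_⟩
      · have := idB_unc (U := Zt p.n ⊕ Empty) (hpr ∅ rfl)
        refine unc_indep hn (ob := atW ob ∅) ?_
        simp only [filter_false]
        exact this
      · rintro X rfl
        exact idB_cnd fun h => absurd h hn
    · obtain ⟨bit, b1, b2, b3⟩ := search_ext hp h (fun X => X = ∅)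
        (fun X Y h1 h2 => subset_empty.1 (h2 ▸ h1)) (fun X hX => by simp [hX]) (by
          have := h.nπ
          cases e : i.κ <;> simp_all) hpr
      exact ⟨bit, b1, fun X _ => b2 X, b3⟩
  · intro cb pj l1 _ hU
    refine ⟨∅, rfl, fun hC => ?_⟩
    obtain ⟨ω, hω⟩ : ∃ ω, cb false ω ∅ := by
      rcases hκ with rfl | rfl
      · exact hC (wob_false hP _)
      · exact ⟨_, hC (wob_false hP _)⟩
    obtain ⟨v, hv⟩ := avoid (sl Empty true) (sl_inj true) ((l1 false ω).ct ∅)
      (lt_of_le_of_lt ((l1 _ _).ct_card _) (by have := hp.big0; omega))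
    have h1 : Ex (atW cb (insert (sl Empty true v) ∅)) false :=
      ⟨ω, (l1 _ _).ct_of (agree_insert hv) hω⟩
    have h2 : Ex (wob κ (slot (insert (sl Empty true v) ∅))) true :=
      (wob_ex (Or.inl hP) _).2 ⟨(true, v), mem_insert_self _ _⟩
    have := hU (insert (sl Empty true v) ∅) trivial
    rcases hκ with rfl | rfl <;> exact this ⟨h1, h2⟩

def sdU {n : ℕ} {U' : Type} : Zt n ⊕ U' → Bool := Sum.elim Prod.fst fun _ => true

theorem up_toLeft_empty {n : ℕ} (X : Finset (Zt n ⊕ Empty)) : up Empty X.toLeft = X := by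
  ext u
  rcases u with z | u
  · simp [mem_up]
  · exact u.elim

theorem same_dis {n : ℕ} {U' : Type} [DecidableEq U'] {κ : Kd} (hκ : κ = .a ∨ κ = .e ∨ κ = .h)
    {X : Finset (Zt n ⊕ U')} (h : Same Prod.fst X.toLeft) : Dis (wob κ (slot X)) := by
  rintro ⟨h1, h2⟩
  obtain ⟨v, hv⟩ := (wob_side hκ _ _).1 h1
  obtain ⟨v', hv'⟩ := (wob_side hκ _ _).1 h2
  simpa using h _ (mem_toLeft.2 hv) _ (mem_toLeft.2 hv')

/-- Two accepted singletons on opposite sides can be merged. -/
theorem cross_sides {p : Par3} {U' : Type} [DecidableEq U'] {d : ℕ}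
    (hd : 2 * d < 2 ^ p.n) (C : Zt p.n ⊕ U' → Finset (Zt p.n ⊕ U')) (hC : ∀ u, (C u).card ≤ d) :
    ∃ v v', sl U' true v' ∉ C (sl U' false v) ∧ sl U' false v ∉ C (sl U' true v') := by
  obtain ⟨i, hi, i', hi', a, b⟩ := cross (sideSet p.n U' false) (sideSet p.n U' true) C C d
    (fun u _ => hC u) (fun u _ => hC u) (by rwa [sideSet_card]) (by rwa [sideSet_card])
  obtain ⟨v, rfl⟩ := mem_sideSet.1 hi
  obtain ⟨v', rfl⟩ := mem_sideSet.1 hi'
  exact ⟨v, v', a, b⟩

/-- No complete disjoint NP pair. -/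
theorem gen2 {π : Kd → Prop} {p : Par3} (hp : p.Ok) (ha : π .a) (hb : π .b) (hc : π .c) :
    Nonempty (Gen π .a p) := by
  refine gen_empty hp (fun X => X.card ≤ 2 ∧ Same Prod.fst X.toLeft) (fun X => X.card ≤ 2)
    (fun X hX => ⟨hX.1, same_dis (by simp) hX.2⟩) (fun i ob h hpr => ?_) ?_
  · by_cases hd : i.κ = .d
    · obtain ⟨bit, b1, b2, b3⟩ := d_ext hp h fun A h1 h2 => by
        have := hpr (up Empty A) ⟨by simp [up, h1], by rwa [up_toLeft]⟩
        rwa [hd] at this
      refine ⟨bit, b1, fun X hX => ?_, fun X hX => ?_⟩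
      · rw [hd]
        exact b2 X (card_toLeft_le.trans hX)
      · rw [hd]
        have := b3 X.toLeft (card_toLeft_le.trans hX.1) hX.2
        rwa [up_toLeft_empty] at this
    · obtain ⟨bit, b1, b2, b3⟩ := search_ext hp h
        (fun X => X.card ≤ 2 ∧ Same Prod.fst X.toLeft)
        (fun X Y h1 h2 => ⟨(card_le_card h1).trans h2.1, fun u hu u' hu' =>
          h2.2 u (toLeft_subset_toLeft h1 hu) u' (toLeft_subset_toLeft h1 hu')⟩)
        (fun X hX => hX.1) (by
          have := h.nπ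
          cases e : i.κ <;> simp_all) hpr
      exact ⟨bit, b1, fun X _ => b2 X, b3⟩
  · intro cb pj l1 _ hU
    by_contra hn
    push Not at hn
    have : ∀ u : Zt p.n ⊕ Empty, ∃ ω, cb (sdU u) ω (insert u ∅) := by
      rintro (⟨s, v⟩ | u)
      · refine hn _ ⟨by simp, fun z hz z' hz' => ?_⟩ s ((wob_side (by simp) _ _).2
          ⟨v, mem_insert_self _ _⟩)
        simp only [insert_empty_eq, mem_toLeft, mem_singleton, Sum.inl.injEq] at hz hz'
        rw [hz, hz']
      · exact u.elim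
    choose w hw using this
    obtain ⟨v, v', a, b⟩ := cross_sides (p := p) (d := p.K0) (by have := hp.big0; omega)
      (fun u => (l1 (sdU u) (w u)).ct (insert u ∅)) fun u => (l1 _ _).ct_card _
    refine hU (insert (sl Empty false v) (insert (sl Empty true v') ∅))
      ((card_insert_le _ _).trans (by simp)) ⟨⟨_, (l1 _ _).ct_of (agree_two a) (hw (sl Empty false v))⟩, ?_⟩
    rw [insert_comm]
    exact ⟨_, (l1 _ _).ct_of (agree_two b) (hw (sl Empty true v'))⟩

theorem wit_d {n : ℕ} {U' : Type} [DecidableEq U'] {X : Finset (Zt n ⊕ U')}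
    (h : ∀ z z', Sum.inl z ∈ X → Sum.inl z' ∈ X → z = z') : Wit .d X := by
  intro y y' h1 h2
  obtain ⟨z, rfl, hz⟩ := (wob_true (by simp) _ _).1 h1
  obtain ⟨z', rfl, hz'⟩ := (wob_true (by simp) _ _).1 h2
  rw [h z z' hz hz']

/-- No complete UP set, next to DisjNP. -/
theorem gen3 {π : Kd → Prop} {p : Par3} (hp : p.Ok) (ha : π .a) (hb : π .b) (hc : π .c)
    (hd : π .d) : Nonempty (Gen π .d p) := by
  refine gen_empty hp (fun X => X.card ≤ 1) (fun _ => True)
    (fun X hX => ⟨trivial, wit_d fun z z' h1 h2 => Sum.inl.inj (card_le_one.1 hX _ h1 _ h2)⟩)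
    (fun i ob h hpr => ?_) ?_
  · obtain ⟨bit, b1, b2, b3⟩ := search_ext hp h (fun X => X.card ≤ 1)
      (fun X Y h1 h2 => (card_le_card h1).trans h2) (fun X hX => by omega) (by
        have := h.nπ
        cases e : i.κ <;> simp_all) hpr
    exact ⟨bit, b1, fun X _ => b2 X, b3⟩
  · intro cb pj l1 _ hU
    by_contra hn
    push Not at hn
    obtain ⟨i, _, i', _, _, ω, ω', a, b, c⟩ := few_singles (cb true) (l1 true) ∅
      (sideSet p.n Empty true) (by rw [sideSet_card]; have := hp.big0; omega)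
      (fun ω hω => by
        have := (hn ∅ (by simp)).2 ⟨ω, hω⟩
        rw [wob_ex (by simp)] at this
        simp [slot] at this)
      (fun i hi => by
        obtain ⟨v, rfl⟩ := mem_sideSet.1 hi
        exact (hn _ (by simp)).1 ((wob_ex (by simp) _).2 ⟨(true, v), mem_insert_self _ _⟩))
    exact a (hU _ trivial ω ω' b c)

end Pool.Agent.Lib.MP_2c6a5a_lc.Cl
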