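import Pool.Agent.Lib.MP_2c6a5a_lc.ClG1

/-! Generators by density and by named points. -/

namespace Pool.Agent.Lib.MP_2c6a5a_lc.Cl

open Finset Pool.Agent.Lib.MP_8a52c3_lc.Orc Pool.Agent.Lib.MP_2c6a5a_lc.Pf
  Pool.Agent.Lib.MP_2c6a5a_lc.Mx

set_option linter.unusedSectionVars false

theorem agree_empty {U : Type} [DecidableEq U] {C X : Finset U} (h : ∀ u ∈ X, u ∉ C) :
    Agree C ∅ X := by simpa using agree_union (X := ∅) h

theorem lb_gf {n K : ℕ} {U' : Type} [DecidableEq U'] {κ : Kd} (hκ : κ = .g ∨ κ = .f)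
    {W W₀ : Finset (Zt n ⊕ U') → Prop} (h0 : W₀ ∅)
    (h1 : ∀ C : Finset (Zt n ⊕ U'), C.card ≤ 2 * K + 1 → ∃ X, W X ∧ ∀ u ∈ X, u ∉ C) :
    LB κ K W W₀ := by
  intro cb pj l1 l2 hU
  have hU0 := hU ∅ h0
  rcases hκ with rfl | rfl
  · obtain ⟨ω, hω⟩ := hU0
    obtain ⟨X, x1, x2⟩ := h1 (((l1 true ω).ct ∅ ∪ (l2 ω).ct ∅) ∪
        ((pj ω ∅).toFinset.image Sum.inl)) (by
      have := card_union_le ((l1 true ω).ct ∅ ∪ (l2 ω).ct ∅) ((pj ω ∅).toFinset.image Sum.inl)
      have := card_union_le ((l1 true ω).ct ∅) ((l2 ω).ct ∅)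
      have := (l1 true ω).ct_card ∅
      have := (l2 ω).ct_card ∅
      have : ((pj ω ∅).toFinset.image (Sum.inl : Zt n → Zt n ⊕ U')).card ≤ 1 :=
        card_image_le.trans (by cases pj ω ∅ <;> simp)
      omega)
    have a := agree_empty x2
    refine ⟨X, x1, fun hC => ?_⟩
    have := hC ω ((l1 _ _).ct_of (a.mono (subset_union_left.trans subset_union_left)) hω)
    obtain ⟨z, z1, z2⟩ := (wob_true (by simp) _ _).1 this
    have e := (l2 ω).ct_eq (a.mono (subset_union_right.trans subset_union_left))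
    refine x2 _ z2 (mem_union_right _ (mem_image_of_mem _ ?_))
    rw [← e]
    simpa using z1
  · obtain ⟨X, x1, x2⟩ := h1 ((l1 false []).ct ∅) (((l1 _ _).ct_card _).trans (by omega))
    refine ⟨X, x1, fun hC => ?_⟩
    have h2 : cb false [] X := hC (wob_false (by simp [isP]) _)
    rw [(l1 false []).ct_eq (agree_empty x2)] at h2
    have := (wob_ex (by simp [isP]) _).1 (hU0 ⟨_, h2⟩)
    simp [slot] at this

theorem ex_slot {n : ℕ} {X : Finset (Zt n ⊕ Empty)} (h : X.Nonempty) : ∃ z, slot X z := by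
  obtain ⟨z | u, hu⟩ := h
  · exact ⟨z, hu⟩
  · exact u.elim

theorem sc_empty {π : Kd → Prop} {p : Par3} (hp : p.Ok) {i : Inf} {ob : Ob (Zt p.n ⊕ Empty)}
    (h : InfOk π p (scU p.n0 Empty.elim) i ob) (u : Zt p.n ⊕ Empty) :
    scU p.n0 Empty.elim u ≤ i.γ.length := by
  rcases u with z | u
  · have := h.tle hp
    have := h.nt
    simp only [scU, Sum.elim_inl]
    omega
  · exact u.elim

theorem wit_gf {n : ℕ} {U' : Type} [DecidableEq U'] {κ : Kd} (hκ : κ = .g ∨ κ = .f)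
    {X : Finset (Zt n ⊕ U')} (h : ∃ z, slot X z) : Wit κ X := by
  rcases hκ with rfl | rfl
  · exact (wob_ex (by simp) _).2 h
  · exact fun _ => (wob_ex (by simp [isP]) _).2 h

theorem cov_slot {n : ℕ} {U' : Type} [DecidableEq U'] {κ : Kd} (hκ : κ = .a ∨ κ = .e ∨ κ = .h)
    {X : Finset (Zt n ⊕ U')} (h : ∃ z, slot X z) : Cov (wob κ (slot X)) := by
  obtain ⟨⟨s, v⟩, hz⟩ := h
  exact cov_of ((wob_side hκ _ s).2 ⟨v, hz⟩)

/-- No complete disjoint coNP pair. -/
theorem gen6 {π : Kd → Prop} {κ : Kd} {p : Par3} (hp : p.Ok) (hκ : κ = .h ∨ κ = .g ∨ κ = .f)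
    (hf : π .f) (hg : π .g) (hh : π .h) : Nonempty (Gen π κ p) := by
  have hb := hp.big0
  refine gen_empty hp (fun X => X.Nonempty) (fun _ => True) (fun X hX => ⟨trivial, ?_⟩)
    (fun i ob h hpr => ?_) ?_
  · rcases hκ with rfl | h
    · exact cov_slot (by simp) (ex_slot hX)
    · exact wit_gf h (ex_slot hX)
  · have dens : ∀ κ', (κ' = .a ∨ κ' = .b ∨ κ' = .c ∨ κ' = .d) →
        (∀ X, X.Nonempty → Prom κ' (atW ob X)) → ∀ X, Prom κ' (atW ob X) := by
      intro κ' h1 h2 X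
      by_contra hn
      obtain ⟨C, c1, c2⟩ := viol_cert h.loc h1 hn
      obtain ⟨v, hv⟩ := avoid (sl Empty true) (sl_inj true) C (by have := h.hK; omega)
      exact c2 _ (agree_insert hv) (h2 _ (insert_nonempty _ _))
    by_cases he : i.κ = .e
    · rw [he] at hpr ⊢
      have hd := dens .a (by simp) fun X hX => (hpr X hX).1
      let D : Bool → Finset (Zt p.n ⊕ Empty) → Prop := fun s X => Ex (atW ob X) s
      have hC : Conf D i.K (2 * i.K) := conf_of fun X hX => hd X ⟨hX.2, hX.1⟩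
      have key : ∀ X, ¬ D (npOut D i.K (2 * i.K) X) X := fun X => np_correct hC
        fun b ⟨y, hy⟩ => ⟨(h.loc b y).ct X, thin_of ⟨(h.loc b y).ct_card X,
          fun X' hX' => ⟨y, (h.loc b y).ct_of hX' hy⟩⟩⟩
      let bit : Bt (Zt p.n ⊕ Empty) := fun s ω X =>
        s = !npOut D i.K (2 * i.K) X ∧ ω = (none, [])
      have ex : ∀ X s, Ex (atW bit X) s ↔ s = !npOut D i.K (2 * i.K) X :=
        fun X s => ⟨fun ⟨_, h⟩ => h.1, fun h => ⟨_, h, rfl⟩⟩
      refine ⟨bit, ⟨fun s ω => ?_, ?_⟩, fun X _ => ⟨dis_of fun _ _ a b =>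
        ((ex _ _).1 a).trans ((ex _ _).1 b).symm, cov_of ((ex X _).2 rfl)⟩, fun X _ s hs => ?_⟩
      · refine (Loc.ofAdapt (npQ_card D i.K (2 * i.K)) (fun _ u _ => sc_empty hp h u)
          fun X X' hX => ?_).mono (fun _ h => h) (le_phi (by nlinarith))
        simp only [bit, npOut_loc D _ _ X X' hX]
      · rintro s ω X ⟨_, rfl⟩
        simp
      · rw [ex]
        have := key X
        revert this
        cases s <;> cases npOut D i.K (2 * i.K) X <;> simp [D, hs]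
    · have := dens i.κ (by
        have := h.nπ
        cases e : i.κ <;> simp_all) hpr
      exact ⟨_, idB_bok' hp h, fun X _ => idB_unc (this X),
        fun X _ => idB_cnd fun a y b => h.nil a y X b⟩
  · rcases hκ with rfl | h
    · intro cb pj l1 _ hU
      obtain ⟨s, ω, hω⟩ := Cov.ex (hU ∅ trivial)
      obtain ⟨v, hv⟩ := avoid (sl Empty (!s)) (sl_inj _) ((l1 s ω).ct ∅)
        (lt_of_le_of_lt ((l1 _ _).ct_card _) (by omega))
      refine ⟨insert (sl Empty (!s) v) ∅, insert_nonempty _ _, fun hC => ?_⟩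
      obtain ⟨v', hv'⟩ := (wob_side (by simp) _ _).1
        (hC s ⟨ω, (l1 _ _).ct_of (agree_insert hv) hω⟩)
      simp [slot, sl] at hv'
    · refine lb_gf h trivial fun C hC => ?_
      obtain ⟨v, hv⟩ := avoid (sl Empty true) (sl_inj _) C (by omega)
      exact ⟨{sl Empty true v}, singleton_nonempty _, by simpa using hv⟩

theorem same_single {n : ℕ} {U' : Type} [DecidableEq U'] (u : Zt n ⊕ U') :
    Same Prod.fst (insert u (∅ : Finset (Zt n ⊕ U'))).toLeft := by
  intro z hz z' hz'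
  simp only [insert_empty_eq, mem_toLeft, mem_singleton] at hz hz'
  rw [Sum.inl.inj (hz.trans hz'.symm)]

/-- No complete set in NP ∩ coNP, next to DisjCoNP. -/
theorem gen7 {π : Kd → Prop} {p : Par3} (hp : p.Ok) (he : π .e) (hf : π .f) (hg : π .g)
    (hh : π .h) : Nonempty (Gen π .e p) := by
  have hb := hp.big0
  refine gen_empty hp (fun X => X.Nonempty ∧ Same Prod.fst X.toLeft)
    (fun X => (X.Nonempty ∧ Same Prod.fst X.toLeft) ∨ X = ∅)
    (fun X hX => ⟨Or.inl hX, same_dis (by simp) hX.2, cov_slot (by simp) (ex_slot hX.1)⟩)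
    (fun i ob h hpr => ?_) ?_
  · refine ⟨_, idB_bok' hp h, fun X hX => idB_unc ?_,
      fun X _ => idB_cnd fun a y b => h.nil a y X b⟩
    rcases hX with hX | rfl
    · exact hpr X hX
    · by_contra hn
      obtain ⟨C, c1, c2⟩ := viol_cert h.loc (by
        have := h.nπ
        cases e : i.κ <;> simp_all) hn
      obtain ⟨v, hv⟩ := avoid (sl Empty true) (sl_inj true) C (by have := h.hK; omega)
      exact c2 _ (agree_insert hv) (hpr _ ⟨insert_nonempty _ _, same_single _⟩)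
  · intro cb pj l1 _ hU
    obtain ⟨s, ω, hω⟩ := Cov.ex (hU ∅ (Or.inr rfl)).2
    obtain ⟨v, hv⟩ := avoid (sl Empty (!s)) (sl_inj _) ((l1 s ω).ct ∅)
      (lt_of_le_of_lt ((l1 _ _).ct_card _) (by omega))
    have hW := And.intro (insert_nonempty (sl Empty (!s) v) ∅) (same_single (sl Empty (!s) v))
    refine ⟨_, hW, fun hC => ?_⟩
    have h1 := hC (!s) ((wob_side (by simp) _ _).2 ⟨v, mem_insert_self _ _⟩)
    have := (hU _ (Or.inl hW)).1.eq h1 ⟨ω, (l1 _ _).ct_of (agree_insert hv) hω⟩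
    simp at this

/-- No p-optimal proof system, with length-optimal ones possible. -/
theorem gen8 {π : Kd → Prop} {κ : Kd} {p : Par3} (hp : p.Ok) (hκ : κ = .c ∨ κ = .f)
    (hc : π .c) (hf : π .f) : Nonempty (Gen π κ p) := by
  have hb := hp.big0
  have hP : isP κ := by rcases hκ with rfl | rfl <;> simp [isP]
  let Pos : Zt p.n ⊕ Vn p.n → Prop := fun u => u.isLeft = true ↔ κ = .f
  refine gen_of_pair hp (Vn p.n) (fun _ => p.n0) (fun v => v.1) (fun _ _ h => Subtype.ext h)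
    (fun v => by have := v.2; have := hp.1; omega)
    (fun X => ∃ u, Pos u ∧ X = {u}) (fun X => ∃ u, X = {u}) ?_ (fun i ob h hpr => ?_) ?_
  · rintro X ⟨u, hu, rfl⟩
    refine ⟨⟨u, rfl⟩, ?_⟩
    rcases hκ with rfl | rfl
    · refine wit_bc (by simp) fun z hz => ?_
      rw [← mem_singleton.1 hz] at hu
      simp [Pos] at hu
    · rcases u with z | v
      · exact wit_gf (by simp) ⟨z, mem_singleton_self _⟩
      · simp [Pos] at hu
  · have sc : ∀ u : Zt p.n ⊕ Vn p.n, scU p.n0 (fun _ => p.n0) u ≤ i.t + 1 := by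
      have := h.nt
      rintro (z | v) <;> simp only [scU, Sum.elim_inl, Sum.elim_inr] <;> omega
    have on : ∀ u, Pos u → _ := fun u hu => npc_on (Pos := Pos) (Neg := fun u => ¬ Pos u)
      (X := {u}) (κ := i.κ) (ob := ob)
      ⟨fun e => h.nπ (e ▸ hc), fun e => h.nπ (e ▸ hf)⟩ ⟨u, mem_singleton_self _, hu⟩
      (by simpa using hu) (by simp) (hpr _ ⟨u, hu, rfl⟩)
    refine ⟨_, npc_bok hp h (Pos := Pos) (Neg := fun u => ¬ Pos u) (fun u _ => sc u)
      (fun u _ => sc u), ?_, ?_⟩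
    · rintro X ⟨u, rfl⟩
      by_cases hu : Pos u
      · exact (on u hu).1
      · exact npc_off (by simpa using hu) ⟨u, mem_singleton_self _, hu⟩
    · rintro X ⟨u, hu, rfl⟩
      exact (on u hu).2
  · intro cb pj l1 _ hU
    have hlt := lt_of_le_of_lt ((l1 false []).ct_card ∅) (show p.K0 < 2 ^ p.n by omega)
    obtain ⟨v, hv⟩ := avoid (sl (Vn p.n) true) (sl_inj _) _ hlt
    obtain ⟨v', hv'⟩ := avoid (Sum.inr : Vn p.n → Zt p.n ⊕ Vn p.n) Sum.inr_injective _ hlt
    have e1 := (l1 false []).ct_eq (agree_insert hv)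
    have e2 := (l1 false []).ct_eq (agree_insert hv')
    simp only [insert_empty_eq] at e1 e2
    rcases hκ with rfl | rfl
    · refine ⟨{Sum.inr v'}, ⟨_, by simp [Pos], rfl⟩, fun hC => ?_⟩
      have h1 : cb false [] {Sum.inr v'} := hC (wob_false hP _)
      rw [e2, ← e1] at h1
      exact hU _ ⟨_, rfl⟩ ⟨⟨_, h1⟩, (wob_ex (Or.inl hP) _).2 ⟨(true, v), mem_singleton_self _⟩⟩
    · refine ⟨{sl (Vn p.n) true v}, ⟨_, by simp [Pos, sl], rfl⟩, fun hC => ?_⟩
      have h1 : cb false [] {sl (Vn p.n) true v} := hC (wob_false hP _)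
      rw [e1, ← e2] at h1
      have := (wob_ex (Or.inl hP) _).1 (hU _ ⟨_, rfl⟩ ⟨_, h1⟩)
      simp [slot] at this

/-- No complete UP set, with a complete disjoint NP pair possible. -/
theorem gen9 {π : Kd → Prop} {p : Par3} (hp : p.Ok) (hc : π .c) (hd : π .d) (hf : π .f) :
    Nonempty (Gen π .d p) := by
  classical
  have hb := hp.big1
  let pt : Bool → Vn p.n → Zt p.n ⊕ Zt p.n := fun b v => Sum.inr (b, v)
  have pti : ∀ b, Function.Injective (pt b) := fun b _ _ h => by simpa [pt] using h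
  let Pos : Zt p.n ⊕ Zt p.n → Prop := fun u => ∃ v, u = pt true v
  let Neg : Zt p.n ⊕ Zt p.n → Prop := fun u => ∃ v, u = pt false v
  let W : Finset (Zt p.n ⊕ Zt p.n) → Prop := fun X =>
    (∀ z z', Sum.inl z ∈ X → Sum.inl z' ∈ X → z = z') ∧ (∃ u ∈ X, Pos u) ∧ ∀ u ∈ X, ¬ Neg u
  refine gen_of_pair hp (Zt p.n) (fun _ => p.n0) (fun z => z.1 :: z.2.1)
    (fun z z' h => Prod.ext (List.cons.inj h).1 (Subtype.ext (List.cons.inj h).2))
    (fun z => by have := z.2.2; have := hp.1; simp only [List.length_cons]; omega)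
    W (fun X => W X ∨ ((∀ u ∈ X, ¬ Pos u) ∧ ∃ u ∈ X, Neg u))
    (fun X hX => ⟨Or.inl hX, wit_d hX.1⟩) (fun i ob h hpr => ?_) ?_
  · have sc : ∀ u : Zt p.n ⊕ Zt p.n, scU p.n0 (fun _ => p.n0) u ≤ i.t + 1 := by
      have := h.nt
      rintro (z | v) <;> simp only [scU, Sum.elim_inl, Sum.elim_inr] <;> omega
    have on : ∀ X, W X → _ := fun X hX => npc_on (Pos := Pos) (Neg := Neg)
      (X := X) (κ := i.κ) (ob := ob)
      ⟨fun e => h.nπ (e ▸ hc), fun e => h.nπ (e ▸ hf)⟩ hX.2.1 hX.2.2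
      (fun e => absurd (e ▸ hd) h.nπ) (hpr _ hX)
    refine ⟨_, npc_bok hp h (Pos := Pos) (Neg := Neg) (fun u _ => sc u) (fun u _ => sc u),
      fun X hX => ?_, fun X hX => (on X hX).2⟩
    rcases hX with hX | hX
    · exact (on X hX).1
    · exact npc_off hX.1 hX.2
  · intro cb pj l1 _ hU
    by_contra hn
    push Not at hn
    have hbig : 2 * (2 * p.K0 + 1) < 2 ^ p.n := by nlinarith
    have s1 : ∀ ω, ¬ cb true ω ∅ := by
      intro ω hω
      obtain ⟨v, hv⟩ := avoid (pt true) (pti _) ((l1 true ω).ct ∅)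
        (lt_of_le_of_lt ((l1 _ _).ct_card _) (by omega))
      have := (hn (insert (pt true v) ∅) ⟨by simp [pt], ⟨_, mem_insert_self _ _, v, rfl⟩,
        by simp [pt, Neg]⟩).2 ⟨ω, (l1 _ _).ct_of (agree_insert hv) hω⟩
      rw [wob_ex (by simp)] at this
      simp [slot, pt] at this
    have cd : ∀ b, (univ.image (pt b)).card = 2 ^ p.n := fun b => by
      rw [card_image_of_injective _ (pti b)]; simp
    have s2 : ∀ z : Zt p.n, ∃ ω, cb true ω (insert (Sum.inl z) ∅) := by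
      intro z
      by_contra h0
      push Not at h0
      obtain ⟨i, hi, i', hi', _, ω, ω', a, b, c⟩ := few_singles (cb true) (l1 true) _
        (univ.image (pt true)) (by rwa [cd]) h0 (fun i hi => by
          obtain ⟨v, _, rfl⟩ := mem_image.1 hi
          exact (hn _ ⟨by simp [pt], ⟨_, mem_insert_self _ _, v, rfl⟩, by simp [pt, Neg]⟩).1
            ((wob_ex (by simp) _).2 ⟨z, by simp [slot]⟩))
      obtain ⟨v, _, rfl⟩ := mem_image.1 hi
      obtain ⟨v', _, rfl⟩ := mem_image.1 hi'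
      exact a (hU _ (Or.inl ⟨by simp [pt], ⟨_, mem_insert_self _ _, v, rfl⟩,
        by simp [pt, Neg]⟩) ω ω' b c)
    let M := (univ.image (pt false)).filter fun m => ∃ ω, cb true ω (insert m ∅)
    have s3 : M.card ≤ 2 * (2 * p.K0 + 1) := by
      by_contra hlt
      obtain ⟨i, hi, i', hi', _, ω, ω', a, b, c⟩ := few_singles (cb true) (l1 true) ∅ M
        (by omega) s1 fun i hi => (mem_filter.1 hi).2
      obtain ⟨v, _, rfl⟩ := mem_image.1 (mem_filter.1 hi).1
      obtain ⟨v', _, rfl⟩ := mem_image.1 (mem_filter.1 hi').1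
      exact a (hU _ (Or.inr ⟨by simp [pt, Pos], ⟨_, mem_insert_self _ _, v, rfl⟩⟩) ω ω' b c)
    obtain ⟨I, I1, I2⟩ := exists_subset_card_eq (s := sideSet p.n (Zt p.n) true)
      (n := 2 * (2 * p.K0 + 1) + 1) (by rw [sideSet_card]; omega)
    have s4 : ∀ u, ∃ ω, u ∈ I → cb true ω (insert u ∅) := by
      intro u
      by_cases hu : u ∈ I
      · obtain ⟨v, rfl⟩ := mem_sideSet.1 (I1 hu)
        obtain ⟨ω, hω⟩ := s2 (true, v)
        exact ⟨ω, fun _ => hω⟩
      · exact ⟨[], fun h => absurd h hu⟩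
    choose w hw using s4
    obtain ⟨m, hm⟩ := avoid (pt false) (pti _)
      (M ∪ I.biUnion fun u => (l1 true (w u)).ct (insert u ∅)) (by
        have := card_union_le M (I.biUnion fun u => (l1 true (w u)).ct (insert u ∅))
        have := card_biUnion_le_card_mul I (fun u => (l1 true (w u)).ct (insert u ∅)) p.K0
          fun u _ => (l1 _ _).ct_card _
        rw [I2] at this
        nlinarith)
    rw [mem_union, not_or] at hm
    obtain ⟨i, hi, i', hi', _, ω, ω', a, b, c⟩ := few_singles (cb true) (l1 true)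
      (insert (pt false m) ∅) I (by omega)
      (fun ω hω => hm.1 (mem_filter.2 ⟨mem_image_of_mem _ (mem_univ _), ω, hω⟩))
      (fun i hi => ⟨w i, (l1 _ _).ct_of
        (agree_two fun hh => hm.2 (mem_biUnion.2 ⟨i, hi, hh⟩)) (hw i hi)⟩)
    obtain ⟨v, rfl⟩ := mem_sideSet.1 (I1 hi)
    obtain ⟨v', rfl⟩ := mem_sideSet.1 (I1 hi')
    exact a (hU _ (Or.inr ⟨by simp [pt, Pos, sl], ⟨pt false m, by simp, m, rfl⟩⟩) ω ω' b c)

end Pool.Agent.Lib.MP_2c6a5a_lc.Cl
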