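import Pool.Agent.Lib.MP_2c6a5a_lc.ClG2

/-! The generator with named points on many scales. -/

namespace Pool.Agent.Lib.MP_2c6a5a_lc.Cl

open Finset Pool.Agent.Lib.MP_8a52c3_lc.Orc Pool.Agent.Lib.MP_2c6a5a_lc.Pf
  Pool.Agent.Lib.MP_2c6a5a_lc.Mx

set_option linter.unusedSectionVars false

theorem Loc.eq_of {U α : Type} [DecidableEq U] {P : U → Prop} {K : ℕ} {f : Finset U → α}
    (h : Loc P K f) {X X' : Finset U} (hX : ∀ u, P u → (u ∈ X' ↔ u ∈ X)) : f X' = f X :=
  h.ct_eq fun u hu => hX u (h.ct_ok X u hu)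

section
variable {n m : ℕ}

abbrev UM (n m : ℕ) := Zt n ⊕ (Fin m × Bool × Vn n)

def hasM (X : Finset (UM n m)) (s : Fin m) (b : Bool) : Prop := ∃ v, Sum.inr (s, b, v) ∈ X

def GoodM (X : Finset (UM n m)) : Prop := (∃ z, slot X z) ∧ Same Prod.fst X.toLeft

def WM (X : Finset (UM n m)) : Prop := GoodM X ∧ ∀ s, hasM X s true ∧ ¬ hasM X s false

def LikeM (X : Finset (UM n m)) (s : Fin m) : Prop :=
  GoodM X ∧ ∀ s' < s, hasM X s' true ∧ ¬ hasM X s' false

def WM0 (X : Finset (UM n m)) : Prop :=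
  Same Prod.fst X.toLeft ∧
    ∀ s, (hasM X s true → LikeM X s) ∧ (¬ hasM X s false → hasM X s true)

/-- The named points of rank `r`. -/
def restM (r : ℕ) (ω : Bool ⊕ (Fin m × Bool) → Vn n) : Finset (UM n m) :=
  univ.image fun s : Fin m => Sum.inr (s, decide (s.1 < r), ω (Sum.inr (s, decide (s.1 < r))))

theorem mem_restM {r : ℕ} {ω : Bool ⊕ (Fin m × Bool) → Vn n} {u : UM n m} :
    u ∈ restM r ω ↔ ∃ s : Fin m,
      u = Sum.inr (s, decide (s.1 < r), ω (Sum.inr (s, decide (s.1 < r)))) := by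
  simp [restM, eq_comm]

theorem has_restM {r : ℕ} {ω : Bool ⊕ (Fin m × Bool) → Vn n} {s : Fin m} {b : Bool} :
    hasM (restM r ω) s b ↔ b = decide (s.1 < r) := by
  constructor
  · rintro ⟨v, hv⟩
    obtain ⟨s', h⟩ := mem_restM.1 hv
    simp only [Sum.inr.injEq, Prod.mk.injEq] at h
    rw [h.2.1, h.1]
  · rintro rfl
    exact ⟨_, mem_restM.2 ⟨s, rfl⟩⟩

theorem restM_left (r : ℕ) (ω : Bool ⊕ (Fin m × Bool) → Vn n) (z : Zt n) :
    Sum.inl z ∉ restM r ω := by simp [mem_restM]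

theorem restM_upd (r : ℕ) (ω : Bool ⊕ (Fin m × Bool) → Vn n) (c : Bool ⊕ (Fin m × Bool))
    (v : Vn n) (h : ∀ s : Fin m, c ≠ Sum.inr (s, decide (s.1 < r))) :
    restM r (Function.update ω c v) = restM r ω := by
  unfold restM
  refine image_congr fun s _ => ?_
  simp only [Function.update_of_ne (h s).symm]

def wM (b : Bool) (r : ℕ) (ω : Bool ⊕ (Fin m × Bool) → Vn n) : Finset (UM n m) :=
  insert (Sum.inl (b, ω (Sum.inl b))) (restM r ω)

theorem has_wM {b : Bool} {r : ℕ} {ω : Bool ⊕ (Fin m × Bool) → Vn n} {s : Fin m} {c : Bool} :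
    hasM (wM b r ω) s c ↔ c = decide (s.1 < r) := by
  rw [← has_restM (ω := ω)]
  simp [hasM, wM]

theorem has_insert {X : Finset (UM n m)} {s s' : Fin m} {c c' : Bool} {v : Vn n} :
    hasM (insert (Sum.inr (s', c', v)) X) s c ↔ (s = s' ∧ c = c') ∨ hasM X s c := by
  unfold hasM
  simp only [mem_insert, Sum.inr.injEq, Prod.mk.injEq]
  constructor
  · rintro ⟨v', h | h⟩
    · exact Or.inl ⟨h.1, h.2.1⟩
    · exact Or.inr ⟨v', h⟩
  · rintro (h | ⟨v', h⟩)
    · exact ⟨v, Or.inl ⟨h.1, h.2, rfl⟩⟩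
    · exact ⟨v', Or.inr h⟩

theorem good_of {X : Finset (UM n m)} {z : Zt n} (h : ∀ z', Sum.inl z' ∈ X ↔ z' = z) :
    GoodM X :=
  ⟨⟨z, (h z).2 rfl⟩, fun a ha b hb => by
    rw [(h a).1 (mem_toLeft.1 ha), (h b).1 (mem_toLeft.1 hb)]⟩

theorem left_wM (b : Bool) (r : ℕ) (ω : Bool ⊕ (Fin m × Bool) → Vn n) (z : Zt n) :
    Sum.inl z ∈ wM b r ω ↔ z = (b, ω (Sum.inl b)) := by
  simp [wM, restM_left]

theorem wM0_wM (b : Bool) (r : ℕ) (ω : Bool ⊕ (Fin m × Bool) → Vn n) : WM0 (wM b r ω) := by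
  have hg := good_of (left_wM b r ω)
  refine ⟨hg.2, fun s => ⟨fun h => ⟨hg, fun s' hs => ?_⟩, ?_⟩⟩
  · have h1 : s.1 < r := by simpa [has_wM] using h
    have h2 : s'.1 < r := lt_trans hs h1
    simp [has_wM, h2]
  · simp [has_wM]

theorem wM_plus (b : Bool) (r : Fin m) (ω : Bool ⊕ (Fin m × Bool) → Vn n) :
    insert (Sum.inr (r, true, ω (Sum.inr (r, true)))) (wM b r ω) =
      insert (Sum.inr (r, false, ω (Sum.inr (r, false)))) (wM b (r + 1) ω) := by
  ext u
  simp only [wM, mem_insert, mem_restM]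
  constructor
  · rintro (h | h | ⟨s, h⟩)
    · exact Or.inr (Or.inr ⟨r, by simpa using h⟩)
    · exact Or.inr (Or.inl h)
    · by_cases e : s = r
      · subst e; exact Or.inl (by simpa using h)
      · have : (s.1 < r.1 + 1) ↔ s.1 < r.1 := by have := Fin.val_ne_of_ne e; omega
        exact Or.inr (Or.inr ⟨s, by simpa [this] using h⟩)
  · rintro (h | h | ⟨s, h⟩)
    · exact Or.inr (Or.inr ⟨r, by simpa using h⟩)
    · exact Or.inr (Or.inl h)
    · by_cases e : s = r
      · subst e; exact Or.inl (by simpa using h)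
      · have : (s.1 < r.1 + 1) ↔ s.1 < r.1 := by have := Fin.val_ne_of_ne e; omega
        exact Or.inr (Or.inr ⟨s, by simpa [this] using h⟩)

theorem wM0_plus (b : Bool) (r : Fin m) (ω : Bool ⊕ (Fin m × Bool) → Vn n) :
    WM0 (insert (Sum.inr (r, true, ω (Sum.inr (r, true)))) (wM b r ω)) := by
  have hg : GoodM (insert (Sum.inr (r, true, ω (Sum.inr (r, true)))) (wM b r ω)) :=
    good_of (z := (b, ω (Sum.inl b))) fun z => by simp [left_wM]
  refine ⟨hg.2, fun s => ⟨fun h => ⟨hg, fun s' hs => ?_⟩, ?_⟩⟩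
  · have h1 : s.1 ≤ r.1 := by
      rcases has_insert.1 h with h | h
      · rw [h.1]
      · have : s.1 < r.1 := by simpa [has_wM] using h
        omega
    have h2 : s'.1 < r.1 := lt_of_lt_of_le hs h1
    simp [has_insert, has_wM, h2]
  · simp only [has_insert, has_wM]
    by_cases h : s.1 < r.1 <;> simp [h]

theorem lb10 {K : ℕ} (hb : (4 * m + 2) * K < 2 ^ n) : LB (n := n) .e K (WM (m := m)) WM0 := by
  classical
  intro cb pj l1 _ hU
  by_contra hn
  push Not at hn
  have : ∀ X, ∃ s ω, WM0 X → cb s ω X := by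
    intro X
    by_cases hX : WM0 X
    · obtain ⟨s, ω, h⟩ := Cov.ex (hU X hX).2
      exact ⟨s, ω, fun _ => h⟩
    · exact ⟨true, [], fun h => absurd h hX⟩
  choose sd wt hw using this
  let Cf : Finset (UM n m) → Finset (UM n m) := fun X => (l1 (sd X) (wt X)).ct X
  have tr : ∀ X u, WM0 X → WM0 (insert u X) → u ∉ Cf X → sd (insert u X) = sd X :=
    fun X u h1 h2 h3 => (hU _ h2).1.eq ⟨_, hw _ h2⟩ ⟨_, (l1 _ _).ct_of (agree_insert h3) (hw _ h1)⟩
  obtain ⟨ω, hω⟩ := generic (U := UM n m) (K := K) (univ : Finset ((Bool × Fin m × Bool) ⊕ Bool))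
    (Sum.elim (fun j => Sum.inr j.2) Sum.inl)
    (Sum.elim (fun j v => Sum.inr (j.2.1, j.2.2, v)) fun b v => Sum.inl (b, v))
    (by rintro (j | b) v v' h <;> simpa using h)
    (Sum.elim (fun j ω => Cf (wM j.1 (if j.2.2 then j.2.1.1 else j.2.1.1 + 1) ω))
      fun _ ω => Cf (restM 0 ω))
    (by rintro (j | b) ω <;> exact (l1 _ _).ct_card _)
    (by
      rintro (⟨b, r, c⟩ | b) ω v
      · simp only [Sum.elim_inl, wM]
        rw [restM_upd, Function.update_of_ne (by simp)]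
        intro s h
        simp only [Sum.inr.injEq, Prod.mk.injEq] at h
        obtain ⟨rfl, h⟩ := h
        cases c <;> simp at h
      · simp only [Sum.elim_inr]
        rw [restM_upd _ _ _ _ (by simp)])
    (by
      have : (univ : Finset ((Bool × Fin m × Bool) ⊕ Bool)).card = 4 * m + 2 := by
        simp; omega
      rwa [this])
  have step : ∀ b r, r ≤ m → sd (wM b r ω) = sd (wM b 0 ω) := by
    intro b r
    induction r with
    | zero => intro _; rfl
    | succ r ih =>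
      intro hr
      have h1 := tr _ _ (wM0_wM b r ω) (wM0_plus b ⟨r, hr⟩ ω)
        (hω (Sum.inl (b, ⟨r, hr⟩, true)) (mem_univ _))
      have e := wM_plus b ⟨r, hr⟩ ω
      have h2 := tr _ _ (wM0_wM b (r + 1) ω) (e ▸ wM0_plus b ⟨r, hr⟩ ω)
        (hω (Sum.inl (b, ⟨r, hr⟩, false)) (mem_univ _))
      rw [← ih (by omega), ← h1, ← h2]
      exact congrArg sd e.symm
  have top : ∀ b, sd (wM b m ω) = b := by
    intro b
    have hW : WM (wM b m ω) := ⟨good_of (left_wM b m ω), fun s => by simp [has_wM]⟩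
    exact (hU _ (wM0_wM b m ω)).1.eq ⟨_, hw _ (wM0_wM b m ω)⟩
      (hn _ hW b ((wob_side (by simp) _ _).2 ⟨_, (left_wM b m ω _).2 rfl⟩))
  have h0 : WM0 (restM 0 ω) := ⟨fun z hz => absurd (mem_toLeft.1 hz) (restM_left _ _ _),
    fun s => by simp [has_restM]⟩
  have bot : ∀ b, sd (restM 0 ω) = b := fun b =>
    (tr _ _ h0 (wM0_wM b 0 ω) (hω (Sum.inr b) (mem_univ _))).symm.trans
      ((step b m le_rfl).symm.trans (top b))
  simpa using (bot true).symm.trans (bot false)

end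

/-- No complete set in NP ∩ coNP, next to SAT and CON. -/
theorem gen10 {π : Kd → Prop} {p : Par3} (hp : p.Ok) (hc : π .c) (he : π .e) (hf : π .f) :
    Nonempty (Gen π .e p) := by
  classical
  have hb := hp.big
  have hb0 := hp.big0
  refine gen_of_pair hp (Fin (p.τ + 1) × Bool × Vn p.n) (fun u => p.n0 + u.1.1)
    (fun u => List.replicate u.1.1 true ++ false :: u.2.1 :: u.2.2.1) ?_ ?_ WM WM0
    (fun X hX => ⟨⟨hX.1.2, fun s => ⟨fun _ => ⟨hX.1, fun s' _ => hX.2 s'⟩, fun _ => (hX.2 s).1⟩⟩,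
      same_dis (by simp) hX.1.2, cov_slot (by simp) hX.1.1⟩) (fun i ob h hpr => ?_)
    (lb10 (by nlinarith))
  · rintro ⟨s, b, v⟩ ⟨s', b', v'⟩ h
    obtain ⟨h1, h2⟩ := rep_inj h
    exact Prod.ext (Fin.ext h1) (Prod.ext (List.cons.inj h2).1 (Subtype.ext (List.cons.inj h2).2))
  · rintro ⟨s, b, v⟩
    have := v.2
    have := hp.1
    simp only [List.length_append, List.length_replicate, List.length_cons]
    omega
  by_cases had : i.κ = .a ∨ i.κ = .d
  · let R : UM p.n (p.τ + 1) → Prop := fun u => ∀ s v, u ≠ Sum.inr (s, false, v)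
    have hn : ¬ isP i.κ := by rcases had with e | e <;> simp [e, isP]
    refine ⟨_, idB_bok hp h R, fun X hX => unc_indep hn (ob := atW ob (X.filter R)) (idB_unc ?_),
      fun X hX => ?_⟩
    · by_contra hv
      obtain ⟨C, c1, c2⟩ := viol_cert h.loc (by tauto) hv
      have hC : C.card < 2 ^ p.n := by have := h.hK; omega
      obtain ⟨b, hb'⟩ : ∃ b, ∀ z ∈ X.toLeft, z.1 = b := by
        by_cases h0 : X.toLeft.Nonempty
        · obtain ⟨z, hz⟩ := h0
          exact ⟨z.1, fun z' hz' => hX.1 z' hz' z hz⟩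
        · exact ⟨true, fun z hz => absurd ⟨z, hz⟩ h0⟩
      obtain ⟨v, hv⟩ := avoid (sl _ b) (sl_inj b) C hC
      choose w hw using fun s : Fin (p.τ + 1) => avoid
        (fun v => (Sum.inr (s, true, v) : UM p.n (p.τ + 1))) (fun _ _ h => by simpa using h) C hC
      refine c2 (X.filter R ∪ insert (sl _ b v) (univ.image fun s => Sum.inr (s, true, w s)))
        (agree_union fun u hu => ?_) (hpr _ ⟨⟨⟨(b, v), by simp [slot, sl]⟩, ?_⟩, fun s => ⟨?_, ?_⟩⟩)
      · rcases mem_insert.1 hu with rfl | hu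
        · exact hv
        · obtain ⟨s, _, rfl⟩ := mem_image.1 hu
          exact hw s
      · have : ∀ z ∈ (X.filter R ∪ insert (sl _ b v)
            (univ.image fun s => Sum.inr (s, true, w s))).toLeft, z.1 = b := by
          intro z hz
          simp only [mem_toLeft, mem_union, mem_filter, mem_insert, mem_image, sl] at hz
          rcases hz with hz | hz | ⟨s, _, hz⟩
          · exact hb' z (mem_toLeft.2 hz.1)
          · rw [Sum.inl.inj hz]
          · simp at hz
        exact fun z hz z' hz' => (this z hz).trans (this z' hz').symm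
      · exact ⟨w s, by simp⟩
      · rintro ⟨v', hv'⟩
        simp [R, sl] at hv'
    · have e : X.filter R = X := filter_true_of_mem fun u hu s v e => (hX.2 s).2 ⟨v, e ▸ hu⟩
      show Cnd i.κ (atW ob X) (idB (atW ob (X.filter R))) Prod.snd (none, [])
      rw [e]
      exact idB_cnd fun h => absurd h hn
  · have hκ : i.κ = .b ∨ i.κ = .g ∨ i.κ = .h := by
      have := h.nπ
      cases e : i.κ <;> simp_all
    have h1 := h.nt
    have h2 := h.tle hp
    have h3 := h.γτ
    let s₀ : Fin (p.τ + 1) := ⟨i.t + 1 - p.n0, by omega⟩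
    let Pt : Bool → UM p.n (p.τ + 1) → Prop := fun b u => ∃ v, u = Sum.inr (s₀, b, v)
    have hPt : ∀ X b, (∃ u ∈ X, Pt b u) ↔ hasM X s₀ b :=
      fun X b => ⟨fun ⟨_, a, v, e⟩ => ⟨v, e ▸ a⟩, fun ⟨v, a⟩ => ⟨_, a, v, rfl⟩⟩
    have sc : ∀ b u, Pt b u → scU p.n0 (fun u : Fin (p.τ + 1) × Bool × Vn p.n => p.n0 + u.1.1) u
        ≤ i.t + 1 := by
      rintro b u ⟨v, rfl⟩
      simp only [scU, Sum.elim_inr, s₀]
      omega
    have like : ∀ X, LikeM X s₀ → Prom i.κ (atW ob X) := by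
      intro X hX
      let X' : Finset (UM p.n (p.τ + 1)) := X.filter (fun u => ∀ s v, u ≠ Sum.inr (s, false, v)) ∪
        (univ.filter fun s => s₀ ≤ s).image fun s => Sum.inr (s, true, List.Vector.replicate _ true)
      have hl : X'.toLeft = X.toLeft := by ext z; simp [X']
      have hW : WM X' := by
        refine ⟨⟨?_, hl ▸ hX.1.2⟩, fun s => ⟨?_, ?_⟩⟩
        · obtain ⟨z, hz⟩ := hX.1.1
          exact ⟨z, mem_toLeft.1 (hl ▸ mem_toLeft.2 hz)⟩
        · rcases lt_or_ge s s₀ with hs | hs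
          · obtain ⟨v, hv⟩ := (hX.2 s hs).1
            exact ⟨v, by simp [X', hv]⟩
          · exact ⟨List.Vector.replicate _ true, by simp [X', hs]⟩
        · rintro ⟨v, hv⟩
          simp [X'] at hv
      have e : atW ob X = atW ob X' := by
        funext s y
        refine (h.loc s y).eq_of fun u hu => ?_
        rcases u with z | ⟨s', b, v⟩
        · simp [X']
        · have hs : s' < s₀ := by
            simp only [scU, Sum.elim_inr] at hu
            show s'.1 < i.t + 1 - p.n0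
            omega
          cases b
          · have : Sum.inr (s', false, v) ∉ X := fun hh => (hX.2 s' hs).2 ⟨v, hh⟩
            simp [X', this]
          · simp [X', not_le.2 hs]
      rw [e]
      exact hpr X' hW
    have on : ∀ X, hasM X s₀ true → ¬ hasM X s₀ false → Prom i.κ (atW ob X) → _ :=
      fun X a b c => npc_on (Pos := Pt true) (Neg := Pt false) (X := X) (κ := i.κ) (ob := ob)
        ⟨fun e => h.nπ (e ▸ hc), fun e => h.nπ (e ▸ hf)⟩ ((hPt X true).2 a)
        (fun u hu hh => b ((hPt X false).1 ⟨u, hu, hh⟩)) (fun e => absurd (Or.inr e) had) c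
    refine ⟨_, npc_bok hp h (sc true) (sc false), fun X hX => ?_,
      fun X hX => (on X (hX.2 s₀).1 (hX.2 s₀).2 (hpr X hX)).2⟩
    by_cases a : hasM X s₀ true
    · have hP := like X ((hX.2 s₀).1 a)
      by_cases b : hasM X s₀ false
      · exact npc_both hκ ((hPt X false).2 b) hP
      · exact (on X a b hP).1
    · refine npc_off (fun u hu hh => a ((hPt X true).1 ⟨u, hu, hh⟩)) ((hPt X false).2 ?_)
      by_contra b
      exact a ((hX.2 s₀).2 b)

end Pool.Agent.Lib.MP_2c6a5a_lc.Cl
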