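import Pool.Agent.Lib.MP_2c6a5a_lc.ClG3

/-! The generator with escape markers. -/

namespace Pool.Agent.Lib.MP_2c6a5a_lc.Cl

open Finset Pool.Agent.Lib.MP_8a52c3_lc.Orc Pool.Agent.Lib.MP_2c6a5a_lc.Pf
  Pool.Agent.Lib.MP_2c6a5a_lc.Mx

set_option linter.unusedSectionVars false

theorem hull {U : Type} [DecidableEq U] (ρ : U → ℕ) (F : U → Finset U) (k : ℕ)
    (h1 : ∀ u, (F u).card ≤ k) (h2 : ∀ u, ∀ v ∈ F u, F v ≠ ∅ → ρ v < ρ u) (Λ : ℕ) :
    ∀ C : Finset U, (∀ u ∈ C, F u ≠ ∅ → ρ u < Λ) →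
      ∃ D, C ⊆ D ∧ (∀ u ∈ D, F u ⊆ D) ∧ D.card ≤ C.card * (k + 1) ^ Λ := by
  induction Λ with
  | zero =>
    intro C hC
    refine ⟨C, Subset.refl _, fun u hu => ?_, by simp⟩
    by_cases h : F u = ∅
    · simp [h]
    · exact absurd (hC u hu h) (by omega)
  | succ Λ ih =>
    intro C hC
    obtain ⟨D, d1, d2, d3⟩ := ih (C.biUnion F) fun v hv hne => by
      obtain ⟨u, hu, hv⟩ := mem_biUnion.1 hv
      have := h2 u v hv hne
      have := hC u hu (ne_empty_of_mem hv)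
      omega
    refine ⟨C ∪ D, subset_union_left, fun u hu => ?_, ?_⟩
    · rcases mem_union.1 hu with hu | hu
      · exact ((subset_biUnion_of_mem F hu).trans d1).trans subset_union_right
      · exact (d2 u hu).trans subset_union_right
    · have a1 := card_union_le C D
      have a2 := card_biUnion_le_card_mul C F k fun u _ => h1 u
      have a3 := Nat.mul_le_mul_right ((k + 1) ^ Λ) a2
      have a4 : C.card * 1 ≤ C.card * (k + 1) ^ Λ :=
        Nat.mul_le_mul_left _ (Nat.one_le_pow _ _ (by omega))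
      rw [pow_succ]
      nlinarith

theorem prom_cert {U : Type} [DecidableEq U] {π : Kd → Prop} {p : Par3} {sc : U → ℕ} {i : Inf}
    {ob : Ob U} (h : InfOk π p sc i ob) (hκ : i.κ = .f ∨ i.κ = .g ∨ i.κ = .h) {X : Finset U}
    (hX : Prom i.κ (atW ob X)) :
    ∃ C : Finset U, C.card ≤ i.K ∧ (∀ u ∈ C, sc u ≤ i.t) ∧
      ∀ X', Agree C X X' → Prom i.κ (atW ob X') := by
  have one : ∀ s, Ex (atW ob X) s → ∃ C : Finset U, C.card ≤ i.K ∧ (∀ u ∈ C, sc u ≤ i.t) ∧
      ∀ X', Agree C X X' → Ex (atW ob X') s := fun s ⟨y, hy⟩ =>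
    ⟨_, (h.loc s y).ct_card X, (h.loc s y).ct_ok X, fun X' hX' => ⟨y, (h.loc s y).ct_of hX' hy⟩⟩
  rcases hκ with e | e | e <;> rw [e] at hX ⊢
  · by_cases h1 : Ex (atW ob X) true
    · obtain ⟨C, c1, c2, c3⟩ := one _ h1
      exact ⟨C, c1, c2, fun X' hX' _ => c3 X' hX'⟩
    · refine ⟨_, (h.loc false []).ct_card X, (h.loc false []).ct_ok X, fun X' hX' ⟨y, hy⟩ => ?_⟩
      have e' := h.nil (by simp [isP, e]) y X' hy
      subst e'
      exact absurd (hX ⟨[], ((h.loc false []).ct_eq hX').mp hy⟩) h1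
  · exact one _ hX
  · obtain ⟨s, hs⟩ := Cov.ex hX
    obtain ⟨C, c1, c2, c3⟩ := one _ hs
    exact ⟨C, c1, c2, fun X' hX' => cov_of (c3 X' hX')⟩

/-- Identity coding with an escape that is switched on by the marker of the group. -/
def mkB {n : ℕ} (i : Inf) (ob : Ob (Zt n ⊕ Str)) : Bt (Zt n ⊕ Str) := fun s ω X =>
  (Sum.inr i.γ ∉ X ∧ idB (atW ob X) s ω) ∨
    (Sum.inr i.γ ∈ X ∧ i.κ ≠ .f ∧ s = true ∧ ω = (none, []))

theorem mkB_off {n : ℕ} {i : Inf} {ob : Ob (Zt n ⊕ Str)} {X : Finset (Zt n ⊕ Str)}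
    (h : Sum.inr i.γ ∉ X) : atW (mkB i ob) X = idB (atW ob X) := by
  funext s ω
  simp [atW, mkB, h]

theorem mkB_on {n : ℕ} {i : Inf} {ob : Ob (Zt n ⊕ Str)} {X : Finset (Zt n ⊕ Str)}
    (hκ : i.κ = .f ∨ i.κ = .g ∨ i.κ = .h) (h : Sum.inr i.γ ∈ X) :
    Unc i.κ (atW ob X) (atW (mkB i ob) X) := by
  have a : i.κ ≠ .f → Ex (atW (mkB i ob) X) true := fun e => ⟨(none, []), Or.inr ⟨h, e, rfl, rfl⟩⟩
  rcases hκ with e | e | e
  · rw [e]
    rintro ⟨ω, hω | hω⟩
    · exact absurd h hω.1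
    · exact absurd e hω.2.1
  · have := a (by simp [e])
    rw [e]
    exact this
  · have := a (by simp [e])
    rw [e]
    exact Or.inr this

/-- No complete set in NP ∩ coNP, next to DisjNP. -/
theorem gen4 {π : Kd → Prop} {p : Par3} (hp : p.Ok) (ha : π .a) (hb : π .b) (hc : π .c)
    (he : π .e) : Nonempty (Gen π .e p) := by
  classical
  let Sp : Inf → Ob (Zt p.n ⊕ Str) → Bt (Zt p.n ⊕ Str) → Prop := fun i ob bit =>
    BitOk (Phi p.q p.τ) (scU p.n0 List.length) i bit ∧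
      (∀ X, X.toLeft.card ≤ 2 → Uni (atW bit X)) ∧
      ∀ A : Finset (Zt p.n), A.card ≤ 2 → Same Prod.fst A →
        (Ex (atW ob (up Str A)) true ↔ Ex (atW bit (up Str A)) true)
  let ext : Inf → Ob (Zt p.n ⊕ Str) → Bt (Zt p.n ⊕ Str) := fun i ob =>
    if i.κ = .d then (if h : ∃ bit, Sp i ob bit then h.choose else fun _ _ _ => False)
    else mkB i ob
  have hsp : ∀ i ob, i.κ = .d → (∃ bit, Sp i ob bit) → Sp i ob (ext i ob) := by
    intro i ob e h
    simp only [ext, if_pos e, dif_pos h]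
    exact h.choose_spec
  refine ⟨⟨Str, inferInstance, List.length, id, fun _ _ h => h, fun _ => le_rfl, ext,
    fun i ob h => ?_, fun c hH => ?_⟩⟩
  · by_cases e : i.κ = .d
    · by_cases h : ∃ bit, Sp i ob bit
      · exact (hsp i ob e h).1
      · simp only [ext, if_pos e, dif_neg h]
        exact bitOk_false _ _ _
    · simp only [ext, if_neg e]
      refine ⟨fun s ω => ?_, ?_⟩
      · exact (((Loc.mem (P := fun u => scU p.n0 List.length u ≤ i.γ.length) (u := Sum.inr i.γ)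
          le_rfl).pair (h.loc' hp s ω.2)).comp fun z => (¬ z.1 ∧ ω.1 = none ∧ z.2) ∨
            (z.1 ∧ i.κ ≠ .f ∧ s = true ∧ ω = (none, []))).mono (fun _ h => h)
          (le_phi (by nlinarith))
      · rintro s ω X (hb | ⟨_, _, _, rfl⟩)
        · exact ⟨fun u hu => by simp [hb.2.1] at hu, h.len _ _ _ hb.2.2⟩
        · simp
  have kind : ∀ γ ∈ c.act, (c.inf γ).κ ≠ .d →
      (c.inf γ).κ = .f ∨ (c.inf γ).κ = .g ∨ (c.inf γ).κ = .h := by
    intro γ hγ
    have := (c.ok γ hγ).nπ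
    cases e : (c.inf γ).κ <;> simp_all
  let WA : Finset (Zt p.n) → Prop := fun A => A.Nonempty ∧ A.card ≤ 2 ∧ Same Prod.fst A
  have wit : ∀ A, WA A → Wit .e (up Str A) := fun A hA =>
    ⟨same_dis (by simp) (by rw [up_toLeft]; exact hA.2.2),
      cov_slot (by simp) ⟨_, mem_up.2 ⟨_, hA.1.choose_spec, rfl⟩⟩⟩
  have G : ∀ γ ∈ c.act, (∀ A, WA A → c.Pm γ (up Str A)) →
      (∀ A, WA A → c.Cn ext γ (up Str A)) ∧ ∀ X, X.toLeft.card ≤ 2 →
        ((c.inf γ).κ ≠ .d → Sum.inr γ ∈ X ∨ c.Pm γ X) → c.Un ext γ X := by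
    intro γ hγ hP
    unfold Ctx.Cn Ctx.Un
    by_cases e : (c.inf γ).κ = .d
    · have := hsp _ _ e (d_ext hp (c.ok γ hγ) fun A h1 h2 => by
        have := hP A ⟨card_pos.1 (by omega), h1.le, h2⟩
        unfold Ctx.Pm at this
        rwa [e] at this)
      rw [e]
      exact ⟨fun A hA => this.2.2 A hA.2.1 hA.2.2, fun X hX _ => this.2.1 X hX⟩
    · simp only [ext, if_neg e]
      refine ⟨fun A _ => ?_, fun X _ hX => ?_⟩
      · rw [mkB_off (by simp [mem_up])]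
        exact idB_cnd fun a y b => (c.ok γ hγ).nil a y _ b
      · by_cases hm : Sum.inr (c.inf γ).γ ∈ X
        · exact mkB_on (kind γ hγ e) hm
        · rw [mkB_off hm]
          exact idB_unc ((hX e).resolve_left (by rwa [c.name] at hm))
  have key : ∀ m, ∀ γ ∈ c.act, (c.inf γ).t < m → ∀ A, WA A → c.Pm γ (up Str A) := by
    intro m
    induction m with
    | zero => intro _ _ h; omega
    | succ m ih =>
      intro γ hγ ht A hA
      refine hH γ hγ _ (fun γ' hγ' hl => ?_) (wit A hA)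
      have := c.lt hp hγ'
      have := (c.hl γ' hγ').1
      have h := ih γ' hγ' (by omega)
      exact ⟨(G γ' hγ' h).2 _ (by rw [up_toLeft]; exact hA.2.1) fun _ => Or.inr (h A hA),
        fun _ => (G γ' hγ' h).1 A hA⟩
  have pm := fun γ hγ => key _ γ hγ (Nat.lt_succ_self _)
  intro cb pj l1 _ hU
  by_contra hn
  push Not at hn
  have hA1 : ∀ z : Zt p.n, WA {z} := fun z => ⟨singleton_nonempty _, by simp, by simp [Same]⟩
  have main : ∀ u : Zt p.n ⊕ Str, ∃ (ω : Str) (D : Finset (Zt p.n ⊕ Str)),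
      D.card ≤ p.K0 * (p.K0 + 1) ^ (Nat.log 2 p.τ + 1) ∧ ∀ z, u = Sum.inl z → ∀ X,
        (∀ z', Sum.inl z' ∈ D → (Sum.inl z' ∈ X ↔ z' = z)) →
        (∀ γ, Sum.inr γ ∈ X → γ ∈ c.act ∧ (c.inf γ).κ ≠ .d ∧ ¬ c.Pm γ X) → cb z.1 ω X := by
    rintro (⟨s, v⟩ | u)
    swap
    · exact ⟨[], ∅, by simp, by simp⟩
    obtain ⟨ω, hω⟩ := hn (up Str {(s, v)}) ⟨fun γ hγ _ => ⟨(G γ hγ (pm γ hγ)).2 _
      (by rw [up_toLeft]; simp) fun _ => Or.inr (pm γ hγ _ (hA1 _)),
      fun _ => (G γ hγ (pm γ hγ)).1 _ (hA1 _)⟩, wit _ (hA1 _)⟩ s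
      ((wob_side (by simp) _ _).2 ⟨v, by simp [slot, mem_up]⟩)
    have : ∀ u : Zt p.n ⊕ Str, ∃ F : Finset (Zt p.n ⊕ Str), F.card ≤ p.K0 ∧
        (F ≠ ∅ → ∃ γ ∈ c.act, u = Sum.inr γ ∧ ∀ x ∈ F, scU p.n0 List.length x ≤ (c.inf γ).t) ∧
        ∀ γ ∈ c.act, u = Sum.inr γ → (c.inf γ).κ ≠ .d →
          ∀ X', Agree F (up Str {(s, v)}) X' → c.Pm γ X' := by
      intro u
      by_cases hu : ∃ γ ∈ c.act, u = Sum.inr γ ∧ (c.inf γ).κ ≠ .d
      · obtain ⟨γ, g1, rfl, g2⟩ := hu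
        obtain ⟨C, c1, c2, c3⟩ := prom_cert (c.ok γ g1) (kind γ g1 g2) (pm γ g1 _ (hA1 (s, v)))
        refine ⟨C, c1.trans (c.ok γ g1).hK, fun _ => ⟨γ, g1, rfl, c2⟩, fun γ' _ e _ => ?_⟩
        rw [← Sum.inr.inj e]
        exact c3
      · exact ⟨∅, by simp, by simp, fun γ a b d => absurd ⟨γ, a, b, d⟩ hu⟩
    choose F f1 f2 f3 using this
    obtain ⟨D, d1, d2, d3⟩ := hull (fun u => Nat.log 2 (scU p.n0 List.length u)) F p.K0 f1
      (fun u x hx hne => by
        obtain ⟨γ, g1, rfl, g2⟩ := f2 u (ne_empty_of_mem hx)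
        obtain ⟨γ', g3, rfl, _⟩ := f2 x hne
        have a1 := g2 _ hx
        have a2 := c.lt hp g1
        have a3 := c.lt hp g3
        simp only [scU, Sum.elim_inr] at a1 ⊢
        have a4 := Nat.log_mul_base (b := 2) (n := γ'.length) (by omega) (by omega)
        have a5 := Nat.log_mono_right (b := 2) (show γ'.length * 2 ≤ γ.length by omega)
        omega) (Nat.log 2 p.τ + 1) ((l1 s ω).ct (up Str {(s, v)})) (fun u _ hne => by
        obtain ⟨γ, g1, rfl, _⟩ := f2 u hne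
        have := c.hl γ g1
        have := Nat.log_mono_right (b := 2) (show γ.length ≤ p.τ by omega)
        simp only [scU, Sum.elim_inr]
        omega)
    refine ⟨ω, D, d3.trans (Nat.mul_le_mul_right _ ((l1 _ _).ct_card _)), ?_⟩
    rintro z e X x1 x2
    rw [← Sum.inl.inj e] at x1 ⊢
    have nom : ∀ m, ∀ γ : Str, γ.length < m → Sum.inr γ ∈ D → Sum.inr γ ∉ X := by
      intro m
      induction m with
      | zero => intro _ h; omega
      | succ m ih =>
        intro γ g1 g2 g3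
        obtain ⟨g4, g5, g6⟩ := x2 γ g3
        refine g6 (f3 _ γ g4 rfl g5 X fun x hx => ?_)
        rcases x with z' | γ'
        · rw [x1 z' (d2 _ g2 hx)]
          simp [mem_up]
        · obtain ⟨γ'', _, e', g7⟩ := f2 _ (ne_empty_of_mem hx)
          have a1 := g7 _ hx
          rw [← Sum.inr.inj e'] at a1
          have a2 := c.lt hp g4
          simp only [scU, Sum.elim_inr] at a1
          simp [mem_up, ih γ' (by omega) (d2 _ g2 hx)]
    refine (l1 s ω).ct_of (fun x hx => ?_) hω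
    rcases x with z' | γ'
    · rw [x1 z' (d1 hx)]
      simp [mem_up]
    · simp [mem_up, nom _ γ' (Nat.lt_succ_self _) (d1 hx)]
  choose w D d1 d2 using main
  obtain ⟨v, v', a, b⟩ := cross_sides (p := p) (by
    refine lt_of_lt_of_le ?_ hp.2.2.2
    have h1 := phi_ge p.q p.τ
    have h2 : (p.K0 + 1) ^ (Nat.log 2 p.τ + 1) ≤
        (Phi p.q p.τ * (p.K0 + 2)) ^ (Nat.log 2 p.τ + 1) := Nat.pow_le_pow_left (by nlinarith) _
    have h3 : 0 < (p.K0 + 1) ^ (Nat.log 2 p.τ + 1) := Nat.pow_pos (by omega)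
    have h4 : Phi p.q p.τ * (p.K0 + 2) ≤ (Phi p.q p.τ * (p.K0 + 2)) ^ 7 :=
      Nat.le_self_pow (by omega) _
    have h5 : 2 * p.K0 + 1 ≤ Phi p.q p.τ * (p.K0 + 2) := by nlinarith
    rw [show Nat.log 2 p.τ + 8 = 7 + (Nat.log 2 p.τ + 1) by omega, pow_add _ 7]
    have := Nat.mul_le_mul (h5.trans h4) h2
    nlinarith) D d1
  have mix : ∀ m, ∃ X : Finset (Zt p.n ⊕ Str),
      (∀ z, Sum.inl z ∈ X ↔ z = (false, v) ∨ z = (true, v')) ∧
      ∀ γ, Sum.inr γ ∈ X ↔ (γ.length < m ∧ γ ∈ c.act ∧ (c.inf γ).κ ≠ .d ∧ ¬ c.Pm γ X) := by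
    intro m
    induction m with
    | zero => exact ⟨{Sum.inl (false, v), Sum.inl (true, v')}, by simp, by simp⟩
    | succ m ih =>
      obtain ⟨X, x1, x2⟩ := ih
      let X' := X ∪ (c.act.filter fun γ =>
        γ.length = m ∧ (c.inf γ).κ ≠ .d ∧ ¬ c.Pm γ X).image Sum.inr
      have same : ∀ γ ∈ c.act, γ.length ≤ m → (c.Pm γ X' ↔ c.Pm γ X) := by
        intro γ hγ hl
        have : atW (c.ob γ) X' = atW (c.ob γ) X := by
          funext s y
          refine ((c.ok γ hγ).loc s y).eq_of fun u hu => ?_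
          rcases u with z | γ'
          · simp [X']
          · have := c.lt hp hγ
            simp only [scU, Sum.elim_inr] at hu
            have : γ'.length ≠ m := by omega
            simp [X', this]
        unfold Ctx.Pm
        rw [this]
      refine ⟨X', fun z => by simpa [X'] using x1 z, fun γ => ?_⟩
      simp only [X', mem_union, x2, mem_image, mem_filter, Sum.inr.injEq, exists_eq_right]
      constructor
      · rintro (⟨a, b, d, e⟩ | ⟨a, b, d, e⟩)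
        · exact ⟨by omega, b, d, fun h => e ((same γ b (by omega)).1 h)⟩
        · exact ⟨by omega, a, d, fun h => e ((same γ a (by omega)).1 h)⟩
      · rintro ⟨a, b, d, e⟩
        have e' : ¬ c.Pm γ X := fun h => e ((same γ b (by omega)).2 h)
        rcases Nat.lt_succ_iff_lt_or_eq.1 a with a | a
        · exact Or.inl ⟨a, b, d, e'⟩
        · exact Or.inr ⟨b, a, d, e'⟩
  obtain ⟨X, x1, x2⟩ := mix p.τ
  have hX : X.toLeft.card ≤ 2 := by
    refine (card_le_card (t := {(false, v), (true, v')}) fun z hz => ?_).trans card_le_two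
    simpa using (x1 z).1 (mem_toLeft.1 hz)
  refine (hU X fun γ hγ _ => ⟨(G γ hγ (pm γ hγ)).2 X hX fun e => ?_,
    fun hj => absurd (c.ok γ hγ).ej (by omega)⟩).1
    ⟨⟨_, d2 (sl Str false v) (false, v) rfl X (fun z hz => ?_) fun γ h => ((x2 γ).1 h).2⟩,
      ⟨_, d2 (sl Str true v') (true, v') rfl X (fun z hz => ?_) fun γ h => ((x2 γ).1 h).2⟩⟩
  · by_cases h : c.Pm γ X
    · exact Or.inr h
    · have := c.hl γ hγ
      exact Or.inl ((x2 γ).2 ⟨by omega, hγ, e, h⟩)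
  · rw [x1]
    exact ⟨fun h => h.resolve_right fun e => a (by rwa [e] at hz), Or.inl⟩
  · rw [x1]
    exact ⟨fun h => h.resolve_left fun e => b (by rwa [e] at hz), Or.inr⟩

end Pool.Agent.Lib.MP_2c6a5a_lc.Cl
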