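import Pool.Agent.Lib.MP_2c6a5a_lc.ClG4

/-! The generator by random restrictions, and the choice of a generator. -/

namespace Pool.Agent.Lib.MP_2c6a5a_lc.Cl

open Finset Pool.Agent.Lib.MP_8a52c3_lc.Orc Pool.Agent.Lib.MP_2c6a5a_lc.Pf
  Pool.Agent.Lib.MP_2c6a5a_lc.Mx

set_option linter.unusedSectionVars false

def encB (y : Str) (k : ℕ) : Bool :=
  if k % 2 = 0 then decide (k / 2 < y.length) else y.getD (k / 2) false

theorem encB_inj {y y' : Str} {t : ℕ} (h1 : y.length ≤ t) (h2 : y'.length ≤ t)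
    (h : ∀ k < 2 * t + 2, encB y k = encB y' k) : y = y' := by
  have ev : ∀ m ≤ t, (m < y.length ↔ m < y'.length) := by
    intro m hm
    have := h (2 * m) (by omega)
    simpa [encB] using this
  have hl : y.length = y'.length := by
    have := ev _ h1
    have := ev _ h2
    omega
  refine List.ext_getElem hl fun m a b => ?_
  have := h (2 * m + 1) (by omega)
  have e : (2 * m + 1) / 2 = m := by omega
  simpa [encB, e, List.getD_eq_getElem?_getD, List.getElem?_eq_getElem a,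
    List.getElem?_eq_getElem b] using this

section
variable {U : Type} [Fintype U] [DecidableEq U]

def Dk (i : Inf) (ob : Ob U) (k : ℕ) : Bool → Finset U → Prop := fun b X =>
  if i.κ = .d then ∃ y, ob true y X ∧ encB y k = b else Ex (atW ob X) b

noncomputable def outK (p : Par3) (i : Inf) (ob : Ob U) (k : ℕ) : Finset U → Bool :=
  trOut (par2 p.q p.e p.τ) (decide (i.κ = .h)) i.j (Nat.log 2 i.t) (Dk i ob k) ((i.K + 1) * i.K)

noncomputable def qK (p : Par3) (i : Inf) (ob : Ob U) (k : ℕ) : Finset U → Finset U :=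
  trQ (par2 p.q p.e p.τ) (decide (i.κ = .h)) i.j (Nat.log 2 i.t) (Dk i ob k) ((i.K + 1) * i.K)

def ext5 (p : Par3) (i : Inf) (ob : Ob U) : Bt U := fun s ω X =>
  if i.κ = .d then ω.1 = none ∧ ob true ω.2 X ∧
    ∀ k ∈ range (2 * i.t + 2), encB ω.2 k = !outK p i ob k X
  else s = (if i.κ = .h then outK p i ob 0 X else !outK p i ob 0 X) ∧ ω = (none, [])

theorem qK_card (p : Par3) (i : Inf) (ob : Ob U) (k : ℕ) (X : Finset U) :
    (qK p i ob k X).card ≤ (Psi3 p.q p.τ + 1) * (i.K + 1) ^ 4 := by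
  refine (trQ_card _ _ _ _ _ _ X).trans ?_
  show (Psi3 p.q p.τ + (i.K + 1) * i.K) * ((i.K + 1) * i.K) ≤ _
  have h1 : (i.K + 1) * i.K ≤ (i.K + 1) ^ 2 := by nlinarith
  have h2 : Psi3 p.q p.τ + (i.K + 1) * i.K ≤ (Psi3 p.q p.τ + 1) * (i.K + 1) ^ 2 := by
    have : Psi3 p.q p.τ * 1 ≤ Psi3 p.q p.τ * (i.K + 1) ^ 2 :=
      Nat.mul_le_mul_left _ (Nat.one_le_pow _ _ (by omega))
    nlinarith
  calc _ ≤ (Psi3 p.q p.τ + 1) * (i.K + 1) ^ 2 * (i.K + 1) ^ 2 := Nat.mul_le_mul h2 h1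
    _ = _ := by ring

variable {π : Kd → Prop} {p : Par3} {sc : U → ℕ} {i : Inf} {ob : Ob U}

theorem ext5_bok (hp : p.Ok) (h : InfOk π p sc i ob) (hsc : ∀ u, sc u ≤ i.γ.length) :
    BitOk (Phi p.q p.τ) sc i (ext5 p i ob) := by
  have lo : ∀ k, Loc (fun u => sc u ≤ i.γ.length) ((Psi3 p.q p.τ + 1) * (i.K + 1) ^ 4)
      (outK p i ob k) := fun k => Loc.ofAdapt (qK_card p i ob k) (fun _ u _ => hsc u)
        fun X X' hX => trOut_loc _ _ _ _ _ _ X X' hX
  have h1 := h.tle hp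
  have h2 := h.γτ
  have h3 : i.K + 1 ≤ (i.K + 1) ^ 4 := Nat.le_self_pow (by omega) _
  refine ⟨fun s ω => ?_, fun s ω X hb => ?_⟩
  · unfold ext5
    by_cases e : i.κ = .d
    · simp only [if_pos e]
      refine (((h.loc' hp true ω.2).and (Loc.pi (range (2 * i.t + 2)) fun k _ =>
        (lo k).comp fun b => encB ω.2 k = !b)).comp fun z => ω.1 = none ∧ z).mono
        (fun _ h => h) ?_
      rw [card_range]
      unfold Phi
      have := Nat.mul_le_mul_right ((Psi3 p.q p.τ + 1) * (i.K + 1) ^ 4)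
        (show 2 * i.t + 2 ≤ 2 * p.τ + 4 by omega)
      nlinarith [Nat.zero_le (p.τ * (i.K + 1) ^ 4)]
    · simp only [if_neg e]
      refine ((lo 0).comp fun b => s = (if i.κ = .h then b else !b) ∧ ω = (none, [])).mono
        (fun _ h => h) (Nat.mul_le_mul_right _ ?_)
      unfold Phi
      nlinarith [Nat.zero_le (p.τ * Psi3 p.q p.τ)]
  · unfold ext5 at hb
    split_ifs at hb
    · exact ⟨fun u hu => by simp [hb.1] at hu, h.len _ _ _ hb.2.1⟩
    · simp [hb.2]
    · simp [hb.2]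

theorem ext5_ex (e : i.κ ≠ .d) (X : Finset U) (s : Bool) : Ex (atW (ext5 p i ob) X) s ↔
    s = (if i.κ = .h then outK p i ob 0 X else !outK p i ob 0 X) := by
  unfold Ex atW ext5
  simp [if_neg e]

theorem ext5_unc (h : InfOk π p sc i ob) (hf : π .f) (hg : π .g) (X : Finset U)
    (hs : i.κ ≠ .h → outK p i ob 0 X = true → ¬ Dk i ob 0 true X) :
    Unc i.κ (atW ob X) (atW (ext5 p i ob) X) := by
  have nπ := h.nπ
  by_cases e : i.κ = .d
  · rw [e]
    rintro ⟨o, y⟩ ⟨o', y'⟩ a b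
    simp only [atW, ext5, if_pos e, mem_range] at a b
    rw [a.1, b.1, encB_inj (h.len _ _ _ a.2.1) (h.len _ _ _ b.2.1) fun k hk =>
      (a.2.2 k hk).trans (b.2.2 k hk).symm]
  have ex := ext5_ex (p := p) (ob := ob) e X
  have dis : Dis (atW (ext5 p i ob) X) := dis_of fun _ _ a b => ((ex _).1 a).trans ((ex _).1 b).symm
  have cov : Cov (atW (ext5 p i ob) X) := cov_of ((ex _).2 rfl)
  have snd : i.κ ≠ .h → ¬ (Ex (atW (ext5 p i ob) X) false ∧ Ex (atW ob X) true) := by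
    rintro a ⟨b, c⟩
    rw [ex, if_neg a] at b
    exact hs a (by simpa using b) (by simpa [Dk, e] using c)
  cases e' : i.κ
  · exact dis
  · exact snd (by simp [e'])
  · exact snd (by simp [e'])
  · exact absurd e' e
  · exact ⟨dis, cov⟩
  · exact absurd (e' ▸ hf) nπ
  · exact absurd (e' ▸ hg) nπ
  · exact cov

theorem ext5_cnd (h : InfOk π p sc i ob) (hf : π .f) (hg : π .g) (X : Finset U)
    (hs : ∀ k < 2 * i.t + 2,
      GoodBit (decide (i.κ = .h)) (fun b => Dk i ob k b X) (outK p i ob k X)) :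
    Cnd i.κ (atW ob X) (atW (ext5 p i ob) X) Prod.snd (none, []) := by
  have nπ := h.nπ
  by_cases e : i.κ = .d
  · rw [e]
    refine ⟨fun ⟨y, hy⟩ => ⟨(none, y), ?_⟩, fun ⟨ω, hω⟩ => ?_⟩
    · simp only [atW, ext5, if_pos e, mem_range]
      refine ⟨trivial, hy, fun k hk => ?_⟩
      have := hs k hk
      simp only [GoodBit, Dk, e, reduceCtorEq, decide_false, if_true] at this
      have h2 : ¬ encB y k = outK p i ob k X := fun hh => this ⟨y, hy, hh⟩
      exact Bool.eq_not_of_ne h2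
    · simp only [atW, ext5, if_pos e] at hω
      exact ⟨_, hω.2.1⟩
  have ex := ext5_ex (p := p) (ob := ob) e X
  have h0 := hs 0 (by omega)
  have np : i.κ ≠ .h → ∀ s, Ex (atW ob X) s → ext5 p i ob s (none, []) X := by
    intro a s b
    simp only [GoodBit, Dk, a, e, decide_false, if_false] at h0
    simp only [ext5, if_neg e, if_neg a, and_true]
    exact Bool.eq_not_of_ne fun hh => h0 (hh ▸ b)
  cases e' : i.κ
  · exact fun s hs => ⟨_, np (by simp [e']) s hs⟩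
  · exact fun hs => ⟨_, np (by simp [e']) _ hs⟩
  · exact fun hs => np (by simp [e']) _ hs
  · exact absurd e' e
  · exact fun s hs => ⟨_, np (by simp [e']) s hs⟩
  · exact absurd (e' ▸ hf) nπ
  · exact absurd (e' ▸ hg) nπ
  · intro s hs
    rw [ex, if_pos e'] at hs
    rw [hs]
    simpa [GoodBit, Dk, e'] using h0

theorem viol_not (h : InfOk π p sc i ob) (hf : π .f) (hg : π .g) (X : Finset U) (k : ℕ)
    (hv : Viol (decide (i.κ = .h)) fun b => Dk i ob k b X) : ¬ Prom i.κ (atW ob X) := by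
  have nπ := h.nπ
  cases e : i.κ <;> simp only [Viol, Dk, e, reduceCtorEq, decide_false, decide_true, if_true,
    if_false, Bool.false_eq_true] at hv
  · exact fun hP => hP hv
  · exact fun hP => hP hv
  · exact fun hP => hP hv
  · obtain ⟨⟨y, a, b⟩, ⟨y', c, d⟩⟩ := hv
    intro hP
    rw [hP y y' a c, d] at b
    simp at b
  · exact fun hP => hP.1 hv
  · exact absurd (e ▸ hf) nπ
  · exact absurd (e ▸ hg) nπ
  · exact fun hP => hP.elim hv.1 hv.2

end

/-- No complete total search problem, with everything outside SAT and TFNP coded. -/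
theorem gen5 {π : Kd → Prop} {κ : Kd} {p : Par3} (hp : p.Ok) (hκ : κ = .g ∨ κ = .f)
    (hf : π .f) (hg : π .g) : Nonempty (Gen π κ p) := by
  classical
  refine ⟨⟨Empty, inferInstance, Empty.elim, Empty.elim, fun u => u.elim, fun u => u.elim,
    ext5 p, fun i ob h => ext5_bok hp h (sc_empty hp h), fun c hH => ?_⟩⟩
  have : Nonempty (Zt p.n ⊕ Empty) := ⟨Sum.inl (true, List.Vector.replicate _ true)⟩
  have : ∀ (γ : Str) (s : Bool) (y : Str), ∃ Q : Finset (Zt p.n ⊕ Empty) → Finset (Zt p.n ⊕ Empty),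
      γ ∈ c.act → Adapt Q ∧ (∀ X, (Q X).card ≤ ((c.inf γ).K + 1) * (c.inf γ).K) ∧
        ∀ X X', Agree (Q X) X X' → c.ob γ s y X' = c.ob γ s y X := by
    intro γ s y
    by_cases hγ : γ ∈ c.act
    · obtain ⟨Q, hQ⟩ := (((c.ok γ hγ).loc s y).mono (fun _ _ => trivial) le_rfl).adapt
      exact ⟨Q, fun _ => hQ⟩
    · exact ⟨id, fun h => absurd h hγ⟩
  choose Qa hQa using this
  set Ψ := Psi3 p.q p.τ with hΨ
  set CC := (par2 p.q p.e p.τ).C ^ p.q with hCC
  have hCΨ : CC ≤ Ψ := by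
    have : CC ≤ (par2 p.q 0 p.τ).X := by
      unfold Par2.X
      show _ ≤ _ + CC + 1
      omega
    rw [hΨ]
    unfold Psi3
    nlinarith
  have hΦ : 2 * (Ψ + 1) ≤ Phi p.q p.τ := by
    unfold Phi
    nlinarith [Nat.zero_le (p.τ * Ψ)]
  have hbig : 2 * ((Ψ + 1) * (p.K0 + 1) ^ 4 * CC) ≤ 2 ^ p.n := by
    refine le_trans ?_ hp.big8
    rw [mul_pow]
    have a1 : (p.K0 + 1) ^ 4 ≤ (p.K0 + 2) ^ 8 :=
      (Nat.pow_le_pow_left (by omega) _).trans (Nat.pow_le_pow_right (by omega) (by omega))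
    have a2 : Phi p.q p.τ ^ 2 ≤ Phi p.q p.τ ^ 8 := Nat.pow_le_pow_right (by omega) (by omega)
    have a3 : 2 * (Ψ + 1) * CC ≤ Phi p.q p.τ ^ 2 := by
      rw [sq]; exact Nat.mul_le_mul hΦ (by omega)
    calc _ = 2 * (Ψ + 1) * CC * (p.K0 + 1) ^ 4 := by ring
      _ ≤ _ := Nat.mul_le_mul (a3.trans a2) a1
  have hC1 : 1 ≤ (par2 p.q p.e p.τ).C := by simp only [par2]; omega
  have hCC1 : 1 ≤ CC := Nat.one_le_pow _ _ hC1
  have hK4 : 1 ≤ (p.K0 + 1) ^ 4 := Nat.one_le_pow _ _ (by omega)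
  have hN : Fintype.card (Zt p.n ⊕ Empty) = 2 * 2 ^ p.n := by simp
  let I1 := c.act ×ˢ range (2 * p.τ + 2)
  let I2 := c.act ×ˢ ((univ : Finset Bool) ×ˢ short (p.τ + 1))
  have hall : (I1.disjSum I2).card + 1 ≤ 2 ^ (2 * p.τ + 5) := by
    have a1 : c.act.card ≤ 2 ^ p.τ := by
      have := card_le_card (s := c.act) (t := short p.τ) fun γ hγ => (mem_short _ _).2 (by
        have := c.hl γ hγ; omega)
      have := short_card p.τ
      omega
    have a2 := short_card (p.τ + 1)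
    have a3 : p.τ < 2 ^ p.τ := Nat.lt_two_pow_self
    simp only [I1, I2, card_disjSum, card_product, card_range, card_univ, Fintype.card_bool]
    have a4 : 2 ^ (2 * p.τ + 5) = 32 * (2 ^ p.τ * 2 ^ p.τ) := by ring
    rw [pow_succ] at a2
    have a5 := Nat.mul_le_mul a1 (show 2 * p.τ + 2 ≤ 2 * 2 ^ p.τ by omega)
    have a6 := Nat.mul_le_mul a1 (show 2 * (short (p.τ + 1)).card ≤ 4 * 2 ^ p.τ by omega)
    nlinarith
  have mem1 : ∀ α, α ∈ I1.disjSum (∅ : Finset (Str × Bool × Str)) ↔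
      ∃ γ k, α = Sum.inl (γ, k) ∧ γ ∈ c.act ∧ k < 2 * p.τ + 2 := by
    rintro (⟨γ, k⟩ | β) <;> simp [I1]
  have hKle : ∀ γ ∈ c.act, ((c.inf γ).K + 1) * (c.inf γ).K ≤ (p.K0 + 1) ^ 2 := by
    intro γ hγ
    have := (c.ok γ hγ).hK
    nlinarith
  have h24 : (p.K0 + 1) ^ 2 ≤ (p.K0 + 1) ^ 4 := Nat.pow_le_pow_right (by omega) (by omega)
  let R : Core2 (Zt p.n ⊕ Empty) ((Str × ℕ) ⊕ (Str × Bool × Str)) :=
    { p := par2 p.q p.e p.τ
      d := (Ψ + 1) * (p.K0 + 1) ^ 4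
      z := 2 * (p.K0 + 1) ^ 2
      all := I1.disjSum I2
      cds := I1.disjSum ∅
      codes := I1.disjSum ∅
      Q := Sum.elim (fun α => qK p (c.inf α.1) (c.ob α.1) α.2) fun β => Qa β.1 β.2.1 β.2.2
      pri := Sum.elim (fun α => (c.inf α.1).j) fun _ => 0
      lev := Sum.elim (fun α => Nat.log 2 (c.inf α.1).t) fun _ => 0
      kind := Sum.elim (fun α => decide ((c.inf α.1).κ = .h)) fun _ => false
      D := Sum.elim (fun α => Dk (c.inf α.1) (c.ob α.1) α.2) fun _ _ _ => False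
      K := Sum.elim (fun α => ((c.inf α.1).K + 1) * (c.inf α.1).K) fun _ => 0
      hsub := disjSum_mono (Subset.refl _) (empty_subset _)
      hsub' := Subset.refl _
      hadapt := by
        rintro (α | β) hβ
        · exact trQ_adapt _ _ _ _ _ _
        · exact (hQa _ _ _ (mem_product.1 (inr_mem_disjSum.1 hβ)).1).1
      hd := by
        rintro (α | β) hβ x
        · refine (qK_card _ _ _ _ _).trans (Nat.mul_le_mul_left _ (Nat.pow_le_pow_left ?_ _))
          have := (c.ok _ (mem_product.1 (inl_mem_disjSum.1 hβ)).1).hK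
          omega
        · have hγ := (mem_product.1 (inr_mem_disjSum.1 hβ)).1
          refine ((hQa _ _ _ hγ).2.1 x).trans ((hKle _ hγ).trans ?_)
          nlinarith
      hQ := fun α hα => by
        obtain ⟨γ, k, rfl, _⟩ := (mem1 α).1 hα
        rfl
      hK := fun α hα => by
        obtain ⟨γ, k, rfl, h, _⟩ := (mem1 α).1 hα
        exact Nat.mul_le_mul_left 2 (hKle γ h)
      hpri := fun α hα => by
        obtain ⟨γ, k, rfl, h, _⟩ := (mem1 α).1 hα
        exact (c.ok γ h).jq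
      hlev := fun α hα => by
        obtain ⟨γ, k, rfl, h, _⟩ := (mem1 α).1 hα
        have := c.lt hp h
        have := c.hl γ h
        exact Nat.lt_succ_of_le (Nat.log_mono_right (by simp only; omega))
      hcert := fun α hα b x hD => by
        obtain ⟨γ, k, rfl, h, _⟩ := (mem1 α).1 hα
        have key : ∀ s y, c.ob γ s y x → (∀ x', c.ob γ s y x' → Dk (c.inf γ) (c.ob γ) k b x') →
            ∃ S ⊆ I1.disjSum I2, S.card ≤ (par2 p.q p.e p.τ).τ ∧
              Cert (Dk (c.inf γ) (c.ob γ) k b) (((c.inf γ).K + 1) * (c.inf γ).K) x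
                (S.biUnion fun β => Sum.elim (fun α => qK p (c.inf α.1) (c.ob α.1) α.2)
                  (fun β => Qa β.1 β.2.1 β.2.2) β x) := by
          intro s y h1 h2
          have := (c.ok γ h).len _ _ _ h1
          have := c.lt hp h
          have := c.hl γ h
          refine ⟨{Sum.inr (γ, s, y)}, by simp [I2, h, mem_short]; omega, by simp [par2], ?_⟩
          rw [singleton_biUnion]
          exact ⟨(hQa γ s y h).2.1 x, fun x' hx' => h2 x' (((hQa γ s y h).2.2 x x' hx').mpr h1)⟩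
        have hD' : Dk (c.inf γ) (c.ob γ) k b x := hD
        unfold Dk at hD'
        split_ifs at hD' with e
        · obtain ⟨y, y1, y2⟩ := hD'
          exact key true y y1 fun x' hx' => by simpa [Dk, e] using ⟨y, hx', y2⟩
        · obtain ⟨y, y1⟩ := hD'
          exact key b y y1 fun x' hx' => by simpa [Dk, e] using ⟨y, hx'⟩
      hC := hC1
      hd1 := by nlinarith
      n1 := by
        rw [hN]
        exact numeric1 hall (by show 2 * (_ * CC) ≤ _; omega) (by positivity)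
      n2 := numeric2 hall (by
        refine le_trans ?_ (Nat.pow_le_pow_right (by omega) hp.2.1)
        have := Nat.mul_le_mul_left ((Ψ + 1) * (p.K0 + 1) ^ 4) hCC1
        omega)
      n3 := by
        rw [hN, ← mul_div_assoc, div_le_div_iff₀ (by positivity) (by norm_num)]
        have : 2 * (p.K0 + 1) ^ 2 * CC * 2 ≤ 1 * (2 * 2 ^ p.n) := by
          have := Nat.mul_le_mul_right CC (show (p.K0 + 1) ^ 2 ≤ (Ψ + 1) * (p.K0 + 1) ^ 4 by
            nlinarith)
          nlinarith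
        exact_mod_cast this }
  have un : ∀ γ ∈ c.act, ∀ X, R.Sound (Sum.inl (γ, 0)) X → c.Un (ext5 p) γ X :=
    fun γ hγ X h => ext5_unc (c.ok γ hγ) hf hg X fun a b => h (decide_eq_false a) b
  have cn : ∀ γ ∈ c.act, ∀ X, (∀ k < 2 * p.τ + 2, R.Good (Sum.inl (γ, k)) X) →
      c.Cn (ext5 p) γ X := fun γ hγ X h => ext5_cnd (c.ok γ hγ) hf hg X fun k hk => h k (by
        have := c.lt hp hγ
        have := c.hl γ hγ
        omega)
  rcases R.dichotomy with hN | ⟨α, hα, x, x1, x2, x3⟩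
  · refine lb_gf hκ (fun γ hγ _ => ⟨un γ hγ ∅ ((R.good_empty hN).2 _
      ((mem1 _).2 ⟨γ, 0, rfl, hγ, by omega⟩)), fun hj => absurd (c.ok γ hγ).ej (by omega)⟩)
      fun C hC => ?_
    obtain ⟨x, x1, x2, x3, x4⟩ := R.good_avoid hN C (hC.trans (by show _ ≤ 2 * _; nlinarith))
    exact ⟨x, ⟨fun γ hγ _ => ⟨un γ hγ x (x4 _ ((mem1 _).2 ⟨γ, 0, rfl, hγ, by omega⟩)),
      fun _ => cn γ hγ x fun k hk => x3 _ ((mem1 _).2 ⟨γ, k, rfl, hγ, hk⟩)⟩,
      wit_gf hκ (ex_slot x1)⟩, fun u hu hC => x2 u hC hu⟩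
  · exfalso
    obtain ⟨γ, k, rfl, hγ, _⟩ := (mem1 α).1 hα
    refine viol_not (c.ok γ hγ) hf hg x k x3 (hH γ hγ x (fun γ' hγ' hl => ?_)
      (wit_gf hκ (ex_slot (x1 (c.ok γ hγ).ej.le))))
    have hlev : Nat.log 2 (c.inf γ').t < Nat.log 2 (c.inf γ).t := by
      have a := c.lt hp hγ'
      have := (c.hl γ' hγ').1
      have a4 := Nat.log_mul_base (b := 2) (n := (c.inf γ').t) (by omega) (by omega)
      have a5 := Nat.log_mono_right (b := 2) (show (c.inf γ').t * 2 ≤ (c.inf γ).t by omega)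
      omega
    exact ⟨un γ' hγ' x (x2.2 _ ((mem1 _).2 ⟨γ', 0, rfl, hγ', by omega⟩) hlev),
      fun hj => cn γ' hγ' x fun k hk => x2.1 _ ((mem1 _).2 ⟨γ', k, rfl, hγ', hk⟩) hj hlev⟩

/-- The admissible patterns. -/
def Adm (π : Kd → Prop) : Prop :=
  (π .a → π .b) ∧ (π .b → π .c) ∧ (π .d → π .c) ∧ (π .h → π .g) ∧ (π .g → π .f) ∧
    (π .c → π .b ∨ π .f) ∧ (π .f → π .c ∨ π .g) ∧ (π .d → π .a ∨ π .f) ∧
    (π .e → π .a ∨ π .f) ∧ (π .e → π .c ∨ π .h)

theorem exists_gen {π : Kd → Prop} (hπ : Adm π) {κ : Kd} (hκ : π κ) {p : Par3} (hp : p.Ok) :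
    Nonempty (Gen π κ p) := by
  obtain ⟨h1, h2, h3, h4, h5, h6, h7, h8, h9, h10⟩ := hπ
  cases κ
  · exact gen2 hp hκ (h1 hκ) (h2 (h1 hκ))
  · exact gen1 hp (Or.inl rfl) hκ (h2 hκ)
  · rcases h6 hκ with h | h
    · exact gen1 hp (Or.inr rfl) h hκ
    · exact gen8 hp (Or.inl rfl) hκ h
  · rcases h8 hκ with h | h
    · exact gen3 hp h (h1 h) (h3 hκ) hκ
    · exact gen9 hp (h3 hκ) hκ h
  · rcases h9 hκ with h | h
    · exact gen4 hp h (h1 h) (h2 (h1 h)) hκ
    · rcases h10 hκ with h' | h'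
      · exact gen10 hp h' hκ h
      · exact gen7 hp hκ h (h4 h') h'
  · rcases h7 hκ with h | h
    · exact gen8 hp (Or.inr rfl) h hκ
    · exact gen5 hp (Or.inr rfl) hκ h
  · exact gen5 hp (Or.inl rfl) (h5 hκ) hκ
  · exact gen6 hp (Or.inl rfl) (h5 (h4 hκ)) (h4 hκ) hκ

end Pool.Agent.Lib.MP_2c6a5a_lc.Cl
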