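import Pool.Agent.Lib.MP_2c6a5a_lc.ClStage
import Pool.Agent.Lib.MP_2c6a5a_lc.ClDefs

/-! The eight hypotheses relative to the finished oracle. -/

namespace Pool.Agent.Lib.MP_2c6a5a_lc.Cl

open Finset Pool.Agent.Lib.MP_8a52c3_lc.Orc Pool.Agent.Lib.MP_2c6a5a_lc.Pf
  Pool.Agent.Lib.MP_2c6a5a_lc.Mx

set_option linter.unusedSectionVars false

def KR (A : Str → Bool) (κ : Kd) (s : Bool) (x y : Str) : Prop :=
  y.length ≤ x.length ^ 8 + 8 ∧ [A (gadr (gnm κ.toN x) s y.reverse)] = [true]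

def KS (A : Str → Bool) (κ : Kd) (s : Bool) : Set Str := {x | ∃ y, KR A κ s x y}

theorem KR_np (A : Str → Bool) (κ : Kd) (s : Bool) : NPRel A (KR A κ s) :=
  ⟨_, 8, gtester_FP2 A κ.toN s, fun _ _ => Iff.rfl⟩

theorem KS_np (A : Str → Bool) (κ : Kd) (s : Bool) : InNP A (KS A κ s) :=
  ⟨_, KR_np A κ s, fun _ => Iff.rfl⟩

def SR (A : Str → Bool) (T : ℕ) (x y : Str) : Prop :=
  y.length ≤ x.length ^ 1 + 1 ∧ [A (xadr T x.length y)] = [true]

theorem ST_np (A : Str → Bool) (T : ℕ) (s : Bool) : InNP A {x | ST A T s x} :=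
  ⟨_, ⟨_, 1, testerB_FP2 A T s, fun _ _ => Iff.rfl⟩, fun _ => Iff.rfl⟩

theorem ex_obS {R : Req3} (h : ¬ isP R.1) (A : Str → Bool) (z : Str) (s : Bool) :
    Ex (obS R A z) s ↔ Acc A (sel3 R s) z := by
  simp [Ex, obS, h, Pool.Agent.Lib.MP_8a52c3_lc.Orc.Acc]

theorem ex_cand {R : Req3} (h : ¬ isP R.1) (ρ : Red) (A : Str → Bool) (T n : ℕ) (s : Bool) :
    Ex (cand R ρ A T n) s ↔ Acc A (sel3 R s) (ev A ρ.1 (List.replicate n true)) := by
  have : R.1 ≠ .b := fun e => h (Or.inl e)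
  simp [Ex, cand, h, this, Pool.Agent.Lib.MP_8a52c3_lc.Orc.Acc]

theorem prom_proof {A : Str → Bool} {κ : Kd} (hκ : isP κ) {V : Ver} {ρ : Clk}
    (h : ∀ d, Acc A V (ev A ρ d) ↔ κ = .f) (z : Str) :
    Prom κ (obS (κ, (ρ.1, ρ.2, 0), V) A z) := by
  have key : Ex (obS (κ, (ρ.1, ρ.2, 0), V) A z) false →
      (Ex (obS (κ, (ρ.1, ρ.2, 0), V) A z) true ↔ κ = .f) := by
    rintro ⟨y, hy⟩
    simp only [obS, if_pos hκ, Bool.false_eq_true, if_false] at hy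
    rw [← h (undbl z), show ev A ρ (undbl z) = phiOf z from hy.2]
    simp [Ex, obS, hκ, Pool.Agent.Lib.MP_8a52c3_lc.Orc.Acc]
  rcases hκ with rfl | rfl | rfl
  · exact fun hh => by simpa using (key hh.1).1 hh.2
  · exact fun hh => by simpa using (key hh.1).1 hh.2
  · exact fun hh => (key hh).2 rfl

section
variable {F : ℕ → Kd × Ver} {Vd : ℕ → Ver} {E : ℕ → Req3} {π : Kd → Prop} {A : Str → Bool}
  (hF : Function.Surjective F) (hV : Function.Surjective Vd)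
  (hE : ∀ a j, E (Nat.pair a j) = ((F a).1, Vd j, (F a).2)) (h : Fin4 E π A)
include h

theorem KR_iff (κ : Kd) (s : Bool) (x y : Str) :
    KR A κ s x y ↔ bitR A (gnm κ.toN x) s y.reverse := by
  unfold KR bitR
  refine ⟨fun hh => ⟨h.fg _ _ _ (List.cons.inj hh.2).1, (List.cons.inj hh.2).1⟩,
    fun hh => ⟨?_, by rw [hh.2]⟩⟩
  have h1 := hh.1
  have h2 := κ.toN_le
  have h3 : x.length ≤ x.length ^ 8 := Nat.le_self_pow (by omega) _
  unfold wl at h1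
  simp only [List.length_reverse, gnm, List.length_append, List.length_replicate,
    List.length_cons] at h1
  split_ifs at h1 <;> omega

theorem KS_iff (κ : Kd) (s : Bool) (x : Str) :
    x ∈ KS A κ s ↔ Ex (bitR A (gnm κ.toN x)) s :=
  ⟨fun ⟨y, hy⟩ => ⟨_, (KR_iff h κ s x y).1 hy⟩,
    fun ⟨w, hw⟩ => ⟨w.reverse, (KR_iff h κ s x _).2 (by simpa using hw)⟩⟩

theorem K_prom {κ : Kd} (hκ : ¬ isP κ) (x : Str) : Prom κ (bitR A (gnm κ.toN x)) := by
  have := (h.unc (gnm κ.toN x)).1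
  rw [gk_gnm] at this
  exact (unc_prom hκ).1 this

theorem pad {a j : ℕ} {R : Req3} (hR : E (Nat.pair a j) = R) (h1 : ¬ π R.1)
    (h2 : ∀ z, Prom R.1 (obS R A z)) {f : ℕ → ℕ} (hf : QB f) :
    ∃ s c, ∀ (n : ℕ) (z : Str), z.length ≤ f n →
      Cnd R.1 (obS R A z) (bitR A (gnm R.1.toN (fmt a j (s * (n + 1) ^ c) z))) prR [] := by
  subst hR
  obtain ⟨l, hl⟩ := h.cnd _ h1 h2
  obtain ⟨s, c, hsc⟩ := (((QB_tS (E (Nat.pair a j)) hf).pow 2).add (QB.const l)).poly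
  refine ⟨s, c, fun n z hz => ?_⟩
  have hb := hsc n
  have hlen : s * (n + 1) ^ c ≤
      (gnm (E (Nat.pair a j)).1.toN (fmt a j (s * (n + 1) ^ c) z)).length := by
    simp only [gnm, List.length_append, List.length_cons, fmt_length]; omega
  have := hl _ (le_trans (by omega) hlen) ⟨by rw [gj_gnm, gk_gnm], by
    rw [gj_gnm, gz_gnm]
    exact (tS_mono _ hz).trans (Nat.le_sqrt'.2 (by omega))⟩ (gj_gnm _ _ _ _ _)
  unfold CndR obG at this
  rwa [gk_gnm, gj_gnm, gz_gnm] at this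

theorem SR_iff (T : ℕ) {n : ℕ} {x : Str} (hx : x.length = n) (y : Str) :
    SR A T x y ↔ ∃ z : Zt n, y = z.1 :: z.2.1 ∧ memR A T n z := by
  subst hx
  constructor
  · rintro ⟨_, h2⟩
    obtain ⟨z, rfl⟩ := ex_vec (h.fx _ _ _ (List.cons.inj h2).1)
    exact ⟨z, rfl, (List.cons.inj h2).1⟩
  · rintro ⟨z, rfl, hz⟩
    exact ⟨by rw [List.length_cons, z.2.2, pow_one], congrArg (fun t => [t]) hz⟩

theorem ST_iff {κ : Kd} (hκ : κ = .a ∨ κ = .e ∨ κ = .h) (T : ℕ) (s : Bool) {n : ℕ} {x : Str}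
    (hx : x.length = n) : ST A T s x ↔ Ex (wob κ (memR A T n)) s := by
  subst hx
  rw [wob_side hκ]
  constructor
  · rintro ⟨y, _, h2⟩
    have := h.fx _ _ _ (List.cons.inj h2).1
    exact ⟨⟨y, by simpa using this⟩, (List.cons.inj h2).1⟩
  · rintro ⟨v, hv⟩
    exact ⟨v.1, by rw [v.2, pow_one]; omega, congrArg (fun t => [t]) hv⟩

theorem code_iff {κ : Kd} (hκ : isP κ) (T n : ℕ) :
    code T n ∈ Lst A ↔ Ex (wob κ (memR A T n)) true := by
  rw [wob_ex (Or.inl hκ)]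
  constructor
  · rintro ⟨y, _, h2⟩
    rw [code_adr] at h2
    obtain ⟨z, rfl⟩ := ex_vec (h.fx _ _ _ (List.cons.inj h2).1)
    exact ⟨z, (List.cons.inj h2).1⟩
  · rintro ⟨z, hz⟩
    refine ⟨z.1 :: z.2.1, by rw [List.length_cons, z.2.2, pow_one, code_length]; omega, ?_⟩
    rw [code_adr]
    exact congrArg (fun t => [t]) hz

include hF hV hE

omit h in
theorem enum (R : Req3) : ∃ a j, E (Nat.pair a j) = R := by
  obtain ⟨a, ha⟩ := hF (R.1, R.2.2)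
  obtain ⟨j, hj⟩ := hV R.2.1
  exact ⟨a, j, by rw [hE, ha, hj]⟩

theorem coded {R : Req3} (h1 : ¬ π R.1) (h2 : ∀ z, Prom R.1 (obS R A z)) :
    ∃ f, FP1 A f ∧ ∀ x, Cnd R.1 (obS R A x) (bitR A (gnm R.1.toN (f x))) prR [] := by
  obtain ⟨a, j, hR⟩ := enum hF hV hE R
  obtain ⟨s, c, hsc⟩ := pad h hR h1 h2 QB.id
  exact ⟨_, addr_FP1 A (id_FP1 A) a j s c, fun x => hsc x.length x le_rfl⟩

theorem diag {R : Req3} (h1 : Proper π R) (h2 : ∀ z, Prom R.1 (obS R A z)) :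
    ∃ T, (∀ n, WitR R.1 A T n) ∧ ∀ ρ, FailR R ρ T A := by
  obtain ⟨a, j, rfl⟩ := enum hF hV hE R
  exact h.cdd _ h1 h2

theorem part_a : DisjNP A ↔ π .a := by
  have np : ¬ isP .a := by simp [isP]
  have pr : ∀ {B₀ B₁ : Set Str} {V₀ V₁ : Ver}, (∀ x, x ∈ B₀ ↔ Acc A V₀ x) →
      (∀ x, x ∈ B₁ ↔ Acc A V₁ x) → Disjoint B₀ B₁ → ∀ z, Prom .a (obS (.a, V₀, V₁) A z) :=
    fun h0 h1 hd z hh => Set.disjoint_left.1 hd ((h0 z).2 ((ex_obS np _ _ _).1 hh.1))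
      ((h1 z).2 ((ex_obS np _ _ _).1 hh.2))
  constructor
  · intro hh
    by_contra hn
    refine hh ⟨_, _, KS_np A .a false, KS_np A .a true, Set.disjoint_left.2 fun x a b =>
      K_prom h np x ⟨(KS_iff h _ _ _).1 a, (KS_iff h _ _ _).1 b⟩, fun B₀ B₁ b0 b1 hd => ?_⟩
    obtain ⟨V₀, h0⟩ := inNP_ver b0
    obtain ⟨V₁, h1⟩ := inNP_ver b1
    obtain ⟨f, f1, f2⟩ := coded hF hV hE h (R := (.a, V₀, V₁)) hn (pr h0 h1 hd)
    exact ⟨f, f1, fun x =>
      ⟨fun hx => (KS_iff h _ _ _).2 (f2 x false ((ex_obS np _ _ _).2 ((h0 x).1 hx))),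
        fun hx => (KS_iff h _ _ _).2 (f2 x true ((ex_obS np _ _ _).2 ((h1 x).1 hx)))⟩⟩
  · rintro hp ⟨C₀, C₁, c0, c1, hd, hc⟩
    obtain ⟨V₀, h0⟩ := inNP_ver c0
    obtain ⟨V₁, h1⟩ := inNP_ver c1
    obtain ⟨T, t1, t2⟩ := diag hF hV hE h (R := (.a, V₀, V₁)) ⟨hp, fun a => absurd a np⟩
      (pr h0 h1 hd)
    obtain ⟨f, f1, f2⟩ := hc _ _ (ST_np A T false) (ST_np A T true)
      (Set.disjoint_left.2 fun x a b => t1 x.length
        ⟨(ST_iff h (by simp) T _ rfl).1 a, (ST_iff h (by simp) T _ rfl).1 b⟩)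
    obtain ⟨ρ, hρ⟩ := ev_eq f1
    obtain ⟨n, hn⟩ := t2 (ρ, ρ)
    refine hn fun s hs => (ex_cand np _ _ _ _ _).2 ?_
    have := (ST_iff h (by simp) T s (x := List.replicate n true) (by simp)).2 hs
    rw [hρ]
    cases s
    · exact (h0 _).1 ((f2 _).1 this)
    · exact (h1 _).1 ((f2 _).2 this)

theorem part_h : DisjCoNP A ↔ π .h := by
  have np : ¬ isP .h := by simp [isP]
  have pr : ∀ {B₀ B₁ : Set Str} {V₀ V₁ : Ver}, (∀ x, x ∈ B₀ᶜ ↔ Acc A V₀ x) →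
      (∀ x, x ∈ B₁ᶜ ↔ Acc A V₁ x) → Disjoint B₀ B₁ → ∀ z, Prom .h (obS (.h, V₀, V₁) A z) := by
    intro B₀ B₁ V₀ V₁ h0 h1 hd z
    by_cases hz : z ∈ B₀
    · exact Or.inr ((ex_obS np _ _ _).2 ((h1 z).1 (Set.disjoint_left.1 hd hz)))
    · exact Or.inl ((ex_obS np _ _ _).2 ((h0 z).1 hz))
  constructor
  · intro hh
    by_contra hn
    refine hh ⟨(KS A .h false)ᶜ, (KS A .h true)ᶜ, by simpa using KS_np A .h false,
      by simpa using KS_np A .h true, Set.disjoint_left.2 fun x a b =>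
      (K_prom h np x).elim (fun c => a ((KS_iff h _ _ _).2 c)) fun c => b ((KS_iff h _ _ _).2 c),
      fun B₀ B₁ b0 b1 hd => ?_⟩
    obtain ⟨V₀, h0⟩ := inNP_ver b0
    obtain ⟨V₁, h1⟩ := inNP_ver b1
    obtain ⟨f, f1, f2⟩ := coded hF hV hE h (R := (.h, V₀, V₁)) hn (pr h0 h1 hd)
    exact ⟨f, f1, fun x =>
      ⟨fun hx c => (h0 x).2 ((ex_obS np _ _ _).1 (f2 x false ((KS_iff h _ _ _).1 c))) hx,
        fun hx c => (h1 x).2 ((ex_obS np _ _ _).1 (f2 x true ((KS_iff h _ _ _).1 c))) hx⟩⟩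
  · rintro hp ⟨C₀, C₁, c0, c1, hd, hc⟩
    obtain ⟨V₀, h0⟩ := inNP_ver c0
    obtain ⟨V₁, h1⟩ := inNP_ver c1
    obtain ⟨T, t1, t2⟩ := diag hF hV hE h (R := (.h, V₀, V₁)) ⟨hp, fun a => absurd a np⟩
      (pr h0 h1 hd)
    obtain ⟨f, f1, f2⟩ := hc {x | ST A T false x}ᶜ {x | ST A T true x}ᶜ
      (by simpa only [compl_compl] using ST_np A T false)
      (by simpa only [compl_compl] using ST_np A T true)
      (Set.disjoint_left.2 fun x a b => (t1 x.length).elim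
        (fun c => a ((ST_iff h (by simp) T _ rfl).2 c)) fun c => b ((ST_iff h (by simp) T _ rfl).2 c))
    obtain ⟨ρ, hρ⟩ := ev_eq f1
    obtain ⟨n, hn⟩ := t2 (ρ, ρ)
    refine hn fun s hs => (ST_iff h (by simp) T s (x := List.replicate n true) (by simp)).1 ?_
    have := (ex_cand np _ _ _ _ _).1 hs
    rw [hρ] at this
    by_contra hh
    cases s
    · exact (h0 _).2 this ((f2 _).1 hh)
    · exact (h1 _).2 this ((f2 _).2 hh)

theorem part_e : HypNPcoNP A ↔ π .e := by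
  have np : ¬ isP .e := by simp [isP]
  have pr : ∀ {B : Set Str} {V₀ V₁ : Ver}, (∀ x, x ∈ Bᶜ ↔ Acc A V₀ x) →
      (∀ x, x ∈ B ↔ Acc A V₁ x) → ∀ z, Prom .e (obS (.e, V₀, V₁) A z) := by
    intro B V₀ V₁ h0 h1 z
    refine ⟨fun hh => (h0 z).2 ((ex_obS np _ _ _).1 hh.1) ((h1 z).2 ((ex_obS np _ _ _).1 hh.2)), ?_⟩
    by_cases hz : z ∈ B
    · exact Or.inr ((ex_obS np _ _ _).2 ((h1 z).1 hz))
    · exact Or.inl ((ex_obS np _ _ _).2 ((h0 z).1 hz))
  constructor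
  · intro hh
    by_contra hn
    have e : (KS A .e true)ᶜ = KS A .e false := by
      ext x
      have := K_prom h np x
      rw [Set.mem_compl_iff, KS_iff h, KS_iff h]
      exact ⟨fun a => this.2.resolve_right a, fun a b => this.1 ⟨a, b⟩⟩
    refine hh ⟨_, ⟨KS_np A .e true, e ▸ KS_np A .e false⟩, fun B hB => ?_⟩
    obtain ⟨V₀, h0⟩ := inNP_ver hB.2
    obtain ⟨V₁, h1⟩ := inNP_ver hB.1
    obtain ⟨f, f1, f2⟩ := coded hF hV hE h (R := (.e, V₀, V₁)) hn (pr h0 h1)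
    refine ⟨f, f1, fun x => ⟨fun hx => (KS_iff h _ _ _).2
      (f2 x true ((ex_obS np _ _ _).2 ((h1 x).1 hx))), fun hx => ?_⟩⟩
    by_contra hh
    exact (K_prom h np (f x)).1 ⟨f2 x false ((ex_obS np _ _ _).2 ((h0 x).1 hh)),
      (KS_iff h _ _ _).1 hx⟩
  · rintro hp ⟨C, ⟨c1, c0⟩, hc⟩
    obtain ⟨V₀, h0⟩ := inNP_ver c0
    obtain ⟨V₁, h1⟩ := inNP_ver c1
    obtain ⟨T, t1, t2⟩ := diag hF hV hE h (R := (.e, V₀, V₁)) ⟨hp, fun a => absurd a np⟩
      (pr h0 h1)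
    have e : {x | ST A T true x}ᶜ = {x | ST A T false x} := by
      ext x
      have := t1 x.length
      rw [Set.mem_compl_iff, Set.mem_ofPred_eq, Set.mem_ofPred_eq,
        ST_iff h (κ := .e) (by simp) T _ rfl, ST_iff h (κ := .e) (by simp) T _ rfl]
      exact ⟨fun a => this.2.resolve_right a, fun a b => this.1 ⟨a, b⟩⟩
    obtain ⟨f, f1, f2⟩ := hc _ ⟨ST_np A T true, e ▸ ST_np A T false⟩
    obtain ⟨ρ, hρ⟩ := ev_eq f1
    obtain ⟨n, hn⟩ := t2 (ρ, ρ)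
    refine hn fun s hs => (ex_cand np _ _ _ _ _).2 ?_
    have := (ST_iff h (by simp) T s (x := List.replicate n true) (by simp)).2 hs
    rw [hρ]
    cases s
    · have h2 : List.replicate n true ∈ {x | ST A T true x}ᶜ := e ▸ this
      exact (h0 _).1 fun hh => h2 ((f2 _).2 hh)
    · exact (h1 _).1 ((f2 _).1 this)

theorem part_d : HypUP A ↔ π .d := by
  have np : ¬ isP .d := by simp [isP]
  have pr : ∀ {B : Set Str}, InUP A B → ∃ V : Ver, (∀ x, x ∈ B ↔ Acc A V x) ∧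
      ∀ z, Prom .d (obS (.d, V, V) A z) := by
    rintro B ⟨R, hR, hB, hu⟩
    obtain ⟨V, hV⟩ := npRel_ver hR
    refine ⟨V, fun x => (hB x).trans (exists_congr fun y => hV x y), fun z y y' a b => ?_⟩
    simp only [obS, if_neg np, sel3, if_true] at a b
    exact hu z y y' ((hV _ _).2 a) ((hV _ _).2 b)
  constructor
  · intro hh
    by_contra hn
    refine hh ⟨KS A .d true, ⟨_, KR_np A .d true, fun _ => Iff.rfl, fun x y y' a b =>
      List.reverse_injective (K_prom h np x _ _ ((KR_iff h _ _ _ _).1 a)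
        ((KR_iff h _ _ _ _).1 b))⟩, fun B hB => ?_⟩
    obtain ⟨V, h0, h1⟩ := pr hB
    obtain ⟨f, f1, f2⟩ := coded hF hV hE h (R := (.d, V, V)) hn h1
    exact ⟨f, f1, fun x => (h0 x).trans ((ex_obS (R := (.d, V, V)) np A x true).symm.trans
      ((f2 x).trans (KS_iff h _ _ _).symm))⟩
  · rintro hp ⟨C, c0, hc⟩
    obtain ⟨V, h0, h1⟩ := pr c0
    obtain ⟨T, t1, t2⟩ := diag hF hV hE h (R := (.d, V, V)) ⟨hp, fun a => absurd a np⟩ h1
    obtain ⟨f, f1, f2⟩ := hc {x | ∃ y, SR A T x y}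
      ⟨_, ⟨_, 1, tester_FP2 A T, fun _ _ => Iff.rfl⟩, fun _ => Iff.rfl, fun x y y' a b => by
        obtain ⟨z, rfl, hz⟩ := (SR_iff h T rfl y).1 a
        obtain ⟨z', rfl, hz'⟩ := (SR_iff h T rfl y').1 b
        rw [Option.some.inj (t1 x.length (some z) (some z')
          ((wob_true (by simp) _ _).2 ⟨z, rfl, hz⟩) ((wob_true (by simp) _ _).2 ⟨z', rfl, hz'⟩))]⟩
    obtain ⟨ρ, hρ⟩ := ev_eq f1
    obtain ⟨n, hn⟩ := t2 (ρ, ρ)
    refine hn (Iff.trans ?_ (ex_cand (R := (.d, V, V)) np (ρ, ρ) A T n true).symm)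
    rw [hρ, wob_ex (by simp)]
    refine Iff.trans ?_ ((f2 _).trans (h0 _))
    simp only [Set.mem_ofPred_eq, SR_iff h T (List.length_replicate (n := n) (a := true))]
    exact ⟨fun ⟨z, hz⟩ => ⟨_, z, rfl, hz⟩, fun ⟨_, z, _, hz⟩ => ⟨z, hz⟩⟩

theorem part_g : TFNP A ↔ π .g := by
  have np : ¬ isP .g := by simp [isP]
  have pr : ∀ {S : Str → Str → Prop}, IsTFNP A S → ∃ V : Ver, (∀ x y, S x y ↔ Sol A V x y) ∧
      ∀ z, Prom .g (obS (.g, V, V) A z) := by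
    rintro S ⟨h1, h2⟩
    obtain ⟨V, hV⟩ := npRel_ver h1
    refine ⟨V, hV, fun z => (ex_obS (R := (.g, V, V)) np A z true).2 ?_⟩
    obtain ⟨y, hy⟩ := h2 z
    exact ⟨y, (hV _ _).1 hy⟩
  constructor
  · intro hh
    by_contra hn
    refine hh ⟨KR A .g true, ⟨KR_np A .g true, fun x => (KS_iff h .g true x).2 (K_prom h np x)⟩,
      fun S hS => ?_⟩
    obtain ⟨V, h0, h1⟩ := pr hS
    obtain ⟨f, f1, f2⟩ := coded hF hV hE h (R := (.g, V, V)) hn h1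
    refine ⟨f, _, f1, unpad2_FP2 A, fun x y hy => (h0 _ _).2 ?_⟩
    simpa [obS, np, sel3] using f2 x _ ((KR_iff h _ _ _ _).1 hy)
  · rintro hp ⟨C, c0, hc⟩
    obtain ⟨V, h0, h1⟩ := pr c0
    obtain ⟨T, t1, t2⟩ := diag hF hV hE h (R := (.g, V, V)) ⟨hp, fun a => absurd a np⟩ h1
    obtain ⟨f, g, f1, ⟨M, k, hM⟩, f2⟩ := hc (SR A T)
      ⟨⟨_, 1, tester_FP2 A T, fun _ _ => Iff.rfl⟩, fun x => by
        obtain ⟨z, hz⟩ := (wob_ex (by simp) _).1 (t1 x.length)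
        exact ⟨_, (SR_iff h T rfl _).2 ⟨z, rfl, hz⟩⟩⟩
    obtain ⟨ρ, hρ⟩ := ev_eq f1
    obtain ⟨n, hn⟩ := t2 (ρ, (M, k))
    refine hn fun ω hω => ?_
    have h2 : Sol A V (ev A ρ (List.replicate n true)) ω := by
      simpa [cand, np, sel3] using hω
    have h3 := ev_len A ρ (List.replicate n true)
    rw [List.length_replicate] at h3
    have h4 := (sol_len h2).trans (tm_mono V h3)
    rw [hρ] at h2
    obtain ⟨z, z1, z2⟩ := (SR_iff h T (List.length_replicate (n := n) (a := true)) _).1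
      (f2 _ _ ((h0 _ _).2 h2))
    refine (wob_true (by simp) _ _).2 ⟨z, ?_, z2⟩
    rw [prC, if_pos h4, show gout A (ρ, (M, k)) (List.replicate n true) ω = _ from (hM _ _).2, z1,
      decZ_cons]

theorem opt {κ : Kd} (hκ : isP κ) (hn : ¬ π κ) {L : Set Str} (hL : L.Nonempty) {V : Ver}
    (hLV : ∀ x, x ∈ L ↔ (Acc A V x ↔ κ = .f)) :
    ∃ P, FP1 A P ∧ Set.range P = L ∧ ∀ Q, FP1 A Q → (∀ d, Q d ∈ L) →
      (∃ k, ∀ d, ∃ w, w.length ≤ d.length ^ k + k ∧ P w = Q d) ∧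
      (κ ≠ .b → ∃ f, FP1 A f ∧ ∀ d, P (f d) = Q d) := by
  obtain ⟨y₀, hy₀⟩ := hL
  obtain ⟨a, ha⟩ := hF (κ, V)
  have sim : ∀ Q, FP1 A Q → (∀ d, Q d ∈ L) →
      (∃ k, ∀ d, ∃ w, w.length ≤ d.length ^ k + k ∧ sysQ A κ.toN a y₀ w = Q d) ∧
      (κ ≠ .b → ∃ f, FP1 A f ∧ ∀ d, sysQ A κ.toN a y₀ (f d) = Q d) := by
    intro Q hQ hr
    obtain ⟨ρ, hρ⟩ := ev_eq hQ
    obtain ⟨j, hj⟩ := hV (ρ.1, ρ.2, 0)
    have q1 : QB fun n => 2 * n + 1 + cost ρ n :=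
      (((QB.const 2).mul QB.id).add (QB.const 1)).add (QB_cost ρ QB.id)
    obtain ⟨s, c, hsc⟩ := pad h (R := (κ, (ρ.1, ρ.2, 0), V)) (a := a) (j := j)
      (by rw [hE, ha, hj]) hn (prom_proof hκ fun d => by rw [hρ]; exact (hLV _).1 (hr d)) q1
    have hl : ∀ d : Str, (dbl d ++ false :: Q d).length ≤ 2 * d.length + 1 + cost ρ d.length := by
      intro d
      have := ev_len A ρ d
      rw [hρ] at this
      simp only [List.length_append, dbl_length, List.length_cons]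
      omega
    have key := fun d : Str => hsc d.length _ (hl d)
    have ex : ∀ d : Str, Ex (obS (κ, (ρ.1, ρ.2, 0), V) A (dbl d ++ false :: Q d)) false :=
      fun d => ⟨[], by
        simp only [obS, if_pos hκ, Bool.false_eq_true, if_false, undbl_dbl, phiOf_dbl, true_and]
        exact hρ d⟩
    have out : ∀ (d w : Str) (p : ℕ),
        bitR A (gnm κ.toN (fmt a j p (dbl d ++ false :: Q d))) false w →
        sysQ A κ.toN a y₀ (gadr (gnm κ.toN (fmt a j p (dbl d ++ false :: Q d))) false w) = Q d :=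
      fun d w p hb => by rw [sysQ, if_pos hb.2, parseQ_fmt]; rfl
    constructor
    · obtain ⟨k, hk⟩ := QB_clock (((QB.const 3).mul (((QB.const (a + j + 11)).add
        (QB_pad s c)).add q1)).add (QB.const 3))
      refine ⟨k, fun d => ?_⟩
      obtain ⟨w, hw⟩ : Ex (bitR A (gnm κ.toN (fmt a j (s * (d.length + 1) ^ c)
          (dbl d ++ false :: Q d)))) false := by
        rcases hκ with rfl | rfl | rfl
        · exact key d (ex d)
        · exact ⟨_, key d (ex d)⟩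
        · exact ⟨_, key d (ex d)⟩
      refine ⟨_, le_trans ?_ (hk _), out d w _ hw⟩
      have h1 := hw.1
      have h2 := κ.toN_le
      have h3 := hl d
      rw [gadr_length]
      unfold wl at h1
      simp only [gnm, List.length_append, List.length_replicate, List.length_cons,
        fmt_length] at h1 h3 ⊢
      split_ifs at h1 <;> omega
    · intro hb
      refine ⟨_, pre_FP1 A (addr_FP1 A (pair_FP1 A hQ) a j s c)
        (true :: false :: false :: (List.replicate κ.toN true ++ [false])), fun d => ?_⟩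
      refine Eq.trans (congrArg _ ?_) (out d [] (s * (d.length + 1) ^ c) ?_)
      · simp [gadr, gnm, dbl]
      · rcases hκ with rfl | rfl | rfl
        · exact absurd rfl hb
        · exact key d (ex d)
        · exact key d (ex d)
  refine ⟨_, sysQ_FP1 A κ.toN a y₀, ?_, sim⟩
  ext y
  constructor
  · rintro ⟨w, rfl⟩
    unfold sysQ
    split_ifs with hA
    swap
    · exact hy₀
    rcases hq : parseQ κ.toN a w with _ | φ
    · exact hy₀
    obtain ⟨j, p, w', d, rfl⟩ := parseQ_some hq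
    have h1 := (h.unc (gnm κ.toN (fmt a j p (dbl d ++ false :: φ)))).1
    have h2 : Ex (bitR A (gnm κ.toN (fmt a j p (dbl d ++ false :: φ)))) false :=
      ⟨w', h.fg _ _ _ hA, hA⟩
    have h3 : Ex (obG E A (gnm κ.toN (fmt a j p (dbl d ++ false :: φ)))) true ↔ Acc A V φ := by
      unfold obG
      rw [gj_gnm, gz_gnm, hE, ha]
      simp [Ex, obS, hκ, Pool.Agent.Lib.MP_8a52c3_lc.Orc.Acc, phiOf_dbl]
    rw [gk_gnm] at h1
    refine (hLV φ).2 ?_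
    rw [← h3]
    rcases hκ with rfl | rfl | rfl
    · simpa using fun hh => h1 ⟨h2, hh⟩
    · simpa using fun hh => h1 ⟨h2, hh⟩
    · simpa using h1 h2
  · intro hy
    obtain ⟨k, hk⟩ := (sim _ (const_FP1 A y) fun _ => hy).1
    obtain ⟨w, _, hw⟩ := hk []
    exact ⟨w, hw⟩

theorem nopt {κ : Kd} (hκ : isP κ) (hp : π κ) {L : Set Str}
    (hL : ∀ x, x ∈ L ↔ (x ∈ Lst A ↔ κ = .f)) {P : Str → Str} (hP : FP1 A P)
    (hr : Set.range P = L) : ∃ Q, FP1 A Q ∧ Set.range Q = L ∧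
      (κ = .b → ¬ ∃ k, ∀ d, ∃ w, w.length ≤ d.length ^ k + k ∧ P w = Q d) ∧
      (κ ≠ .b → ¬ ∃ f, FP1 A f ∧ ∀ d, P (f d) = Q d) := by
  obtain ⟨V, hR⟩ := exists_rev
  obtain ⟨ρ, hρ⟩ := ev_eq hP
  have acc : ∀ x, Acc A V x ↔ x ∈ Lst A := fun x => exists_congr fun y => hR A x y
  obtain ⟨T, t1, t2⟩ := diag hF hV hE h (R := (κ, (ρ.1, ρ.2, 0), V)) ⟨hp, fun _ => hR⟩
    (prom_proof hκ fun d => by rw [hρ, acc, ← hL, ← hr]; exact Set.mem_range_self d)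
  refine ⟨_, hfun_FP1 A hP [] T, hfun_range hr fun n => ?_, ?_, ?_⟩
  · rw [List.nil_append, hL, code_iff h hκ]
    have h1 := t1 n
    have h2 := wob_false hκ (memR A T n)
    rcases hκ with rfl | rfl | rfl
    · simpa using fun hh => h1 ⟨h2, hh⟩
    · simpa using fun hh => h1 ⟨h2, hh⟩
    · simpa using h1 h2
  · rintro rfl ⟨k, hk⟩
    obtain ⟨n, hn⟩ := t2 (([], k), ([], k))
    obtain ⟨w, w1, w2⟩ := hk (true :: List.replicate n true)
    refine hn fun _ => ⟨w, ?_⟩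
    simp only [cand, if_true]
    exact ⟨by simpa using w1, (hρ w).trans (by simpa [hfun] using w2)⟩
  · rintro hb ⟨f, f1, f2⟩
    obtain ⟨ρ', hρ'⟩ := ev_eq f1
    obtain ⟨n, hn⟩ := t2 (ρ', ρ')
    have : cand (κ, (ρ.1, ρ.2, 0), V) (ρ', ρ') A T n false [] := by
      simp only [cand, if_neg hb, if_pos hκ]
      refine (hρ _).trans ?_
      rw [hρ', f2]
      simp [hfun]
    rcases hκ with rfl | rfl | rfl
    · exact absurd rfl hb
    · exact hn fun _ => this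
    · exact hn fun _ => this

omit hF hV hE in
theorem lst_ne : (Lst A).Nonempty ∧ (Lst A)ᶜ.Nonempty := by
  constructor
  · obtain ⟨w, _, hw⟩ := K_prom h (κ := .g) (by simp [isP]) []
    exact ⟨(gadr (gnm Kd.g.toN []) true w).reverse, [], by simp, by simp [hw]⟩
  · refine ⟨(xadr 0 0 [true, true]).reverse, ?_⟩
    rintro ⟨y, _, y2⟩
    have := h.fx 0 0 (true :: true :: y) (by simpa [xadr, adr] using (List.cons.inj y2).1)
    simp at this

omit hF hV hE h in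
theorem lst_np : InNP A (Lst A) := ⟨_, ⟨_, 1, rev_FP2 A, fun _ _ => Iff.rfl⟩, fun _ => Iff.rfl⟩

theorem part_b : CONN A ↔ π .b := by
  constructor
  · rintro ⟨L, h1, h2, h3⟩
    by_contra hn
    obtain ⟨V, hV'⟩ := inNP_ver h2
    obtain ⟨P, p1, p2, p3⟩ := opt hF hV hE h (κ := .b) (by simp [isP]) hn h1 (V := V)
      fun x => by simp [← hV']
    exact h3 ⟨P, p1, p2, fun Q q1 q2 => (p3 Q q1 fun d => q2 ▸ Set.mem_range_self d).1⟩
  · refine fun hp => ⟨(Lst A)ᶜ, (lst_ne h).2, by simpa using lst_np, ?_⟩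
    rintro ⟨P, p1, p2, p3⟩
    obtain ⟨Q, q1, q2, q3, _⟩ := nopt hF hV hE h (κ := .b) (by simp [isP]) hp (by simp) p1 p2
    exact q3 rfl (p3 Q q1 q2)

theorem part_c : CON A ↔ π .c := by
  constructor
  · rintro ⟨L, h1, h2, h3⟩
    by_contra hn
    obtain ⟨V, hV'⟩ := inNP_ver h2
    obtain ⟨P, p1, p2, p3⟩ := opt hF hV hE h (κ := .c) (by simp [isP]) hn h1 (V := V)
      fun x => by simp [← hV']
    exact h3 ⟨P, p1, p2, fun Q q1 q2 =>
      (p3 Q q1 fun d => q2 ▸ Set.mem_range_self d).2 (by simp)⟩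
  · refine fun hp => ⟨(Lst A)ᶜ, (lst_ne h).2, by simpa using lst_np, ?_⟩
    rintro ⟨P, p1, p2, p3⟩
    obtain ⟨Q, q1, q2, _, q3⟩ := nopt hF hV hE h (κ := .c) (by simp [isP]) hp (by simp) p1 p2
    exact q3 (by simp) (p3 Q q1 q2)

theorem part_f : SAT A ↔ π .f := by
  constructor
  · rintro ⟨L, h1, h2, h3⟩
    by_contra hn
    obtain ⟨V, hV'⟩ := inNP_ver h2
    obtain ⟨P, p1, p2, p3⟩ := opt hF hV hE h (κ := .f) (by simp [isP]) hn h1 (V := V)
      fun x => by simp [← hV']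
    exact h3 ⟨P, p1, p2, fun Q q1 q2 =>
      (p3 Q q1 fun d => q2 ▸ Set.mem_range_self d).2 (by simp)⟩
  · refine fun hp => ⟨Lst A, (lst_ne h).1, lst_np, ?_⟩
    rintro ⟨P, p1, p2, p3⟩
    obtain ⟨Q, q1, q2, _, q3⟩ := nopt hF hV hE h (κ := .f) (by simp [isP]) hp (by simp) p1 p2
    exact q3 (by simp) (p3 Q q1 q2)

end

instance : Countable Kd := (Function.LeftInverse.injective Kd.of_to).countable

theorem main (a b c d e f g h : Prop) (h1 : a → b) (h2 : b → c) (h3 : d → c) (h4 : h → g)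
    (h5 : g → f) (h6 : c → b ∨ f) (h7 : f → c ∨ g) (h8 : d → a ∨ f) (h9 : e → a ∨ f)
    (h10 : e → c ∨ h) : ∃ A : List Bool → Bool,
    (DisjNP A ↔ a) ∧ (CONN A ↔ b) ∧ (CON A ↔ c) ∧ (HypUP A ↔ d) ∧ (HypNPcoNP A ↔ e) ∧
      (SAT A ↔ f) ∧ (TFNP A ↔ g) ∧ (DisjCoNP A ↔ h) := by
  have : Nonempty Kd := ⟨.a⟩
  obtain ⟨F, hF⟩ := exists_surjective_nat (Kd × Ver)
  obtain ⟨Vd, hV⟩ := exists_surjective_nat Ver
  let π : Kd → Prop := fun κ => match κ with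
    | .a => a | .b => b | .c => c | .d => d | .e => e | .f => f | .g => g | .h => h
  let E : ℕ → Req3 := fun i => ((F (Nat.unpair i).1).1, Vd (Nat.unpair i).2, (F (Nat.unpair i).1).2)
  have hE : ∀ a j, E (Nat.pair a j) = ((F a).1, Vd j, (F a).2) := fun a j => by simp [E]
  obtain ⟨A, hA⟩ := exists_fin4 E (π := π) ⟨h1, h2, h3, h4, h5, h6, h7, h8, h9, h10⟩
  exact ⟨A, part_a hF hV hE hA, part_b hF hV hE hA, part_c hF hV hE hA, part_d hF hV hE hA,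
    part_e hF hV hE hA, part_f hF hV hE hA, part_g hF hV hE hA, part_h hF hV hE hA⟩

end Pool.Agent.Lib.MP_2c6a5a_lc.Cl
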