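import Pool.Agent.Lib.MP_2c6a5a_lc.MxMain

/-! Small programs for the classification oracle. -/

namespace Pool.Agent.Lib.MP_2c6a5a_lc.Cl

open Pool.Agent.Lib.MP_8a52c3_lc.Orc Pool.Agent.Lib.MP_2c6a5a_lc.Pf Pool.Agent.Lib.MP_2c6a5a_lc.Mx

/-- Doubling code: each bit `b` becomes `1 b`. -/
def dbl : Str → Str
  | [] => []
  | b :: s => true :: b :: dbl s

/-- Skip a doubled string and its terminator `0`. -/
def skipD : Str → Option Str
  | false :: s => some s
  | true :: _ :: s => skipD s
  | _ => none

/-- Addresses of a group `γ`: side `s`, witness `w`. -/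
def gadr (γ : Str) (s : Bool) (w : Str) : Str := true :: (dbl w ++ false :: s :: γ)

/-- Group names `1^k 0 x`. -/
def gnm (k : ℕ) (x : Str) : Str := List.replicate k true ++ false :: x

/-- The object witness inside a padded witness. -/
def prR (w : Str) : Str := ((skipD w).bind skipU).getD []

/-- The string named by an address of tag `k` and language index `a`. -/
def parseQ (k a : ℕ) : Str → Option Str
  | true :: false :: false :: s => ((((eatU k s).bind (eatU a)).bind skipU).bind skipU).bind skipD
  | true :: true :: _ :: s => parseQ k a (true :: s)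
  | _ => none

/-- The universal proof system of tag `k` and language index `a`. -/
def sysQ (A : Str → Bool) (k a : ℕ) (y₀ π : Str) : Str :=
  if A π = true then (parseQ k a π).getD y₀ else y₀

theorem dbl_append (s t : Str) : dbl (s ++ t) = dbl s ++ dbl t := by
  induction s with
  | nil => rfl
  | cons b s ih => simp [dbl, ih]

theorem dbl_length (s : Str) : (dbl s).length = 2 * s.length := by
  induction s with
  | nil => rfl
  | cons b s ih => simp [dbl, ih]; omega

theorem skipD_dbl (w s : Str) : skipD (dbl w ++ false :: s) = some s := by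
  induction w with
  | nil => rfl
  | cons b w ih => simpa [dbl, skipD] using ih

theorem skipD_some : ∀ {d s : Str}, skipD d = some s → ∃ w, d = dbl w ++ false :: s
  | [], _, h => by simp [skipD] at h
  | false :: d, _, h => by
    simp only [skipD, Option.some.injEq] at h
    exact ⟨[], by simp [dbl, h]⟩
  | [true], _, h => by simp [skipD] at h
  | true :: b :: d, s, h => by
    simp only [skipD] at h
    obtain ⟨w, hw⟩ := skipD_some h
    exact ⟨b :: w, by rw [hw]; rfl⟩

/-- Remove a leading `1`. -/
def eatT : Str → Option Str
  | true :: s => some s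
  | _ => none

theorem parseQ_true (k a : ℕ) : ∀ t : Str, parseQ k a (true :: t) =
    ((((((skipD t).bind (eatU 0)).bind (eatU k)).bind (eatU a)).bind skipU).bind skipU).bind skipD
  | [] => by simp [parseQ, skipD]
  | [false] => by simp [parseQ, skipD, eatU]
  | false :: false :: s => by simp [parseQ, skipD, eatU]
  | false :: true :: s => by simp [parseQ, skipD, eatU]
  | [true] => by simp [parseQ, skipD]
  | true :: b :: s => by
    rw [parseQ, parseQ_true k a s]
    simp [skipD]

theorem parseQ_eq (k a : ℕ) (π : Str) : parseQ k a π =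
    (((((((eatT π).bind skipD).bind (eatU 0)).bind (eatU k)).bind (eatU a)).bind skipU).bind
      skipU).bind skipD := by
  rcases π with _ | ⟨_ | _, t⟩
  · simp [parseQ, eatT]
  · simp [parseQ, eatT]
  · rw [parseQ_true]; simp [eatT]

/-- Move stack `i` onto stack `j`, writing `1 b` for each bit `b`. -/
def dblmv (i j l : ℕ) : List Instr :=
  [Instr.pop i (l + 4) (l + 1) (l + 2), Instr.push j false (l + 3), Instr.push j true (l + 3),
    Instr.push j true l]

theorem dblmv_reach (A : Str → Bool) (M : List Instr) {i j l : ℕ} (hij : i ≠ j)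
    (h : Has M l (dblmv i j l)) (w : Str) :
    ∀ st : ℕ → Str, st i = w →
      Reach A M (l, st)
        (l + 4, Function.update (Function.update st i []) j (dbl w.reverse ++ st j))
        (3 * w.length + 1) := by
  have h0 := h.head
  have h1 := h.tail.head
  have h2 := h.tail.tail.head
  have h3 := h.tail.tail.tail.head
  induction w with
  | nil =>
    intro st hs
    have := Reach.one (step_pop_nil (A := A) h0 st hs)
    refine this.cast (by simp) ?_
    funext m
    by_cases hj : m = j
    · subst hj; simp [dbl]
    · by_cases hi : m = i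
      · subst hi; simp [Function.update_of_ne hj, hs]
      · simp [Function.update_of_ne hj, Function.update_of_ne hi]
  | cons b w ih =>
    intro st hs
    have s12 : Reach A M (l, st) (l, Function.update (Function.update st i w) j
        (true :: b :: st j)) 3 := by
      cases b
      · have s1 := Reach.one (step_pop_false (A := A) h0 st hs)
        have s2 := Reach.one (step_push (A := A) h1 (Function.update st i w))
        have s3 := Reach.one (step_push (A := A) h3 (Function.update (Function.update st i w) j
          (false :: Function.update st i w j)))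
        have := (s1.trans s2).trans s3
        simpa [Function.update_of_ne hij.symm] using this
      · have s1 := Reach.one (step_pop_true (A := A) h0 st hs)
        have s2 := Reach.one (step_push (A := A) h2 (Function.update st i w))
        have s3 := Reach.one (step_push (A := A) h3 (Function.update (Function.update st i w) j
          (true :: Function.update st i w j)))
        have := (s1.trans s2).trans s3
        simpa [Function.update_of_ne hij.symm] using this
    have s3 := ih (Function.update (Function.update st i w) j (true :: b :: st j))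
        (by simp [Function.update_of_ne hij])
    have := s12.trans s3
    refine this.cast (by simp; omega) ?_
    funext m
    by_cases hj : m = j
    · subst hj; simp [dbl_append, dbl]
    · by_cases hi : m = i
      · subst hi; simp [Function.update_of_ne hj]
      · simp [Function.update_of_ne hj, Function.update_of_ne hi]

/-- Move stack `i` onto the two stacks `j` and `k`. -/
def mv2 (i j k l : ℕ) : List Instr :=
  [Instr.pop i (l + 5) (l + 1) (l + 3), Instr.push j false (l + 2), Instr.push k false l,
    Instr.push j true (l + 4), Instr.push k true l]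

theorem mv2_reach (A : Str → Bool) (M : List Instr) {i j k l : ℕ} (hij : i ≠ j)
    (hik : i ≠ k) (hjk : j ≠ k) (h : Has M l (mv2 i j k l)) (w : Str) :
    ∀ st : ℕ → Str, st i = w →
      Reach A M (l, st)
        (l + 5, Function.update (Function.update (Function.update st i []) j
          (w.reverse ++ st j)) k (w.reverse ++ st k))
        (3 * w.length + 1) := by
  have h0 := h.head
  have h1 := h.tail.head
  have h2 := h.tail.tail.head
  have h3 := h.tail.tail.tail.head
  have h4 := h.tail.tail.tail.tail.head
  induction w with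
  | nil =>
    intro st hs
    have := Reach.one (step_pop_nil (A := A) h0 st hs)
    refine this.cast (by simp) ?_
    funext m
    by_cases hk : m = k
    · subst hk; simp
    · by_cases hj : m = j
      · subst hj; simp [Function.update_of_ne hk]
      · by_cases hi : m = i
        · subst hi; simp [Function.update_of_ne hk, Function.update_of_ne hj, hs]
        · simp [Function.update_of_ne hk, Function.update_of_ne hj, Function.update_of_ne hi]
  | cons b w ih =>
    intro st hs
    have s12 : Reach A M (l, st) (l, Function.update (Function.update (Function.update st i w) j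
        (b :: st j)) k (b :: st k)) 3 := by
      cases b
      · have s1 := Reach.one (step_pop_false (A := A) h0 st hs)
        have s2 := Reach.one (step_push (A := A) h1 (Function.update st i w))
        have s3 := Reach.one (step_push (A := A) h2 (Function.update (Function.update st i w) j
          (false :: Function.update st i w j)))
        have := (s1.trans s2).trans s3
        simpa [Function.update_of_ne hij.symm, Function.update_of_ne hjk.symm,
          Function.update_of_ne hik.symm] using this
      · have s1 := Reach.one (step_pop_true (A := A) h0 st hs)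
        have s2 := Reach.one (step_push (A := A) h3 (Function.update st i w))
        have s3 := Reach.one (step_push (A := A) h4 (Function.update (Function.update st i w) j
          (true :: Function.update st i w j)))
        have := (s1.trans s2).trans s3
        simpa [Function.update_of_ne hij.symm, Function.update_of_ne hjk.symm,
          Function.update_of_ne hik.symm] using this
    have s3 := ih (Function.update (Function.update (Function.update st i w) j
        (b :: st j)) k (b :: st k))
        (by simp [Function.update_of_ne hij, Function.update_of_ne hik])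
    have := s12.trans s3
    refine this.cast (by simp; omega) ?_
    funext m
    by_cases hk : m = k
    · subst hk; simp
    · by_cases hj : m = j
      · subst hj; simp [Function.update_of_ne hk]
      · by_cases hi : m = i
        · subst hi; simp [Function.update_of_ne hk, Function.update_of_ne hj]
        · simp [Function.update_of_ne hk, Function.update_of_ne hj, Function.update_of_ne hi]

/-- The code from `l` to `e` applies `g` to stack 0, and jumps to `F` when `g` has no value. -/
def Stage (A : Str → Bool) (M : List Instr) (F l e : ℕ) (g : Str → Option Str) (c : ℕ) : Prop :=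
  ∀ st : ℕ → Str, ∃ s : Str, s.length ≤ (st 0).length ∧
    ((g (st 0) = some s ∧
        Reach A M (l, st) (e, Function.update st 0 s) (c * ((st 0).length + 1))) ∨
      (g (st 0) = none ∧
        Reach A M (l, st) (F, Function.update st 0 s) (c * ((st 0).length + 1))))

theorem Stage.comp {A : Str → Bool} {M : List Instr} {F l e e' c d : ℕ}
    {g g' : Str → Option Str} (h : Stage A M F l e g c) (h' : Stage A M F e e' g' d) :
    Stage A M F l e' (fun x => (g x).bind g') (c + d) := by
  intro st
  obtain ⟨s, h1, h2⟩ := h st
  rcases h2 with ⟨h2, h3⟩ | ⟨h2, h3⟩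
  · obtain ⟨s', k1, k2⟩ := h' (Function.update st 0 s)
    simp only [Function.update_self, Function.update_idem] at k1 k2
    have hd : d * (s.length + 1) ≤ d * ((st 0).length + 1) := Nat.mul_le_mul_left _ (by omega)
    refine ⟨s', k1.trans h1, ?_⟩
    rcases k2 with ⟨k2, k3⟩ | ⟨k2, k3⟩
    · exact Or.inl ⟨by simp [h2, k2], (h3.trans k3).mono (by rw [Nat.add_mul]; omega)⟩
    · exact Or.inr ⟨by simp [h2, k2], (h3.trans k3).mono (by rw [Nat.add_mul]; omega)⟩
  · exact ⟨s, h1, Or.inr ⟨by simp [h2], h3.mono (by rw [Nat.add_mul]; omega)⟩⟩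

theorem stage_eatB (A : Str → Bool) (M : List Instr) {F a l : ℕ} (h : Has M l (eatB F a l)) :
    Stage A M F l (l + a + 1) (eatU a) (a + 1) := by
  intro st
  obtain ⟨s, h1, h2⟩ := eatB_reach A M F a l st h
  have : a + 1 ≤ (a + 1) * ((st 0).length + 1) := Nat.le_mul_of_pos_right _ (by omega)
  refine ⟨s, h1, ?_⟩
  rcases h2 with ⟨h2, h3⟩ | ⟨h2, h3⟩
  · exact Or.inl ⟨h2, h3.mono this⟩
  · exact Or.inr ⟨h2, h3.mono this⟩

theorem stage_skipU (A : Str → Bool) (M : List Instr) {F l : ℕ}
    (h : M.getD l Instr.halt = Instr.pop 0 F (l + 1) l) : Stage A M F l (l + 1) skipU 1 := by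
  intro st
  simpa using skip_reach A M h (st 0) st rfl

theorem stage_eatT (A : Str → Bool) (M : List Instr) {F l : ℕ}
    (h : M.getD l Instr.halt = Instr.pop 0 F F (l + 1)) : Stage A M F l (l + 1) eatT 1 := by
  intro st
  rcases hs : st 0 with _ | ⟨_ | _, s⟩
  · refine ⟨[], le_rfl, Or.inr ⟨rfl, ?_⟩⟩
    refine (Reach.one (step_pop_nil (A := A) h st hs)).cast (by simp) ?_
    rw [← hs]; simp
  · exact ⟨s, by simp, Or.inr ⟨rfl, (Reach.one (step_pop_false h st hs)).mono (by simp)⟩⟩
  · exact ⟨s, by simp, Or.inl ⟨rfl, (Reach.one (step_pop_true h st hs)).mono (by simp)⟩⟩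

/-- The loop that skips a doubled string. -/
def skipDB (F l : ℕ) : List Instr := [Instr.pop 0 F (l + 2) (l + 1), Instr.pop 0 F l l]

theorem skipD_reach (A : Str → Bool) (M : List Instr) {F l : ℕ} (h : Has M l (skipDB F l)) :
    ∀ (w : Str) (st : ℕ → Str), st 0 = w → ∃ s : Str, s.length ≤ w.length ∧
      ((skipD w = some s ∧ Reach A M (l, st) (l + 2, Function.update st 0 s) (w.length + 1)) ∨
        (skipD w = none ∧ Reach A M (l, st) (F, Function.update st 0 s) (w.length + 1)))
  | [], st, hs => by
    refine ⟨[], le_rfl, Or.inr ⟨rfl, ?_⟩⟩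
    refine (Reach.one (step_pop_nil (A := A) h.head st hs)).cast le_rfl ?_
    rw [← hs]; simp
  | false :: w, st, hs =>
    ⟨w, by simp, Or.inl ⟨rfl, (Reach.one (step_pop_false h.head st hs)).mono (by simp)⟩⟩
  | [true], st, hs => by
    have s1 := Reach.one (step_pop_true (A := A) h.head st hs)
    have s2 := Reach.one (step_pop_nil (A := A) h.tail.head (Function.update st 0 []) (by simp))
    exact ⟨[], by simp, Or.inr ⟨rfl, (s1.trans s2).mono (by simp)⟩⟩
  | true :: b :: w, st, hs => by
    have s1 := Reach.one (step_pop_true (A := A) h.head st hs)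
    have s2 : Reach A M (l + 1, Function.update st 0 (b :: w)) (l, Function.update st 0 w) 1 := by
      cases b
      · simpa using Reach.one (step_pop_false (A := A) h.tail.head
          (Function.update st 0 (false :: w)) (s := w) (by simp))
      · simpa using Reach.one (step_pop_true (A := A) h.tail.head
          (Function.update st 0 (true :: w)) (s := w) (by simp))
    obtain ⟨s', h1, h2⟩ := skipD_reach A M h w (Function.update st 0 w) (by simp)
    simp only [Function.update_idem] at h2
    refine ⟨s', by simp; omega, ?_⟩
    rcases h2 with ⟨h2, h3⟩ | ⟨h2, h3⟩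
    · exact Or.inl ⟨h2, ((s1.trans s2).trans h3).mono (by simp; omega)⟩
    · exact Or.inr ⟨h2, ((s1.trans s2).trans h3).mono (by simp; omega)⟩

theorem stage_skipD (A : Str → Bool) (M : List Instr) {F l : ℕ} (h : Has M l (skipDB F l)) :
    Stage A M F l (l + 2) skipD 1 := by
  intro st
  simpa using skipD_reach A M h (st 0) st rfl

theorem Stage.out {A : Str → Bool} {M : List Instr} {F l e c : ℕ} {g : Str → Option Str}
    (h : Stage A M F l e g c) (he : M.getD e Instr.halt = Instr.halt) {y : Str}
    (hF : Has M F (outB y F)) (st : ℕ → Str) :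
    ∃ cf : Cfg, Reach A M (l, st) cf ((c + 1) * ((st 0).length + 1) + y.length) ∧
      M.getD cf.1 Instr.halt = Instr.halt ∧ cf.2 0 = (g (st 0)).getD y := by
  obtain ⟨s, h1, h2⟩ := h st
  rcases h2 with ⟨h2, h3⟩ | ⟨h2, h3⟩
  · exact ⟨_, h3.mono (by rw [Nat.add_mul]; omega), he, by simp [h2]⟩
  · obtain ⟨cf, c1, c2, c3⟩ := outB_reach A M y hF (Function.update st 0 s)
    refine ⟨cf, (h3.trans c1).mono ?_, c2, by simp [h2, c3]⟩
    simp only [Function.update_self]
    rw [Nat.add_mul]; omega

/-- Query stack 0 and output the answer. -/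
def askB (l : ℕ) : List Instr :=
  Instr.query 0 (l + 1) (l + 4) :: (outB [false] (l + 1) ++ outB [true] (l + 4))

theorem askB_reach (A : Str → Bool) (M : List Instr) {l : ℕ} (h : Has M l (askB l))
    (st : ℕ → Str) :
    ∃ cf : Cfg, Reach A M (l, st) cf ((st 0).length + 3) ∧
      M.getD cf.1 Instr.halt = Instr.halt ∧ cf.2 0 = [A (st 0)] := by
  have H1 := h.tail.left
  have H2 : Has M (l + 4) (outB [true] (l + 4)) := h.tail.right
  have s2 := Reach.one (step_query (A := A) h.head st)
  cases hA : A (st 0)
  · simp only [hA] at s2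
    obtain ⟨cf, c1, c2, c3⟩ := outB_reach A M [false] H1 st
    exact ⟨cf, (s2.trans c1).mono (by simp; omega), c2, c3⟩
  · simp only [hA] at s2
    obtain ⟨cf, c1, c2, c3⟩ := outB_reach A M [true] H2 st
    exact ⟨cf, (s2.trans c1).mono (by simp; omega), c2, c3⟩

/-- The checker of one side of a group. -/
def gtester (k : ℕ) (s : Bool) : List Instr :=
  pushR 0 (false :: (List.replicate k true ++ [s, false])) 0 ++
    (dblmv 1 0 (k + 3) ++ (pushR 0 [true] (k + 7) ++ askB (k + 8)))

/-- The machine that reads the object witness. -/
def unpad2 : List Instr :=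
  Instr.pop 0 1 0 0 :: (mvc 1 0 2 1 ++ (skipDB 10 6 ++
    (Instr.pop 0 10 9 8 :: Instr.halt :: outB [] 10)))

/-- The checker of the universal proof system. -/
def chkQ (k a : ℕ) (y₀ : Str) : List Instr :=
  Instr.query 0 (k + a + 12) 1 :: Instr.pop 0 (k + a + 12) (k + a + 12) 2 ::
    (skipDB (k + a + 12) 2 ++ (eatB (k + a + 12) 0 4 ++ (eatB (k + a + 12) k 5 ++
      (eatB (k + a + 12) a (5 + k + 1) ++
        (Instr.pop 0 (k + a + 12) (k + a + 7 + 1) (k + a + 7) ::
          Instr.pop 0 (k + a + 12) (k + a + 8 + 1) (k + a + 8) ::
            (skipDB (k + a + 12) (k + a + 9) ++ (Instr.halt :: outB y₀ (k + a + 12))))))))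

/-- The machine that writes its doubled input in front of the output of `M`. -/
def pairM (M : List Instr) : List Instr :=
  mv2 0 2 3 0 ++ (mvc 2 0 4 5 ++ (reloc 4 10 (M.length + 11) M ++
    (Instr.push 0 false (M.length + 12) :: (dblmv 3 0 (M.length + 12) ++ [Instr.halt]))))

theorem gtester_FP2 (A : Str → Bool) (k : ℕ) (s : Bool) :
    FP2 A fun x y => [A (gadr (gnm k x) s y.reverse)] := by
  obtain ⟨K, hK⟩ := QB_clock (((QB.const 5).mul QB.id).add (QB.const (2 * k + 12)))
  refine ⟨gtester k s, K, fun x y => ?_⟩
  have H := has_self (gtester k s)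
  have l1 : (false :: (List.replicate k true ++ [s, false])).length = k + 3 := by simp
  have H2 := H.right.left
  have H3 := H.right.right.left
  have H4 := H.right.right.right
  rw [pushR_length, l1, Nat.zero_add] at H2 H3 H4
  set st0 : ℕ → Str := fun i => if i = 0 then x else if i = 1 then y else [] with hst0
  have s1 := pushR_reach A _ 0 (false :: (List.replicate k true ++ [s, false])) 0 st0 H.left
  rw [l1, Nat.zero_add] at s1
  set st1 := Function.update st0 0
    ((false :: (List.replicate k true ++ [s, false])).reverse ++ st0 0) with hst1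
  have s2 := dblmv_reach A (gtester k s) (i := 1) (j := 0) (by omega) H2 y st1
    (by simp [hst1, hst0])
  set st2 := Function.update (Function.update st1 1 []) 0 (dbl y.reverse ++ st1 0) with hst2
  have s3 := pushR_reach A _ 0 [true] (k + 7) st2 H3
  obtain ⟨cf, c1, c2, c3⟩ := askB_reach A (gtester k s) (l := k + 8) H4
    (Function.update st2 0 ([true].reverse ++ st2 0))
  have e : Function.update st2 0 ([true].reverse ++ st2 0) 0 = gadr (gnm k x) s y.reverse := by
    simp [hst2, hst1, hst0, gadr, gnm]
  rw [e] at c1 c3
  refine outputs_of_reach (((s1.trans s2).trans s3).trans c1) c2 c3 ?_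
  have := hK (x.length + y.length)
  simp only [gadr, gnm, List.length_cons, List.length_append, dbl_length, List.length_reverse,
    List.length_replicate, List.length_nil]
  omega

theorem unpad2_FP2 (A : Str → Bool) : FP2 A fun _ y => prR y.reverse := by
  obtain ⟨K, hK⟩ := QB_clock (((QB.const 6).mul QB.id).add (QB.const 5))
  refine ⟨unpad2, K, fun x y => ?_⟩
  have H := has_self unpad2
  set st0 : ℕ → Str := fun i => if i = 0 then x else if i = 1 then y else [] with hst0
  have s1 := clr_reach A unpad2 H.head x st0 (by simp [hst0])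
  have s2 := mvc_reach A unpad2 (i := 1) (j := 0) (k := 2) (l := 1) (by omega) (by omega)
    (by omega) H.tail.left y (Function.update st0 0 []) (by simp [hst0])
  have g1 := stage_skipD A unpad2 (F := 10) (l := 6) H.tail.right.left
  have g2 := stage_skipU A unpad2 (F := 10) (l := 8) H.tail.right.right.head
  obtain ⟨cf, c1, c2, c3⟩ := (g1.comp g2).out H.tail.right.right.tail.head
    (y := []) H.tail.right.right.tail.tail
    (Function.update (Function.update (Function.update (Function.update st0 0 []) 1 []) 0
      (y.reverse ++ Function.update st0 0 [] 0)) 2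
      (List.replicate y.length true ++ Function.update st0 0 [] 2))
  refine outputs_of_reach ((s1.trans s2).trans c1) c2 (c3.trans (by simp [prR])) ?_
  have := hK (x.length + y.length)
  simp
  omega

theorem sysQ_FP1 (A : Str → Bool) (k a : ℕ) (y₀ : Str) : FP1 A (sysQ A k a y₀) := by
  obtain ⟨K, hK⟩ := QB_clock (((QB.const (k + a + 9)).mul (QB.id.add (QB.const 1))).add
    (QB.const (y₀.length + 1)))
  refine ⟨chkQ k a y₀, K, fun x => ?_⟩
  have H := has_self (chkQ k a y₀)
  have H4 := H.tail.tail.right.left
  have H5 := H.tail.tail.right.right.left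
  have H6 := H.tail.tail.right.right.right.left
  have H7 := H.tail.tail.right.right.right.right
  have l2 : ∀ F l, (skipDB F l).length = 2 := fun _ _ => rfl
  simp only [eatB_length, l2] at H4 H5 H6 H7
  have e6 : 0 + 1 + 1 + 2 + (0 + 1) + (k + 1) = 5 + k + 1 := by omega
  have e7 : 5 + k + 1 + (a + 1) = k + a + 7 := by omega
  rw [e6] at H6 H7
  rw [e7] at H7
  have H8 := H7.tail.tail.right
  have g1 := stage_eatT A (chkQ k a y₀) (l := 1) H.tail.head
  have g2 := stage_skipD A (chkQ k a y₀) (l := 2) H.tail.tail.left
  have g3 := stage_eatB A (chkQ k a y₀) (l := 4) H4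
  have g4 := stage_eatB A (chkQ k a y₀) (l := 5) H5
  have g5 := stage_eatB A (chkQ k a y₀) (l := 5 + k + 1) H6
  have e8 : 5 + k + 1 + a + 1 = k + a + 7 := by omega
  rw [e8] at g5
  have g6 := stage_skipU A (chkQ k a y₀) H7.head
  have g7 := stage_skipU A (chkQ k a y₀) (l := k + a + 8) H7.tail.head
  have g8 := stage_skipD A (chkQ k a y₀) (l := k + a + 9) H7.tail.tail.left
  have HF : Has (chkQ k a y₀) (k + a + 12) (outB y₀ (k + a + 12)) := H8.tail
  have g := ((((((g1.comp g2).comp g3).comp g4).comp g5).comp g6).comp g7).comp g8
  set st0 : ℕ → Str := fun i => if i = 0 then x else if i = 1 then [] else [] with hst0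
  have x0 : st0 0 = x := by simp [hst0]
  have s0 := Reach.one (step_query (A := A) H.head st0)
  have hk := hK x.length
  rw [x0] at s0
  by_cases hA : A x = true
  · rw [if_pos hA] at s0
    obtain ⟨cf, c1, c2, c3⟩ := g.out H8.head HF st0
    rw [x0] at c1 c3
    refine outputs_of_reach (s0.trans c1) c2 (c3.trans ?_) ?_
    · simp only [sysQ, hA, if_true, parseQ_eq]
    · have e : 1 + 1 + (0 + 1) + (k + 1) + (a + 1) + 1 + 1 + 1 + 1 = k + a + 9 := by omega
      rw [e]; omega
  · rw [if_neg hA] at s0
    obtain ⟨cf, c1, c2, c3⟩ := outB_reach A _ y₀ HF st0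
    rw [x0] at c1
    refine outputs_of_reach (s0.trans c1) c2 (c3.trans (by simp [sysQ, hA])) ?_
    have : x.length + 1 ≤ (k + a + 9) * (x.length + 1) := Nat.le_mul_of_pos_left _ (by omega)
    omega

theorem parseQ_fmt (k a j p : ℕ) (w d φ : Str) :
    parseQ k a (gadr (gnm k (fmt a j p (dbl d ++ false :: φ))) false w) = some φ := by
  simp [gadr, gnm, parseQ_true, skipD_dbl, eatU, eatU_rep, skipU_rep, fmt, adr]

theorem parseQ_some {k a : ℕ} {π φ : Str} (h : parseQ k a π = some φ) :
    ∃ j p w d, π = gadr (gnm k (fmt a j p (dbl d ++ false :: φ))) false w := by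
  rcases π with _ | ⟨_ | _, t⟩
  · simp [parseQ] at h
  · simp [parseQ] at h
  · rw [parseQ_true] at h
    simp only [Option.bind_eq_some_iff] at h
    obtain ⟨s6, ⟨s5, ⟨s4, ⟨s3, ⟨s2, ⟨s1, h1, h2⟩, h3⟩, h4⟩, h5⟩, h6⟩, h7⟩ := h
    obtain ⟨w, hw⟩ := skipD_some h1
    obtain ⟨j, hj⟩ := skipU_some h5
    obtain ⟨p, hp⟩ := skipU_some h6
    obtain ⟨d, hd⟩ := skipD_some h7
    refine ⟨j, p, w, d, ?_⟩
    rw [hw, eatU_some h2, eatU_some h3, eatU_some h4, hj, hp, hd]
    rfl

theorem pair_FP1 (A : Str → Bool) {Q : Str → Str} (hQ : FP1 A Q) :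
    FP1 A fun d => dbl d ++ false :: Q d := by
  obtain ⟨M, k, hM⟩ := hQ
  obtain ⟨K, hK⟩ := QB_clock ((((QB.const 9).mul QB.id).add ((QB.id.pow k).add (QB.const k))).add
    (QB.const 5))
  refine ⟨pairM M, K, fun x => ?_⟩
  have H := has_self (pairM M)
  have H2 : Has (pairM M) 5 (mvc 2 0 4 5) := H.right.left
  have H3 : Has (pairM M) 10 (reloc 4 10 (M.length + 11) M) := H.right.right.left
  have H4 := H.right.right.right
  have l1 : (mv2 0 2 3 0).length = 5 := rfl
  have l2 : (mvc 2 0 4 5).length = 5 := rfl
  rw [reloc_length, l1, l2] at H4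
  have e4 : 0 + 5 + 5 + (M.length + 1) = M.length + 11 := by omega
  rw [e4] at H4
  set st0 : ℕ → Str := fun i => if i = 0 then x else if i = 1 then [] else [] with hst0
  have s1 := mv2_reach A (pairM M) (i := 0) (j := 2) (k := 3) (by omega) (by omega) (by omega)
    H.left x st0 (by simp [hst0])
  set st1 := Function.update (Function.update (Function.update st0 0 []) 2
    (x.reverse ++ st0 2)) 3 (x.reverse ++ st0 3) with hst1
  have s2 := mvc_reach A (pairM M) (i := 2) (j := 0) (k := 4) (by omega) (by omega) (by omega)
    H2 x.reverse st1 (by simp [hst1, hst0])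
  set st2 := Function.update (Function.update (Function.update st1 2 []) 0
    (x.reverse.reverse ++ st1 0)) 4 (List.replicate x.reverse.length true ++ st1 4) with hst2
  obtain ⟨st3, s3, b1, b2⟩ := reloc_reach A (base := st2) H3 (by omega)
    (by simp [hst2, hst1, hst0]) (x.length ^ k + k) (0, st0) (10, st2)
    ⟨by simp, fun i => by
      unfold phi
      by_cases hi : i = 0
      · simp [hi, hst2, hst1, hst0]
      · simp [hi, hst2, hst1, hst0], fun _ _ _ => rfl⟩ (hM x).1
  have b0 : st3 0 = Q x := b1.trans (hM x).2
  have b3 : st3 3 = x.reverse := by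
    rw [b2 3 (by omega) (by omega)]; simp [hst2, hst1, hst0]
  have s4 := Reach.one (step_push (A := A) H4.head st3)
  have s5 := dblmv_reach A (pairM M) (i := 3) (j := 0) (l := M.length + 12) (by omega)
    H4.tail.left x.reverse (Function.update st3 0 (false :: st3 0)) (by simp [b3])
  refine outputs_of_reach ((((s1.trans s2).trans s3).trans s4).trans s5) H4.tail.right.head
    (by simp [b0]) ?_
  have := hK x.length
  simp only [List.length_reverse]
  omega

theorem pre_FP1 (A : Str → Bool) {f : Str → Str} (hf : FP1 A f) (c : Str) :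
    FP1 A fun d => c ++ f d := by
  obtain ⟨M, k, hM⟩ := hf
  obtain ⟨K, hK⟩ := QB_clock (((QB.id.pow k).add (QB.const k)).add (QB.const (c.length + 1)))
  set N := reloc 1 0 (M.length + 1) M ++ (pushR 0 c.reverse (M.length + 1) ++ [Instr.halt])
    with hN
  refine ⟨N, K, fun x => ?_⟩
  have H := has_self N
  have H1 : Has N 0 (reloc 1 0 (M.length + 1) M) := H.left
  have H2 := H.right
  rw [reloc_length, Nat.zero_add] at H2
  have H3 := H2.right.head
  rw [pushR_length] at H3
  set st0 : ℕ → Str := fun i => if i = 0 then x else if i = 1 then [] else [] with hst0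
  obtain ⟨st1, s1, b1, _⟩ := reloc_reach A (base := fun _ => []) H1 le_rfl rfl
    (x.length ^ k + k) (0, st0) (0, st0)
    ⟨by simp, fun i => by
      unfold phi
      by_cases hi : i = 0
      · simp [hi]
      · simp [hi, hst0], fun m h1 _ => by
        have : m ≠ 0 := by omega
        simp [this, hst0]⟩ (hM x).1
  have b0 : st1 0 = f x := b1.trans (hM x).2
  have s2 := pushR_reach A N 0 c.reverse (M.length + 1) st1 H2.left
  refine outputs_of_reach (s1.trans s2) H3 (by simp [b0]) ?_
  have := hK x.length
  simp only [List.length_reverse]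
  omega

/-- One verifier that works for every oracle. -/
theorem exists_rev : ∃ V : Ver, ∀ (A : Str → Bool) (c y : Str),
    Sol A V c y ↔ (y.length ≤ c.length ^ 1 + 1 ∧ [A (c.reverse ++ y)] = [true]) := by
  obtain ⟨k, hk⟩ := QB_clock (((QB.const 3).mul QB.id).add (QB.const 3))
  refine ⟨(mvc 0 1 2 0 ++ ask 5, k, 1), fun A x y => ?_⟩
  have H := has_self (mvc 0 1 2 0 ++ ask 5)
  set st0 : ℕ → Str := fun i => if i = 0 then x else if i = 1 then y else [] with hst0
  have s1 := mvc_reach A _ (i := 0) (j := 1) (k := 2) (by omega) (by omega)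
    (by omega) H.left x st0 (by simp [hst0])
  obtain ⟨s2, hh⟩ := ask_reach A _ (l := 5) H.right _
    (show (Function.update (Function.update (Function.update st0 0 []) 1
      (x.reverse ++ st0 1)) 2 (List.replicate x.length true ++ st0 2)) 0 = [] by simp)
  have ho : Outputs A (mvc 0 1 2 0 ++ ask 5) x y ((x.length + y.length) ^ k + k)
      [A (x.reverse ++ y)] := by
    refine outputs_of_reach (s1.trans s2) hh (by simp [hst0]) ?_
    have := hk (x.length + y.length)
    omega
  unfold Sol
  rw [ho.2]

end Pool.Agent.Lib.MP_2c6a5a_lc.Cl
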