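import Pool.Agent.Lib.MP_2c6a5a_lc.ClG5
import Pool.Agent.Lib.MP_2c6a5a_lc.ClProg

/-! Requirements, groups of addresses and what a stage guarantees. -/

namespace Pool.Agent.Lib.MP_2c6a5a_lc.Cl

open Finset Pool.Agent.Lib.MP_8a52c3_lc.Orc Pool.Agent.Lib.MP_2c6a5a_lc.Pf
  Pool.Agent.Lib.MP_2c6a5a_lc.Mx

abbrev Req3 := Kd × Ver × Ver

def sel3 (R : Req3) (s : Bool) : Ver := if s then R.2.2 else R.2.1

def undbl : Str → Str
  | true :: b :: s => b :: undbl s
  | _ => []

theorem undbl_dbl (d s : Str) : undbl (dbl d ++ false :: s) = d := by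
  induction d with
  | nil => simp [dbl, undbl]
  | cons b d ih => simp [dbl, undbl, ih]

theorem undbl_len : ∀ z : Str, (undbl z).length ≤ z.length
  | [] => by simp [undbl]
  | [true] => by simp [undbl]
  | false :: _ => by simp [undbl]
  | true :: b :: s => by have := undbl_len s; simp [undbl]; omega

def phiOf (z : Str) : Str := (skipD z).getD []

theorem phiOf_dbl (d s : Str) : phiOf (dbl d ++ false :: s) = s := by simp [phiOf, skipD_dbl]

theorem phiOf_len (z : Str) : (phiOf z).length ≤ z.length := by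
  unfold phiOf
  rcases h : skipD z with _ | s
  · simp
  · obtain ⟨w, rfl⟩ := skipD_some h
    simp; omega

theorem dbl_inj {w w' r r' : Str} (h : dbl w ++ false :: r = dbl w' ++ false :: r') :
    w = w' ∧ r = r' :=
  ⟨by rw [← undbl_dbl w r, h, undbl_dbl], by rw [← phiOf_dbl w r, h, phiOf_dbl]⟩

/-- The object of a requirement on an input. -/
def obS (R : Req3) (B : Str → Bool) (z : Str) (s : Bool) (y : Str) : Prop :=
  if isP R.1 then
    (if s then Sol B R.2.2 (phiOf z) y else y = [] ∧ ev B (clk R.2.1) (undbl z) = phiOf z)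
  else Sol B (sel3 R s) z y

def tS (R : Req3) (n : ℕ) : ℕ := tm R.2.1 n + tm R.2.2 n + 5

theorem tS_mono (R : Req3) {n n' : ℕ} (h : n ≤ n') : tS R n ≤ tS R n' := by
  have := tm_mono R.2.1 h
  have := tm_mono R.2.2 h
  unfold tS; omega

theorem tm_sel3 (R : Req3) (s : Bool) (n : ℕ) : tm (sel3 R s) n ≤ tS R n := by
  unfold sel3 tS
  split_ifs <;> omega

/-- `f` is decided by at most `t` oracle positions of length at most `t`. -/
def Dec {α : Type} (t : ℕ) (f : (Str → Bool) → α) : Prop :=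
  ∀ B, ∃ S : Finset Str, S.card ≤ t ∧ (∀ β ∈ S, β.length ≤ t) ∧
    ∀ B', (∀ β ∈ S, B' β = B β) → f B' = f B

theorem Dec.mono {α : Type} {t t' : ℕ} {f : (Str → Bool) → α} (h : Dec t f) (ht : t ≤ t') :
    Dec t' f := fun B => by
  obtain ⟨S, a, b, c⟩ := h B
  exact ⟨S, a.trans ht, fun β hβ => (b β hβ).trans ht, c⟩

theorem Dec.const {α : Type} (t : ℕ) (x : α) : Dec t fun _ => x :=
  fun _ => ⟨∅, by simp, by simp, fun _ _ => rfl⟩

theorem Dec.comp {α β : Type} {t : ℕ} {f : (Str → Bool) → α} (h : Dec t f) (g : α → β) :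
    Dec t fun B => g (f B) := fun B => by
  obtain ⟨S, a, b, c⟩ := h B
  exact ⟨S, a, b, fun B' hB => congrArg g (c B' hB)⟩

theorem Dec.bind {α β : Type} {t t' : ℕ} {f : (Str → Bool) → α} {g : α → (Str → Bool) → β}
    (h : Dec t f) (hg : ∀ B, Dec t' (g (f B))) : Dec (t + t') fun B => g (f B) B := fun B => by
  obtain ⟨S, a, b, c⟩ := h B
  obtain ⟨S', a', b', c'⟩ := hg B B
  refine ⟨S ∪ S', (card_union_le _ _).trans (by omega), fun β hβ => ?_, fun B' hB => ?_⟩
  · rcases mem_union.1 hβ with h | h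
    · have := b β h; omega
    · have := b' β h; omega
  · show g (f B') B' = g (f B) B
    rw [c B' fun β hβ => hB β (mem_union_left _ hβ), c' B' fun β hβ => hB β (mem_union_right _ hβ)]

theorem Dec.congr {α : Type} {t : ℕ} {f : (Str → Bool) → α} (h : Dec t f) {B B' : Str → Bool}
    (hB : ∀ β : Str, β.length ≤ t → B' β = B β) : f B' = f B := by
  obtain ⟨S, _, b, c⟩ := h B
  exact c B' fun β hβ => hB β (b β hβ)

theorem dec_sol (V : Ver) (z y : Str) : Dec (tm V z.length) fun B => Sol B V z y := fun B => by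
  obtain ⟨S, a, b, c⟩ := sol_decided B V z y
  exact ⟨S, a, b, fun B' h => propext (c B' h)⟩

theorem dec_ev (ρ : Clk) (w : Str) : Dec (cost ρ w.length) fun B => ev B ρ w :=
  fun B => ev_local B ρ w

theorem dec_obS (R : Req3) (z : Str) (s : Bool) (y : Str) :
    Dec (tS R z.length) fun B => obS R B z s y := by
  unfold obS
  by_cases h : isP R.1
  · simp only [if_pos h]
    cases s
    · simp only [Bool.false_eq_true, if_false]
      refine ((dec_ev (clk R.2.1) (undbl z)).comp fun u => y = [] ∧ u = phiOf z).mono ?_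
      have := cost_le_tm R.2.1 (undbl z).length
      have := tm_mono R.2.1 (undbl_len z)
      unfold tS; omega
    · simp only [if_true]
      refine (dec_sol _ _ _).mono ?_
      have := tm_mono R.2.2 (phiOf_len z)
      unfold tS; omega
  · simp only [if_neg h]
    exact (dec_sol _ _ _).mono (tm_sel3 R s _)

theorem obS_congr (R : Req3) (z : Str) {B B' : Str → Bool}
    (hB : ∀ β : Str, β.length ≤ tS R z.length → B' β = B β) : obS R B' z = obS R B z := by
  funext s y
  exact (dec_obS R z s y).congr hB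

theorem sol_len {B : Str → Bool} {V : Ver} {z y : Str} (h : Sol B V z y) :
    y.length ≤ tm V z.length := by
  have := h.1
  unfold tm; omega

theorem obS_len {R : Req3} {B : Str → Bool} {z y : Str} {s : Bool} (h : obS R B z s y) :
    y.length ≤ tS R z.length := by
  unfold obS at h
  split_ifs at h
  · have := sol_len h
    have := tm_mono R.2.2 (phiOf_len z)
    unfold tS; omega
  · simp [h.1]
  · exact (sol_len h).trans (tm_sel3 R s _)

def Dead (E : ℕ → Req3) (B : Str → Bool) (l j : ℕ) : Prop :=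
  ∃ z : Str, tS (E j) z.length < l ∧ ¬ Prom (E j).1 (obS (E j) B z)

theorem Dead.mono {E : ℕ → Req3} {B B' : Str → Bool} {l l' j : ℕ} (h : Dead E B l j)
    (hl : l ≤ l') (hB : ∀ α : Str, α.length < l → B' α = B α) : Dead E B' l' j := by
  obtain ⟨z, h1, h2⟩ := h
  exact ⟨z, by omega, by rwa [obS_congr _ _ fun β hβ => hB β (by omega)]⟩

theorem dead_congr {E : ℕ → Req3} {B B' : Str → Bool} {l j : ℕ}
    (hB : ∀ α : Str, α.length < l → B' α = B α) : Dead E B' l j ↔ Dead E B l j :=
  ⟨fun h => h.mono le_rfl fun α hα => (hB α hα).symm, fun h => h.mono le_rfl hB⟩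

def Kd.toN : Kd → ℕ
  | .a => 0 | .b => 1 | .c => 2 | .d => 3 | .e => 4 | .f => 5 | .g => 6 | .h => 7

def Kd.ofN : ℕ → Kd
  | 0 => .a | 1 => .b | 2 => .c | 3 => .d | 4 => .e | 5 => .f | 6 => .g | _ => .h

theorem Kd.of_to (κ : Kd) : Kd.ofN κ.toN = κ := by cases κ <;> rfl

theorem Kd.toN_le (κ : Kd) : κ.toN ≤ 7 := by cases κ <;> simp [Kd.toN]

def cntU : Str → ℕ
  | true :: s => cntU s + 1
  | _ => 0

theorem cntU_gnm (k : ℕ) (x : Str) : cntU (gnm k x) = k := by
  induction k with
  | zero => simp [gnm, cntU]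
  | succ k ih => simpa [gnm, cntU, List.replicate_succ] using ih

def gk (γ : Str) : Kd := Kd.ofN (cntU γ)

noncomputable def gj (γ : Str) : ℕ := ci ((skipU γ).getD [])

noncomputable def gz (γ : Str) : Str := cy ((skipU γ).getD [])

theorem gk_gnm (κ : Kd) (x : Str) : gk (gnm κ.toN x) = κ := by
  rw [gk, cntU_gnm, Kd.of_to]

theorem gj_gnm (k a j p : ℕ) (z : Str) : gj (gnm k (fmt a j p z)) = Nat.pair a j := by
  simp [gj, gnm, skipU_rep, ci_fmt]

theorem gz_gnm (k a j p : ℕ) (z : Str) : gz (gnm k (fmt a j p z)) = z := by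
  simp [gz, gnm, skipU_rep, cy_fmt]

def IsCode3 (E : ℕ → Req3) (γ : Str) : Prop :=
  (E (gj γ)).1 = gk γ ∧ tS (E (gj γ)) (gz γ).length ≤ Nat.sqrt γ.length

def wl (γ : Str) : ℕ := if gk γ = .c ∨ gk γ = .f then 0 else γ.length

def gl (γ : Str) : ℕ := 2 * wl γ + 3 + γ.length

theorem gadr_length (γ : Str) (s : Bool) (w : Str) :
    (gadr γ s w).length = 2 * w.length + 3 + γ.length := by
  simp [gadr, dbl_length]; omega

theorem gadr_inj {γ γ' w w' : Str} {s s' : Bool} (h : gadr γ s w = gadr γ' s' w') :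
    γ = γ' ∧ s = s' ∧ w = w' := by
  obtain ⟨h1, h2⟩ := dbl_inj (List.cons.inj h).2
  exact ⟨(List.cons.inj h2).2, (List.cons.inj h2).1, h1⟩

theorem gadr_ne_xadr (γ : Str) (s : Bool) (w : Str) (T n : ℕ) (u : Str) :
    gadr γ s w ≠ xadr T n u := by
  simp [gadr, xadr, adr]

def bitR (B : Str → Bool) (γ : Str) (s : Bool) (w : Str) : Prop :=
  w.length = wl γ ∧ B (gadr γ s w) = true

def obG (E : ℕ → Req3) (B : Str → Bool) (γ : Str) : Bool → Str → Prop :=
  obS (E (gj γ)) B (gz γ)

def UncR (E : ℕ → Req3) (B : Str → Bool) (γ : Str) : Prop :=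
  Unc (gk γ) (obG E B γ) (bitR B γ) ∧ (¬ IsCode3 E γ → ¬ Ex (bitR B γ) false)

def CndR (E : ℕ → Req3) (B : Str → Bool) (γ : Str) : Prop :=
  Cnd (gk γ) (obG E B γ) (bitR B γ) prR []

def memR (B : Str → Bool) (T n : ℕ) (z : Zt n) : Prop := B (xadr T n (z.1 :: z.2.1)) = true

def WitR (κ : Kd) (B : Str → Bool) (T n : ℕ) : Prop := Prom κ (wob κ (memR B T n))

theorem unc_nofalse {Y Y' Ω : Type} {κ : Kd} {ob : Bool → Y → Prop} {ob' : Bool → Y' → Prop}
    {bit : Bool → Ω → Prop} (h : Unc κ ob bit) (h0 : ¬ Ex bit false) : Unc κ ob' bit := by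
  cases κ <;> first | exact h | exact fun hh => absurd hh h0 | exact fun hh => h0 hh.1

theorem bitR_congr {B B' : Str → Bool} {γ : Str}
    (hB : ∀ α : Str, α.length ≤ gl γ → B' α = B α) : bitR B' γ = bitR B γ := by
  funext s w
  unfold bitR
  refine propext (and_congr_right fun h => ?_)
  rw [hB _ (by rw [gadr_length, h]; exact le_rfl)]

theorem obG_congr {E : ℕ → Req3} {B B' : Str → Bool} {γ : Str} (h : IsCode3 E γ)
    (hB : ∀ α : Str, α.length ≤ Nat.sqrt γ.length → B' α = B α) : obG E B' γ = obG E B γ :=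
  obS_congr _ _ fun β hβ => hB β (hβ.trans h.2)

theorem sqrt_lt_gl (γ : Str) : Nat.sqrt γ.length < gl γ := by
  have := Nat.sqrt_le_self γ.length
  unfold gl; omega

theorem memR_congr {B B' : Str → Bool} {T n : ℕ}
    (hB : ∀ α : Str, α.length ≤ T + 2 * n + 4 → B' α = B α) : memR B' T n = memR B T n := by
  funext z
  unfold memR
  rw [hB _ (by rw [xadr_length, List.length_cons, z.2.2]; omega)]

/-- A good piece of an oracle, with respect to priorities below `j₀`. -/
structure Good (E : ℕ → Req3) (π : Kd → Prop) (T e j₀ L L' : ℕ) (B : Str → Bool) : Prop where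
  unc : ∀ γ, L ≤ gl γ → gl γ < L' → UncR E B γ
  cnd : ∀ γ, L ≤ gl γ → gl γ < L' → IsCode3 E γ → ¬ π (gk γ) → gj γ < j₀ →
    ¬ Dead E B L (gj γ) → CndR E B γ
  fg : ∀ γ s w, L ≤ (gadr γ s w).length → (gadr γ s w).length < L' → B (gadr γ s w) = true →
    w.length = wl γ
  fx : ∀ T' n' u, L ≤ (xadr T' n' u).length → (xadr T' n' u).length < L' →
    B (xadr T' n' u) = true → u.length = n' + 1
  wit : ∀ T' n', L ≤ T' + 2 * n' + 4 → T' + 2 * n' + 4 < L' → (T' = T → e < j₀) →
    WitR (E (Nat.unpair T').1).1 B T' n'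

theorem Good.congr {E : ℕ → Req3} {π : Kd → Prop} {T e j₀ L L' : ℕ} {B A : Str → Bool}
    (h : Good E π T e j₀ L L' B) (hL : L ≤ L') (hA : ∀ α : Str, α.length < L' → A α = B α) :
    Good E π T e j₀ L L' A := by
  refine ⟨fun γ a b => ?_, fun γ a b c d f g => ?_, fun γ s w a b c => ?_,
    fun T' n' u a b c => ?_, fun T' n' a b c => ?_⟩
  · have := h.unc γ a b
    have lt := sqrt_lt_gl γ
    unfold UncR at this ⊢
    rw [bitR_congr fun α hα => hA α (by omega)]
    refine ⟨?_, this.2⟩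
    by_cases hc : IsCode3 E γ
    · rw [obG_congr hc fun α hα => hA α (by omega)]
      exact this.1
    · exact unc_nofalse this.1 (this.2 hc)
  · have lt := sqrt_lt_gl γ
    unfold CndR
    rw [bitR_congr fun α hα => hA α (by omega), obG_congr c fun α hα => hA α (by omega)]
    exact h.cnd γ a b c d f fun hd => g (hd.mono le_rfl fun α hα => hA α (by omega))
  · exact h.fg γ s w a b (hA _ b ▸ c)
  · exact h.fx T' n' u a b (hA _ b ▸ c)
  · unfold WitR
    rw [memR_congr fun α hα => hA α (by omega)]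
    exact h.wit T' n' a b c

/-- The bits that a candidate with a reduction produces at the slot `(T, n)`. -/
def cand (R : Req3) (ρ : Red) (B : Str → Bool) (T n : ℕ) (s : Bool) (ω : Str) : Prop :=
  if R.1 = .b then ω.length ≤ (n + 1) ^ ρ.1.2 + ρ.1.2 ∧ ev B (clk R.2.1) ω = code T n
  else if isP R.1 then ev B (clk R.2.1) (ev B ρ.1 (true :: List.replicate n true)) = code T n
  else Sol B (sel3 R s) (ev B ρ.1 (List.replicate n true)) ω

open Classical in
noncomputable def decZ (n : ℕ) (u : Str) : Option (Zt n) :=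
  if h : ∃ z : Zt n, u = z.1 :: z.2.1 then some h.choose else none

theorem decZ_cons {n : ℕ} (z : Zt n) : decZ n (z.1 :: z.2.1) = some z := by
  have h : ∃ z' : Zt n, z.1 :: z.2.1 = z'.1 :: z'.2.1 := ⟨z, rfl⟩
  rw [decZ, dif_pos h]
  obtain ⟨h1, h2⟩ := List.cons.inj h.choose_spec
  exact congrArg some (Prod.ext h1.symm (Subtype.ext h2.symm))

noncomputable def prC (R : Req3) (ρ : Red) (B : Str → Bool) (n : ℕ) (ω : Str) : Option (Zt n) :=
  if ω.length ≤ tm R.2.2 (cost ρ.1 n) then decZ n (gout B ρ (List.replicate n true) ω) else none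

def mC (ρ : Red) (T n : ℕ) : ℕ := 2 * cost ρ.1 (n + 1) + T + n + 4

def tauC (R : Req3) (ρ : Red) (T n : ℕ) : ℕ :=
  mC ρ T n + tS R (mC ρ T n) + cost ρ.2 (n + tS R (mC ρ T n)) + (2 * T + 2 * n + 8)

theorem dec_cand (R : Req3) (ρ : Red) (T n : ℕ) (s : Bool) (ω : Str) :
    Dec (tauC R ρ T n) fun B => cand R ρ B T n s ω := by
  have h0 : ∀ m, m ≤ cost ρ.1 (n + 1) → cost (clk R.2.1) m ≤ tS R (mC ρ T n) := by
    intro m hm
    have := cost_le_tm R.2.1 m
    have := tm_mono R.2.1 (show m ≤ mC ρ T n by unfold mC; omega)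
    unfold tS; omega
  unfold cand
  by_cases h : R.1 = .b
  · simp only [if_pos h]
    by_cases hl : ω.length ≤ (n + 1) ^ ρ.1.2 + ρ.1.2
    · refine ((dec_ev (clk R.2.1) ω).comp fun u =>
        ω.length ≤ (n + 1) ^ ρ.1.2 + ρ.1.2 ∧ u = code T n).mono ?_
      have := h0 ω.length (by unfold cost; omega)
      unfold tauC; omega
    · simp only [hl, false_and]
      exact Dec.const _ _
  · simp only [if_neg h]
    by_cases h' : isP R.1
    · simp only [if_pos h']
      refine ((dec_ev ρ.1 (true :: List.replicate n true)).bind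
        (g := fun u B => ev B (clk R.2.1) u = code T n) (t' := tS R (mC ρ T n)) fun B =>
          ((dec_ev _ _).comp fun u => u = code T n).mono (h0 _ ?_)).mono ?_
      · simpa using ev_len B ρ.1 (true :: List.replicate n true)
      · simp only [List.length_cons, List.length_replicate]
        unfold tauC mC; omega
    · simp only [if_neg h']
      have h1 := cost_mono ρ.1 (show n ≤ n + 1 by omega)
      refine ((dec_ev ρ.1 (List.replicate n true)).bind
        (g := fun u B => Sol B (sel3 R s) u ω) (t' := tS R (mC ρ T n)) fun B =>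
          (dec_sol _ _ _).mono ((tm_sel3 R s _).trans (tS_mono R ?_))).mono ?_
      · have := ev_len B ρ.1 (List.replicate n true)
        rw [List.length_replicate] at this
        unfold mC; omega
      · simp only [List.length_replicate]
        unfold tauC mC; omega

theorem dec_prC (R : Req3) (ρ : Red) (T n : ℕ) (ω : Str) :
    Dec (tauC R ρ T n) fun B => prC R ρ B n ω := by
  unfold prC
  by_cases hl : ω.length ≤ tm R.2.2 (cost ρ.1 n)
  · simp only [if_pos hl]
    intro B
    obtain ⟨S, a, b, c⟩ := run_local B ρ.2.1 (List.replicate n true) ω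
      (((List.replicate n true).length + ω.length) ^ ρ.2.2 + ρ.2.2)
    have h1 := cost_mono ρ.1 (show n ≤ n + 1 by omega)
    have h2 := tm_mono R.2.2 (show cost ρ.1 n ≤ mC ρ T n by unfold mC; omega)
    have h3 := cost_mono ρ.2 (show n + ω.length ≤ n + tS R (mC ρ T n) by unfold tS; omega)
    rw [List.length_replicate] at a b
    have h4 : cost ρ.2 (n + ω.length) = n + ω.length + ((n + ω.length) ^ ρ.2.2 + ρ.2.2) := rfl
    refine ⟨S, by unfold tauC; omega, fun β hβ => by have := b β hβ; unfold tauC; omega,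
      fun B' hB => ?_⟩
    simp only [gout, c B' hB]
  · simp only [if_neg hl]
    exact Dec.const _ _

def IsRev (V : Ver) : Prop := ∀ (A : Str → Bool) (c y : Str),
  Sol A V c y ↔ (y.length ≤ c.length ^ 1 + 1 ∧ [A (c.reverse ++ y)] = [true])

theorem ex_vec {n : ℕ} {u : Str} (h : u.length = n + 1) : ∃ z : Zt n, u = z.1 :: z.2.1 := by
  rcases u with _ | ⟨b, v⟩
  · simp at h
  · exact ⟨(b, ⟨v, by simpa using h⟩), rfl⟩

theorem cand_unc {R : Req3} {ρ : Red} {B : Str → Bool} {T n : ℕ} (hV : isP R.1 → IsRev R.2.2)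
    (hP : ∀ z : Str, tS R z.length ≤ tauC R ρ T n → Prom R.1 (obS R B z))
    (hf : ∀ u, (xadr T n u).length ≤ tauC R ρ T n → B (xadr T n u) = true → u.length = n + 1) :
    Unc R.1 (wob R.1 (memR B T n)) (cand R ρ B T n) := by
  by_cases h : isP R.1
  · have key : ∀ d : Str, d.length ≤ cost ρ.1 (n + 1) → ev B (clk R.2.1) d = code T n →
        ∃ ob : Bool → Str → Prop, Prom R.1 ob ∧ Ex ob false ∧
          (Ex ob true ↔ Ex (wob R.1 (memR B T n)) true) := by
      intro d h1 h2
      refine ⟨obS R B (dbl d ++ false :: code T n), hP _ ?_, ⟨[], ?_⟩, ?_⟩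
      · have := tS_mono R (show (dbl d ++ false :: code T n).length ≤ mC ρ T n by
          simp only [List.length_append, dbl_length, List.length_cons, code_length, mC]; omega)
        unfold tauC; omega
      · simp [obS, h, undbl_dbl, phiOf_dbl, h2]
      · rw [wob_ex (Or.inl h)]
        simp only [Ex, obS, if_pos h, if_true, phiOf_dbl, hV h B, code_adr, code_length, pow_one]
        constructor
        · rintro ⟨y, y1, y2⟩
          have y3 := (List.cons.inj y2).1
          obtain ⟨z, rfl⟩ := ex_vec (hf y (by rw [xadr_length]; unfold tauC; omega) y3)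
          exact ⟨z, y3⟩
        · rintro ⟨z, hz⟩
          exact ⟨z.1 :: z.2.1, by rw [List.length_cons, z.2.2]; omega, congrArg (fun t => [t]) hz⟩
    have key2 : Ex (cand R ρ B T n) false → ∃ ob : Bool → Str → Prop, Prom R.1 ob ∧ Ex ob false ∧
        (Ex ob true ↔ Ex (wob R.1 (memR B T n)) true) := by
      rintro ⟨ω, hω⟩
      unfold cand at hω
      split_ifs at hω
      · exact key ω (by have := hω.1; unfold cost; omega) hω.2
      · exact key _ (by simpa using ev_len B ρ.1 (true :: List.replicate n true)) hω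
    rcases h with e | e | e <;> rw [e] at key2 ⊢
    · rintro ⟨a, b⟩
      obtain ⟨ob, o1, o2, o3⟩ := key2 a
      exact o1 ⟨o2, o3.2 b⟩
    · rintro ⟨a, b⟩
      obtain ⟨ob, o1, o2, o3⟩ := key2 a
      exact o1 ⟨o2, o3.2 b⟩
    · intro a
      obtain ⟨ob, o1, o2, o3⟩ := key2 a
      exact o3.1 (o1 o2)
  · rw [unc_prom h]
    have e : cand R ρ B T n = obS R B (ev B ρ.1 (List.replicate n true)) := by
      funext s ω
      have : R.1 ≠ .b := fun e => h (Or.inl e)
      simp [cand, obS, h, this]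
    rw [e]
    refine hP _ ?_
    have h1 := ev_len B ρ.1 (List.replicate n true)
    rw [List.length_replicate] at h1
    have h2 := cost_mono ρ.1 (show n ≤ n + 1 by omega)
    have := tS_mono R (show (ev B ρ.1 (List.replicate n true)).length ≤ mC ρ T n by
      unfold mC; omega)
    unfold tauC; omega

def FailR (R : Req3) (ρ : Red) (T : ℕ) (B : Str → Bool) : Prop :=
  ∃ n, ¬ Cnd R.1 (wob R.1 (memR B T n)) (cand R ρ B T n) (prC R ρ B n) []

def Proper (π : Kd → Prop) (R : Req3) : Prop := π R.1 ∧ (isP R.1 → IsRev R.2.2)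

/-- What one stage guarantees. -/
def StageOK4 (E : ℕ → Req3) (π : Kd → Prop) (ρ : Red) (q e T L L' : ℕ) (B : Str → Bool) : Prop :=
  ∃ j₀, Good E π T e j₀ L L' B ∧ ((j₀ < q ∧ Dead E B L' j₀ ∧ ¬ Dead E B L j₀) ∨
    (j₀ = q ∧ (Proper π (E e) → ¬ Dead E B L e →
      ∀ A : Str → Bool, (∀ α : Str, α.length < L' → A α = B α) → FailR (E e) ρ T A)))

theorem StageOK4.congr {E : ℕ → Req3} {π : Kd → Prop} {ρ : Red} {q e T L L' : ℕ}
    {B A : Str → Bool} (h : StageOK4 E π ρ q e T L L' B) (hL : L ≤ L')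
    (hA : ∀ α : Str, α.length < L' → A α = B α) : StageOK4 E π ρ q e T L L' A := by
  have hA' : ∀ α : Str, α.length < L → A α = B α := fun α h => hA α (by omega)
  obtain ⟨j₀, h1, h2⟩ := h
  refine ⟨j₀, h1.congr hL hA, ?_⟩
  rw [dead_congr hA, dead_congr hA', dead_congr hA']
  exact h2.imp id fun h => ⟨h.1, fun a b A' hA'' =>
    h.2 a b A' fun α hα => (hA'' α hα).trans (hA α hα)⟩

end Pool.Agent.Lib.MP_2c6a5a_lc.Cl
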