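import Pool.Agent.Lib.MP_2c6a5a_lc.ClWorld

/-! One stage and the oracle. -/

namespace Pool.Agent.Lib.MP_2c6a5a_lc.Cl

open Finset Pool.Agent.Lib.MP_8a52c3_lc.Orc Pool.Agent.Lib.MP_2c6a5a_lc.Pf
  Pool.Agent.Lib.MP_2c6a5a_lc.Mx

set_option linter.unusedSectionVars false

/-- No live requirement dies in a good extension. -/
def NK (E : ℕ → Req3) (π : Kd → Prop) (σ : Str → Bool) (q e T L : ℕ) : Prop :=
  ∀ j < q, ¬ Dead E σ L j → ∀ L' B, L < L' → (∀ α : Str, α.length < L → B α = σ α) →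
    Good E π T e j L L' B → ¬ Dead E B L' j

namespace Wd
variable {d : Wd} {W : Finset d.UU → Str → Bool} (hW : ∀ X α, W X α = d.Psi W α X)
  (hN : NK d.E d.π d.σ d.p.q d.p.e d.T d.L)
include hW hN

theorem prom_of {γ : Str} (hA : d.Act γ) (h2 : gl γ < d.p.τ) {X : Finset d.UU}
    (hF : FineA W (gj γ) (Nat.sqrt γ.length + 1) X)
    (hw : d.p.e < gj γ → d.p.n0 ≤ Nat.sqrt γ.length → Wit (d.E d.p.e).1 X) :
    Prom (gk γ) (atW (d.obW W γ) X) := by
  by_contra hn
  have lt := sqrt_lt_gl γ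
  have hd : Dead d.E (W X) (Nat.sqrt γ.length + 1) (gj γ) :=
    ⟨gz γ, Nat.lt_succ_of_le hA.1.2, by rw [hA.1.1]; exact hn⟩
  rcases Nat.lt_or_ge d.L (Nat.sqrt γ.length + 1) with h | h
  · exact hN _ hA.2.2.1 hA.2.2.2 _ _ h (low hW X)
      (good_of_fine hW hF (by omega) hA.2.2.1.le fun a b => hw a (by omega)) hd
  · exact hA.2.2.2 (hd.mono h fun α hα => (low hW X α (by omega)).symm)

theorem fineA_of {j l : ℕ} {X : Finset d.UU} (hl : l ≤ d.p.τ)
    (h : ∀ γ, d.Act γ → d.L ≤ gl γ → gl γ < l → ¬ d.Triv γ →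
      UnA W γ X ∧ (gj γ < j → CnA W γ X)) : FineA W j l X := by
  have idok : ∀ γ, d.Act γ → d.Triv γ → Prom (gk γ) (atW (d.obW W γ) X) →
      UnA W γ X ∧ CnA W γ X := by
    intro γ hA hT hP
    unfold UnA CnA abit
    rw [if_pos hT]
    refine ⟨idB_unc hP, idB_cnd fun h y hy => ?_⟩
    have h' : isP (d.E (gj γ)).1 := hA.1.1 ▸ h
    simp only [atW, obW, obG, obS, if_pos h'] at hy
    exact hy.1
  have key : ∀ m γ, d.Act γ → gl γ < l → d.Triv γ → Nat.sqrt γ.length < m →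
      Prom (gk γ) (atW (d.obW W γ) X) := by
    intro m
    induction m with
    | zero => intro _ _ _ _ h; omega
    | succ m ih =>
      intro γ hA h1 hT hm
      have lt := sqrt_lt_gl γ
      refine prom_of hW hN hA (by omega) (fun γ' a b c => ?_) fun a b => ?_
      · have lt' := sqrt_lt_gl γ'
        by_cases hT' : d.Triv γ'
        · have := idok γ' a hT' (ih γ' a (by omega) hT' (by omega))
          exact ⟨this.1, fun _ => this.2⟩
        · refine ⟨(h γ' a b (by omega) hT').1, fun hj => ?_⟩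
          unfold Triv at hT hT'
          omega
      · unfold Triv at hT
        omega
  intro γ a b c
  by_cases hT : d.Triv γ
  · have := idok γ a hT (key _ γ a c hT (Nat.lt_succ_self _))
    exact ⟨this.1, fun _ => this.2⟩
  · exact h γ a b c hT

omit hN in
open Classical in
/-- The groups that are coded by the generator. -/
noncomputable def ctx : Ctx d.π d.p d.sc where
  act := (short d.p.τ).filter fun γ => d.Act γ ∧ d.L ≤ gl γ ∧ gl γ < d.p.τ ∧ ¬ d.Triv γ
  inf := d.inf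
  l := gl
  ob := d.obW W
  name := fun _ => rfl
  ok := fun γ h => by
    obtain ⟨a, b, _, c, e⟩ := mem_filter.1 h
    have := sqrt_lt_gl γ
    exact infOk b ((mem_short _ _).1 a) e fun β hβ => local_W hW β (by omega)
  hl := fun γ h => ⟨by unfold gl; omega, (mem_filter.1 h).2.2.2.1⟩

theorem fineA_ctx {j l : ℕ} {X : Finset d.UU} (hl : l ≤ d.p.τ)
    (h : (ctx hW).Fine d.ext j l X) : FineA W j l X := by
  classical
  refine fineA_of hW hN hl fun γ a b c e => ?_
  have := h γ (mem_filter.2 ⟨(mem_short _ _).2 (by unfold gl at c; omega), a, b, by omega, e⟩) c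
  unfold UnA CnA abit
  rw [if_neg e]
  exact this

theorem ctx_H : (ctx hW).H d.ext (Wit (d.E d.p.e).1) := by
  classical
  intro γ hγ X hF hw
  obtain ⟨_, a, _, c, _⟩ := mem_filter.1 hγ
  have := sqrt_lt_gl γ
  exact prom_of hW hN a c (fineA_ctx hW hN (by omega) hF) fun _ _ => hw

omit hN in
theorem dec_loc {α : Type} {t : ℕ} (ht : d.p.τ = t + 1) {f : (Str → Bool) → α} (hf : Dec t f) :
    Loc (fun _ => True) d.p.K0 fun X => f (W X) :=
  (lift_loc phi1 W (fun β hβ => local_W hW β (by omega)) hf).mono (fun _ _ => trivial)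
    (by rw [d.hK0]; exact Nat.mul_le_mul (by omega) (DD_mono phi1 (by omega)))

end Wd

theorem exists_big5 {Φ τ : ℕ → ℕ} (hΦ : QB Φ) (hτ : QB τ) (L : ℕ) :
    ∃ n, L ≤ n ∧ Φ n ^ ((Nat.log 2 (τ n) + 8) ^ 4) ≤ 2 ^ n := by
  obtain ⟨b, hb⟩ := hΦ
  obtain ⟨c, hc⟩ := hτ
  set u := 6 + L + b * (c + 8) ^ 4 with hu
  have h1 : ∀ v, 6 ≤ v → 6 * v + 2 ≤ 2 ^ v := by
    intro v hv
    induction v, hv using Nat.le_induction with
    | base => norm_num
    | succ v _ ih => rw [pow_succ]; omega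
  have h2 := h1 u (by omega)
  obtain ⟨s, hs⟩ : ∃ s, s + 1 = 2 ^ u := ⟨2 ^ u - 1, by omega⟩
  have hpos : 1 ≤ 2 ^ s := Nat.one_le_two_pow
  have hlog : Nat.log 2 (2 ^ s - 1 + 1) = s := by
    rw [Nat.sub_add_cancel hpos, Nat.log_pow (by omega)]
  have h3 : s < 2 ^ s := Nat.lt_two_pow_self
  refine ⟨2 ^ s - 1, by omega, ?_⟩
  have b1 := hb (2 ^ s - 1)
  have c1 := hc (2 ^ s - 1)
  rw [hlog] at b1 c1
  have c2 : Nat.log 2 (τ (2 ^ s - 1)) + 8 ≤ (c + 8) * (s + 1) := by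
    have := Nat.log_mono_right (b := 2) c1
    rw [Nat.log_pow (by omega)] at this
    nlinarith
  refine ((Nat.pow_le_pow_left b1 _).trans
    (Nat.pow_le_pow_right Nat.one_le_two_pow (Nat.pow_le_pow_left c2 4))).trans ?_
  rw [← pow_mul]
  apply Nat.pow_le_pow_right (by omega)
  have e : b * (s + 1) * ((c + 8) * (s + 1)) ^ 4 = b * (c + 8) ^ 4 * (s + 1) ^ 5 := by ring
  have h4 : b * (c + 8) ^ 4 * (s + 1) ^ 5 ≤ 2 ^ u * (2 ^ u) ^ 5 := by
    rw [hs]; exact Nat.mul_le_mul_right _ (by omega)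
  have h5 : 2 ^ u * (2 ^ u) ^ 5 = 2 ^ (6 * u) := by ring
  have h6 : 2 ^ (6 * u + 1) ≤ 2 ^ s := Nat.pow_le_pow_right (by omega) (by omega)
  have h7 : 1 ≤ 2 ^ (6 * u) := Nat.one_le_two_pow
  rw [pow_succ] at h6
  omega

theorem QB_Phi (q : ℕ) {τ : ℕ → ℕ} (h : QB τ) : QB fun n => Phi q (τ n) := by
  have q1 : QB fun n => 2 * τ n + 5 := ((QB.const 2).mul h).add (QB.const 5)
  have q2 : QB fun n => 2 * τ n + 5 + 5 := q1.add (QB.const 5)
  have qC : QB fun n => (par2 q 0 (τ n)).C :=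
    (QB.const 7).mul (((q1.add q2).add (h.mul q2)).add (QB.const 5))
  have qX : QB fun n => (par2 q 0 (τ n)).X := by
    refine QB.le (g := fun n => 4 * (τ n + 1) * ((2 * τ n + 5) * (2 * τ n + 5 + 5) +
      (2 * τ n + 5 + 5)) + (par2 q 0 (τ n)).C ^ q + 1)
      (((((QB.const 4).mul (h.add (QB.const 1))).mul ((q1.mul q2).add q2)).add (qC.pow q)).add
        (QB.const 1)) fun n => ?_
    have h1 := rr_le ((2 * τ n + 5) * (2 * τ n + 5 + 5) + (2 * τ n + 5 + 5)) (Nat.log 2 (τ n) + 1)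
    have h2 : 2 ^ (Nat.log 2 (τ n) + 1 + 1) ≤ 4 * (τ n + 1) := by
      have := Nat.pow_log_le_add_one 2 (τ n)
      rw [pow_succ, pow_succ]; omega
    have h3 := Nat.mul_le_mul_right ((2 * τ n + 5) * (2 * τ n + 5 + 5) + (2 * τ n + 5 + 5)) h2
    show rr ((2 * τ n + 5) * (2 * τ n + 5 + 5) + (2 * τ n + 5 + 5)) (Nat.log 2 (τ n) + 1 - 0) +
      (par2 q 0 (τ n)).C ^ q + 1 ≤ _
    rw [Nat.sub_zero]
    omega
  exact (((QB.const 2).mul h).add (QB.const 4)).mul
    ((((qX.add (QB.const 1)).mul ((QB.const 100).mul qX)).add (QB.const 1)).add (QB.const 100))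

theorem QB_tS (R : Req3) {f : ℕ → ℕ} (hf : QB f) : QB fun n => tS R (f n) :=
  ((hf.tm _).add (hf.tm _)).add (QB.const 5)

theorem QB_cost (ρ : Clk) {f : ℕ → ℕ} (hf : QB f) : QB fun n => cost ρ (f n) :=
  hf.add ((hf.pow _).add (QB.const _))

theorem QB_tauC (R : Req3) (ρ : Red) (T : ℕ) : QB fun n => tauC R ρ T n := by
  have q1 : QB fun n => mC ρ T n :=
    ((((QB.const 2).mul (QB_cost ρ.1 (QB.id.add (QB.const 1)))).add (QB.const T)).add QB.id).add
      (QB.const 4)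
  exact ((q1.add (QB_tS R q1)).add (QB_cost ρ.2 (QB.id.add (QB_tS R q1)))).add
    (((QB.const (2 * T)).add ((QB.const 2).mul QB.id)).add (QB.const 8))

theorem stage4 (E : ℕ → Req3) {π : Kd → Prop} (hπ : Adm π) (ρ : Red) (q e T L : ℕ)
    (heq : e < q) (hT : (Nat.unpair T).1 = e) (σ : Str → Bool) :
    ∃ (σ' : Str → Bool) (L' : ℕ), L < L' ∧ (∀ α : Str, α.length < L → σ' α = σ α) ∧
      StageOK4 E π ρ q e T L L' σ' := by
  by_cases hN : NK E π σ q e T L
  swap
  · unfold NK at hN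
    push Not at hN
    obtain ⟨j, j1, j2, L', B, a, b, c, f⟩ := hN
    exact ⟨B, L', a, b, j, c, Or.inl ⟨j1, f, fun h => j2 (h.mono le_rfl fun α hα => (b α hα).symm)⟩⟩
  by_cases hp : Proper π (E e) ∧ ¬ Dead E σ L e
  · obtain ⟨n, hn, hbig⟩ := exists_big5 (QB_Phi q ((QB_tauC (E e) ρ T).add (QB.const 1)))
      ((QB_tauC (E e) ρ T).add (QB.const 1)) L
    set t := tauC (E e) ρ T n with ht
    have ht' : 2 * T + 2 * n + 8 ≤ t := by rw [ht]; unfold tauC; omega
    let p : Par3 := ⟨n, t + 1, q, e, T + 2 * n + 4, (t + 1) * DD (Phi q (t + 1)) (t + 1)⟩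
    have ok : p.Ok := by
      refine ⟨by simp only [p]; omega, by simp only [p]; omega, heq, le_trans ?_ hbig⟩
      simp only [p]
      have h1 := phi_ge q (t + 1)
      set Φ := Phi q (t + 1)
      set a := Nat.log 2 (t + 1)
      have h2 : 1 ≤ Φ ^ (a ^ 3) := Nat.one_le_pow _ _ (by omega)
      have h3 : Φ * ((t + 1) * DD Φ (t + 1) + 2) ≤ Φ ^ (a ^ 3 + 2) := by
        have : (t + 1) * Φ ^ (a ^ 3) + 2 ≤ Φ * Φ ^ (a ^ 3) := by nlinarith
        calc _ ≤ Φ * (Φ * Φ ^ (a ^ 3)) := Nat.mul_le_mul_left _ this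
          _ = _ := by ring
      refine (Nat.pow_le_pow_left h3 _).trans ?_
      rw [← pow_mul]
      refine Nat.pow_le_pow_right (by omega) ?_
      rw [pow_succ (a + 8) 3]
      exact Nat.mul_le_mul_right _ (by nlinarith [Nat.zero_le a, Nat.zero_le (a ^ 2)])
    obtain ⟨G⟩ := exists_gen hπ hp.1.1 ok
    let d : Wd := ⟨E, π, σ, L, T, p, G.U', G.dec, G.sc', G.nm', G.inj, G.len, G.ext, G.bok,
      rfl, rfl, hn, hT, fun _ => hp.1.1⟩
    obtain ⟨W, hW⟩ := d.exists_world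
    have hL : L < t + 1 := by omega
    obtain ⟨X, ⟨x1, x2⟩, x3⟩ := G.win (Wd.ctx hW) (Wd.ctx_H hW hN)
      (fun s ω X => cand (E e) ρ (W X) T n s ω) (fun ω X => prC (E e) ρ (W X) n ω)
      (fun s ω => Wd.dec_loc hW rfl (dec_cand (E e) ρ T n s ω))
      (fun ω => Wd.dec_loc hW rfl (dec_prC (E e) ρ T n ω))
      (fun X hX => by
        have g := Wd.good_of_fine hW (Wd.fineA_ctx hW hN le_rfl hX) le_rfl heq.le
          fun h => absurd h (lt_irrefl _)
        have nd := hN e heq hp.2 _ _ hL (Wd.low hW X) g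
        have := cand_unc (R := E e) (ρ := ρ) (B := W X) (T := T) (n := n) hp.1.2
          (fun z hz => by
            by_contra hh
            exact nd ⟨z, Nat.lt_succ_of_le hz, hh⟩)
          fun u hu => g.fx T n u (by rw [xadr_length]; show L ≤ _; omega) (Nat.lt_succ_of_le hu)
        rw [show memR (W X) T n = slot X from Wd.mem_slot hW X] at this
        exact this)
    refine ⟨W X, t + 1, hL, Wd.low hW X, q, Wd.good_of_fine hW (Wd.fineA_ctx hW hN le_rfl x1)
      le_rfl le_rfl fun _ _ => x2, Or.inr ⟨rfl, fun _ _ A hA => ⟨n, ?_⟩⟩⟩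
    have e1 : memR A T n = slot X :=
      (memR_congr fun α hα => hA α (by omega)).trans (Wd.mem_slot hW X)
    have e2 : cand (E e) ρ A T n = cand (E e) ρ (W X) T n := by
      funext s ω
      exact (dec_cand (E e) ρ T n s ω).congr fun β hβ => hA β (by omega)
    have e3 : prC (E e) ρ A n = prC (E e) ρ (W X) n := by
      funext ω
      exact (dec_prC (E e) ρ T n ω).congr fun β hβ => hA β (by omega)
    rw [e1, e2, e3]
    exact x3
  · let p : Par3 := ⟨L, L + 1, q, e, T + 2 * L + 4, (L + 1) * DD (Phi q (L + 1)) (L + 1)⟩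
    let d : Wd := ⟨E, π, σ, L, T, p, Empty, inferInstance, Empty.elim, Empty.elim,
      fun u => u.elim, fun u => u.elim, fun _ _ _ _ _ => False, fun _ _ _ => bitOk_false _ _ _,
      rfl, rfl, le_rfl, hT, fun h => by simp only [p] at h; omega⟩
    obtain ⟨W, hW⟩ := d.exists_world
    refine ⟨W ∅, L + 1, by omega, Wd.low hW ∅, q, Wd.good_of_fine hW
      (Wd.fineA_of hW hN le_rfl fun γ _ _ c h => absurd (Or.inr ?_) h) le_rfl le_rfl
      (fun _ h => by simp only [d, p] at h; omega), Or.inr ⟨rfl, fun a b => absurd ⟨a, fun h => b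
        (h.mono le_rfl (Wd.low hW ∅))⟩ hp⟩⟩
    have := sqrt_lt_gl γ
    simp only [d, p] at c ⊢
    omega

theorem exists_oracle4 (E : ℕ → Req3) {π : Kd → Prop} (hπ : Adm π) (Rd : ℕ → Red) :
    ∃ (A : Str → Bool) (L : ℕ → ℕ), L 0 = 0 ∧ StrictMono L ∧
      ∀ i, StageOK4 E π (Rd (kOf i)) (Nat.sqrt i + 1) (eOf i) (Nat.pair (eOf i) (sOf i))
        (L i) (L (i + 1)) A := by
  choose nσ nL h1 h2 h3 using fun (i L : ℕ) (σ : Str → Bool) =>
    stage4 E hπ (Rd (kOf i)) (Nat.sqrt i + 1) (eOf i) (Nat.pair (eOf i) (sOf i)) L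
      (Nat.lt_succ_of_le (Nat.unpair_left_le _)) (by simp) σ
  let st : ℕ → (Str → Bool) × ℕ := fun i =>
    Nat.rec (fun _ => false, 0) (fun i s => (nσ i s.2 s.1, nL i s.2 s.1)) i
  have hmono : StrictMono fun i => (st i).2 :=
    strictMono_nat_of_lt_succ fun i => h1 i (st i).2 (st i).1
  have hagree : ∀ i j, i ≤ j → ∀ α : Str, α.length < (st i).2 → (st j).1 α = (st i).1 α := by
    intro i j hij
    induction j, hij using Nat.le_induction with
    | base => intro _ _; rfl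
    | succ j hij ih =>
      intro α hα
      rw [← ih α hα]
      exact h2 j (st j).2 (st j).1 α (lt_of_lt_of_le hα (hmono.monotone hij))
  refine ⟨fun α => (st (α.length + 1)).1 α, fun i => (st i).2, rfl, hmono, fun i => ?_⟩
  refine (h3 i (st i).2 (st i).1).congr (h1 i (st i).2 (st i).1).le fun α hα => ?_
  have hl : α.length < (st (α.length + 1)).2 := hmono.id_le (α.length + 1)
  rcases le_total (i + 1) (α.length + 1) with h | h
  · exact hagree _ _ h α hα
  · exact (hagree _ _ h α hl).symm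

/-- What the finished oracle satisfies. -/
structure Fin4 (E : ℕ → Req3) (π : Kd → Prop) (A : Str → Bool) : Prop where
  unc : ∀ γ, UncR E A γ
  fg : ∀ γ s w, A (gadr γ s w) = true → w.length = wl γ
  fx : ∀ T n u, A (xadr T n u) = true → u.length = n + 1
  cnd : ∀ j, ¬ π (E j).1 → (∀ z, Prom (E j).1 (obS (E j) A z)) →
    ∃ l, ∀ γ, l ≤ γ.length → IsCode3 E γ → gj γ = j → CndR E A γ
  cdd : ∀ e, Proper π (E e) → (∀ z, Prom (E e).1 (obS (E e) A z)) →
    ∃ T, (∀ n, WitR (E e).1 A T n) ∧ ∀ ρ, FailR (E e) ρ T A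

theorem exists_fin4 (E : ℕ → Req3) {π : Kd → Prop} (hπ : Adm π) : ∃ A, Fin4 E π A := by
  obtain ⟨Rd, hRd⟩ := exists_surjective_nat Red
  obtain ⟨A, L, hL0, hL, hS⟩ := exists_oracle4 E hπ fun k => Rd (k - 1)
  have hmono : ∀ j i i', i ≤ i' → Dead E A (L i) j → Dead E A (L i') j :=
    fun _ _ _ h hd => hd.mono (hL.monotone h) fun _ _ => rfl
  refine ⟨A, fun γ => ?_, fun γ s w h => ?_, fun T n u h => ?_, fun j h1 h2 => ?_,
    fun e h1 h2 => ?_⟩
  · obtain ⟨i, _, a, b⟩ := find_stage hL 0 (gl γ) (by omega)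
    obtain ⟨_, g, _⟩ := hS i
    exact g.unc γ a b
  · obtain ⟨i, _, a, b⟩ := find_stage hL 0 (gadr γ s w).length (by omega)
    obtain ⟨_, g, _⟩ := hS i
    exact g.fg γ s w a b h
  · obtain ⟨i, _, a, b⟩ := find_stage hL 0 (xadr T n u).length (by omega)
    obtain ⟨_, g, _⟩ := hS i
    exact g.fx T n u a b h
  · obtain ⟨i₁, h₁⟩ := settle (fun j i => Dead E A (L i) j) hmono (j + 1)
    refine ⟨L (i₁ + j * j), fun γ a b c => ?_⟩
    obtain ⟨i, a1, a2, a3⟩ := find_stage hL (i₁ + j * j) (gl γ) (by unfold gl; omega)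
    have hq : j ≤ Nat.sqrt i := Nat.le_sqrt.2 (by omega)
    obtain ⟨j₀, g, k⟩ := hS i
    refine g.cnd γ a2 a3 b (by rw [← b.1, c]; exact h1) ?_ (by
      rw [c]; exact fun ⟨z, _, hz⟩ => hz (h2 z))
    rcases k with ⟨_, k1, k2⟩ | ⟨k, _⟩
    · by_contra hh
      exact k2 (h₁ i (by omega) j₀ (by omega) k1)
    · omega
  · obtain ⟨s, hs⟩ := settle (fun j i => Dead E A (L i) j) hmono (e + 1)
    refine ⟨Nat.pair e s, fun n => ?_, fun ρ => ?_⟩
    · obtain ⟨i, _, a, b⟩ := find_stage hL 0 (Nat.pair e s + 2 * n + 4) (by omega)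
      obtain ⟨j₀, g, k⟩ := hS i
      have := g.wit _ n a b fun h => by
        obtain ⟨b1, b2⟩ := Nat.pair_eq_pair.1 h
        have b3 : sOf i ≤ i := by
          unfold sOf
          exact (Nat.unpair_left_le _).trans ((Nat.unpair_right_le _).trans (Nat.sqrt_le_self i))
        rcases k with ⟨_, k1, k2⟩ | ⟨k, _⟩
        · by_contra hh
          exact k2 (hs i (by omega) j₀ (by omega) k1)
        · have : eOf i ≤ Nat.sqrt i := Nat.unpair_left_le _
          omega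
      simpa using this
    · obtain ⟨k, rfl⟩ := hRd ρ
      set Q := Nat.pair e (Nat.pair s (k + 1)) with hQ
      have hQ1 : 1 ≤ Q :=
        le_trans (le_trans (by omega) (Nat.right_le_pair s (k + 1))) (Nat.right_le_pair _ _)
      obtain ⟨i, i1, i2, i3⟩ := quiet (fun j i => Dead E A (L i) j) hmono (Q + 1) (Q * Q)
      have hsq : Nat.sqrt i = Q := (Nat.eq_sqrt.2 ⟨i1, by nlinarith⟩).symm
      have b1 : eOf i = e := by simp [eOf, hsq, hQ]
      have b2 : sOf i = s := by simp [sOf, hsq, hQ]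
      have b3 : kOf i = k + 1 := by simp [kOf, hsq, hQ]
      have := hS i
      rw [b1, b2, b3, hsq] at this
      obtain ⟨j₀, _, ⟨k0, k1, k2⟩ | ⟨_, k⟩⟩ := this
      · exact absurd (i3 j₀ k0 k1) k2
      · exact k h1 (fun ⟨z, _, hz⟩ => hz (h2 z)) A fun _ _ => rfl

end Pool.Agent.Lib.MP_2c6a5a_lc.Cl
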