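import Pool.Agent.Lib.MP_2c6a5a_lc.ClAbs

/-! Combinatorial tools for the generators. -/

namespace Pool.Agent.Lib.MP_2c6a5a_lc.Cl

open Finset Pool.Agent.Lib.MP_8a52c3_lc.Orc Pool.Agent.Lib.MP_2c6a5a_lc.Pf
  Pool.Agent.Lib.MP_2c6a5a_lc.Mx

set_option linter.unusedSectionVars false

theorem phi_ge (q τ : ℕ) : 200 * (τ + 2) ≤ Phi q τ := by
  unfold Phi
  nlinarith [Nat.zero_le (Psi3 q τ), Nat.zero_le (τ * Psi3 q τ)]

theorem Par3.Ok.big8 {p : Par3} (hp : p.Ok) : (Phi p.q p.τ * (p.K0 + 2)) ^ 8 ≤ 2 ^ p.n := by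
  refine le_trans (Nat.pow_le_pow_right ?_ (by omega)) hp.2.2.2
  have := phi_ge p.q p.τ
  nlinarith

theorem Par3.Ok.big {p : Par3} (hp : p.Ok) : 200 * (p.τ + 2) * (p.K0 + 2) ^ 2 ≤ 2 ^ p.n := by
  refine le_trans ?_ hp.big8
  have h1 := phi_ge p.q p.τ
  rw [mul_pow]
  refine Nat.mul_le_mul (h1.trans (Nat.le_self_pow (by omega) _))
    (Nat.pow_le_pow_right (by omega) (by omega))

theorem Par3.Ok.big1 {p : Par3} (hp : p.Ok) : 400 * (p.K0 + 2) ^ 2 ≤ 2 ^ p.n :=
  le_trans (Nat.mul_le_mul_right _ (by omega)) hp.big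

theorem Par3.Ok.big0 {p : Par3} (hp : p.Ok) : 800 * (p.K0 + 2) ≤ 2 ^ p.n :=
  le_trans (by nlinarith) hp.big1

theorem le_phi {q τ K m : ℕ} (h : m ≤ 400 * (K + 1) ^ 2) : m ≤ Phi q τ * (K + 1) ^ 4 := by
  refine h.trans (Nat.mul_le_mul ((phi_ge q τ).trans' (by omega)) ?_)
  exact Nat.pow_le_pow_right (by omega) (by omega)

section
variable {U : Type} [DecidableEq U]

theorem avoid {n : ℕ} (em : Vn n → U) (hem : Function.Injective em) (C : Finset U)
    (h : C.card < 2 ^ n) : ∃ v, em v ∉ C := by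
  by_contra hn
  push Not at hn
  have := card_le_card_of_injOn (s := (univ : Finset (Vn n))) (t := C) em (fun v _ => hn v)
    (fun a _ b _ e => hem e)
  simp at this
  omega

theorem cross (I I' : Finset U) (C C' : U → Finset U) (d : ℕ) (hC : ∀ i ∈ I, (C i).card ≤ d)
    (hC' : ∀ i ∈ I', (C' i).card ≤ d) (h : 2 * d < I.card) (h' : 2 * d < I'.card) :
    ∃ i ∈ I, ∃ i' ∈ I', i' ∉ C i ∧ i ∉ C' i' := by
  by_contra hn
  push Not at hn
  have hsub : I ×ˢ I' ⊆ (I.biUnion fun i => (C i).image fun i' => (i, i')) ∪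
      (I'.biUnion fun i' => (C' i').image fun i => (i, i')) := by
    rintro ⟨i, i'⟩ hi
    obtain ⟨a, b⟩ := mem_product.1 hi
    by_cases h1 : i' ∈ C i
    · exact mem_union_left _ (mem_biUnion.2 ⟨i, a, mem_image.2 ⟨i', h1, rfl⟩⟩)
    · exact mem_union_right _ (mem_biUnion.2 ⟨i', b, mem_image.2 ⟨i, hn i a i' b h1, rfl⟩⟩)
  have a1 := (card_le_card hsub).trans (card_union_le _ _)
  have a2 := card_biUnion_le_card_mul I (fun i => (C i).image fun i' => (i, i')) d
    fun i hi => card_image_le.trans (hC i hi)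
  have a3 := card_biUnion_le_card_mul I' (fun i' => (C' i').image fun i => (i, i')) d
    fun i hi => card_image_le.trans (hC' i hi)
  rw [card_product] at a1
  nlinarith

theorem agree_two {C X : Finset U} {i i' : U} (h : i' ∉ C) :
    Agree C (insert i X) (insert i (insert i' X)) := by
  rw [insert_comm]
  exact agree_insert h

/-- Many accepted one-point extensions of a rejected world give two different witnesses. -/
theorem few_singles {Ω : Type} {P : U → Prop} {K : ℕ} (cb : Ω → Finset U → Prop)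
    (hl : ∀ ω, Loc P K (cb ω)) (X I : Finset U) (hI : 2 * (2 * K + 1) < I.card)
    (h0 : ∀ ω, ¬ cb ω X) (h1 : ∀ i ∈ I, ∃ ω, cb ω (insert i X)) :
    ∃ i ∈ I, ∃ i' ∈ I, i ≠ i' ∧ ∃ ω ω', ω ≠ ω' ∧ cb ω (insert i (insert i' X)) ∧
      cb ω' (insert i (insert i' X)) := by
  have hne : I.Nonempty := card_pos.1 (by omega)
  obtain ⟨i₀, hi₀⟩ := hne
  have : Nonempty Ω := ⟨(h1 i₀ hi₀).choose⟩
  choose! w hw using h1
  let C : U → Finset U := fun i => insert i ((hl (w i)).ct (insert i X) ∪ (hl (w i)).ct X)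
  have hC : ∀ i ∈ I, (C i).card ≤ 2 * K + 1 := by
    intro i _
    have := card_insert_le i ((hl (w i)).ct (insert i X) ∪ (hl (w i)).ct X)
    have := card_union_le ((hl (w i)).ct (insert i X)) ((hl (w i)).ct X)
    have := (hl (w i)).ct_card (insert i X)
    have := (hl (w i)).ct_card X
    simp only [C]
    omega
  obtain ⟨i, hi, i', hi', a, b⟩ := cross I I C C _ hC hC hI hI
  simp only [C, mem_insert, mem_union, not_or] at a b
  refine ⟨i, hi, i', hi', b.1, w i, w i', fun e => ?_,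
    (hl _).ct_of (agree_two a.2.1) (hw i hi), ?_⟩
  · apply h0 (w i)
    rw [← (hl (w i)).ct_eq (agree_insert a.2.2), e]
    exact hw i' hi'
  · rw [insert_comm]
    exact (hl _).ct_of (agree_two b.2.1) (hw i' hi')

/-- A generic choice of coordinates avoids sets that do not depend on the coordinate. -/
theorem generic {ι J : Type} [Fintype ι] [DecidableEq ι] {n K : ℕ} (I : Finset J) (co : J → ι)
    (em : J → Vn n → U) (hem : ∀ j, Function.Injective (em j))
    (C : J → (ι → Vn n) → Finset U) (hC : ∀ j ω, (C j ω).card ≤ K)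
    (hind : ∀ j ω v, C j (Function.update ω (co j) v) = C j ω) (h : I.card * K < 2 ^ n) :
    ∃ ω : ι → Vn n, ∀ j ∈ I, em j (ω (co j)) ∉ C j ω := by
  classical
  have : Nonempty (Vn n) := ⟨List.Vector.replicate n true⟩
  have hN : (0 : ℝ) < 2 ^ n := by positivity
  have key : pr (fun ω : ι → Vn n => ∃ j ∈ I, em j (ω (co j)) ∈ C j ω) < 1 := by
    refine lt_of_le_of_lt (pr_exists_le I _ ((K : ℝ) / 2 ^ n) fun j _ => ?_) ?_
    · have := pr_step (co j) (fun _ : ι → Vn n => True) (fun ω => em j (ω (co j)) ∈ C j ω)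
        ((K : ℝ) / 2 ^ n) (fun _ _ _ => trivial) fun ω => by
          simp only [Function.update_self, hind]
          unfold pr
          have e : (Fintype.card (Vn n) : ℝ) = 2 ^ n := by simp
          rw [e]
          apply div_le_div_of_nonneg_right _ hN.le
          have := (card_le_card_of_injOn (s := univ.filter fun v => em j v ∈ C j ω) (t := C j ω)
            (em j) (fun v hv => (mem_filter.1 hv).2) (fun a _ b _ e => hem j e)).trans (hC j ω)
          convert (Nat.cast_le (α := ℝ)).2 this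
          rfl
      rw [pr_true, mul_one] at this
      exact le_trans (pr_mono fun ω hω => ⟨trivial, hω⟩) this
    · rw [← mul_div_assoc, div_lt_one hN]
      exact_mod_cast h
  obtain ⟨ω, hω⟩ := exists_not_of_pr_lt_one key
  exact ⟨ω, fun j hj hh => hω ⟨j, hj, hh⟩⟩

theorem conf_of {D : Bool → Finset U → Prop} {K r : ℕ} (h : ∀ X, ¬ (D true X ∧ D false X)) :
    Conf D K r := by
  intro x₀ c₀ x₁ c₁ h₀ h₁
  by_contra hno
  push Not at hno
  refine h ((x₀ ∩ c₀) ∪ (x₁ ∩ c₁)) ⟨h₀.1.2 _ fun u hu => ?_, h₁.1.2 _ fun u hu => ?_⟩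
  · simp only [mem_union, mem_inter, hu, and_true]
    exact ⟨fun h => h.elim id fun h => (hno u hu h.2).2 h.1, Or.inl⟩
  · simp only [mem_union, mem_inter, hu, and_true]
    exact ⟨fun h => h.elim (fun h => (hno u h.2 hu).1 h.1) id, Or.inr⟩

theorem thin_of {D : Finset U → Prop} {K : ℕ} {X c : Finset U} (h : Cert D K X c) :
    Thin D K (2 * K) X c :=
  ⟨h, Nat.mul_le_mul_left 2 ((card_le_card inter_subset_right).trans h.1)⟩

/-- A local predicate is decided by an adaptive query process. -/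
theorem Loc.adapt {K : ℕ} {f : Finset U → Prop} (h : Loc (fun _ => True) K f) :
    ∃ Q : Finset U → Finset U, Adapt Q ∧ (∀ X, (Q X).card ≤ (K + 1) * K) ∧
      ∀ X X', Agree (Q X) X X' → f X' = f X := by
  let D : Bool → Finset U → Prop := fun b X => if b then f X else ¬ f X
  have hC : Conf D K (2 * K) := conf_of fun X hX => hX.2 hX.1
  have key : ∀ X, ¬ D (npOut D K (2 * K) X) X := fun X => np_correct hC fun b hb =>
    ⟨h.ct X, thin_of ⟨h.ct_card X, fun X' hX' => by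
      simp only [D] at hb ⊢
      rw [h.ct_eq hX']
      exact hb⟩⟩
  refine ⟨npQ D K (2 * K), npQ_adapt _ _ _, npQ_card _ _ _, fun X X' hX => ?_⟩
  have e := npOut_loc D K (2 * K) X X' hX
  have k1 := key X
  have k2 := key X'
  rw [e] at k2
  apply propext
  cases hb : npOut D K (2 * K) X <;> simp only [hb, D] at k1 k2 <;> simp_all

theorem iterQ_ok {P : U → Prop} (H : Finset U → Finset U) (hH : ∀ O, ∀ u ∈ H O, P u)
    (X : Finset U) (s : ℕ) : ∀ u ∈ iterQ (fun _ O => H O) X s, P u := by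
  induction s with
  | zero => simp [iterQ]
  | succ s ih =>
    intro u hu
    rcases mem_union.1 hu with h | h
    · exact ih u h
    · exact hH _ u h

/-- Greedy search for a stable part of a small world. -/
theorem search {P : U → Prop} (H : Finset U → Finset U) (K m : ℕ) (h1 : ∀ O, (H O).card ≤ K)
    (h2 : ∀ O, ∀ u ∈ H O, P u) :
    ∃ Pf : Finset U → Finset U, (∀ X, Pf X ⊆ X) ∧
      Loc P ((m + 2) * K) (fun X => (Pf X, Agree (H (Pf X)) (Pf X) X)) ∧
      ∀ X, X.card ≤ m → Agree (H (Pf X)) (Pf X) X := by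
  let Q : Finset U → Finset U := fun X => iterQ (fun _ O => H O) X (m + 1)
  refine ⟨fun X => X ∩ Q X, fun X => inter_subset_left, fun X => ⟨Q X ∪ H (X ∩ Q X), ?_,
    fun u hu => (mem_union.1 hu).elim (iterQ_ok H h2 X _ u) (h2 _ u), fun X' hX => ?_⟩,
    fun X hX u hu => ?_⟩
  · have := card_union_le (Q X) (H (X ∩ Q X))
    have : (Q X).card ≤ (m + 1) * K := iterQ_card _ K (fun _ O => h1 O) X _
    have := h1 (X ∩ Q X)
    nlinarith
  · have a1 : Agree (Q X) X X' := hX.mono subset_union_left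
    have a2 : Q X' = Q X := iterQ_adapt _ _ X X' a1
    have a3 : X' ∩ Q X' = X ∩ Q X := by rw [a2, a1.inter_eq]
    have a4 : Agree (H (X ∩ Q X)) X X' := hX.mono subset_union_right
    simp only [a3]
    congr 1
    exact propext ⟨fun h => agree_trans h (agree_symm a4), fun h => agree_trans h a4⟩
  · rcases iterQ_stab H X (m + 1) with h | h
    · have := card_le_card (inter_subset_left (s₁ := X) (s₂ := Q X))
      have h' : m + 1 ≤ (X ∩ Q X).card := h
      omega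
    · exact ⟨fun hx => mem_inter.2 ⟨hx, h (mem_inter.2 ⟨hx, hu⟩)⟩, fun hx => (mem_inter.1 hx).1⟩

variable {π : Kd → Prop} {p : Par3} {sc : U → ℕ} {i : Inf} {ob : Ob U}

theorem InfOk.tle (h : InfOk π p sc i ob) (hp : p.Ok) : i.t + 1 ≤ i.γ.length := by
  have := h.nt
  have := h.tγ
  have := hp.1
  nlinarith

theorem InfOk.loc' (h : InfOk π p sc i ob) (hp : p.Ok) (s : Bool) (y : Str) :
    Loc (fun u => sc u ≤ i.γ.length) i.K (ob s y) :=
  (h.loc s y).mono (fun u hu => by have := h.tle hp; omega) le_rfl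

/-- Coding by search when the good worlds are small and closed under subsets. -/
theorem search_ext (hp : p.Ok) (h : InfOk π p sc i ob) (W : Finset U → Prop)
    (hd : ∀ X Y, Y ⊆ X → W X → W Y) (hm : ∀ X, W X → X.card ≤ 2)
    (hκ : i.κ = .e ∨ i.κ = .f ∨ i.κ = .g ∨ i.κ = .h) (hP : ∀ X, W X → Prom i.κ (atW ob X)) :
    ∃ bit, BitOk (Phi p.q p.τ) sc i bit ∧ (∀ X, Unc i.κ (atW ob X) (atW bit X)) ∧
      ∀ X, W X → Cnd i.κ (atW ob X) (atW bit X) Prod.snd (none, []) := by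
  classical
  by_cases hf : i.κ = .f
  · have : ∀ O, ∃ y, W O → ob false [] O → ob true y O := by
      intro O
      by_cases hO : W O ∧ ob false [] O
      · have := hP O hO.1
        rw [hf] at this
        obtain ⟨y, hy⟩ := this ⟨[], hO.2⟩
        exact ⟨y, fun _ _ => hy⟩
      · exact ⟨[], fun a b => absurd ⟨a, b⟩ hO⟩
    choose y hy using this
    obtain ⟨Pf, a1, a2, a3⟩ := search (P := fun u => sc u ≤ i.γ.length)
      (fun O => (h.loc' hp false []).ct O ∪ (h.loc' hp true (y O)).ct O) (2 * i.K) 2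
      (fun O => (card_union_le _ _).trans (by
        have := (h.loc' hp false []).ct_card O
        have := (h.loc' hp true (y O)).ct_card O
        omega))
      (fun O u hu => (mem_union.1 hu).elim ((h.loc' hp _ _).ct_ok O u) ((h.loc' hp _ _).ct_ok O u))
    refine ⟨fun _ ω X => ω = (none, []) ∧ W (Pf X) ∧ ob false [] (Pf X) ∧
      Agree ((h.loc' hp false []).ct (Pf X) ∪ (h.loc' hp true (y (Pf X))).ct (Pf X)) (Pf X) X,
      ⟨fun s ω => ?_, ?_⟩, fun X => ?_, fun X hX => ?_⟩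
    · exact (a2.comp fun z => ω = (none, []) ∧ W z.1 ∧ ob false [] z.1 ∧ z.2).mono
        (fun _ h => h) (le_phi (by nlinarith))
    · rintro s ω X ⟨rfl, _⟩
      simp
    · rw [hf]
      rintro ⟨ω, _, b1, b2, b3⟩
      exact ⟨y (Pf X), (h.loc' hp _ _).ct_of (b3.mono subset_union_right) (hy _ b1 b2)⟩
    · rw [hf]
      rintro ⟨y', hy'⟩
      have e := h.nil (by simp [isP, hf]) y' X hy'
      subst e
      refine ⟨rfl, hd _ _ (a1 X) hX, ?_, a3 X (hm X hX)⟩
      rw [← (h.loc' hp false []).ct_eq ((a3 X (hm X hX)).mono subset_union_left)]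
      exact hy'
  · have : ∀ O, ∃ (s : Bool) (y : Str), y.length ≤ i.t ∧ (i.κ = .g → s = true) ∧
        (W O → ob s y O) := by
      intro O
      by_cases hO : W O
      · have h1 := hP O hO
        rcases hκ with e | e | e | e
        · rw [e] at h1
          obtain ⟨s, y, hy⟩ := h1.2.ex
          exact ⟨s, y, h.len _ _ _ hy, by simp [e], fun _ => hy⟩
        · exact absurd e hf
        · rw [e] at h1
          obtain ⟨y, hy⟩ := h1
          exact ⟨true, y, h.len _ _ _ hy, fun _ => rfl, fun _ => hy⟩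
        · rw [e] at h1
          obtain ⟨s, y, hy⟩ := Cov.ex h1
          exact ⟨s, y, h.len _ _ _ hy, by simp [e], fun _ => hy⟩
      · exact ⟨true, [], by simp, fun _ => rfl, fun a => absurd a hO⟩
    choose s y b1 b2 b3 using this
    obtain ⟨Pf, a1, a2, a3⟩ := search (P := fun u => sc u ≤ i.γ.length)
      (fun O => (h.loc' hp (s O) (y O)).ct O) i.K 2
      (fun O => (h.loc' hp _ _).ct_card O) (fun O => (h.loc' hp _ _).ct_ok O)
    have good : ∀ X, W X → ob (s (Pf X)) (y (Pf X)) X := fun X hX =>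
      (h.loc' hp _ _).ct_of (a3 X (hm X hX)) (b3 _ (hd _ _ (a1 X) hX))
    let bit : Bt U := fun s' ω X => s' = s (Pf X) ∧ ω = (none, y (Pf X))
    have ex : ∀ X s', Ex (atW bit X) s' ↔ s' = s (Pf X) :=
      fun X s' => ⟨fun ⟨_, h⟩ => h.1, fun h => ⟨_, h, rfl⟩⟩
    refine ⟨bit, ⟨fun s' ω => ?_, ?_⟩, fun X => ?_, fun X hX => ?_⟩
    · exact (a2.comp fun z => s' = s z.1 ∧ ω = (none, y z.1)).mono
        (fun _ h => h) (le_phi (by nlinarith))
    · rintro s' ω X ⟨_, rfl⟩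
      exact ⟨by simp, b1 _⟩
    · rcases hκ with e | e | e | e
      · rw [e]
        exact ⟨dis_of fun _ _ a b => ((ex _ _).1 a).trans ((ex _ _).1 b).symm,
          cov_of ((ex X _).2 rfl)⟩
      · exact absurd e hf
      · rw [e]
        exact (ex X _).2 (b2 _ e).symm
      · rw [e]
        exact cov_of ((ex X _).2 rfl)
    · have h1 := hP X hX
      rcases hκ with e | e | e | e
      · rw [e] at h1 ⊢
        exact fun s' hs => (ex X _).2 (h1.1.eq hs ⟨_, good X hX⟩)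
      · exact absurd e hf
      · rw [e]
        rintro ω ⟨c1, rfl⟩
        have := good X hX
        rw [← c1] at this
        exact this
      · rw [e]
        intro s' hs
        rw [(ex X _).1 hs]
        exact ⟨_, good X hX⟩

/-- A violated promise of kind a, b, c, d has a small certificate. -/
theorem viol_cert {P : U → Prop} {K : ℕ} {κ : Kd} (hl : ∀ s y, Loc P K (ob s y))
    (hκ : κ = .a ∨ κ = .b ∨ κ = .c ∨ κ = .d) {X : Finset U} (hX : ¬ Prom κ (atW ob X)) :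
    ∃ C : Finset U, C.card ≤ 2 * K ∧ ∀ X', Agree C X X' → ¬ Prom κ (atW ob X') := by
  have two : ∀ s y s' y', ob s y X → ob s' y' X → ∃ C : Finset U, C.card ≤ 2 * K ∧
      ∀ X', Agree C X X' → ob s y X' ∧ ob s' y' X' := by
    intro s y s' y' h1 h2
    refine ⟨(hl s y).ct X ∪ (hl s' y').ct X, (card_union_le _ _).trans ?_, fun X' h =>
      ⟨(hl _ _).ct_of (h.mono subset_union_left) h1, (hl _ _).ct_of (h.mono subset_union_right) h2⟩⟩
    have := (hl s y).ct_card X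
    have := (hl s' y').ct_card X
    omega
  have dis : ¬ Dis (atW ob X) → ∃ C : Finset U, C.card ≤ 2 * K ∧
      ∀ X', Agree C X X' → ¬ Dis (atW ob X') := by
    intro h
    obtain ⟨⟨y, h1⟩, ⟨y', h2⟩⟩ := not_not.1 h
    obtain ⟨C, c1, c2⟩ := two _ _ _ _ h1 h2
    exact ⟨C, c1, fun X' h hh => hh ⟨⟨y, (c2 X' h).1⟩, ⟨y', (c2 X' h).2⟩⟩⟩
  rcases hκ with rfl | rfl | rfl | rfl
  · exact dis hX
  · exact dis hX
  · exact dis hX
  · simp only [Prom, Uni, not_forall] at hX ⊢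
    obtain ⟨y, y', h1, h2, h3⟩ := hX
    obtain ⟨C, c1, c2⟩ := two _ _ _ _ h1 h2
    exact ⟨C, c1, fun X' h => ⟨y, y', (c2 X' h).1, (c2 X' h).2, h3⟩⟩

/-- The identity coding of an object read in a modified world. -/
theorem idB_bok (hp : p.Ok) (h : InfOk π p sc i ob) (R : U → Prop) [DecidablePred R] :
    BitOk (Phi p.q p.τ) sc i fun s ω X => idB (atW ob (X.filter R)) s ω := by
  refine ⟨fun s ω => ?_, fun s ω X hb => ⟨fun u hu => by simp [hb.1] at hu, h.len _ _ _ hb.2⟩⟩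
  have := (h.loc' hp s ω.2).pull (P := fun u => sc u ≤ i.γ.length) (fun X => X.filter R) id
    (fun _ => le_rfl) (fun _ h => h) fun C X X' hh u hu => by
      simp only [mem_filter, hh u hu]
  exact (this.comp fun z => ω.1 = none ∧ z).mono (fun _ h => h) (le_phi (by nlinarith))

theorem idB_bok' (hp : p.Ok) (h : InfOk π p sc i ob) :
    BitOk (Phi p.q p.τ) sc i fun s ω X => idB (atW ob X) s ω := by
  simpa using idB_bok hp h fun _ => True

/-- Coding with named points: `Pos` points switch the object on, `Neg` points give an escape. -/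
def npc (Pos Neg : U → Prop) (κ : Kd) (ob : Ob U) : Bt U := fun s ω X =>
  (∃ u, Pos u ∧ ω.1 = some u ∧ u ∈ X ∧ ob s ω.2 X) ∨
    ((κ = .e ∨ κ = .g ∨ κ = .h) ∧ s = true ∧ ∃ u, Neg u ∧ ω = (some u, []) ∧ u ∈ X)

theorem npc_bok (hp : p.Ok) (h : InfOk π p sc i ob) {Pos Neg : U → Prop}
    (h1 : ∀ u, Pos u → sc u ≤ i.t + 1) (h2 : ∀ u, Neg u → sc u ≤ i.t + 1) :
    BitOk (Phi p.q p.τ) sc i (npc Pos Neg i.κ ob) := by
  have ht := h.tle hp
  refine ⟨fun s ω => ?_, fun s ω X hb => ?_⟩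
  · obtain ⟨o, y⟩ := ω
    by_cases hu : ∃ u, o = some u ∧ sc u ≤ i.t + 1
    · obtain ⟨u, rfl, hu⟩ := hu
      have := ((Loc.mem (P := fun u => sc u ≤ i.γ.length) (u := u) (by omega)).pair
        (h.loc' hp s y)).comp fun z => (Pos u ∧ z.1 ∧ z.2) ∨
          ((i.κ = .e ∨ i.κ = .g ∨ i.κ = .h) ∧ s = true ∧ Neg u ∧ y = [] ∧ z.1)
      refine (this.mono (fun _ h => h) (le_phi (by nlinarith))).congr fun X => propext ?_
      simp only [npc, Option.some.injEq, Prod.mk.injEq]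
      constructor
      · rintro (⟨_, a, rfl, b⟩ | ⟨a, b, _, c, ⟨rfl, d⟩, e⟩)
        · exact Or.inl ⟨a, b⟩
        · exact Or.inr ⟨a, b, c, d, e⟩
      · rintro (⟨a, b⟩ | ⟨a, b, c, d, e⟩)
        · exact Or.inl ⟨u, a, rfl, b⟩
        · exact Or.inr ⟨a, b, u, c, ⟨rfl, d⟩, e⟩
    · refine (Loc.const _ _ False).congr fun X => propext ⟨?_, False.elim⟩
      rintro (⟨u, a, b, _⟩ | ⟨_, _, u, a, b, _⟩)
      · exact hu ⟨u, b, h1 u a⟩
      · exact hu ⟨u, (Prod.mk.inj b).1, h2 u a⟩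
  · rcases hb with ⟨u, a, b, _, d⟩ | ⟨_, _, u, a, rfl, _⟩
    · refine ⟨fun u' hu' => ?_, h.len _ _ _ d⟩
      rw [b] at hu'
      exact Option.some.inj hu' ▸ h1 u a
    · exact ⟨fun u' hu' => Option.some.inj hu' ▸ h2 u a, by simp⟩

theorem npc_on {Pos Neg : U → Prop} {κ : Kd} {X : Finset U} (hκ : κ ≠ .c ∧ κ ≠ .f)
    (h1 : ∃ u ∈ X, Pos u) (h2 : ∀ u ∈ X, ¬ Neg u)
    (h3 : κ = .d → ∀ u ∈ X, ∀ u' ∈ X, Pos u → Pos u' → u = u') (hP : Prom κ (atW ob X)) :
    Unc κ (atW ob X) (atW (npc Pos Neg κ ob) X) ∧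
      Cnd κ (atW ob X) (atW (npc Pos Neg κ ob) X) Prod.snd (none, []) := by
  have a1 : ∀ s ω, npc Pos Neg κ ob s ω X → ∃ u, Pos u ∧ ω.1 = some u ∧ u ∈ X ∧ ob s ω.2 X := by
    rintro s ω (h | ⟨_, _, u, a, _, b⟩)
    · exact h
    · exact absurd a (h2 u b)
  have ex : ∀ s, Ex (atW (npc Pos Neg κ ob) X) s ↔ Ex (atW ob X) s := by
    intro s
    constructor
    · rintro ⟨ω, hω⟩
      obtain ⟨_, _, _, _, h⟩ := a1 s ω hω
      exact ⟨_, h⟩
    · rintro ⟨y, hy⟩
      obtain ⟨u, u1, u2⟩ := h1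
      exact ⟨(some u, y), Or.inl ⟨u, u2, rfl, u1, hy⟩⟩
  cases κ <;> simp only [Unc, Cnd, Prom, Dis, Cov, ex] at hP ⊢
  · exact ⟨hP, fun _ h => h⟩
  · exact ⟨hP, fun h => h⟩
  · exact absurd rfl hκ.1
  · refine ⟨?_, trivial⟩
    rintro ⟨o, y⟩ ⟨o', y'⟩ hω hω'
    obtain ⟨u, b1, b2, b3, b4⟩ := a1 _ _ hω
    obtain ⟨u', c1, c2, c3, c4⟩ := a1 _ _ hω'
    simp only at b2 c2
    have e1 : y = y' := hP _ _ b4 c4
    rw [b2, c2, h3 rfl u b3 u' c3 b1 c1, e1]
  · exact ⟨hP, fun _ h => h⟩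
  · exact absurd rfl hκ.2
  · refine ⟨hP, fun ω hω => ?_⟩
    obtain ⟨_, _, _, _, h⟩ := a1 _ ω hω
    exact h
  · exact ⟨hP, fun _ h => h⟩

theorem npc_off {Pos Neg : U → Prop} {κ : Kd} {X : Finset U}
    (h1 : ∀ u ∈ X, ¬ Pos u) (h2 : ∃ u ∈ X, Neg u) :
    Unc κ (atW ob X) (atW (npc Pos Neg κ ob) X) := by
  have a1 : ∀ s ω, npc Pos Neg κ ob s ω X → (κ = .e ∨ κ = .g ∨ κ = .h) ∧ s = true := by
    rintro s ω (⟨u, a, _, b, _⟩ | ⟨a, b, _⟩)
    · exact absurd a (h1 u b)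
    · exact ⟨a, b⟩
  have a2 : ¬ Ex (atW (npc Pos Neg κ ob) X) false := fun ⟨ω, h⟩ => by simpa using (a1 _ ω h).2
  have a3 : (κ = .e ∨ κ = .g ∨ κ = .h) → Ex (atW (npc Pos Neg κ ob) X) true := by
    intro h
    obtain ⟨u, u1, u2⟩ := h2
    exact ⟨(some u, []), Or.inr ⟨h, rfl, u, u2, rfl, u1⟩⟩
  cases κ
  · exact fun h => a2 h.1
  · exact fun h => a2 h.1
  · exact fun h => a2 h.1
  · exact fun ω _ h _ => by simpa using (a1 _ ω h).1
  · exact ⟨fun h => a2 h.1, Or.inr (a3 (by simp))⟩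
  · exact fun h => absurd h a2
  · exact a3 (by simp)
  · exact Or.inr (a3 (by simp))

theorem npc_both {Pos Neg : U → Prop} {κ : Kd} {X : Finset U} (hκ : κ = .b ∨ κ = .g ∨ κ = .h)
    (h2 : ∃ u ∈ X, Neg u) (hP : Prom κ (atW ob X)) :
    Unc κ (atW ob X) (atW (npc Pos Neg κ ob) X) := by
  obtain ⟨u, u1, u2⟩ := h2
  rcases hκ with rfl | rfl | rfl
  · rintro ⟨⟨ω, ⟨_, _, _, _, h⟩ | ⟨h, _⟩⟩, h'⟩
    · exact hP ⟨⟨_, h⟩, h'⟩
    · simp at h
  · exact ⟨(some u, []), Or.inr ⟨by simp, rfl, u, u2, rfl, u1⟩⟩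
  · exact Or.inr ⟨(some u, []), Or.inr ⟨by simp, rfl, u, u2, rfl, u1⟩⟩

end

end Pool.Agent.Lib.MP_2c6a5a_lc.Cl
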