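import Pool.Agent.Lib.MP_2c6a5a_lc.ClReq

/-! The worlds of one stage. -/

namespace Pool.Agent.Lib.MP_2c6a5a_lc.Cl

open Finset Pool.Agent.Lib.MP_8a52c3_lc.Orc Pool.Agent.Lib.MP_2c6a5a_lc.Pf
  Pool.Agent.Lib.MP_2c6a5a_lc.Mx

set_option linter.unusedSectionVars false

def DD (Φ l : ℕ) : ℕ := Φ ^ (Nat.log 2 l ^ 3)

theorem DD_mono {Φ l l' : ℕ} (hΦ : 1 ≤ Φ) (h : l ≤ l') : DD Φ l ≤ DD Φ l' :=
  Nat.pow_le_pow_right hΦ (Nat.pow_le_pow_left (Nat.log_mono_right h) 3)

theorem DD_step {Φ t l : ℕ} (ht : 4 ≤ t) (hΦ : t ≤ Φ) (hl : t ^ 2 ≤ l) :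
    Φ * (t * DD Φ t + 1) ^ 4 ≤ DD Φ l := by
  set a := Nat.log 2 t with ha
  have a2 : 2 ≤ a := Nat.le_log_of_pow_le (by omega) (by omega)
  have h1 : 2 * a ≤ Nat.log 2 l := by
    refine Nat.le_log_of_pow_le (by omega) (le_trans ?_ hl)
    rw [mul_comm, pow_mul]
    exact Nat.pow_le_pow_left (Nat.pow_log_le_self 2 (by omega)) 2
  have h2 : t * DD Φ t + 1 ≤ Φ ^ (a ^ 3 + 2) := by
    have : 1 ≤ Φ ^ (a ^ 3) := Nat.one_le_pow _ _ (by omega)
    unfold DD
    rw [← ha, pow_add]
    nlinarith [Nat.mul_le_mul_right (Φ ^ a ^ 3) hΦ,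
      Nat.mul_le_mul_left (Φ ^ a ^ 3) (show Φ + 1 ≤ Φ ^ 2 by nlinarith)]
  calc Φ * (t * DD Φ t + 1) ^ 4 ≤ Φ * (Φ ^ (a ^ 3 + 2)) ^ 4 :=
        Nat.mul_le_mul_left _ (Nat.pow_le_pow_left h2 4)
    _ = Φ ^ ((a ^ 3 + 2) * 4 + 1) := by rw [← pow_mul, pow_succ' Φ]
    _ ≤ Φ ^ (Nat.log 2 l ^ 3) := by
        refine Nat.pow_le_pow_right (by omega) (le_trans ?_ (Nat.pow_le_pow_left h1 3))
        have : 2 ^ 3 ≤ a ^ 3 := Nat.pow_le_pow_left a2 3
        rw [mul_pow]
        omega

theorem lift_loc {U α : Type} [DecidableEq U] {sc : U → ℕ} {Φ t : ℕ} (hΦ : 1 ≤ Φ)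
    (W : Finset U → Str → Bool)
    (hW : ∀ β : Str, β.length ≤ t →
      Loc (fun u => sc u ≤ β.length) (DD Φ β.length) fun X => W X β)
    {f : (Str → Bool) → α} (hf : Dec t f) :
    Loc (fun u => sc u ≤ t) (t * DD Φ t) fun X => f (W X) := by
  intro X
  obtain ⟨S, s1, s2, s3⟩ := hf (W X)
  choose! C c1 c2 c3 using fun β (hβ : β ∈ S) => hW β (s2 β hβ) X
  refine ⟨S.biUnion C, (card_biUnion_le_card_mul S C (DD Φ t) fun β hβ =>
    (c1 β hβ).trans (DD_mono hΦ (s2 β hβ))).trans (Nat.mul_le_mul_right _ s1), fun u hu => ?_,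
    fun X' hX => s3 _ fun β hβ => c3 β hβ X' (hX.mono (subset_biUnion_of_mem C hβ))⟩
  obtain ⟨β, hβ, hu⟩ := mem_biUnion.1 hu
  exact (c2 β hβ u hu).trans (s2 β hβ)

/-- The data of a stage. -/
structure Wd where
  E : ℕ → Req3
  π : Kd → Prop
  σ : Str → Bool
  L : ℕ
  T : ℕ
  p : Par3
  U' : Type
  dec : DecidableEq U'
  sc' : U' → ℕ
  nm' : U' → Str
  inj : Function.Injective nm'
  len : ∀ u, (nm' u).length ≤ sc' u
  ext : Inf → Ob (Zt p.n ⊕ U') → Bt (Zt p.n ⊕ U')
  bok : ∀ i ob, InfOk π p (scU p.n0 sc') i ob → BitOk (Phi p.q p.τ) (scU p.n0 sc') i (ext i ob)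
  hn0 : p.n0 = T + 2 * p.n + 4
  hK0 : p.K0 = p.τ * DD (Phi p.q p.τ) p.τ
  hL : L ≤ p.n
  hT : (Nat.unpair T).1 = p.e
  he : p.n0 < p.τ → π (E p.e).1

namespace Wd
variable (d : Wd)

instance instDec : DecidableEq d.U' := d.dec

abbrev UU : Type := Zt d.p.n ⊕ d.U'

abbrev sc : d.UU → ℕ := scU d.p.n0 d.sc'

abbrev Φ : ℕ := Phi d.p.q d.p.τ

def nmO : Option d.UU → Str
  | none => []
  | some (Sum.inl z) => true :: false :: z.1 :: z.2.1
  | some (Sum.inr u) => true :: true :: d.nm' u

theorem nmO_inj : Function.Injective d.nmO := by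
  rintro (_ | z | u) (_ | z' | u') h <;> simp only [nmO, List.cons.injEq, reduceCtorEq,
    true_and, and_false, false_and, Bool.false_eq_true, Bool.true_eq_false] at h ⊢
  · rw [Prod.ext h.1 (Subtype.ext h.2)]
  · rw [d.inj h]

theorem nmO_len {o : Option d.UU} {m : ℕ} (h : ∀ u, o = some u → d.sc u ≤ m) :
    (d.nmO o).length ≤ m + 2 := by
  rcases o with _ | z | u
  · simp [nmO]
  · have := h _ rfl
    have := d.hn0
    simp only [scU, Sum.elim_inl, nmO, List.length_cons, z.2.2] at *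
    omega
  · have := h _ rfl
    have := d.len u
    simp only [scU, Sum.elim_inr, nmO, List.length_cons] at *
    omega

def encW (m : ℕ) (ω : Option d.UU × Str) : Str :=
  dbl (d.nmO ω.1) ++ false ::
    (List.replicate (m - (2 * (d.nmO ω.1).length + 2 + ω.2.length)) true ++ false :: ω.2)

theorem prR_encW (m : ℕ) (ω : Option d.UU × Str) : prR (d.encW m ω) = ω.2 := by
  simp [prR, encW, skipD_dbl, skipU_rep]

theorem encW_inj (m : ℕ) : Function.Injective (d.encW m) := fun ω ω' h =>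
  Prod.ext (d.nmO_inj (dbl_inj h).1) (by rw [← d.prR_encW m ω, h, prR_encW])

def FW (γ : Str) (ω : Option d.UU × Str) : Str :=
  if gk γ = .c ∨ gk γ = .f then [] else d.encW γ.length ω

noncomputable def inf (γ : Str) : Inf :=
  ⟨γ, gk γ, gj γ, Nat.sqrt γ.length, Nat.sqrt γ.length * DD d.Φ (Nat.sqrt γ.length)⟩

def Act (γ : Str) : Prop :=
  IsCode3 d.E γ ∧ ¬ d.π (gk γ) ∧ gj γ < d.p.q ∧ ¬ Dead d.E d.σ d.L (gj γ)

def Triv (γ : Str) : Prop := gj γ < d.p.e ∨ Nat.sqrt γ.length < d.p.n0

def obW (B : Finset d.UU → Str → Bool) (γ : Str) : Ob d.UU := fun s y X => obG d.E (B X) γ s y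

open Classical in
noncomputable def abit (B : Finset d.UU → Str → Bool) (γ : Str) : Bt d.UU :=
  if d.Triv γ then fun s ω X => idB (atW (d.obW B γ) X) s ω else d.ext (d.inf γ) (d.obW B γ)

open Classical in
def gbit (B : Finset d.UU → Str → Bool) (γ : Str) (s : Bool) (w : Str) (X : Finset d.UU) : Prop :=
  w.length = wl γ ∧ if d.Act γ then
    ∃ ω, ((gk γ = .c ∨ gk γ = .f) → ω = (none, [])) ∧ w = d.FW γ ω ∧ d.abit B γ s ω X
  else s = true ∧ w = List.replicate (wl γ) false

def sbit (T' n' : ℕ) (u : Str) (X : Finset d.UU) : Prop :=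
  if T' = d.T ∧ n' = d.p.n then ∃ z : Zt d.p.n, Sum.inl z ∈ X ∧ u = z.1 :: z.2.1
  else ¬ ((d.E (Nat.unpair T').1).1 = .b ∨ (d.E (Nat.unpair T').1).1 = .c) ∧
    u = true :: List.replicate n' false

open Classical in
noncomputable def Psi (B : Finset d.UU → Str → Bool) (α : Str) (X : Finset d.UU) : Bool :=
  if α.length < d.L then d.σ α else decide ((∃ γ s w, α = gadr γ s w ∧ d.gbit B γ s w X) ∨
    ∃ T' n' u, α = xadr T' n' u ∧ d.sbit T' n' u X)

theorem exists_world : ∃ W : Finset d.UU → Str → Bool, ∀ X α, W X α = d.Psi W α X := by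
  refine exists_fix d.Psi fun α B B' h => ?_
  funext X
  unfold Psi
  split_ifs
  · rfl
  · refine decide_eq_decide.2 (or_congr (exists_congr fun γ => exists_congr fun s =>
      exists_congr fun w => and_congr_right fun e => ?_) Iff.rfl)
    unfold gbit
    by_cases hA : d.Act γ
    · have : d.obW B γ = d.obW B' γ := by
        funext s y X
        unfold obW
        rw [obG_congr hA.1 fun β hβ => h X β (by
          have := Nat.sqrt_le_self γ.length
          rw [e, gadr_length]; omega)]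
      unfold abit
      rw [this]
    · simp only [if_neg hA]

theorem t5 {γ : Str} (h : d.Act γ) : 5 ≤ Nat.sqrt γ.length := le_trans (by unfold tS; omega) h.1.2

variable {d} {W : Finset d.UU → Str → Bool} (hW : ∀ X α, W X α = d.Psi W α X)
include hW

theorem low (X : Finset d.UU) (α : Str) (h : α.length < d.L) : W X α = d.σ α := by
  rw [hW, Psi, if_pos h]

theorem at_g (X : Finset d.UU) (γ : Str) (s : Bool) (w : Str) (h : d.L ≤ (gadr γ s w).length) :
    W X (gadr γ s w) = true ↔ d.gbit W γ s w X := by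
  classical
  rw [hW, Psi, if_neg (by omega), decide_eq_true_iff]
  constructor
  · rintro (⟨γ', s', w', e, h⟩ | ⟨_, _, _, e, _⟩)
    · obtain ⟨rfl, rfl, rfl⟩ := gadr_inj e
      exact h
    · exact absurd e (gadr_ne_xadr _ _ _ _ _ _)
  · exact fun h => Or.inl ⟨γ, s, w, rfl, h⟩

theorem at_x (X : Finset d.UU) (T' n' : ℕ) (u : Str) (h : d.L ≤ (xadr T' n' u).length) :
    W X (xadr T' n' u) = true ↔ d.sbit T' n' u X := by
  classical
  rw [hW, Psi, if_neg (by omega), decide_eq_true_iff]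
  constructor
  · rintro (⟨γ', s', w', e, h⟩ | ⟨_, _, _, e, h⟩)
    · exact absurd e.symm (gadr_ne_xadr _ _ _ _ _ _)
    · obtain ⟨rfl, rfl, rfl⟩ := xadr_inj e
      exact h
  · exact fun h => Or.inr ⟨T', n', u, rfl, h⟩

theorem mem_slot (X : Finset d.UU) : memR (W X) d.T d.p.n = slot X := by
  funext z
  unfold memR
  rw [at_x hW X _ _ _ (by rw [xadr_length]; have := d.hL; omega), sbit, if_pos ⟨rfl, rfl⟩]
  refine propext ⟨?_, fun h => ⟨z, h, rfl⟩⟩
  rintro ⟨z', h, e⟩
  rw [show z = z' from Prod.ext (List.cons.inj e).1 (Subtype.ext (List.cons.inj e).2)]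
  exact h

omit hW in
theorem phi1 : 1 ≤ d.Φ := le_trans (by omega) (phi_ge d.p.q d.p.τ)

omit hW in
theorem infOk {γ : Str} (hA : d.Act γ) (hl : γ.length < d.p.τ) (hT : ¬ d.Triv γ)
    (loc : ∀ β : Str, β.length ≤ Nat.sqrt γ.length →
      Loc (fun u => d.sc u ≤ β.length) (DD d.Φ β.length) fun X => W X β) :
    InfOk d.π d.p d.sc (d.inf γ) (d.obW W γ) := by
  unfold Triv at hT
  have h1 := Nat.sqrt_le_self γ.length
  refine ⟨hA.2.1, ?_, hA.2.2.1, by simp only [inf]; omega, Nat.sqrt_le' _, hl, ?_,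
    fun s y => lift_loc phi1 W loc ((dec_obS _ _ s y).mono hA.1.2),
    fun s y X h => (obS_len h).trans hA.1.2, fun h y X hy => ?_⟩
  · have : gj γ ≠ d.p.e := fun e => hA.2.1 (by
      rw [← hA.1.1, e]
      exact d.he (by omega))
    simp only [inf]
    omega
  · rw [d.hK0]
    exact Nat.mul_le_mul (by omega) (DD_mono phi1 (by omega))
  · have h' : isP (d.E (gj γ)).1 := hA.1.1 ▸ h
    simp only [obW, obG, obS, if_pos h'] at hy
    exact hy.1

omit hW in
theorem abit_ok {γ : Str} (hA : d.Act γ) (hl : γ.length < d.p.τ)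
    (loc : ∀ β : Str, β.length ≤ Nat.sqrt γ.length →
      Loc (fun u => d.sc u ≤ β.length) (DD d.Φ β.length) fun X => W X β) :
    BitOk d.Φ d.sc (d.inf γ) (d.abit W γ) := by
  unfold abit
  split_ifs with hT
  · refine ⟨fun s ω => ?_, fun s ω X hb =>
      ⟨fun u hu => by simp [hb.1] at hu, (obS_len hb.2).trans hA.1.2⟩⟩
    exact ((lift_loc phi1 W loc ((dec_obS _ _ s ω.2).mono hA.1.2)).comp
      fun z => ω.1 = none ∧ z).mono (fun u hu => hu.trans (Nat.sqrt_le_self _))
      (le_phi (by simp only [inf]; nlinarith))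
  · exact d.bok _ _ (infOk hA hl hT loc)

theorem local_W (α : Str) (hα : α.length < d.p.τ) :
    Loc (fun u => d.sc u ≤ α.length) (DD d.Φ α.length) fun X => W X α := by
  classical
  induction' hm : α.length using Nat.strong_induction_on with m ih generalizing α
  subst hm
  have D1 : 1 ≤ DD d.Φ α.length := Nat.one_le_pow _ _ phi1
  by_cases hL : α.length < d.L
  · exact (Loc.const _ _ (d.σ α)).congr fun X => low hW X α hL
  have toB : ∀ f : Finset d.UU → Prop, (∀ X, W X α = true ↔ f X) →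
      Loc (fun u => d.sc u ≤ α.length) (DD d.Φ α.length) f →
      Loc (fun u => d.sc u ≤ α.length) (DD d.Φ α.length) fun X => W X α := by
    intro f h1 h2
    refine (h2.comp fun z => decide z).congr fun X => ?_
    by_cases h : f X
    · simp [h, (h1 X).2 h]
    · simpa [h] using (h1 X).not.2 h
  by_cases hg : ∃ γ s w, α = gadr γ s w
  · obtain ⟨γ, s, w, rfl⟩ := hg
    refine toB _ (fun X => at_g hW X γ s w (by omega)) ?_
    unfold gbit
    by_cases hA : d.Act γ
    swap
    · simp only [if_neg hA]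
      exact Loc.const _ _ _
    simp only [if_pos hA]
    by_cases hω : ∃ ω, ((gk γ = .c ∨ gk γ = .f) → ω = (none, [])) ∧ w = d.FW γ ω
    · obtain ⟨ω, o1, o2⟩ := hω
      have hlen := gadr_length γ s w
      have h1 := Nat.sqrt_le_self γ.length
      have ok := abit_ok (W := W) hA (by omega) fun β hβ => ih _ (by omega) β (by omega) rfl
      refine (((ok.loc s ω).comp fun z => w.length = wl γ ∧ z).mono
        (fun u hu => le_trans hu (by simp only [inf]; omega)) ?_).congr fun X => ?_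
      · have : 200 * (d.p.τ + 2) ≤ d.Φ := phi_ge d.p.q d.p.τ
        exact DD_step (by have := d.t5 hA; omega) (by omega) ((Nat.sqrt_le' _).trans (by omega))
      · refine propext (and_congr_right fun _ => ⟨?_, fun h => ⟨ω, o1, o2, h⟩⟩)
        rintro ⟨ω', a, b, c⟩
        have : ω' = ω := by
          by_cases e : gk γ = .c ∨ gk γ = .f
          · rw [a e, o1 e]
          · rw [o2, FW, FW, if_neg e, if_neg e] at b
            exact (d.encW_inj _ b).symm
        exact this ▸ c
    · refine (Loc.const _ _ False).congr fun X => propext ⟨?_, False.elim⟩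
      rintro ⟨_, ω, a, b, _⟩
      exact hω ⟨ω, a, b⟩
  by_cases hx : ∃ T' n' u, α = xadr T' n' u
  · obtain ⟨T', n', u, rfl⟩ := hx
    refine toB _ (fun X => at_x hW X T' n' u (by omega)) ?_
    unfold sbit
    by_cases h : T' = d.T ∧ n' = d.p.n
    swap
    · simp only [if_neg h]
      exact Loc.const _ _ _
    simp only [if_pos h]
    by_cases hz : ∃ z : Zt d.p.n, u = z.1 :: z.2.1
    · obtain ⟨z, rfl⟩ := hz
      refine ((Loc.mem (u := Sum.inl z) ?_).mono (fun _ h => h) D1).congr fun X =>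
        propext ⟨?_, fun h => ⟨z, h, rfl⟩⟩
      · have := d.hn0
        simp only [scU, Sum.elim_inl, xadr_length, List.length_cons, z.2.2]
        omega
      · rintro ⟨z', h, e⟩
        rw [show z = z' from Prod.ext (List.cons.inj e).1 (Subtype.ext (List.cons.inj e).2)]
        exact h
    · exact (Loc.const _ _ False).congr fun X =>
        propext ⟨fun ⟨z, _, e⟩ => hz ⟨z, e⟩, False.elim⟩
  · refine (Loc.const _ _ false).congr fun X => ?_
    rw [hW, Psi, if_neg hL, decide_eq_false_iff_not]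
    rintro (⟨γ, s, w, e, _⟩ | ⟨T', n', u, e, _⟩)
    · exact hg ⟨γ, s, w, e⟩
    · exact hx ⟨T', n', u, e⟩

omit hW in
def UnA (W : Finset d.UU → Str → Bool) (γ : Str) (X : Finset d.UU) : Prop :=
  Unc (gk γ) (atW (d.obW W γ) X) (atW (d.abit W γ) X)

omit hW in
def CnA (W : Finset d.UU → Str → Bool) (γ : Str) (X : Finset d.UU) : Prop :=
  Cnd (gk γ) (atW (d.obW W γ) X) (atW (d.abit W γ) X) Prod.snd (none, [])

omit hW in
def FineA (W : Finset d.UU → Str → Bool) (j l : ℕ) (X : Finset d.UU) : Prop :=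
  ∀ γ, d.Act γ → d.L ≤ gl γ → gl γ < l → UnA W γ X ∧ (gj γ < j → CnA W γ X)

theorem real_of {γ : Str} (hA : d.Act γ) (h1 : d.L ≤ gl γ) (h2 : gl γ < d.p.τ) (X : Finset d.UU) :
    (UnA W γ X → Unc (gk γ) (obG d.E (W X) γ) (bitR (W X) γ)) ∧
      (CnA W γ X → CndR d.E (W X) γ) := by
  have lt := sqrt_lt_gl γ
  have ok := abit_ok (W := W) hA (by unfold gl at h2; omega)
    fun β hβ => local_W hW β (by omega)
  refine transfer (d.FW γ) (fun s w => ?_) (fun e ω => ?_) fun e => by rw [FW, if_pos e]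
  · unfold bitR
    constructor
    · rintro ⟨a, b⟩
      rw [at_g hW X γ s w (by rw [gadr_length, a]; exact h1), gbit, if_pos hA] at b
      exact b.2
    · rintro ⟨ω, a, rfl, c⟩
      have hl : (d.FW γ ω).length = wl γ := by
        unfold FW wl
        split_ifs
        · rfl
        · obtain ⟨b1, b2⟩ := ok.nm s ω X c
          have b3 := d.nmO_len b1
          have b4 := d.t5 hA
          have b5 := Nat.sqrt_le' γ.length
          simp only [inf] at b2 b3
          have b6 : 5 * Nat.sqrt γ.length ≤ γ.length := by nlinarith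
          simp only [encW, List.length_append, dbl_length, List.length_cons,
            List.length_replicate]
          omega
      refine ⟨hl, ?_⟩
      rw [at_g hW X γ s _ (by rw [gadr_length, hl]; exact h1), gbit, if_pos hA]
      exact ⟨hl, ω, a, rfl, c⟩
  · rw [FW, if_neg e, prR_encW]

theorem good_of_fine {j l : ℕ} {X : Finset d.UU} (h : FineA W j l X) (hl : l ≤ d.p.τ)
    (hj : j ≤ d.p.q) (hw : d.p.e < j → d.p.n0 < l → Wit (d.E d.p.e).1 X) :
    Good d.E d.π d.T d.p.e j d.L l (W X) := by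
  refine ⟨fun γ a b => ?_, fun γ a b c e f g => ?_, fun γ s w a _ c => ?_,
    fun T' n' u a _ c => ?_, fun T' n' a b c => ?_⟩
  · by_cases hA : d.Act γ
    · exact ⟨(real_of hW hA a (by omega) X).1 (h γ hA a b).1, fun hn => absurd hA.1 hn⟩
    · have hb : ∀ s w, bitR (W X) γ s w ↔ s = true ∧ w = List.replicate (wl γ) false := by
        intro s w
        unfold bitR
        constructor
        · rintro ⟨a', b'⟩
          rw [at_g hW X γ s w (by rw [gadr_length, a']; exact a), gbit, if_neg hA] at b'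
          exact b'.2
        · rintro ⟨rfl, rfl⟩
          refine ⟨by simp, ?_⟩
          rw [at_g hW X γ _ _ (by rw [gadr_length, List.length_replicate]; exact a), gbit,
            if_neg hA]
          simp
      have n0 : ¬ Ex (bitR (W X) γ) false := fun ⟨w, hw⟩ => by simpa using (hb _ _).1 hw
      have n1 : Ex (bitR (W X) γ) true := ⟨_, (hb _ _).2 ⟨rfl, rfl⟩⟩
      refine ⟨?_, fun _ => n0⟩
      cases gk γ
      · exact fun hh => n0 hh.1
      · exact fun hh => n0 hh.1
      · exact fun hh => n0 hh.1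
      · exact fun w w' a b => ((hb _ _).1 a).2.trans ((hb _ _).1 b).2.symm
      · exact ⟨fun hh => n0 hh.1, Or.inr n1⟩
      · exact fun hh => absurd hh n0
      · exact n1
      · exact Or.inr n1
  · have hA : d.Act γ := ⟨c, e, by omega, fun hd => g (hd.mono le_rfl (low hW X))⟩
    exact (real_of hW hA a (by omega) X).2 ((h γ hA a b).2 f)
  · exact ((at_g hW X γ s w a).1 c).1
  · rw [at_x hW X _ _ _ a, sbit] at c
    split_ifs at c with e
    · obtain ⟨z, _, rfl⟩ := c
      rw [List.length_cons, z.2.2, e.2]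
    · simp [c.2]
  · by_cases e : T' = d.T ∧ n' = d.p.n
    · obtain ⟨rfl, rfl⟩ := e
      unfold WitR
      rw [mem_slot hW X, d.hT]
      exact hw (c rfl) (by rw [d.hn0]; exact b)
    · set κ := (d.E (Nat.unpair T').1).1 with hκ
      have hm : ∀ z : Zt n', memR (W X) T' n' z ↔ ¬ (κ = .b ∨ κ = .c) ∧
          z = (true, List.Vector.replicate n' false) := by
        intro z
        unfold memR
        rw [at_x hW X _ _ _ (by rw [xadr_length, List.length_cons, z.2.2]; omega), sbit, if_neg e]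
        refine and_congr_right fun _ => ⟨fun h => ?_, by rintro rfl; rfl⟩
        exact Prod.ext (List.cons.inj h).1 (Subtype.ext (List.cons.inj h).2)
      have e2 : memR (W X) T' n' = slot (U' := Empty) (if κ = .b ∨ κ = .c then ∅ else
          insert (Sum.inl (true, List.Vector.replicate n' false)) ∅) := by
        funext z
        rw [hm]
        split_ifs with h <;> simp [slot, h]
      unfold WitR
      rw [e2]
      have s1 := same_single (n := n') (U' := Empty)
        (Sum.inl (true, List.Vector.replicate n' false))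
      have s2 : ∃ z, slot (U' := Empty)
          (insert (Sum.inl (true, List.Vector.replicate n' false)) ∅) z :=
        ⟨_, mem_insert_self _ _⟩
      cases κ
      · exact same_dis (by simp) s1
      · exact wit_bc (by simp) (by simp)
      · exact wit_bc (by simp) (by simp)
      · exact wit_d (by simp)
      · exact ⟨same_dis (by simp) s1, cov_slot (by simp) s2⟩
      · exact wit_gf (by simp) s2
      · exact wit_gf (by simp) s2
      · exact cov_slot (by simp) s2

end Wd

end Pool.Agent.Lib.MP_2c6a5a_lc.Cl
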