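import Pool.Agent.Lib.MP_2c6a5a_lc.MxWorld

/-! The four diagonal arguments. -/

namespace Pool.Agent.Lib.MP_2c6a5a_lc.Mx

open Finset Pool.Agent.Lib.MP_8a52c3_lc.Orc Pool.Agent.Lib.MP_2c6a5a_lc.Pf

abbrev Clk := List Instr × ℕ

def ev (A : Str → Bool) (ρ : Clk) (w : Str) : Str :=
  (run A ρ.1 w [] (w.length ^ ρ.2 + ρ.2)).2 0

def cost (ρ : Clk) (n : ℕ) : ℕ := n + (n ^ ρ.2 + ρ.2)

theorem cost_mono (ρ : Clk) {n n' : ℕ} (h : n ≤ n') : cost ρ n ≤ cost ρ n' := by
  have := Nat.pow_le_pow_left h ρ.2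
  unfold cost; omega

theorem ev_len (A : Str → Bool) (ρ : Clk) (w : Str) : (ev A ρ w).length ≤ cost ρ w.length := by
  simpa [ev, cost] using run_len A ρ.1 w [] (w.length ^ ρ.2 + ρ.2) 0

theorem ev_local (B : Str → Bool) (ρ : Clk) (w : Str) :
    ∃ S : Finset Str, S.card ≤ cost ρ w.length ∧ (∀ α ∈ S, α.length ≤ cost ρ w.length) ∧
      ∀ B' : Str → Bool, (∀ α ∈ S, B' α = B α) → ev B' ρ w = ev B ρ w := by
  obtain ⟨S, s1, s2, s3⟩ := run_local B ρ.1 w [] (w.length ^ ρ.2 + ρ.2)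
  refine ⟨S, by unfold cost; omega, fun α hα => by simpa [cost] using s2 α hα, fun B' h => ?_⟩
  unfold ev
  rw [s3 B' h]

def clk (V : Ver) : Clk := (V.1, V.2.1)

theorem cost_le_tm (V : Ver) (n : ℕ) : cost (clk V) n ≤ tm V n := by
  have := Nat.pow_le_pow_left (show n ≤ n + (n ^ V.2.2 + V.2.2) by omega) V.2.1
  unfold cost tm clk
  simp only
  omega

def Lst (A : Str → Bool) : Set Str :=
  {c | ∃ y : Str, y.length ≤ c.length ^ 1 + 1 ∧ [A (c.reverse ++ y)] = [true]}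

def ST (A : Str → Bool) (T : ℕ) (b : Bool) (x : Str) : Prop :=
  ∃ y : Str, y.length ≤ x.length ^ 1 + 1 ∧ [A (xadr T x.length (b :: y))] = [true]

abbrev Cand := ℕ × Ver × Ver

def Bad (e : Cand) (A : Str → Bool) : Prop :=
  if e.1 = 0 then ∃ w, Acc A e.2.1 w ∧ Acc A e.2.2 w
  else if e.1 = 1 then ∃ w y y', y ≠ y' ∧ Sol A e.2.1 w y ∧ Sol A e.2.1 w y'
  else if e.1 = 2 then ∃ d, ev A (clk e.2.1) d ∉ Lst A
  else ∃ d, ev A (clk e.2.1) d ∈ Lst A

def Fail (T : ℕ) (e : Cand) (ρ : Clk) (A : Str → Bool) : Prop :=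
  if e.1 = 0 then ∃ x, (ST A T false x ∧ ¬ Acc A e.2.1 (ev A ρ x)) ∨
    (ST A T true x ∧ ¬ Acc A e.2.2 (ev A ρ x))
  else if e.1 = 1 then ∃ x, (ST A T false x ∧ ¬ Acc A e.2.1 (ev A ρ x)) ∨
    (ST A T true x ∧ Acc A e.2.1 (ev A ρ x))
  else if e.1 = 2 then ∃ n, ev A (clk e.2.1) (ev A ρ (true :: List.replicate n true)) ≠ code T n
  else ∃ n, ∀ π : Str, π.length ≤ (n + 1) ^ ρ.2 + ρ.2 → ev A (clk e.2.1) π ≠ true :: code T n

def tau3 (T : ℕ) (e : Cand) (ρ : Clk) (n : ℕ) : ℕ :=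
  2 * (cost ρ (n + 1) + tm e.2.1 (cost ρ (n + 1)) + tm e.2.2 (cost ρ (n + 1))) +
    (2 * T + 2 * n + 10)

/-- What the diagonal arguments need to know about the worlds of a stage. -/
structure Ctx where
  T : ℕ
  n : ℕ
  τ : ℕ
  W : Finset Str → Esc → Str → Bool
  Qt : Finset Str → Esc → Finset Str → Prop
  qnone : ∀ X C, Qt X (fun _ => none) C
  qmono : ∀ X ε C C', C ⊆ C' → Qt X ε C' → Qt X ε C
  qex : ∀ C : Finset Str, C.card ≤ 2 * τ ^ 2 → ∃ ε, Tot ε ∧ ∀ X, Qt X ε C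
  loc : ∀ X β, ∃ C : Finset Str, C.card ≤ β.length + 1 ∧ ∀ X' ε',
    (∀ u, xadr T n u ∈ C → (u ∈ X' ↔ u ∈ X)) → Qt X' ε' C → W X' ε' β = W X (fun _ => none) β
  slot : ∀ X ε u, W X ε (xadr T n u) = true ↔ u ∈ X
  big : 8 * τ ^ 2 < 2 ^ n

namespace Ctx
variable (c : Ctx)

def Ext (B A : Str → Bool) : Prop := ∀ β : Str, β.length < c.τ → A β = B β

def W0 (X : Finset Str) : Str → Bool := c.W X fun _ => none

def Holds (Φ : (Str → Bool) → Prop) (X C : Finset Str) : Prop :=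
  C.card ≤ c.τ ^ 2 ∧ ∀ X' ε', (∀ u, xadr c.T c.n u ∈ C → (u ∈ X' ↔ u ∈ X)) → c.Qt X' ε' C →
    ∀ A, c.Ext (c.W X' ε') A → Φ A

theorem lift (Φ : (Str → Bool) → Prop) (X S : Finset Str) (h1 : S.card ≤ c.τ)
    (h2 : ∀ β ∈ S, β.length < c.τ) (h3 : ∀ B', (∀ β ∈ S, B' β = c.W0 X β) → Φ B') :
    ∃ C, c.Holds Φ X C := by
  classical
  choose C hC using c.loc X
  refine ⟨S.biUnion C, ?_, fun X' ε' a b A hA => h3 A fun β hβ => ?_⟩
  · refine (card_biUnion_le_card_mul S C c.τ fun β hβ =>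
      (hC β).1.trans (h2 β hβ)).trans ?_
    rw [sq]
    exact Nat.mul_le_mul_right _ h1
  · rw [hA β (h2 β hβ)]
    exact (hC β).2 X' ε' (fun u hu => a u (mem_biUnion.2 ⟨β, hβ, hu⟩))
      (c.qmono _ _ _ _ (subset_biUnion_of_mem C hβ) b)

def adr (b : Bool) (v : Str) : Str := xadr c.T c.n (b :: v)

theorem adr_inj (b : Bool) : Function.Injective (c.adr b) := fun _ _ h =>
  (List.cons.inj (xadr_inj h).2.2).2

theorem Holds.one {c : Ctx} {Φ : (Str → Bool) → Prop} {C : Finset Str} (h : c.Holds Φ ∅ C)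
    {b : Bool} {v : Str} (hv : c.adr b v ∉ C) (A : Str → Bool) (hA : c.Ext (c.W0 {b :: v}) A) :
    Φ A := by
  refine h.2 {b :: v} _ (fun u hu => ?_) (c.qnone _ _) A hA
  simp only [mem_singleton, notMem_empty, iff_false]
  rintro rfl
  exact hv hu

theorem Holds.two {c : Ctx} {Φ : (Str → Bool) → Prop} {C : Finset Str} {u : Str}
    (h : c.Holds Φ {u} C) {b : Bool} {v : Str} (hv : c.adr b v ∉ C) {X : Finset Str}
    (hX : ∀ w, w ∈ X ↔ w = u ∨ w = b :: v) {ε : Esc} (hq : c.Qt X ε C)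
    (A : Str → Bool) (hA : c.Ext (c.W X ε) A) : Φ A := by
  refine h.2 X ε (fun w hw => ?_) hq A hA
  rw [hX, mem_singleton]
  refine ⟨fun h => h.resolve_right ?_, Or.inl⟩
  rintro rfl
  exact hv hw

theorem ext_refl (B : Str → Bool) : c.Ext B B := fun _ _ => rfl

def Out (e : Cand) (ρ : Clk) : Prop :=
  (∃ (b : Bool) (v : Str), v.length = c.n ∧ (3 ≤ e.1 → b = false) ∧
    ∀ A, c.Ext (c.W0 {b :: v}) A → Fail c.T e ρ A) ∨
  ∃ X ε, Tot ε ∧ (∀ u ∈ X, u.length = c.n + 1) ∧ ∀ A, c.Ext (c.W X ε) A → Bad e A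

variable {e : Cand} {ρ : Clk} (hτ : tau3 c.T e ρ c.n ≤ c.τ)
include hτ

theorem st_of (b : Bool) (v : Str) (hv : v.length = c.n) (A : Str → Bool)
    (hA : c.Ext (c.W0 {b :: v}) A) : ST A c.T b (List.replicate c.n true) := by
  refine ⟨v, by simp; omega, ?_⟩
  rw [List.length_replicate, hA _ (by
    rw [xadr_length, List.length_cons]; unfold tau3 at hτ; omega)]
  exact congrArg (fun t => [t]) ((c.slot _ _ _).2 (mem_singleton_self _))

theorem red_fix (x : Str) (hx : x.length ≤ c.n + 1) :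
    ∃ (z : Str) (C : Finset Str), z.length ≤ cost ρ (c.n + 1) ∧
      c.Holds (fun A => ev A ρ x = z) ∅ C := by
  obtain ⟨S, s1, s2, s3⟩ := ev_local (c.W0 ∅) ρ x
  have := cost_mono ρ hx
  unfold tau3 at hτ
  obtain ⟨C, hC⟩ := c.lift (fun A => ev A ρ x = ev (c.W0 ∅) ρ x) ∅ S (by omega)
    (fun β hβ => by have := s2 β hβ; omega) s3
  exact ⟨_, C, (ev_len _ _ _).trans this, hC⟩

theorem sol_fix (V : Ver) (hV : V = e.2.1 ∨ V = e.2.2) (z y : Str)
    (hz : z.length ≤ cost ρ (c.n + 1)) (X : Finset Str) :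
    ∃ C, c.Holds (fun A => Sol A V z y ↔ Sol (c.W0 X) V z y) X C := by
  obtain ⟨S, s1, s2, s3⟩ := sol_decided (c.W0 X) V z y
  have := tm_mono V hz
  unfold tau3 at hτ
  exact c.lift _ X S (by rcases hV with rfl | rfl <;> omega)
    (fun β hβ => by have := s2 β hβ; rcases hV with rfl | rfl <;> omega) s3

theorem acc_ext (V : Ver) (hV : V = e.2.1 ∨ V = e.2.2) (z : Str)
    (hz : z.length ≤ cost ρ (c.n + 1)) {A B : Str → Bool} (hA : c.Ext B A) :
    Acc A V z ↔ Acc B V z := by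
  have := tm_mono V hz
  unfold tau3 at hτ
  exact acc_congr fun α hα => hA α (by rcases hV with rfl | rfl <;> omega)

theorem kind0 (he : e.1 = 0) : c.Out e ρ := by
  classical
  obtain ⟨z, C0, hz, h0⟩ := c.red_fix hτ (List.replicate c.n true) (by simp)
  by_contra hno
  unfold Out at hno
  rw [not_or] at hno
  let V : Bool → Ver := fun b => if b then e.2.2 else e.2.1
  have hV : ∀ b, V b = e.2.1 ∨ V b = e.2.2 := fun b => by cases b <;> simp [V]
  have key : ∀ b v, ∃ C, C.card ≤ c.τ ^ 2 ∧ (v.length = c.n → c.adr b v ∉ C0 →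
      c.Holds (fun A => Acc A (V b) z) {b :: v} C) := by
    intro b v
    by_cases hv : v.length = c.n ∧ c.adr b v ∉ C0
    · have hacc : Acc (c.W0 {b :: v}) (V b) z := by
        by_contra hn
        refine hno.1 ⟨b, v, hv.1, by omega, fun A hA => ?_⟩
        unfold Fail
        rw [if_pos he]
        have e1 := h0.one hv.2 A hA
        have e2 := c.st_of hτ b v hv.1 A hA
        have e3 := (c.acc_ext hτ (V b) (hV b) z hz hA).not.2 hn
        refine ⟨List.replicate c.n true, ?_⟩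
        rw [e1]
        cases b
        · exact Or.inl ⟨e2, e3⟩
        · exact Or.inr ⟨e2, e3⟩
      obtain ⟨y, hy⟩ := hacc
      obtain ⟨C, hC⟩ := c.sol_fix hτ (V b) (hV b) z y hz {b :: v}
      exact ⟨C, hC.1, fun _ _ => ⟨hC.1, fun X' ε' a b' A hA => ⟨y, (hC.2 X' ε' a b' A hA).2 hy⟩⟩⟩
    · exact ⟨∅, by simp, fun a b => absurd ⟨a, b⟩ hv⟩
  choose C hC1 hC2 using key
  have hb := c.big
  obtain ⟨v, v', l1, l2, a1, a2⟩ := exists_pair (c.adr false) (c.adr true) (c.adr_inj _)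
    (c.adr_inj _) c.n (2 * c.τ ^ 2) (fun v => C false v ∪ C0) (fun v => C true v ∪ C0)
    (fun v => (card_union_le _ _).trans (by have := hC1 false v; have := h0.1; omega))
    (fun v => (card_union_le _ _).trans (by have := hC1 true v; have := h0.1; omega)) (by omega)
  rw [mem_union, not_or] at a1 a2
  obtain ⟨ε, e1, e2⟩ := c.qex (C false v ∪ C true v') ((card_union_le _ _).trans (by
    have := hC1 false v; have := hC1 true v'; omega))
  refine hno.2 ⟨{false :: v, true :: v'}, ε, e1, by simp [l1, l2], fun A hA => ?_⟩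
  unfold Bad
  rw [if_pos he]
  exact ⟨z, (hC2 false v l1 a2.2).two a1.1 (by simp)
      (c.qmono _ _ _ _ subset_union_left (e2 _)) A hA,
    (hC2 true v' l2 a1.2).two a2.1 (by simp [or_comm])
      (c.qmono _ _ _ _ subset_union_right (e2 _)) A hA⟩

theorem kind1 (he : e.1 = 1) : c.Out e ρ := by
  classical
  obtain ⟨z, C0, hz, h0⟩ := c.red_fix hτ (List.replicate c.n true) (by simp)
  by_contra hno
  unfold Out at hno
  rw [not_or] at hno
  have hb := c.big
  have side : ∀ b v, v.length = c.n → c.adr b v ∉ C0 →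
      (Acc (c.W0 {b :: v}) e.2.1 z ↔ b = false) := by
    intro b v l hv
    by_contra hn
    refine hno.1 ⟨b, v, l, by omega, fun A hA => ?_⟩
    unfold Fail
    rw [if_neg (by omega), if_pos he]
    have e1 := h0.one hv A hA
    have e2 := c.st_of hτ b v l A hA
    have e3 := c.acc_ext hτ e.2.1 (Or.inl rfl) z hz hA
    refine ⟨List.replicate c.n true, ?_⟩
    rw [e1, e3]
    cases b
    · exact Or.inl ⟨e2, by simpa using hn⟩
    · exact Or.inr ⟨e2, by simpa using hn⟩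
  choose E hE using fun y => c.sol_fix hτ e.2.1 (Or.inl rfl) z y hz ∅
  have none0 : ∀ y, ¬ Sol (c.W0 ∅) e.2.1 z y := by
    intro y hy
    obtain ⟨v, l, hv⟩ := exists_str_avoid (c.adr true) (c.adr_inj _) c.n (E y ∪ C0)
      (lt_of_le_of_lt (card_union_le _ _) (by have := (hE y).1; have := h0.1; omega))
    rw [mem_union, not_or] at hv
    have := (side true v l hv.2).1 ⟨y, ((hE y).one hv.1 _ (c.ext_refl _)).2 hy⟩
    simp at this
  have key : ∀ v : Str, ∃ (y : Str) (C : Finset Str), C.card ≤ c.τ ^ 2 ∧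
      (v.length = c.n → c.adr false v ∉ C0 →
        c.adr false v ∈ E y ∧ c.Holds (fun A => Sol A e.2.1 z y) {false :: v} C) := by
    intro v
    by_cases hv : v.length = c.n ∧ c.adr false v ∉ C0
    · obtain ⟨y, hy⟩ := (side false v hv.1 hv.2).2 rfl
      obtain ⟨C, hC⟩ := c.sol_fix hτ e.2.1 (Or.inl rfl) z y hz {false :: v}
      refine ⟨y, C, hC.1, fun _ _ => ⟨?_, hC.1,
        fun X' ε' a b' A hA => (hC.2 X' ε' a b' A hA).2 hy⟩⟩
      by_contra hn
      exact none0 y (((hE y).one hn _ (c.ext_refl _)).1 hy)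
    · exact ⟨[], ∅, by simp, fun a b => absurd ⟨a, b⟩ hv⟩
  choose y C hC1 hC2 using key
  have hcard : ∀ v, (C v ∪ (E (y v) ∪ C0)).card ≤ 3 * c.τ ^ 2 := by
    intro v
    have := card_union_le (C v) (E (y v) ∪ C0)
    have := card_union_le (E (y v)) C0
    have := hC1 v
    have := (hE (y v)).1
    have := h0.1
    omega
  obtain ⟨v, v', l1, l2, a1, a2⟩ := exists_pair (c.adr false) (c.adr false) (c.adr_inj _)
    (c.adr_inj _) c.n (3 * c.τ ^ 2) _ _ hcard hcard (by omega)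
  simp only [mem_union, not_or] at a1 a2
  obtain ⟨b1, b2⟩ := hC2 v l1 a2.2.2
  obtain ⟨b3, b4⟩ := hC2 v' l2 a1.2.2
  obtain ⟨ε, e1, e2⟩ := c.qex (C v ∪ C v') ((card_union_le _ _).trans (by
    have := hC1 v; have := hC1 v'; omega))
  refine hno.2 ⟨{false :: v, false :: v'}, ε, e1, by simp [l1, l2], fun A hA => ?_⟩
  unfold Bad
  rw [if_neg (by omega), if_pos he]
  exact ⟨z, y v, y v', fun h => a1.2.1 (h ▸ b3),
    b2.two a1.1 (by simp) (c.qmono _ _ _ _ subset_union_left (e2 _)) A hA,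
    b4.two a2.1 (by simp [or_comm]) (c.qmono _ _ _ _ subset_union_right (e2 _)) A hA⟩

theorem kind2 (he : e.1 = 2) : c.Out e ρ := by
  classical
  set x := true :: List.replicate c.n true with hx
  have hxl : x.length = c.n + 1 := by simp [hx]
  obtain ⟨S, s1, s2, s3⟩ := ev_local (c.W0 ∅) ρ x
  obtain ⟨S', t1, t2, t3⟩ := ev_local (c.W0 ∅) (clk e.2.1) (ev (c.W0 ∅) ρ x)
  have l1 := ev_len (c.W0 ∅) ρ x
  rw [hxl] at s1 s2 l1
  have l2 := (cost_le_tm e.2.1 _).trans (tm_mono e.2.1 l1)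
  have hτ' := hτ
  unfold tau3 at hτ'
  obtain ⟨C, hC⟩ := c.lift (fun A => ev A (clk e.2.1) (ev A ρ x) =
      ev (c.W0 ∅) (clk e.2.1) (ev (c.W0 ∅) ρ x)) ∅ (S ∪ S')
    ((card_union_le _ _).trans (by omega))
    (fun β hβ => by
      rcases mem_union.1 hβ with h | h
      · have := s2 β h; omega
      · have := t2 β h; omega)
    (fun B' hB => by
      rw [s3 B' fun α hα => hB α (mem_union_left _ hα),
        t3 B' fun α hα => hB α (mem_union_right _ hα)])
  have hb := c.big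
  by_cases h : ev (c.W0 ∅) (clk e.2.1) (ev (c.W0 ∅) ρ x) = code c.T c.n
  · right
    obtain ⟨ε, e1, e2⟩ := c.qex C (by have := hC.1; omega)
    refine ⟨∅, ε, e1, by simp, fun A hA => ?_⟩
    unfold Bad
    rw [if_neg (by omega), if_neg (by omega), if_pos he]
    refine ⟨ev A ρ x, ?_⟩
    rw [hC.2 ∅ ε (fun _ _ => Iff.rfl) (e2 _) A hA, h]
    rintro ⟨y, y1, y2⟩
    rw [code_adr, hA _ (by rw [xadr_length]; rw [code_length] at y1; simp at y1; omega)] at y2
    simpa using (c.slot _ _ _).1 (List.cons.inj y2).1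
  · left
    obtain ⟨v, l, hv⟩ := exists_str_avoid (c.adr false) (c.adr_inj _) c.n C
      (by have := hC.1; omega)
    refine ⟨false, v, l, fun _ => rfl, fun A hA => ?_⟩
    unfold Fail
    rw [if_neg (by omega), if_neg (by omega), if_pos he]
    exact ⟨c.n, by rw [← hx, hC.one hv A hA]; exact h⟩

theorem kind3 (he : 3 ≤ e.1) : c.Out e ρ := by
  classical
  have hτ' := hτ
  unfold tau3 at hτ'
  have hc : ∀ π : Str, π.length ≤ (c.n + 1) ^ ρ.2 + ρ.2 →
      cost (clk e.2.1) π.length ≤ tm e.2.1 (cost ρ (c.n + 1)) := fun π h =>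
    (cost_le_tm e.2.1 _).trans (tm_mono e.2.1 (by unfold cost; omega))
  set u := false :: List.replicate c.n false with hu
  by_cases h : ∃ π : Str, π.length ≤ (c.n + 1) ^ ρ.2 + ρ.2 ∧
      ev (c.W0 {u}) (clk e.2.1) π = true :: code c.T c.n
  · right
    obtain ⟨π, p1, p2⟩ := h
    obtain ⟨S, s1, s2, s3⟩ := ev_local (c.W0 {u}) (clk e.2.1) π
    have := hc π p1
    obtain ⟨C, hC⟩ := c.lift (fun A => ev A (clk e.2.1) π = ev (c.W0 {u}) (clk e.2.1) π) {u} S
      (by omega) (fun β hβ => by have := s2 β hβ; omega) s3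
    have hb := c.big
    obtain ⟨v, l, hv⟩ := exists_str_avoid (c.adr true) (c.adr_inj _) c.n C
      (by have := hC.1; omega)
    obtain ⟨ε, e1, e2⟩ := c.qex C (by have := hC.1; omega)
    refine ⟨{u, true :: v}, ε, e1, by simp [l, hu], fun A hA => ?_⟩
    unfold Bad
    rw [if_neg (by omega), if_neg (by omega), if_neg (by omega)]
    refine ⟨π, ?_⟩
    rw [hC.two hv (by simp) (e2 _) A hA, p2]
    refine ⟨v, by simp [code_length]; omega, ?_⟩
    rw [List.reverse_cons, List.append_assoc, code_adr,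
      hA _ (by rw [xadr_length]; simp; omega)]
    exact congrArg (fun t => [t]) ((c.slot _ _ _).2 (by simp))
  · left
    refine ⟨false, List.replicate c.n false, by simp, fun _ => rfl, fun A hA => ?_⟩
    unfold Fail
    rw [if_neg (by omega), if_neg (by omega), if_neg (by omega)]
    refine ⟨c.n, fun π p1 p2 => h ⟨π, p1, ?_⟩⟩
    obtain ⟨S, s1, s2, s3⟩ := ev_local (c.W0 {u}) (clk e.2.1) π
    have := hc π p1
    rw [← s3 A fun α hα => hA α (by have := s2 α hα; omega), p2]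

theorem out : c.Out e ρ := by
  rcases Nat.lt_or_ge e.1 3 with h | h
  · obtain h | h | h : e.1 = 0 ∨ e.1 = 1 ∨ e.1 = 2 := by omega
    · exact c.kind0 hτ h
    · exact c.kind1 hτ h
    · exact c.kind2 hτ h
  · exact c.kind3 hτ h

end Ctx

end Pool.Agent.Lib.MP_2c6a5a_lc.Mx
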