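import Pool.Agent.Lib.MP_2c6a5a_lc.MxStage

/-! Assembly: a complete total search problem next to all the diagonal arguments. -/

namespace Pool.Agent.Lib.MP_2c6a5a_lc.Mx

open Finset Pool.Agent.Lib.MP_8a52c3_lc.Orc Pool.Agent.Lib.MP_2c6a5a_lc.Pf

/-- The class UP relative to `A`: NP sets given by a relation with at most one witness. -/
def InUP (A : List Bool → Bool) (L : Set (List Bool)) : Prop :=
  ∃ S, NPRel A S ∧ (∀ x, x ∈ L ↔ ∃ y, S x y) ∧ ∀ x y y', S x y → S x y' → y = y'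

section
variable {Vd : ℕ → Ver} {Cd : ℕ → Cand} {Rd : ℕ → Clk} {A : Str → Bool} {L : ℕ → ℕ}
  (hL0 : L 0 = 0) (hL : StrictMono L)
  (hS : ∀ i, StageOK3 Vd (eOf i) (Cd (eOf i)) (Rd (kOf i)) (Nat.sqrt i) (L i) (L (i + 1)) A)
include hL0 hL hS

theorem total_part (x : Str) : ∃ y : Str, y.length = x.length ∧ A (kadr x y) = true := by
  obtain ⟨i, _, a2, a3⟩ := find_stage hL 0 (3 * x.length + 2) (by omega)
  exact (hS i).1 x a2 a3

theorem complete_part (hVd : Function.Surjective Vd) :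
    ∃ T, IsTFNP A T ∧ ∀ S, IsTFNP A S → Reduces A S T := by
  refine ⟨fun x y => y.length ≤ x.length ^ 1 + 1 ∧ [A (kadr x y)] = [true],
    ⟨⟨_, 1, ktester_FP2 A, fun _ _ => Iff.rfl⟩, fun x => ?_⟩, ?_⟩
  · obtain ⟨y, y1, y2⟩ := total_part hL0 hL hS x
    exact ⟨y, by simp [y1], by rw [y2]⟩
  · rintro S ⟨hS1, hS2⟩
    obtain ⟨V, hV⟩ := npRel_ver hS1
    obtain ⟨j, rfl⟩ := hVd V
    have hnd : ∀ l, ¬ DeadC (Vd j) A l := by
      rintro l ⟨v, _, h⟩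
      obtain ⟨y, hy⟩ := hS2 v
      exact h ⟨y, (hV _ _).1 hy⟩
    obtain ⟨s, c, hsc⟩ := ((((QB.id.tm (Vd j)).add (QB.const 1)).pow 2).add
      (QB.const (L ((j + 1) * (j + 1))))).poly
    refine ⟨_, _, addr_FP1 A (id_FP1 A) 0 j s c, unpad_FP2 A, fun x y h => ?_⟩
    set α := fmt 0 j (s * (x.length + 1) ^ c) x with hα
    have hb := hsc x.length
    have hlen : s * (x.length + 1) ^ c ≤ α.length := by rw [hα, fmt_length]; omega
    have e1 : idx α = j := by simp [hα, idx, dec2_fmt]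
    have e2 : cy α = x := cy_fmt _ _ _ _
    obtain ⟨i, a1, a2, a3⟩ := find_stage hL ((j + 1) * (j + 1)) (kadr α y).length
      (by rw [kadr_length]; omega)
    have hq : j + 1 ≤ Nat.sqrt i := Nat.le_sqrt.2 a1
    obtain ⟨z, z1, z2⟩ := (hS i).2.1 α y (by unfold IsK; rw [e1, e2]; omega) (by omega)
      (by rw [e1]; exact hnd _) a2 a3 (List.cons.inj h.2).1
    rw [e1, e2] at z2
    rw [z1]
    exact (hV _ _).2 z2

theorem len_part (T n : ℕ) (u : Str) (h : A (xadr T n u) = true) : u.length = n + 1 := by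
  obtain ⟨i, _, a2, a3⟩ := find_stage hL 0 (xadr T n u).length (by omega)
  exact (hS i).2.2.1 T n u a2 a3 h

theorem slot_part (T n : ℕ) (hb : ¬ Bad (Cd T) A) :
    ∃ (b : Bool) (v : Str), v.length = n ∧ (b = true → (Cd T).1 < 3) ∧
      ∀ u : Str, A (xadr T n u) = true ↔ u = b :: v := by
  obtain ⟨i, _, a2, a3⟩ := find_stage hL 0 (T + 2 * n + 4) (by omega)
  rcases (hS i).2.2.2.1 T n a2 a3 with ⟨b, v, v1, v2, v3⟩ | ⟨h, h'⟩
  · refine ⟨b, v, v1, fun h => ?_, fun u => ⟨fun h => ?_, fun h => ?_⟩⟩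
    · obtain ⟨h1, h2⟩ := v2 h
      rw [h1]; exact h2
    · exact (v3 u (len_part hL0 hL hS T n u h)).1 h
    · exact (v3 u (by rw [h]; simp [v1])).2 h
  · rw [h] at hb
    exact absurd (h' A fun _ _ => rfl) hb

omit hL0 in
theorem fail_part (e k : ℕ) (hb : ¬ Bad (Cd e) A) : Fail e (Cd e) (Rd k) A := by
  set q := Nat.pair e (Nat.pair 0 k) with hq
  obtain ⟨i, i1, i2, i3⟩ := quiet (fun j i => DeadC (Vd j) A (L i))
    (fun _ _ _ h hd => hd.mono (hL.monotone h) fun _ _ => rfl) q (q * q)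
  have hsq : Nat.sqrt i = q := (Nat.eq_sqrt.2 ⟨i1, by nlinarith⟩).symm
  have b1 : eOf i = e := by simp [eOf, hsq, hq]
  have b3 : kOf i = k := by simp [kOf, hsq, hq]
  have := (hS i).2.2.2.2
  rw [b1, b3, hsq] at this
  exact (this i3 A fun _ _ => rfl).resolve_left hb

theorem sides (T : ℕ) (hb : ¬ Bad (Cd T) A) :
    InUP A {x | ST A T false x} ∧ InUP A {x | ST A T false x}ᶜ ∧
      ∀ x, ST A T true x → ¬ ST A T false x := by
  have h1 : ∀ b, InUP A {x | ST A T b x} := by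
    intro b
    refine ⟨_, ⟨_, 1, testerB_FP2 A T b, fun _ _ => Iff.rfl⟩, fun _ => Iff.rfl,
      fun x y y' h h' => ?_⟩
    obtain ⟨b', v, _, _, v3⟩ := slot_part hL0 hL hS T x.length hb
    exact (List.cons.inj (((v3 _).1 (List.cons.inj h.2).1).trans
      ((v3 _).1 (List.cons.inj h'.2).1).symm)).2
  have h2 : ∀ x, ST A T true x ↔ ¬ ST A T false x := by
    intro x
    obtain ⟨b', v, v1, _, v3⟩ := slot_part hL0 hL hS T x.length hb
    have : ∀ b, ST A T b x ↔ b = b' := fun b =>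
      ⟨fun ⟨y, _, h⟩ => (List.cons.inj ((v3 _).1 (List.cons.inj h).1)).1,
        fun h => ⟨v, by simp [v1], by rw [h, (v3 _).2 rfl]⟩⟩
    rw [this, this]
    cases b' <;> simp
  refine ⟨h1 false, ?_, fun x => (h2 x).1⟩
  have : {x | ST A T false x}ᶜ = {x | ST A T true x} := by
    ext x
    exact (h2 x).symm
  rw [this]
  exact h1 true

end

theorem ev_eq {A : Str → Bool} {f : Str → Str} (hf : FP1 A f) :
    ∃ ρ : Clk, ∀ x, ev A ρ x = f x := by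
  obtain ⟨M, k, h⟩ := hf
  exact ⟨(M, k), fun x => (h x).2⟩

theorem hfun_range {F : Str → Str} {pr : Str} {T : ℕ} {L : Set Str} (hF : Set.range F = L)
    (h : ∀ n, pr ++ code T n ∈ L) : Set.range (hfun F pr T) = L := by
  ext y
  constructor
  · rintro ⟨_ | ⟨_ | _, d⟩, rfl⟩
    · exact hF ▸ Set.mem_range_self []
    · exact hF ▸ Set.mem_range_self d
    · exact h _
  · intro hy
    rw [← hF] at hy
    obtain ⟨d, rfl⟩ := hy
    exact ⟨false :: d, rfl⟩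

theorem main : ∃ A : List Bool → Bool,
    (∃ T, IsTFNP A T ∧ ∀ S, IsTFNP A S → Reduces A S T) ∧
    (∃ L : Set (List Bool), L.Nonempty ∧ Lᶜ.Nonempty ∧ InNP A L ∧
      (¬ ∃ P, FP1 A P ∧ Set.range P = L ∧
        ∀ Q, FP1 A Q → Set.range Q = L → ∃ f, FP1 A f ∧ ∀ d, P (f d) = Q d) ∧
      ¬ ∃ P, FP1 A P ∧ Set.range P = Lᶜ ∧ ∀ Q, FP1 A Q → Set.range Q = Lᶜ →
        ∃ k, ∀ d, ∃ π, π.length ≤ d.length ^ k + k ∧ P π = Q d) ∧
    (∀ B₀ B₁ : Set (List Bool), InNP A B₀ → InNP A B₁ → Disjoint B₀ B₁ →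
      ∃ S, InUP A S ∧ InUP A Sᶜ ∧
        ¬ ∃ f, FP1 A f ∧ ∀ x, (x ∈ S → f x ∈ B₀) ∧ (x ∉ S → f x ∈ B₁)) ∧
    ∀ B : Set (List Bool), InUP A B →
      ∃ S, InUP A S ∧ InUP A Sᶜ ∧ ¬ ∃ f, FP1 A f ∧ ∀ x, x ∈ S ↔ f x ∈ B := by
  obtain ⟨Vd, hVd⟩ := exists_surjective_nat Ver
  obtain ⟨Cd, hCd⟩ := exists_surjective_nat Cand
  obtain ⟨Rd, hRd⟩ := exists_surjective_nat Clk
  obtain ⟨A, L, hL0, hL, hS⟩ := exists_oracle3 Vd Cd Rd
  refine ⟨A, complete_part hL0 hL hS hVd, ⟨Lst A, ?_, ?_,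
    ⟨_, ⟨_, 1, rev_FP2 A, fun _ _ => Iff.rfl⟩, fun _ => Iff.rfl⟩, ?_, ?_⟩, ?_, ?_⟩
  · obtain ⟨y, _, y2⟩ := total_part hL0 hL hS []
    exact ⟨(kadr [] y).reverse, [], by simp, by simp [y2]⟩
  · refine ⟨(xadr 0 0 [true, true]).reverse, ?_⟩
    rintro ⟨y, _, y2⟩
    have := len_part hL0 hL hS 0 0 (true :: true :: y)
      (by simpa [xadr, adr] using (List.cons.inj y2).1)
    simp at this
  · rintro ⟨P, hP, hr, hopt⟩
    obtain ⟨ρ, hρ⟩ := ev_eq hP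
    obtain ⟨e, he⟩ := hCd (2, (ρ.1, ρ.2, 0), (ρ.1, ρ.2, 0))
    have hb : ¬ Bad (Cd e) A := by
      rw [he]
      rintro ⟨d, hd⟩
      exact hd (hr ▸ ⟨d, (hρ d).symm⟩)
    obtain ⟨f, hf, h⟩ := hopt _ (hfun_FP1 A hP [] e) (hfun_range hr fun n => by
      obtain ⟨b, v, v1, _, v3⟩ := slot_part hL0 hL hS e n hb
      refine ⟨b :: v, by simp [code_length]; omega, ?_⟩
      rw [List.nil_append, code_adr, (v3 _).2 rfl])
    obtain ⟨ρ', hρ'⟩ := ev_eq hf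
    obtain ⟨k, rfl⟩ := hRd ρ'
    have := fail_part hL hS e k hb
    rw [he] at this
    obtain ⟨n, hn⟩ := this
    refine hn ((hρ _).trans ?_)
    rw [hρ', h]
    simp [hfun]
  · rintro ⟨P, hP, hr, hopt⟩
    obtain ⟨ρ, hρ⟩ := ev_eq hP
    obtain ⟨e, he⟩ := hCd (3, (ρ.1, ρ.2, 0), (ρ.1, ρ.2, 0))
    have hb : ¬ Bad (Cd e) A := by
      rw [he]
      rintro ⟨d, hd⟩
      have : P d ∈ (Lst A)ᶜ := hr ▸ Set.mem_range_self d
      exact this (hρ d ▸ hd)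
    obtain ⟨k', h⟩ := hopt _ (hfun_FP1 A hP [true] e) (hfun_range hr fun n => by
      obtain ⟨b, v, _, v2, v3⟩ := slot_part hL0 hL hS e n hb
      rintro ⟨y, _, y2⟩
      rw [List.singleton_append, List.reverse_cons, List.append_assoc, code_adr] at y2
      have := v2 (List.cons.inj ((v3 _).1 (List.cons.inj y2).1)).1.symm
      rw [he] at this
      simp at this)
    obtain ⟨k, hk⟩ := hRd ([], k')
    have := fail_part hL hS e k hb
    rw [he, hk] at this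
    obtain ⟨n, hn⟩ := this
    obtain ⟨π, p1, p2⟩ := h (true :: List.replicate n true)
    refine hn π (by simpa using p1) ((hρ _).trans ?_)
    rw [p2]
    simp [hfun]
  · intro B₀ B₁ h₀ h₁ hd
    obtain ⟨V₀, hV₀⟩ := inNP_ver h₀
    obtain ⟨V₁, hV₁⟩ := inNP_ver h₁
    obtain ⟨e, he⟩ := hCd (0, V₀, V₁)
    have hb : ¬ Bad (Cd e) A := by
      rw [he]
      rintro ⟨w, a, b⟩
      exact Set.disjoint_left.1 hd ((hV₀ w).2 a) ((hV₁ w).2 b)
    obtain ⟨s1, s2, s3⟩ := sides hL0 hL hS e hb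
    refine ⟨_, s1, s2, ?_⟩
    rintro ⟨f, hf, h⟩
    obtain ⟨ρ, hρ⟩ := ev_eq hf
    obtain ⟨k, rfl⟩ := hRd ρ
    have := fail_part hL hS e k hb
    rw [he] at this
    obtain ⟨x, ⟨a, b⟩ | ⟨a, b⟩⟩ := this
    · exact b (hρ x ▸ (hV₀ _).1 ((h x).1 a))
    · exact b (hρ x ▸ (hV₁ _).1 ((h x).2 (s3 x a)))
  · rintro B ⟨R, hR, hB, hu⟩
    obtain ⟨V, hV⟩ := npRel_ver hR
    have hA : ∀ w, w ∈ B ↔ Acc A V w :=
      fun w => (hB w).trans (exists_congr fun y => hV w y)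
    obtain ⟨e, he⟩ := hCd (1, V, V)
    have hb : ¬ Bad (Cd e) A := by
      rw [he]
      rintro ⟨w, y, y', a, b, c⟩
      exact a (hu w y y' ((hV _ _).2 b) ((hV _ _).2 c))
    obtain ⟨s1, s2, s3⟩ := sides hL0 hL hS e hb
    refine ⟨_, s1, s2, ?_⟩
    rintro ⟨f, hf, h⟩
    obtain ⟨ρ, hρ⟩ := ev_eq hf
    obtain ⟨k, rfl⟩ := hRd ρ
    have := fail_part hL hS e k hb
    rw [he] at this
    obtain ⟨x, ⟨a, b⟩ | ⟨a, b⟩⟩ := this
    · exact b (hρ x ▸ (hA _).1 ((h x).1 a))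
    · exact s3 x a ((h x).2 ((hA _).2 (hρ x ▸ b)))

end Pool.Agent.Lib.MP_2c6a5a_lc.Mx
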