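import Pool.Agent.Lib.MP_2c6a5a_lc.PfBuild

/-! Small programs for the oracle with a complete total search problem. -/

namespace Pool.Agent.Lib.MP_2c6a5a_lc.Mx

open Pool.Agent.Lib.MP_8a52c3_lc.Orc Pool.Agent.Lib.MP_2c6a5a_lc.Pf

/-- Addresses of the complete problem. -/
def kadr (x y : List Bool) : List Bool :=
  List.replicate (x.length + 1) true ++ false :: (x.reverse ++ y)

theorem kadr_length (x y : List Bool) : (kadr x y).length = 2 * x.length + 2 + y.length := by
  simp [kadr]; omega

theorem kadr_inj {x y x' y' : List Bool} (h : kadr x y = kadr x' y') : x = x' ∧ y = y' := by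
  obtain ⟨h1, h2⟩ := rep_inj h
  obtain ⟨h3, h4⟩ := List.append_inj h2 (by simp; omega)
  exact ⟨List.reverse_injective h3, h4⟩

theorem kadr_ne_xadr (x y : List Bool) (T n : ℕ) (u : List Bool) : kadr x y ≠ xadr T n u := by
  simp [kadr, xadr, adr, List.replicate_succ]

theorem id_FP1 (A : List Bool → Bool) : FP1 A fun x => x :=
  ⟨[], 0, fun _ => outputs_of_reach (Reach.refl A [] _) rfl (by simp) (by omega)⟩

theorem rev_FP2 (A : List Bool → Bool) : FP2 A fun c y => [A (c.reverse ++ y)] := by
  obtain ⟨k, hk⟩ := QB_clock (((QB.const 3).mul QB.id).add (QB.const 3))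
  refine ⟨mvc 0 1 2 0 ++ ask 5, k, fun x y => ?_⟩
  have H := has_self (mvc 0 1 2 0 ++ ask 5)
  set st0 : ℕ → List Bool := fun i => if i = 0 then x else if i = 1 then y else [] with hst0
  have s1 := mvc_reach A _ (i := 0) (j := 1) (k := 2) (by omega) (by omega)
    (by omega) H.left x st0 (by simp [hst0])
  obtain ⟨s2, hh⟩ := ask_reach A _ (l := 5) H.right _
    (show (Function.update (Function.update (Function.update st0 0 []) 1
      (x.reverse ++ st0 1)) 2 (List.replicate x.length true ++ st0 2)) 0 = [] by simp)
  refine outputs_of_reach (s1.trans s2) hh (by simp [hst0]) ?_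
  have := hk (x.length + y.length)
  omega

def ktester : List Instr :=
  mvc 0 1 2 0 ++ (pushR 1 [false] 5 ++ (mvu 2 1 6 8 ++ (pushR 1 [true] 8 ++ ask 9)))

theorem ktester_FP2 (A : List Bool → Bool) : FP2 A fun x y => [A (kadr x y)] := by
  obtain ⟨k, hk⟩ := QB_clock (((QB.const 5).mul QB.id).add (QB.const 6))
  refine ⟨ktester, k, fun x y => ?_⟩
  have H := has_self ktester
  set st0 : ℕ → List Bool := fun i => if i = 0 then x else if i = 1 then y else [] with hst0
  have s1 := mvc_reach A _ (i := 0) (j := 1) (k := 2) (by omega) (by omega)
    (by omega) H.left x st0 (by simp [hst0])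
  set st1 := Function.update (Function.update (Function.update st0 0 []) 1
      (x.reverse ++ st0 1)) 2 (List.replicate x.length true ++ st0 2) with hst1
  have s2 := pushR_reach A _ 1 [false] 5 st1 H.right.left
  set st2 := Function.update st1 1 ([false].reverse ++ st1 1) with hst2
  have s3 := mvu_reach A ktester (i := 2) (j := 1) (l := 6) (e := 8) (by omega)
    H.right.right.left (List.replicate x.length true) st2 (by simp [hst2, hst1, hst0])
  set st3 := Function.update (Function.update st2 2 []) 1
    (List.replicate (List.replicate x.length true).length true ++ st2 1) with hst3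
  have s4 := pushR_reach A _ 1 [true] 8 st3 H.right.right.right.left
  obtain ⟨s5, hh⟩ := ask_reach A ktester (l := 9) H.right.right.right.right
    (Function.update st3 1 ([true].reverse ++ st3 1)) (by simp [hst3, hst2, hst1])
  refine outputs_of_reach ((((s1.trans s2).trans s3).trans s4).trans s5) hh ?_ ?_
  · simp [hst3, hst2, hst1, hst0, kadr, List.replicate_succ]
  · have := hk (x.length + y.length)
    simp only [List.length_replicate, List.length_singleton]
    omega

def unpad : List Instr :=
  Instr.pop 0 1 0 0 :: (mvc 1 2 3 1 ++ (mvc 2 0 3 6 ++ [Instr.pop 0 12 12 11, Instr.halt]))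

theorem skip_reach' (A : List Bool → Bool) (M : List Instr) {l : ℕ}
    (h : M.getD l Instr.halt = Instr.pop 0 (l + 1) (l + 1) l) (w : List Bool) :
    ∀ st : ℕ → List Bool, st 0 = w →
      Reach A M (l, st) (l + 1, Function.update st 0 ((skipU w).getD [])) (w.length + 1) := by
  induction w with
  | nil =>
    intro st hs
    refine (Reach.one (step_pop_nil (A := A) h st hs)).cast le_rfl ?_
    simp only [skipU, Option.getD_none]
    rw [← hs]; simp
  | cons b w ih =>
    intro st hs
    cases b
    · exact (Reach.one (step_pop_false h st hs)).mono (by simp)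
    · have s1 := Reach.one (step_pop_true (A := A) h st hs)
      have s2 := ih (Function.update st 0 w) (by simp)
      exact (s1.trans s2).cast (by simp; omega) (by simp [skipU])

theorem unpad_FP2 (A : List Bool → Bool) : FP2 A fun _ y => (skipU y).getD [] := by
  obtain ⟨k, hk⟩ := QB_clock (((QB.const 7).mul QB.id).add (QB.const 4))
  refine ⟨unpad, k, fun x y => ?_⟩
  have H := has_self unpad
  set st0 : ℕ → List Bool := fun i => if i = 0 then x else if i = 1 then y else [] with hst0
  have s1 := clr_reach A unpad H.head x st0 (by simp [hst0])
  have s2 := mvc_reach A _ (i := 1) (j := 2) (k := 3) (by omega) (by omega)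
    (by omega) H.tail.left y (Function.update st0 0 []) (by simp [hst0])
  set st2 := Function.update (Function.update (Function.update (Function.update st0 0 []) 1 []) 2
      (y.reverse ++ Function.update st0 0 [] 2)) 3
      (List.replicate y.length true ++ Function.update st0 0 [] 3) with hst2
  have s3 := mvc_reach A unpad (i := 2) (j := 0) (k := 3) (l := 6) (by omega) (by omega)
    (by omega) H.tail.right.left y.reverse st2 (by simp [hst2, hst0])
  have s4 := skip_reach' A unpad (l := 11) H.tail.right.right.head y
    (Function.update (Function.update (Function.update st2 2 []) 0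
      (y.reverse.reverse ++ st2 0)) 3 (List.replicate y.reverse.length true ++ st2 3))
    (by simp [hst2])
  refine outputs_of_reach (((s1.trans s2).trans s3).trans s4) H.tail.right.right.tail.head
    (by simp) ?_
  have := hk (x.length + y.length)
  simp only [List.length_reverse]
  omega

/-- The checker of one side of the slots with tag `T`. -/
def testerB (T : ℕ) (b : Bool) : List Instr :=
  pushR 1 [b, false] 0 ++ (mvu 0 1 2 4 ++
    (pushR 1 (false :: (List.replicate T true ++ [false])) 4 ++ ask (4 + (T + 2))))

theorem testerB_FP2 (A : List Bool → Bool) (T : ℕ) (b : Bool) :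
    FP2 A (fun x y => [A (xadr T x.length (b :: y))]) := by
  obtain ⟨k, hk⟩ := QB_clock (((QB.const 2).mul QB.id).add (QB.const (T + 7)))
  refine ⟨testerB T b, k, fun x y => ?_⟩
  have H := has_self (testerB T b)
  have H4 := H.right.right.right
  simp only [pushR_length, mvu, List.length_cons, List.length_nil, List.length_append,
    List.length_replicate] at H4
  set st0 : ℕ → List Bool := fun i => if i = 0 then x else if i = 1 then y else [] with hst0
  have s1 := pushR_reach A _ 1 [b, false] 0 st0 H.left
  set st1 := Function.update st0 1 ([b, false].reverse ++ st0 1) with hst1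
  have s2 := mvu_reach A (testerB T b) (i := 0) (j := 1) (l := 2) (e := 4) (by omega)
    H.right.left x st1 (by simp [hst1, hst0])
  set st2 := Function.update (Function.update st1 0 []) 1
    (List.replicate x.length true ++ st1 1) with hst2
  have s3 := pushR_reach A _ 1 (false :: (List.replicate T true ++ [false])) 4 st2
    H.right.right.left
  have e : 4 + (false :: (List.replicate T true ++ [false])).length = 4 + (T + 2) := by simp
  rw [e] at s3
  obtain ⟨s4, hh⟩ := ask_reach A (testerB T b) (l := 4 + (T + 2)) H4
    (Function.update st2 1 ((false :: (List.replicate T true ++ [false])).reverse ++ st2 1))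
    (by simp [hst2])
  refine outputs_of_reach (((s1.trans s2).trans s3).trans s4) hh ?_ ?_
  · simp [xadr, adr, hst2, hst1, hst0]
  · have := hk (x.length + y.length)
    simp
    omega

/-- The name of the slot `(T, n)`. -/
def code (T n : ℕ) : List Bool := (xadr T n []).reverse

theorem code_length (T n : ℕ) : (code T n).length = T + n + 3 := by
  simp [code, xadr_length]

theorem code_adr (T n : ℕ) (u : List Bool) : (code T n).reverse ++ u = xadr T n u := by
  simp [code, xadr, adr]

/-- A proof system extended by short proofs of the names of the slots with tag `T`. -/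
def hfun (F : List Bool → List Bool) (pr : List Bool) (T : ℕ) : List Bool → List Bool
  | [] => F []
  | false :: d => F d
  | true :: d => pr ++ code T d.length

def hmach (M : List Instr) (pr : List Bool) (T : ℕ) : List Instr :=
  Instr.pop 0 1 1 (M.length + 3) :: (reloc 2 1 (M.length + 2) M ++ (Instr.halt ::
    (mvu 0 2 (M.length + 3) (M.length + 5) ++
      (pushR 0 (false :: (List.replicate T true ++ [false])) (M.length + 5) ++
        (mvu 2 0 (M.length + 5 + (T + 2)) (M.length + 5 + (T + 2) + 2) ++
          (pushR 0 (false :: pr.reverse) (M.length + 5 + (T + 2) + 2) ++ [Instr.halt]))))))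

theorem hfun_FP1 (A : List Bool → Bool) {F : List Bool → List Bool} (hF : FP1 A F)
    (pr : List Bool) (T : ℕ) : FP1 A (hfun F pr T) := by
  obtain ⟨M, k, hM⟩ := hF
  obtain ⟨k', hk⟩ := QB_clock ((((QB.const 4).mul QB.id).add ((QB.id.pow k).add (QB.const k))).add
    (QB.const (T + pr.length + 8)))
  refine ⟨hmach M pr T, k', fun x => ?_⟩
  have H := has_self (hmach M pr T)
  have H1 := H.tail.left
  have H2 := H.tail.right
  rw [reloc_length] at H2
  have e1 : 0 + 1 + (M.length + 1) = M.length + 2 := by omega
  rw [e1] at H2
  have H3 := H2.tail
  have H4 := H3.right.left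
  have H5 := H3.right.right.left
  have H6 := H3.right.right.right.left
  have H7 := H3.right.right.right.right.head
  have l2 : ∀ a b d e, (mvu a b d e).length = 2 := fun _ _ _ _ => rfl
  have l3 : (false :: (List.replicate T true ++ [false])).length = T + 2 := by simp
  simp only [l2, l3, pushR_length] at H4 H5 H6 H7
  set st0 : ℕ → List Bool := fun i => if i = 0 then x else if i = 1 then [] else [] with hst0
  have hk' := hk x.length
  have runF : ∀ d : List Bool, d.length ≤ x.length →
      Reach A (hmach M pr T) (0, st0) (1, Function.update st0 0 d) 1 →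
      Outputs A (hmach M pr T) x [] (x.length ^ k' + k') (F d) := by
    intro d hd s1
    obtain ⟨st2, s2, b1, _⟩ := reloc_reach A (base := fun _ => []) H1 (by omega) rfl
      (d.length ^ k + k) (0, fun i => if i = 0 then d else if i = 1 then [] else [])
      (1, Function.update st0 0 d) ⟨by simp, fun i => by
        unfold phi
        by_cases hi : i = 0
        · simp [hi]
        · simp [hi, hst0], fun m h1 _ => by
          have : m ≠ 0 := by omega
          simp [this, hst0]⟩ (hM d).1
    refine outputs_of_reach (s1.trans s2) H2.head (b1.trans (hM d).2) ?_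
    have := Nat.pow_le_pow_left hd k
    omega
  rcases x with _ | ⟨_ | _, d⟩
  · refine runF [] le_rfl ?_
    refine (Reach.one (step_pop_nil (A := A) H.head st0 (by simp [hst0]))).cast le_rfl ?_
    funext i
    by_cases hi : i = 0
    · simp [hi, hst0]
    · simp [hi]
  · exact runF d (by simp) (Reach.one (step_pop_false H.head st0 (by simp [hst0])))
  · have s1 := Reach.one (step_pop_true (A := A) H.head st0 (s := d) (by simp [hst0]))
    have s2 := mvu_reach A _ (i := 0) (j := 2) (by omega) H3.left d (Function.update st0 0 d)
      (by simp)
    set st2 := Function.update (Function.update (Function.update st0 0 d) 0 []) 2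
      (List.replicate d.length true ++ Function.update st0 0 d 2) with hst2
    have s3 := pushR_reach A _ 0 (false :: (List.replicate T true ++ [false])) (M.length + 5)
      st2 H4
    rw [l3] at s3
    set st3 := Function.update st2 0
      ((false :: (List.replicate T true ++ [false])).reverse ++ st2 0) with hst3
    have s4 := mvu_reach A _ (i := 2) (j := 0) (by omega) H5 (List.replicate d.length true) st3
      (by simp [hst3, hst2, hst0])
    have s5 := pushR_reach A _ 0 (false :: pr.reverse) (M.length + 5 + (T + 2) + 2)
      (Function.update (Function.update st3 2 []) 0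
        (List.replicate (List.replicate d.length true).length true ++ st3 0)) H6
    refine outputs_of_reach ((((s1.trans s2).trans s3).trans s4).trans s5) H7 ?_ ?_
    · simp [hst3, hst2, hfun, code, xadr, adr]
    · simp only [List.length_cons, List.length_replicate, List.length_reverse] at hk' ⊢
      omega

end Pool.Agent.Lib.MP_2c6a5a_lc.Mx
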