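import Pool.Agent.Lib.MP_2c6a5a_lc.MxKind

/-! One stage of the construction. -/

namespace Pool.Agent.Lib.MP_2c6a5a_lc.Mx

open Finset Pool.Agent.Lib.MP_8a52c3_lc.Orc Pool.Agent.Lib.MP_2c6a5a_lc.Pf

def SlotOK (T : ℕ) (e : Cand) (B : Str → Bool) (T' n' : ℕ) : Prop :=
  ∃ (b : Bool) (v : Str), v.length = n' ∧ (b = true → T' = T ∧ e.1 < 3) ∧
    ∀ u : Str, u.length = n' + 1 → (B (xadr T' n' u) = true ↔ u = b :: v)

/-- What one stage guarantees. -/
def StageOK3 (Vd : ℕ → Ver) (T : ℕ) (e : Cand) (ρ : Clk) (q L L' : ℕ) (B : Str → Bool) : Prop :=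
  (∀ x : Str, L ≤ 3 * x.length + 2 → 3 * x.length + 2 < L' →
    ∃ y : Str, y.length = x.length ∧ B (kadr x y) = true) ∧
  (∀ x y, IsK Vd x → idx x < q → ¬ DeadC (Vd (idx x)) B L' → L ≤ (kadr x y).length →
    (kadr x y).length < L' → B (kadr x y) = true →
    ∃ z, skipU y = some z ∧ Sol B (Vd (idx x)) (cy x) z) ∧
  (∀ T' n' u, L ≤ (xadr T' n' u).length → (xadr T' n' u).length < L' →
    B (xadr T' n' u) = true → u.length = n' + 1) ∧
  (∀ T' n', L ≤ T' + 2 * n' + 4 → T' + 2 * n' + 4 < L' → SlotOK T e B T' n' ∨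
    (T' = T ∧ ∀ A : Str → Bool, (∀ α : Str, α.length < L' → A α = B α) → Bad e A)) ∧
  ((∀ j < q, DeadC (Vd j) B L' → DeadC (Vd j) B L) →
    ∀ A : Str → Bool, (∀ α : Str, α.length < L' → A α = B α) → Bad e A ∨ Fail T e ρ A)

theorem StageOK3.congr {Vd : ℕ → Ver} {T : ℕ} {e : Cand} {ρ : Clk} {q L L' : ℕ}
    {B A : Str → Bool} (h : StageOK3 Vd T e ρ q L L' B) (hL : L ≤ L')
    (hA : ∀ α : Str, α.length < L' → A α = B α) : StageOK3 Vd T e ρ q L L' A := by
  have hA' : ∀ α : Str, α.length < L → A α = B α := fun α h => hA α (by omega)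
  have p3 : ∀ V, DeadC V A L' ↔ DeadC V B L' := fun V =>
    ⟨fun h => h.mono le_rfl fun α hα => (hA α hα).symm, fun h => h.mono le_rfl hA⟩
  have p4 : ∀ V, DeadC V A L ↔ DeadC V B L := fun V =>
    ⟨fun h => h.mono le_rfl fun α hα => (hA' α hα).symm, fun h => h.mono le_rfl hA'⟩
  obtain ⟨h1, h2, h3, h4, h5⟩ := h
  unfold StageOK3
  simp only [p3, p4]
  refine ⟨fun x a b => ?_, fun x y a b c d f g => ?_, fun T' n' u a b c => ?_,
    fun T' n' a b => ?_, fun a A' hA'' => h5 a A' fun α hα => (hA'' α hα).trans (hA α hα)⟩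
  · obtain ⟨y, y1, y2⟩ := h1 x a b
    exact ⟨y, y1, by rw [hA _ (by rw [kadr_length]; omega), y2]⟩
  · rw [hA _ f] at g
    obtain ⟨z, z1, z2⟩ := h2 x y a b c d f g
    rw [kadr_length] at f
    exact ⟨z, z1, (sol_congr fun α hα => hA α (by have := a.lt; omega)).2 z2⟩
  · rw [hA _ b] at c
    exact h3 T' n' u a b c
  · rcases h4 T' n' a b with ⟨b', v, v1, v2, v3⟩ | ⟨h, h'⟩
    · refine Or.inl ⟨b', v, v1, v2, fun u hu => ?_⟩
      rw [hA _ (by rw [xadr_length]; omega)]
      exact v3 u hu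
    · exact Or.inr ⟨h, fun A' hA'' => h' A' fun α hα => (hA'' α hα).trans (hA α hα)⟩

theorem stage_at3 (Vd : ℕ → Ver) (T : ℕ) (e : Cand) (ρ : Clk) (q L : ℕ) (σ : Str → Bool)
    (n τ : ℕ) (hn : L ≤ n) (hτ : τ = tau3 T e ρ n) (hbig : (8 * τ ^ 2 + 1) ^ 3 ≤ 2 ^ n) :
    ∃ σ' : Str → Bool, (∀ α : Str, α.length < L → σ' α = σ α) ∧
      StageOK3 Vd T e ρ q L τ σ' := by
  classical
  obtain ⟨W, hW⟩ := exists_world3 Vd σ L q T n
  have hτn : 2 * T + 2 * n + 10 ≤ τ := by rw [hτ]; unfold tau3; omega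
  have hLτ : L ≤ τ := by omega
  have dead : ∀ X ε x, IsK Vd x → x.length < τ → Need Vd (W X ε) x →
      DeadC (Vd (idx x)) (W X ε) τ := fun X ε x a b c => ⟨cy x, by have := a.lt; omega, c⟩
  have main : ∀ X ε, Tot ε → (∀ u ∈ X, u.length = n + 1) →
      (SlotOK T e (W X ε) T n ∨
        ∀ A : Str → Bool, (∀ α : Str, α.length < τ → A α = W X ε α) → Bad e A) →
      ((∀ j < q, DeadC (Vd j) (W X ε) τ → DeadC (Vd j) (W X ε) L) →
        ∀ A : Str → Bool, (∀ α : Str, α.length < τ → A α = W X ε α) → Bad e A ∨ Fail T e ρ A) →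
      ∃ σ' : Str → Bool, (∀ α : Str, α.length < L → σ' α = σ α) ∧
        StageOK3 Vd T e ρ q L τ σ' := by
    intro X ε hε hX h4 h5
    refine ⟨W X ε, hW.1 X ε, fun x a b => ?_, fun x y a b c d f g => ?_, fun T' n' u a b c => ?_,
      fun T' n' a b => ?_, h5⟩
    · have : ∃ y : Str, y.length = x.length ∧ KBit Vd σ L q (W X ε) ε x y := by
        by_cases hl : Live Vd σ L q x
        · by_cases hne : Need Vd (W X ε) x
          · obtain ⟨y, y1, y2⟩ := hε x
            exact ⟨y, y1, Or.inr (Or.inr ⟨hl, y2, hne⟩)⟩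
          · obtain ⟨z, hz⟩ := not_not.1 hne
            have z1 : z.length ≤ tm (Vd (idx x)) (cy x).length := by
              have := hz.1
              unfold tm; omega
            have z2 := hl.1.lt
            have z3 : (List.replicate (x.length - z.length - 1) true ++ false :: z).length =
                x.length := by simp; omega
            exact ⟨_, z3, Or.inl ⟨z3, hl.1, z, skipU_rep _ _, hz⟩⟩
        · exact ⟨_, by simp, Or.inr (Or.inl ⟨hl, rfl⟩)⟩
      obtain ⟨y, y1, y2⟩ := this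
      exact ⟨y, y1, (hW.kad X ε x y (by rw [kadr_length]; omega)).2 y2⟩
    · have hl : Live Vd σ L q x := ⟨a, b, fun h => c (h.mono hLτ (hW.1 X ε))⟩
      rcases (hW.kad X ε x y d).1 g with h | h | h
      · exact h.2.2
      · exact absurd hl h.1
      · exact absurd (dead X ε x a (by rw [kadr_length] at f; omega) h.2.2) c
    · by_cases h : T' = T ∧ n' = n
      · obtain ⟨rfl, rfl⟩ := h
        exact hX u ((hW.slot X ε u hn).1 c)
      · rw [(hW.dfl X ε h u a).1 c]; simp [dflt]
    · by_cases h : T' = T ∧ n' = n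
      · obtain ⟨rfl, rfl⟩ := h
        exact h4.imp id fun h => ⟨rfl, h⟩
      · exact Or.inl ⟨false, List.replicate n' false, by simp, by simp,
          fun u hu => hW.dfl X ε h u (by rw [xadr_length]; omega)⟩
  let ε0 : Esc := fun x => some (List.replicate x.length true)
  have tot0 : Tot ε0 := fun x => ⟨_, by simp, rfl⟩
  have single : ∀ (b : Bool) (v : Str) ε, v.length = n → (3 ≤ e.1 → b = false) →
      SlotOK T e (W {b :: v} ε) T n := by
    intro b v ε h1 h2
    refine ⟨b, v, h1, fun h => ⟨rfl, ?_⟩, fun u _ => by rw [hW.slot _ _ _ hn, mem_singleton]⟩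
    by_contra hh
    rw [h2 (by omega)] at h
    exact absurd h (by simp)
  by_cases hA : ∃ (b : Bool) (v : Str), v.length = n ∧ (3 ≤ e.1 → b = false) ∧
      ∃ j < q, DeadC (Vd j) (W {b :: v} ε0) τ ∧ ¬ DeadC (Vd j) σ L
  · obtain ⟨b, v, h1, h2, j, hj, h3, h4⟩ := hA
    refine main {b :: v} ε0 tot0 (by simp [h1]) (Or.inl (single b v ε0 h1 h2)) fun h => ?_
    exact absurd ((h j hj h3).mono le_rfl fun α hα => (hW.1 _ _ α hα).symm) h4
  · have noneed : ∀ (b : Bool) (v : Str), v.length = n → (3 ≤ e.1 → b = false) →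
        ∀ x, Live Vd σ L q x → x.length < τ → ¬ Need Vd (W {b :: v} ε0) x :=
      fun b v h1 h2 x hl hx hne => hA ⟨b, v, h1, h2, idx x, hl.2.1, dead _ _ x hl.1 hx hne, hl.2.2⟩
    have nn0 := noneed false (List.replicate n false) (by simp) fun _ => rfl
    let c : Ctx :=
      { T := T
        n := n
        τ := τ
        W := W
        Qt := Quiet Vd σ L q W
        qnone := fun X C x y _ _ h => by simpa using h.2.1
        qmono := fun X ε C C' h1 h2 x y h3 => h2 x y (h1 h3)
        qex := fun C hC => by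
          let ε : Esc := fun x => if h : ∃ y : Str, y.length = x.length ∧ kadr x y ∉ C
            then some h.choose else some (List.replicate x.length true)
          have tot : Tot ε := by
            intro x
            by_cases h : ∃ y : Str, y.length = x.length ∧ kadr x y ∉ C
            · exact ⟨h.choose, h.choose_spec.1, dif_pos h⟩
            · exact ⟨_, by simp, dif_neg h⟩
          refine ⟨ε, tot, fun X x y h1 _ ⟨h3, h4, h5⟩ => ?_⟩
          by_cases h : ∃ y : Str, y.length = x.length ∧ kadr x y ∉ C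
          · have : ε x = some h.choose := dif_pos h
            rw [this] at h4
            exact h.choose_spec.2 (Option.some.inj h4 ▸ h1)
          · have h6 : 2 ^ x.length ≤ C.card := by
              by_contra hlt
              exact h (exists_str_avoid (kadr x) (fun _ _ e => (kadr_inj e).2) _ C (by omega))
            have h7 : (2 ^ x.length) ^ 3 ≤ 2 ^ n :=
              (Nat.pow_le_pow_left (by omega) 3).trans hbig
            rw [← pow_mul] at h7
            have h8 := (Nat.pow_le_pow_iff_right (by omega)).1 h7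
            refine nn0 x h3 (by omega) ((need_congr h3.1 fun α hα => ?_).1 h5)
            exact hW.agree (n + 3) (fun u hu => by rw [xadr_length] at hu; omega) tot0.len
              tot.len (fun x' a _ b => nn0 x' a (by omega)) α (by omega)
        loc := fun X β => hW.local X β
        slot := fun X ε u => hW.slot X ε u hn
        big := lt_of_lt_of_le (Nat.lt_succ_self _)
          ((Nat.le_self_pow (by omega) _).trans hbig) }
    rcases c.out (e := e) (ρ := ρ) hτ.ge with ⟨b, v, h1, h2, h3⟩ | ⟨X, ε, h1, h2, h3⟩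
    · refine main {b :: v} ε0 tot0 (by simpa using h1) (Or.inl (single b v ε0 h1 h2))
        fun _ A hA' => Or.inr (h3 A fun β hβ => (hA' β hβ).trans ?_)
      exact (hW.agree τ (fun _ _ => Iff.rfl) tot0.len (fun _ _ h => by simp at h)
        (fun x a _ b' => noneed b v h1 h2 x a (by omega)) β hβ).symm
    · exact main X ε h1 h2 (Or.inr h3) fun _ A hA' => Or.inl (h3 A hA')

theorem stage3 (Vd : ℕ → Ver) (T : ℕ) (e : Cand) (ρ : Clk) (q L : ℕ) (σ : Str → Bool) :
    ∃ (σ' : Str → Bool) (L' : ℕ), L < L' ∧ (∀ α : Str, α.length < L → σ' α = σ α) ∧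
      StageOK3 Vd T e ρ q L L' σ' := by
  have q0 : QB fun n => n + 1 := QB.id.add (QB.const 1)
  have q1 : QB fun n => cost ρ (n + 1) := q0.add ((q0.pow _).add (QB.const _))
  have qτ : QB fun n => tau3 T e ρ n :=
    ((QB.const 2).mul ((q1.add (q1.tm _)).add (q1.tm _))).add
      (((QB.const (2 * T)).add ((QB.const 2).mul QB.id)).add (QB.const 10))
  obtain ⟨n, hn, hbig⟩ := exists_big (f := fun n => (8 * tau3 T e ρ n ^ 2 + 1) ^ 3)
    (Φ := fun _ => 1) (τ := fun _ => 1)
    ((((QB.const 8).mul (qτ.pow 2)).add (QB.const 1)).pow 3) (QB.const 1) (QB.const 1) L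
  obtain ⟨σ', h1, h2⟩ := stage_at3 Vd T e ρ q L σ n _ hn rfl (by simpa using hbig)
  refine ⟨σ', _, ?_, h1, h2⟩
  unfold tau3
  omega

theorem exists_oracle3 (Vd : ℕ → Ver) (Cd : ℕ → Cand) (Rd : ℕ → Clk) :
    ∃ (A : Str → Bool) (L : ℕ → ℕ), L 0 = 0 ∧ StrictMono L ∧
      ∀ i, StageOK3 Vd (eOf i) (Cd (eOf i)) (Rd (kOf i)) (Nat.sqrt i) (L i) (L (i + 1)) A := by
  choose nσ nL h1 h2 h3 using fun (i L : ℕ) (σ : Str → Bool) =>
    stage3 Vd (eOf i) (Cd (eOf i)) (Rd (kOf i)) (Nat.sqrt i) L σ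
  let st : ℕ → (Str → Bool) × ℕ := fun i =>
    Nat.rec (fun _ => false, 0) (fun i s => (nσ i s.2 s.1, nL i s.2 s.1)) i
  have hmono : StrictMono fun i => (st i).2 :=
    strictMono_nat_of_lt_succ fun i => h1 i (st i).2 (st i).1
  have hagree : ∀ i j, i ≤ j → ∀ α : Str, α.length < (st i).2 → (st j).1 α = (st i).1 α := by
    intro i j hij
    induction j, hij using Nat.le_induction with
    | base => intro _ _; rfl
    | succ j hij ih =>
      intro α hα
      rw [← ih α hα]
      exact h2 j (st j).2 (st j).1 α (lt_of_lt_of_le hα (hmono.monotone hij))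
  refine ⟨fun α => (st (α.length + 1)).1 α, fun i => (st i).2, rfl, hmono, fun i => ?_⟩
  refine (h3 i (st i).2 (st i).1).congr (h1 i (st i).2 (st i).1).le fun α hα => ?_
  have hl : α.length < (st (α.length + 1)).2 := hmono.id_le (α.length + 1)
  rcases le_total (i + 1) (α.length + 1) with h | h
  · exact hagree _ _ h α hα
  · exact (hagree _ _ h α hl).symm

end Pool.Agent.Lib.MP_2c6a5a_lc.Mx
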