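import Pool.Agent.Lib.MP_2c6a5a_lc.MxProg

/-! Worlds with a hidden slot and hidden escapes. -/

namespace Pool.Agent.Lib.MP_2c6a5a_lc.Mx

open Finset Pool.Agent.Lib.MP_8a52c3_lc.Orc Pool.Agent.Lib.MP_2c6a5a_lc.Pf

abbrev Str := List Bool
abbrev Esc := List Bool → Option (List Bool)

noncomputable def idx (x : Str) : ℕ := (dec2 x).2.1

def IsK (Vd : ℕ → Ver) (x : Str) : Prop := (tm (Vd (idx x)) (cy x).length + 1) ^ 2 ≤ x.length

theorem IsK.lt {Vd : ℕ → Ver} {x : Str} (h : IsK Vd x) :
    tm (Vd (idx x)) (cy x).length < x.length := by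
  unfold IsK at h
  nlinarith

def SolK (Vd : ℕ → Ver) (B : Str → Bool) (x y : Str) : Prop :=
  y.length = x.length ∧ IsK Vd x ∧ ∃ z, skipU y = some z ∧ Sol B (Vd (idx x)) (cy x) z

def Need (Vd : ℕ → Ver) (B : Str → Bool) (x : Str) : Prop := ¬ Acc B (Vd (idx x)) (cy x)

def Live (Vd : ℕ → Ver) (σ : Str → Bool) (L q : ℕ) (x : Str) : Prop :=
  IsK Vd x ∧ idx x < q ∧ ¬ DeadC (Vd (idx x)) σ L

def dflt (n : ℕ) : Str := false :: List.replicate n false

theorem sol_congr {B B' : Str → Bool} {V : Ver} {v z : Str}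
    (hB : ∀ α : Str, α.length ≤ tm V v.length → B' α = B α) : Sol B' V v z ↔ Sol B V v z := by
  constructor
  · intro h
    obtain ⟨S, _, h2, h3⟩ := sol_local h
    exact h3 B fun α hα => (hB α (h2 α hα)).symm
  · intro h
    obtain ⟨S, _, h2, h3⟩ := sol_local h
    exact h3 B' fun α hα => hB α (h2 α hα)

theorem solK_congr {Vd : ℕ → Ver} {B B' : Str → Bool} {x y : Str}
    (hB : ∀ α : Str, α.length < x.length → B' α = B α) : SolK Vd B' x y ↔ SolK Vd B x y := by
  unfold SolK
  refine and_congr_right fun _ => and_congr_right fun hK => exists_congr fun z =>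
    and_congr_right fun _ => sol_congr fun α hα => hB α (by have := hK.lt; omega)

theorem need_congr {Vd : ℕ → Ver} {B B' : Str → Bool} {x : Str} (hK : IsK Vd x)
    (hB : ∀ α : Str, α.length < x.length → B' α = B α) : Need Vd B' x ↔ Need Vd B x :=
  not_congr (acc_congr fun α hα => hB α (by have := hK.lt; omega))

/-- Both outcomes of a verifier run are decided by few short oracle positions. -/
theorem sol_decided (B : Str → Bool) (V : Ver) (v z : Str) :
    ∃ S : Finset Str, S.card ≤ tm V v.length ∧ (∀ α ∈ S, α.length ≤ tm V v.length) ∧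
      ∀ B' : Str → Bool, (∀ α ∈ S, B' α = B α) → (Sol B' V v z ↔ Sol B V v z) := by
  by_cases h4 : z.length ≤ v.length ^ V.2.2 + V.2.2
  · obtain ⟨S, h1, h2, h3⟩ := run_local B V.1 v z ((v.length + z.length) ^ V.2.1 + V.2.1)
    have h5 := Nat.pow_le_pow_left
      (show v.length + z.length ≤ v.length + (v.length ^ V.2.2 + V.2.2) by omega) V.2.1
    refine ⟨S, h1.trans (by unfold tm; omega), fun α hα => (h2 α hα).trans (by unfold tm; omega),
      fun B' hB' => ?_⟩
    unfold Sol
    rw [h3 B' hB']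
  · exact ⟨∅, by simp, by simp, fun B' _ => ⟨fun h => absurd h.1 h4, fun h => absurd h.1 h4⟩⟩

section
variable (Vd : ℕ → Ver) (σ : Str → Bool) (L q T n : ℕ)

def KBit (B : Str → Bool) (ε : Esc) (x y : Str) : Prop :=
  SolK Vd B x y ∨ (¬ Live Vd σ L q x ∧ y = List.replicate x.length true) ∨
    (Live Vd σ L q x ∧ ε x = some y ∧ Need Vd B x)

def Bit (B : Str → Bool) (X : Finset Str) (ε : Esc) (α : Str) : Prop :=
  (∃ x y, α = kadr x y ∧ KBit Vd σ L q B ε x y) ∨ (∃ u ∈ X, α = xadr T n u) ∨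
    ∃ T' n', ¬ (T' = T ∧ n' = n) ∧ α = xadr T' n' (dflt n')

theorem kbit_congr {B B' : Str → Bool} {ε : Esc} {x y : Str}
    (hB : ∀ α : Str, α.length < x.length → B' α = B α) :
    KBit Vd σ L q B' ε x y ↔ KBit Vd σ L q B ε x y := by
  unfold KBit
  rw [solK_congr hB]
  refine or_congr_right (or_congr_right (and_congr_right fun h => ?_))
  rw [need_congr h.1 hB]

/-- The defining equations of the family of worlds of a stage. -/
def World (W : Finset Str → Esc → Str → Bool) : Prop :=
  (∀ X ε α, α.length < L → W X ε α = σ α) ∧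
    ∀ X ε α, L ≤ α.length → (W X ε α = true ↔ Bit Vd σ L q T n (W X ε) X ε α)

theorem exists_world3 : ∃ W, World Vd σ L q T n W := by
  classical
  obtain ⟨A, hA⟩ := exists_fix (X := Finset Str × Esc) (fun B α z =>
    if α.length < L then σ α else decide (Bit Vd σ L q T n (B z) z.1 z.2 α)) (by
      intro α B B' h
      funext z
      split_ifs
      · rfl
      · rw [decide_eq_decide]
        refine or_congr_left (exists_congr fun x => exists_congr fun y =>
          and_congr_right fun e => kbit_congr Vd σ L q fun β hβ => h z β ?_)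
        rw [e, kadr_length]; omega)
  refine ⟨fun X ε => A (X, ε), fun X ε α h => ?_, fun X ε α h => ?_⟩
  · show A (X, ε) α = _
    rw [hA, if_pos h]
  · show A (X, ε) α = true ↔ _
    rw [hA, if_neg (by omega), decide_eq_true_iff]

variable {Vd σ L q T n} {W : Finset Str → Esc → Str → Bool} (hW : World Vd σ L q T n W)
include hW

theorem World.kad (X : Finset Str) (ε : Esc) (x y : Str) (h : L ≤ (kadr x y).length) :
    W X ε (kadr x y) = true ↔ KBit Vd σ L q (W X ε) ε x y := by
  rw [hW.2 X ε _ h]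
  constructor
  · rintro (⟨x', y', e, h⟩ | ⟨u, _, e⟩ | ⟨T', n', _, e⟩)
    · obtain ⟨rfl, rfl⟩ := kadr_inj e
      exact h
    · exact absurd e (kadr_ne_xadr _ _ _ _ _)
    · exact absurd e (kadr_ne_xadr _ _ _ _ _)
  · exact fun h => Or.inl ⟨x, y, rfl, h⟩

theorem World.slot (X : Finset Str) (ε : Esc) (u : Str) (h : L ≤ n) :
    W X ε (xadr T n u) = true ↔ u ∈ X := by
  rw [hW.2 X ε _ (by rw [xadr_length]; omega)]
  constructor
  · rintro (⟨x', y', e, _⟩ | ⟨u', h, e⟩ | ⟨T', n', h, e⟩)
    · exact absurd e.symm (kadr_ne_xadr _ _ _ _ _)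
    · rw [(xadr_inj e).2.2]; exact h
    · exact absurd ⟨(xadr_inj e).1.symm, (xadr_inj e).2.1.symm⟩ h
  · exact fun h => Or.inr (Or.inl ⟨u, h, rfl⟩)

theorem World.dfl (X : Finset Str) (ε : Esc) {T' n' : ℕ} (hne : ¬ (T' = T ∧ n' = n)) (u : Str)
    (h : L ≤ (xadr T' n' u).length) : W X ε (xadr T' n' u) = true ↔ u = dflt n' := by
  rw [hW.2 X ε _ h]
  constructor
  · rintro (⟨x', y', e, _⟩ | ⟨u', _, e⟩ | ⟨T'', n'', _, e⟩)
    · exact absurd e.symm (kadr_ne_xadr _ _ _ _ _)
    · exact absurd ⟨(xadr_inj e).1, (xadr_inj e).2.1⟩ hne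
    · obtain ⟨_, rfl, e⟩ := xadr_inj e
      exact e
  · exact fun h => Or.inr (Or.inr ⟨T', n', hne, by rw [h]⟩)

theorem World.eq_of {X X' : Finset Str} {ε ε' : Esc} {β : Str}
    (h1 : ∀ x y, β = kadr x y → L ≤ β.length →
      (KBit Vd σ L q (W X' ε') ε' x y ↔ KBit Vd σ L q (W X ε) ε x y))
    (h2 : ∀ u, β = xadr T n u → (u ∈ X' ↔ u ∈ X)) : W X' ε' β = W X ε β := by
  rcases lt_or_ge β.length L with h | h
  · rw [hW.1 _ _ _ h, hW.1 _ _ _ h]
  · rw [Bool.eq_iff_iff, hW.2 _ _ _ h, hW.2 _ _ _ h]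
    refine or_congr (exists_congr fun x => exists_congr fun y =>
      and_congr_right fun e => h1 x y e h) (or_congr_left ?_)
    constructor
    · rintro ⟨u, hu, e⟩; exact ⟨u, (h2 u e).1 hu, e⟩
    · rintro ⟨u, hu, e⟩; exact ⟨u, (h2 u e).2 hu, e⟩

end

def Len (ε : Esc) : Prop := ∀ x y, ε x = some y → y.length = x.length

def Tot (ε : Esc) : Prop := ∀ x, ∃ y, y.length = x.length ∧ ε x = some y

theorem Tot.len {ε : Esc} (h : Tot ε) : Len ε := by
  intro x y e
  obtain ⟨y', h1, h2⟩ := h x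
  rw [h2] at e
  rw [← Option.some.inj e, h1]

section
variable {Vd : ℕ → Ver} {σ : Str → Bool} {L q T n : ℕ} {W : Finset Str → Esc → Str → Bool}

/-- No escape is active on the positions in `C`. -/
def Quiet (Vd : ℕ → Ver) (σ : Str → Bool) (L q : ℕ) (W : Finset Str → Esc → Str → Bool)
    (X : Finset Str) (ε : Esc) (C : Finset Str) : Prop :=
  ∀ x y, kadr x y ∈ C → L ≤ (kadr x y).length →
    ¬ (Live Vd σ L q x ∧ ε x = some y ∧ Need Vd (W X ε) x)

theorem World.local (hW : World Vd σ L q T n W) (X : Finset Str) (β : Str) :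
    ∃ C : Finset Str, C.card ≤ β.length + 1 ∧ ∀ X' ε',
      (∀ u, xadr T n u ∈ C → (u ∈ X' ↔ u ∈ X)) → Quiet Vd σ L q W X' ε' C →
        W X' ε' β = W X (fun _ => none) β := by
  classical
  induction hl : β.length using Nat.strong_induction_on generalizing β with
  | _ l ih =>
  subst hl
  have base : ∀ (C : Finset Str) X' ε', β ∈ C → (∀ u, xadr T n u ∈ C → (u ∈ X' ↔ u ∈ X)) →
      Quiet Vd σ L q W X' ε' C →
      (∀ x y, β = kadr x y → (SolK Vd (W X' ε') x y ↔ SolK Vd (W X fun _ => none) x y)) →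
      W X' ε' β = W X (fun _ => none) β := by
    intro C X' ε' hβ h1 h2 h3
    refine hW.eq_of (fun x y e hL => ?_) fun u e => h1 u (e ▸ hβ)
    have := h2 x y (e ▸ hβ) (e ▸ hL)
    unfold KBit
    rw [h3 x y e]
    simp [this]
  by_cases hk : ∃ x y z, β = kadr x y ∧ IsK Vd x ∧ skipU y = some z
  · obtain ⟨x, y, z, e, hK, hz⟩ := hk
    obtain ⟨S, s1, s2, s3⟩ := sol_decided (W X fun _ => none) (Vd (idx x)) (cy x) z
    have hx : x.length < β.length := by rw [e, kadr_length]; omega
    have hlt := hK.lt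
    have ih' : ∀ γ : Str, ∃ C : Finset Str, γ ∈ S → (C.card ≤ γ.length + 1 ∧ ∀ X' ε',
        (∀ u, xadr T n u ∈ C → (u ∈ X' ↔ u ∈ X)) → Quiet Vd σ L q W X' ε' C →
          W X' ε' γ = W X (fun _ => none) γ) := by
      intro γ
      by_cases hγ : γ ∈ S
      · obtain ⟨C, hC⟩ := ih γ.length (by have := s2 γ hγ; omega) γ rfl
        exact ⟨C, fun _ => hC⟩
      · exact ⟨∅, fun h => absurd h hγ⟩
    choose C hC using ih'
    refine ⟨insert β (S.biUnion C), ?_, fun X' ε' h1 h2 => ?_⟩
    · have a1 := card_insert_le β (S.biUnion C)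
      have a2 := card_biUnion_le_card_mul S C (tm (Vd (idx x)) (cy x).length + 1)
        fun γ hγ => (hC γ hγ).1.trans (by have := s2 γ hγ; omega)
      have a3 := Nat.mul_le_mul_right (tm (Vd (idx x)) (cy x).length + 1) s1
      unfold IsK at hK
      nlinarith
    · refine base _ X' ε' (mem_insert_self _ _) h1 h2 fun x' y' e' => ?_
      obtain ⟨rfl, rfl⟩ := kadr_inj (e.symm.trans e')
      have key := s3 (W X' ε') fun γ hγ => (hC γ hγ).2 X' ε'
        (fun u hu => h1 u (mem_insert_of_mem (mem_biUnion.2 ⟨γ, hγ, hu⟩)))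
        (fun a b hab => h2 a b (mem_insert_of_mem (mem_biUnion.2 ⟨γ, hγ, hab⟩)))
      unfold SolK
      simp only [hz, Option.some.injEq, exists_eq_left', key]
  · refine ⟨{β}, by simp, fun X' ε' h1 h2 => base _ X' ε' (mem_singleton_self _) h1 h2 ?_⟩
    intro x y e
    constructor
    · rintro ⟨_, a, z, b, _⟩; exact absurd ⟨x, y, z, e, a, b⟩ hk
    · rintro ⟨_, a, z, b, _⟩; exact absurd ⟨x, y, z, e, a, b⟩ hk

theorem World.agree (hW : World Vd σ L q T n W) {X X' : Finset Str} {ε ε' : Esc} (m : ℕ)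
    (h1 : ∀ u, (xadr T n u).length < m → (u ∈ X' ↔ u ∈ X)) (l1 : Len ε) (l2 : Len ε')
    (h2 : ∀ x, Live Vd σ L q x → L ≤ 3 * x.length + 2 → 3 * x.length + 2 < m →
      ¬ Need Vd (W X ε) x) (β : Str) : β.length < m → W X' ε' β = W X ε β := by
  induction hl : β.length using Nat.strong_induction_on generalizing β with
  | _ l ih =>
  subst hl
  intro hm
  refine hW.eq_of (fun x y e hL => ?_) fun u e => h1 u (e ▸ hm)
  have hlen : β.length = 2 * x.length + 2 + y.length := by rw [e, kadr_length]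
  have hB : ∀ α : Str, α.length < x.length → W X' ε' α = W X ε α := fun α hα =>
    ih α.length (by omega) α rfl (by omega)
  unfold KBit
  rw [solK_congr hB]
  refine or_congr_right (or_congr_right ⟨?_, ?_⟩)
  · rintro ⟨a, b, c⟩
    have := l2 x y b
    exact absurd ((need_congr a.1 hB).1 c) (h2 x a (by omega) (by omega))
  · rintro ⟨a, b, c⟩
    have := l1 x y b
    exact absurd c (h2 x a (by omega) (by omega))

end

theorem exists_str_avoid (f : Str → Str) (hf : Function.Injective f) (m : ℕ) (C : Finset Str)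
    (h : C.card < 2 ^ m) : ∃ y : Str, y.length = m ∧ f y ∉ C := by
  classical
  by_contra hn
  push Not at hn
  have := card_le_card_of_injOn (s := (univ : Finset (List.Vector Bool m))) (t := C)
    (fun v => f v.1) (fun v _ => hn v.1 v.2) (fun a _ b _ e => Subtype.ext (hf e))
  simp at this
  omega

theorem exists_pair (f g : Str → Str) (hf : Function.Injective f) (hg : Function.Injective g)
    (m d : ℕ) (F G : Str → Finset Str) (hF : ∀ v, (F v).card ≤ d) (hG : ∀ v, (G v).card ≤ d)
    (h : 2 * d < 2 ^ m) : ∃ v v' : Str, v.length = m ∧ v'.length = m ∧ g v' ∉ F v ∧ f v ∉ G v' := by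
  classical
  by_contra hn
  push Not at hn
  have c1 : ∀ (k : Str → Str) (_ : Function.Injective k) (C : Finset Str), C.card ≤ d →
      (univ.filter fun v : List.Vector Bool m => k v.1 ∈ C).card ≤ d := by
    intro k hk C hC
    exact (card_le_card_of_injOn (fun v : List.Vector Bool m => k v.1)
      (fun v hv => (mem_filter.1 hv).2)
      (fun a _ b _ e => Subtype.ext (hk e))).trans hC
  have hsub : (univ : Finset (List.Vector Bool m × List.Vector Bool m)) ⊆
      (univ.biUnion fun v : List.Vector Bool m =>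
        (univ.filter fun v' : List.Vector Bool m => g v'.1 ∈ F v.1).image fun v' => (v, v')) ∪
      (univ.biUnion fun v' : List.Vector Bool m =>
        (univ.filter fun v : List.Vector Bool m => f v.1 ∈ G v'.1).image fun v => (v, v')) := by
    rintro ⟨v, v'⟩ _
    by_cases h1 : g v'.1 ∈ F v.1
    · exact mem_union_left _ (mem_biUnion.2 ⟨v, mem_univ _,
        mem_image.2 ⟨v', mem_filter.2 ⟨mem_univ _, h1⟩, rfl⟩⟩)
    · exact mem_union_right _ (mem_biUnion.2 ⟨v', mem_univ _,
        mem_image.2 ⟨v, mem_filter.2 ⟨mem_univ _, hn v.1 v'.1 v.2 v'.2 h1⟩, rfl⟩⟩)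
  have a1 := (card_le_card hsub).trans (card_union_le _ _)
  have a2 := card_biUnion_le_card_mul (univ : Finset (List.Vector Bool m))
    (fun v => (univ.filter fun v' : List.Vector Bool m => g v'.1 ∈ F v.1).image fun v' => (v, v'))
    d fun v _ => card_image_le.trans (c1 g hg _ (hF _))
  have a3 := card_biUnion_le_card_mul (univ : Finset (List.Vector Bool m))
    (fun v' => (univ.filter fun v : List.Vector Bool m => f v.1 ∈ G v'.1).image fun v => (v, v'))
    d fun v _ => card_image_le.trans (c1 f hf _ (hG _))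
  simp only [card_univ, Fintype.card_prod, card_vector, Fintype.card_bool] at a1 a2 a3
  have : 0 < 2 ^ m := Nat.two_pow_pos m
  nlinarith

end Pool.Agent.Lib.MP_2c6a5a_lc.Mx
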