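import Pool.Agent.Lib.MP_2c6a5a_lc.PfProg

/-! Relocated programs and the machine that builds a padded address around an output. -/

namespace Pool.Agent.Lib.MP_2c6a5a_lc.Pf

open Pool.Agent.Lib.MP_8a52c3_lc.Orc

def phi (K i : ℕ) : ℕ := if i = 0 then 0 else i + K

theorem phi_inj (K : ℕ) {i j : ℕ} (h : phi K i = phi K j) : i = j := by
  unfold phi at h
  split_ifs at h <;> omega

theorem phi_ne {K i m : ℕ} (h1 : 1 ≤ m) (h2 : m ≤ K) : m ≠ phi K i := by
  unfold phi
  split_ifs <;> omega

def relI (K l₀ n e : ℕ) : Instr → Instr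
  | Instr.push i b l => Instr.push (phi K i) b (l₀ + min l n)
  | Instr.pop i a b c => Instr.pop (phi K i) (l₀ + min a n) (l₀ + min b n) (l₀ + min c n)
  | Instr.query i a b => Instr.query (phi K i) (l₀ + min a n) (l₀ + min b n)
  | Instr.halt => Instr.pop 1 e e e

def reloc (K l₀ e : ℕ) (M : List Instr) : List Instr :=
  M.map (relI K l₀ M.length e) ++ [Instr.pop 1 e e e]

theorem reloc_length (K l₀ e : ℕ) (M : List Instr) : (reloc K l₀ e M).length = M.length + 1 := by
  simp [reloc]

theorem reloc_get {N M : List Instr} {K l₀ e : ℕ} (h : Has N l₀ (reloc K l₀ e M)) (pc : ℕ) :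
    N.getD (l₀ + min pc M.length) Instr.halt = relI K l₀ M.length e (M.getD pc Instr.halt) := by
  by_cases hp : pc < M.length
  · rw [min_eq_left hp.le, h.left pc (by simpa using hp)]
    simp [List.getD_eq_getElem?_getD, List.getElem?_eq_getElem hp]
  · have h2 := h.right.head
    rw [List.length_map] at h2
    rw [min_eq_right (by omega), h2, List.getD_eq_default _ _ (by omega)]
    rfl

def Sim (K l₀ n : ℕ) (base : ℕ → List Bool) (c c' : Cfg) : Prop :=
  c'.1 = l₀ + min c.1 n ∧ (∀ i, c'.2 (phi K i) = c.2 i) ∧ ∀ m, 1 ≤ m → m ≤ K → c'.2 m = base m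

theorem Sim.upd {K l₀ n : ℕ} {base : ℕ → List Bool} {c c' : Cfg} (h : Sim K l₀ n base c c')
    (l i : ℕ) (s : List Bool) :
    Sim K l₀ n base (l, Function.update c.2 i s)
      (l₀ + min l n, Function.update c'.2 (phi K i) s) := by
  refine ⟨rfl, fun m => ?_, fun m h1 h2 => ?_⟩
  · by_cases hm : m = i
    · subst hm; simp
    · have : phi K m ≠ phi K i := fun h => hm (phi_inj K h)
      simp [Function.update_of_ne hm, Function.update_of_ne this, h.2.1]
  · simp [Function.update_of_ne (phi_ne h1 h2), h.2.2 m h1 h2]

theorem sim_step (A : List Bool → Bool) {N M : List Instr} {K l₀ e : ℕ}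
    {base : ℕ → List Bool} (h : Has N l₀ (reloc K l₀ e M)) {c c' : Cfg}
    (hs : Sim K l₀ M.length base c c') (hh : M.getD c.1 Instr.halt ≠ Instr.halt) :
    Sim K l₀ M.length base (step A M c) (step A N c') := by
  have hg := reloc_get h c.1
  rw [← hs.1] at hg
  obtain ⟨l, st⟩ := c
  obtain ⟨l', st'⟩ := c'
  have hst : ∀ i, st' (phi K i) = st i := hs.2.1
  cases hi : M.getD l Instr.halt with
  | push i b m =>
    simp only [hi, relI] at hg
    rw [step_push hi, step_push hg, hst]
    exact hs.upd _ _ _
  | pop i a b d =>
    simp only [hi, relI] at hg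
    rcases hsi : st i with _ | ⟨_ | _, s⟩
    · rw [step_pop_nil hi st hsi, step_pop_nil hg st' (by rw [hst, hsi])]
      exact ⟨rfl, hs.2⟩
    · rw [step_pop_false hi st hsi, step_pop_false hg st' (by rw [hst, hsi])]
      exact hs.upd _ _ _
    · rw [step_pop_true hi st hsi, step_pop_true hg st' (by rw [hst, hsi])]
      exact hs.upd _ _ _
  | query i a b =>
    simp only [hi, relI] at hg
    rw [step_query hi, step_query hg, hst]
    refine ⟨?_, hs.2⟩
    split_ifs <;> rfl
  | halt => exact absurd hi hh

theorem reloc_reach (A : List Bool → Bool) {N M : List Instr} {K l₀ e : ℕ}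
    {base : ℕ → List Bool} (h : Has N l₀ (reloc K l₀ e M)) (hK : 1 ≤ K) (hb : base 1 = [])
    (t : ℕ) : ∀ c c' : Cfg, Sim K l₀ M.length base c c' →
      M.getD ((step A M)^[t] c).1 Instr.halt = Instr.halt →
      ∃ st' : ℕ → List Bool, Reach A N c' (e, st') (t + 1) ∧ st' 0 = ((step A M)^[t] c).2 0 ∧
        ∀ m, 1 ≤ m → m ≤ K → st' m = base m := by
  have fin : ∀ c c' : Cfg, Sim K l₀ M.length base c c' → M.getD c.1 Instr.halt = Instr.halt →
      Reach A N c' (e, c'.2) 1 := by
    intro c c' hs hh
    have hg := reloc_get h c.1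
    rw [← hs.1, hh] at hg
    exact Reach.one (step_pop_nil hg c'.2 (by rw [hs.2.2 1 le_rfl hK, hb]))
  induction t with
  | zero =>
    intro c c' hs hh
    exact ⟨c'.2, fin c c' hs hh, hs.2.1 0, hs.2.2⟩
  | succ t ih =>
    intro c c' hs hh
    by_cases h0 : M.getD c.1 Instr.halt = Instr.halt
    · rw [halted_fix h0]
      exact ⟨c'.2, (fin c c' hs h0).mono (by omega), hs.2.1 0, hs.2.2⟩
    · rw [Function.iterate_succ_apply] at hh ⊢
      obtain ⟨st', r1, r2, r3⟩ := ih _ _ (sim_step A h hs h0) hh
      exact ⟨st', ((Reach.one rfl).trans r1).mono (by omega), r2, r3⟩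

theorem muls_reach2 (A : List Bool → Bool) (M : List Instr) {m : ℕ} (hm : 1 ≤ m) (c : ℕ) :
    ∀ (x l a : ℕ) (st : ℕ → List Bool), 4 ≤ x → Has M l (muls c x l) →
      st x = List.replicate a true → (∀ i, x < i → st i = []) →
      st 2 = List.replicate m true → st 3 = [] →
      ∃ st' : ℕ → List Bool,
        Reach A M (l, st) (l + 8 * c, st') (c * (a * m ^ c * (5 * m + 3) + 1)) ∧
        st' (x + c) = List.replicate (a * m ^ c) true ∧ st' 0 = st 0 ∧ st' 1 = st 1 ∧
        ∀ i, x + c < i → st' i = [] := by
  induction c with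
  | zero =>
    intro x l a st _ _ hs hz _ _
    exact ⟨st, by simpa using Reach.refl A M (l, st), by simpa using hs, rfl, rfl, hz⟩
  | succ c ih =>
    intro x l a st hx h hs hz h2 h3
    have h1 := h.left
    have h1' := h.right
    have e8 : l + (mulB x (x + 1) l).length = l + 8 := by simp [mulB, mvc, mvu]
    rw [e8] at h1'
    have s1 := mulB_reach A M (m := m) hx (by omega) (by omega) h1 a st hs h2 h3
    obtain ⟨st', s2, r1, r2, r3, r4⟩ := ih (x + 1) (l + 8) (a * m)
      (Function.update (Function.update st x []) (x + 1)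
        (List.replicate (a * m) true ++ st (x + 1))) (by omega) h1'
      (by simp [hz (x + 1) (by omega)])
      (by
        intro i hi
        rw [Function.update_of_ne (by omega), Function.update_of_ne (by omega)]
        exact hz i (by omega))
      (by rw [Function.update_of_ne (by omega), Function.update_of_ne (by omega), h2])
      (by rw [Function.update_of_ne (by omega), Function.update_of_ne (by omega), h3])
    refine ⟨st', ?_, ?_, ?_, ?_, fun i hi => r4 i (by omega)⟩
    · have := s1.trans s2
      have e : l + 8 + 8 * c = l + 8 * (c + 1) := by omega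
      rw [e] at this
      refine this.mono ?_
      have e2 : a * m * m ^ c = a * m ^ (c + 1) := by ring
      rw [e2]
      have : a ≤ a * m ^ (c + 1) := Nat.le_mul_of_pos_right _ (Nat.pow_pos (by omega))
      have : a * (5 * m + 3) ≤ a * m ^ (c + 1) * (5 * m + 3) := Nat.mul_le_mul_right _ this
      nlinarith
    · have e : x + (c + 1) = x + 1 + c := by omega
      rw [e, r1]; congr 1; ring
    · rw [r2, Function.update_of_ne (by omega), Function.update_of_ne (by omega)]
    · rw [r3, Function.update_of_ne (by omega), Function.update_of_ne (by omega)]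

/-- First part: write the padding on stack `4 + c` and keep the input on stack 0. -/
def pre (s c : ℕ) : List Instr :=
  mvc 0 1 2 0 ++ (pushR 2 [true] 5 ++ (pushR 4 (List.replicate s true) 6 ++
    (muls c 4 (6 + s) ++ mvc 1 0 2 (6 + s + 8 * c))))

theorem pre_length (s c : ℕ) : (pre s c).length = 11 + s + 8 * c := by
  simp [pre, mvc, pushR_length, muls_length]; omega

theorem pre_reach (A : List Bool → Bool) (N : List Instr) (s c : ℕ) (H : Has N 0 (pre s c))
    (w : List Bool) :
    ∃ st : ℕ → List Bool,
      Reach A N (0, fun i => if i = 0 then w else if i = 1 then [] else []) (11 + s + 8 * c, st)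
        (6 * w.length + 3 + s + c * (s * (w.length + 1) ^ c * (5 * (w.length + 1) + 3) + 1)) ∧
      st 0 = w ∧ st 1 = [] ∧ st (4 + c) = List.replicate (s * (w.length + 1) ^ c) true ∧
      ∀ i, 4 + c < i → st i = [] := by
  have H1 := H.left
  have H2 := H.right.left
  have H3 := H.right.right.left
  have H4 := H.right.right.right.left
  have H5 := H.right.right.right.right
  have l1 : (mvc 0 1 2 0).length = 5 := rfl
  simp only [l1, pushR_length, muls_length, List.length_replicate, List.length_singleton,
    Nat.zero_add] at H2 H3 H4 H5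
  set st0 : ℕ → List Bool := fun i => if i = 0 then w else if i = 1 then [] else [] with hst0
  have s1 := mvc_reach A N (i := 0) (j := 1) (k := 2) (by omega) (by omega)
    (by omega) H1 w st0 (by simp [hst0])
  set st1 := Function.update (Function.update (Function.update st0 0 []) 1
          (w.reverse ++ st0 1)) 2 (List.replicate w.length true ++ st0 2) with hst1
  have s3 := pushR_reach A _ 2 [true] 5 st1 H2
  set st3 := Function.update st1 2 ([true].reverse ++ st1 2) with hst3
  have s4 := pushR_reach A _ 4 (List.replicate s true) 6 st3 H3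
  rw [List.length_replicate] at s4
  set st4 := Function.update st3 4 ((List.replicate s true).reverse ++ st3 4) with hst4
  obtain ⟨st5, s5, r1, r2, r3, r4⟩ := muls_reach2 A N (m := w.length + 1) (by omega) c 4
    (6 + s) s st4 le_rfl H4
    (by simp [hst4, hst3, hst1, hst0])
    (by
      intro i hi
      rw [hst4, Function.update_of_ne (by omega), hst3, Function.update_of_ne (by omega), hst1,
        Function.update_of_ne (by omega),
        Function.update_of_ne (by omega), Function.update_of_ne (by omega), hst0]
      simp; omega)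
    (by simp [hst4, hst3, hst1, hst0, List.replicate_succ])
    (by simp [hst4, hst3, hst1, hst0])
  have z0 : st4 0 = [] := by simp [hst4, hst3, hst1]
  have z1 : st4 1 = w.reverse := by simp [hst4, hst3, hst1, hst0]
  have s6 := mvc_reach A N (i := 1) (j := 0) (k := 2) (by omega) (by omega)
    (by omega) H5 w.reverse st5 (by rw [r3, z1])
  have e : 6 + s + 8 * c + 5 = 11 + s + 8 * c := by omega
  rw [e] at s6
  refine ⟨_, ((((s1.trans s3).trans s4).trans s5).trans s6).mono (by simp; omega), ?_, ?_, ?_, ?_⟩
  · simp [r2, z0]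
  · simp
  · rw [Function.update_of_ne (by omega), Function.update_of_ne (by omega),
      Function.update_of_ne (by omega), r1]
  · intro i hi
    rw [Function.update_of_ne (by omega), Function.update_of_ne (by omega),
      Function.update_of_ne (by omega), r4 i hi]

/-- Last part: put the header in front of the content of stack 0. -/
def post (a j c l : ℕ) : List Instr :=
  pushR 0 [false] l ++ (mvu (4 + c) 0 (l + 1) (l + 3) ++
    pushR 0 (false :: (List.replicate j true ++ false :: List.replicate a true)) (l + 3))

theorem post_length (a j c l : ℕ) : (post a j c l).length = a + j + 5 := by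
  simp [post, mvu, pushR_length]; omega

theorem post_reach (A : List Bool → Bool) (N : List Instr) (a j c l p : ℕ)
    (H : Has N l (post a j c l)) (st : ℕ → List Bool)
    (h : st (4 + c) = List.replicate p true) :
    ∃ st' : ℕ → List Bool, Reach A N (l, st) (l + (a + j + 5), st') (2 * p + a + j + 4) ∧
      st' 0 = fmt a j p (st 0) := by
  have H1 := H.left
  have H2 := H.right.left
  have H3 := H.right.right
  have l2 : ∀ a b d e, (mvu a b d e).length = 2 := fun _ _ _ _ => rfl
  simp only [l2, pushR_length, List.length_singleton] at H2 H3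
  have s1 := pushR_reach A _ 0 [false] l st H1
  have s2 := mvu_reach A N (i := 4 + c) (j := 0) (by omega) H2 (List.replicate p true)
    (Function.update st 0 ([false].reverse ++ st 0))
    (by rw [Function.update_of_ne (by omega), h])
  have s3 := pushR_reach A _ 0
    (false :: (List.replicate j true ++ false :: List.replicate a true)) (l + 3)
    (Function.update (Function.update (Function.update st 0 ([false].reverse ++ st 0)) (4 + c) [])
      0 (List.replicate (List.replicate p true).length true ++
        Function.update st 0 ([false].reverse ++ st 0) 0)) H3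
  have e : l + 3 + (false :: (List.replicate j true ++ false :: List.replicate a true)).length
      = l + (a + j + 5) := by simp; omega
  rw [e] at s3
  refine ⟨_, ((s1.trans s2).trans s3).mono (by simp; omega), ?_⟩
  simp [fmt, adr]

/-- The builder: padding, the relocated program, the header, then a tail. -/
def bld (a j s c : ℕ) (M tl : List Instr) : List Instr :=
  pre s c ++ (reloc (4 + c) (11 + s + 8 * c) (11 + s + 8 * c + (M.length + 1)) M ++
    (post a j c (11 + s + 8 * c + (M.length + 1)) ++ tl))

def bldEnd (a j s c : ℕ) (M : List Instr) : ℕ :=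
  11 + s + 8 * c + (M.length + 1) + (a + j + 5)

theorem bld_tail (a j s c : ℕ) (M tl : List Instr) :
    Has (bld a j s c M tl) (bldEnd a j s c M) tl := by
  have H := (has_self (bld a j s c M tl)).right.right.right
  rw [pre_length, reloc_length, post_length, Nat.zero_add] at H
  exact H

def bldTime (a j s c k n : ℕ) : ℕ :=
  (6 * n + 3 + s + c * (s * (n + 1) ^ c * (5 * (n + 1) + 3) + 1)) + (n ^ k + k + 1) +
    (2 * (s * (n + 1) ^ c) + a + j + 4)

theorem QB_pad (s c : ℕ) : QB fun n => s * (n + 1) ^ c :=
  (QB.const s).mul ((QB.id.add (QB.const 1)).pow c)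

theorem QB_bldTime (a j s c k : ℕ) : QB (bldTime a j s c k) := by
  have q1 := QB_pad s c
  exact ((((((QB.const 6).mul QB.id).add (QB.const 3)).add (QB.const s)).add
    ((QB.const c).mul ((q1.mul (((QB.const 5).mul (QB.id.add (QB.const 1))).add
      (QB.const 3))).add (QB.const 1)))).add
    (((QB.id.pow k).add (QB.const k)).add (QB.const 1))).add
    (((((QB.const 2).mul q1).add (QB.const a)).add (QB.const j)).add (QB.const 4))

theorem bld_reach (A : List Bool → Bool) (a j s c k : ℕ) (M tl : List Instr) (w y : List Bool)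
    (hM : Outputs A M w [] (w.length ^ k + k) y) :
    ∃ st : ℕ → List Bool,
      Reach A (bld a j s c M tl) (0, fun i => if i = 0 then w else if i = 1 then [] else [])
        (bldEnd a j s c M, st) (bldTime a j s c k w.length) ∧
      st 0 = fmt a j (s * (w.length + 1) ^ c) y := by
  have H := has_self (bld a j s c M tl)
  have H1 := H.left
  have H2 := H.right.left
  have H3 := H.right.right.left
  rw [pre_length, Nat.zero_add] at H2
  rw [pre_length, reloc_length, Nat.zero_add] at H3
  obtain ⟨st1, s1, a1, a2, a3, a4⟩ := pre_reach A _ s c H1 w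
  obtain ⟨st2, s2, b1, b2⟩ := reloc_reach A (base := st1) H2 (by omega) a2 (w.length ^ k + k)
    (0, fun i => if i = 0 then w else if i = 1 then [] else []) (11 + s + 8 * c, st1)
    ⟨by simp, fun i => by
      unfold phi
      by_cases hi : i = 0
      · simp [hi, a1]
      · simp only [hi, if_false, ite_self]
        exact a4 _ (by omega), fun _ _ _ => rfl⟩ hM.1
  obtain ⟨st3, s3, c1⟩ := post_reach A _ a j c _ (s * (w.length + 1) ^ c) H3 st2
    (by rw [b2 _ (by omega) le_rfl, a3])
  refine ⟨st3, (s1.trans s2).trans s3, ?_⟩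
  rw [c1, b1]
  exact congrArg _ hM.2

theorem addr_FP1 (A : List Bool → Bool) {Q : List Bool → List Bool} (hQ : FP1 A Q)
    (a j s c : ℕ) : FP1 A fun w => fmt a j (s * (w.length + 1) ^ c) (Q w) := by
  obtain ⟨M, k, hM⟩ := hQ
  obtain ⟨k', hk'⟩ := QB_clock (QB_bldTime a j s c k)
  refine ⟨bld a j s c M [Instr.halt], k', fun w => ?_⟩
  obtain ⟨st, h1, h2⟩ := bld_reach A a j s c k M [Instr.halt] w (Q w) (hM w)
  exact outputs_of_reach h1 (bld_tail a j s c M _).head h2 (hk' _)

theorem ask_FP1 (A : List Bool → Bool) (a j s c : ℕ) :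
    FP1 A fun w => [A (fmt a j (s * (w.length + 1) ^ c) w)] := by
  obtain ⟨k', hk'⟩ := QB_clock (((QB_bldTime a j s c 0).add (QB_pad s c)).add
    (QB.id.add (QB.const (a + j + 6))))
  set l := bldEnd a j s c [] with hl
  set tl := Instr.query 0 (l + 1) (l + 4) :: (outB [false] (l + 1) ++ outB [true] (l + 4))
    with htl
  refine ⟨bld a j s c [] tl, k', fun w => ?_⟩
  have hid : Outputs A [] w [] (w.length ^ 0 + 0) w := by
    refine outputs_of_reach (Reach.refl A [] _) rfl (by simp) (by omega)
  obtain ⟨st, h1, h2⟩ := bld_reach A a j s c 0 [] tl w w hid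
  have H := bld_tail a j s c [] tl
  rw [← hl] at H h1
  have H1 := H.tail.left
  have H2 : Has (bld a j s c [] tl) (l + 4) (outB [true] (l + 4)) := H.tail.right
  have s2 := Reach.one (step_query (A := A) H.head st)
  have hlen := fmt_length a j (s * (w.length + 1) ^ c) w
  have hk := hk' w.length
  rw [h2] at s2
  cases hA : A (fmt a j (s * (w.length + 1) ^ c) w)
  · simp only [hA] at s2
    obtain ⟨cf, c1, c2, c3⟩ := outB_reach A _ [false] H1 st
    refine outputs_of_reach ((h1.trans s2).trans c1) c2 (c3.trans (by simp [hA])) ?_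
    rw [h2, hlen]
    simp only [List.length_singleton]
    omega
  · simp only [hA] at s2
    obtain ⟨cf, c1, c2, c3⟩ := outB_reach A _ [true] H2 st
    refine outputs_of_reach ((h1.trans s2).trans c1) c2 (c3.trans (by simp [hA])) ?_
    rw [h2, hlen]
    simp only [List.length_singleton]
    omega

end Pool.Agent.Lib.MP_2c6a5a_lc.Pf
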