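import Pool.Agent.Lib.MP_8a52c3_lc.OrcAux

/-! The combinatorial core of one stage, with thinness measured by the level of an address. -/

namespace Pool.Agent.Lib.MP_2c6a5a_lc.Pf

open Finset Pool.Agent.Lib.MP_8a52c3_lc.Orc

set_option linter.unusedSectionVars false

/-- Numerical parameters of a stage. -/
structure Par2 where
  q : ℕ
  e : ℕ
  τ : ℕ
  t : ℕ
  C : ℕ
  Λ : ℕ

namespace Par2
variable (p : Par2)
def m (j : ℕ) : ℕ := mOf p.e p.C j
def r (l : ℕ) : ℕ := rr (p.τ * p.t + p.t) (p.Λ - l)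
def X : ℕ := p.r 0 + p.C ^ p.q + 1
end Par2

section
variable {U : Type} [Fintype U] [DecidableEq U]

/-- The query set of the tree for a code of priority `j` and level `l`. -/
noncomputable def trQ (p : Par2) (kind : Bool) (j l : ℕ) (D : Bool → Finset U → Prop) (K : ℕ) :
    Finset U → Finset U :=
  if kind then coQ D K (p.m j) (100 * p.X) (p.X + 1) else npQ D K (p.r l)

/-- The output of the tree for a code of priority `j` and level `l`. -/
noncomputable def trOut (p : Par2) (kind : Bool) (j l : ℕ) (D : Bool → Finset U → Prop) (K : ℕ) :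
    Finset U → Bool :=
  if kind then coOut D K (p.m j) (100 * p.X) (p.X + 1) else npOut D K (p.r l)

theorem trQ_adapt (p : Par2) (kind : Bool) (j l : ℕ) (D : Bool → Finset U → Prop) (K : ℕ) :
    Adapt (trQ p kind j l D K) := by
  cases kind
  · exact npQ_adapt _ _ _
  · exact coQ_adapt _ _ _ _ _

theorem trOut_loc (p : Par2) (kind : Bool) (j l : ℕ) (D : Bool → Finset U → Prop) (K : ℕ)
    (x x' : Finset U) (h : Agree (trQ p kind j l D K x) x x') :
    trOut p kind j l D K x' = trOut p kind j l D K x := by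
  cases kind
  · exact npOut_loc _ _ _ _ _ h
  · exact coOut_loc _ _ _ _ _ _ _ h

theorem trQ_card (p : Par2) (kind : Bool) (j l : ℕ) (D : Bool → Finset U → Prop) (K : ℕ)
    (x : Finset U) : (trQ p kind j l D K x).card ≤ ((p.X + 1) * (100 * p.X) + 1 + K) * K := by
  cases kind
  · refine (npQ_card _ _ _ _).trans (Nat.mul_le_mul_right _ (by omega))
  · refine (coQ_card _ _ _ _ _ _).trans ?_
    rw [← Nat.mul_assoc]
    exact Nat.mul_le_mul_right _ (by omega)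

theorem np_sound {D : Bool → Finset U → Prop} {K r : ℕ} {x : Finset U}
    (hthin : D true x → ∃ c, Thin (D true) K r x c) (h : npOut D K r x = true) : ¬ D true x := by
  intro hD
  obtain ⟨c, hc⟩ := hthin hD
  have h' : ¬ NpEx (D true) K r (npQ D K r x) (x ∩ npQ D K r x) := by simpa [npOut] using h
  exact h' ⟨(x, c), hc, fun u _ hW => by simp [hW]⟩

def Hyp2 (p : Par2) (kind : Bool) (j l : ℕ) (D : Bool → Finset U → Prop) (K : ℕ) : Prop :=
  if kind then ∀ P : Finset U, P.card ≤ p.r l → pr (fun B : Fin (p.m j) → U =>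
      ¬ (HasCert (D false) K (P ∪ im B) ∨ HasCert (D true) K (P ∪ im B))) ≤ 1 / 5
  else Conf D K (p.r l)

variable {ι : Type} [DecidableEq ι]

/-- The data and hypotheses of the core lemma. -/
structure Core2 (U ι : Type) [Fintype U] [DecidableEq U] [DecidableEq ι] where
  p : Par2
  d : ℕ
  z : ℕ
  all : Finset ι
  cds : Finset ι
  codes : Finset ι
  Q : ι → Finset U → Finset U
  pri : ι → ℕ
  lev : ι → ℕ
  kind : ι → Bool
  D : ι → Bool → Finset U → Prop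
  K : ι → ℕ
  hsub : cds ⊆ all
  hsub' : codes ⊆ cds
  hadapt : ∀ β ∈ all, Adapt (Q β)
  hd : ∀ β ∈ all, ∀ x, (Q β x).card ≤ d
  hQ : ∀ α ∈ cds, Q α = trQ p (kind α) (pri α) (lev α) (D α) (K α)
  hK : ∀ α ∈ cds, 2 * K α ≤ z
  hpri : ∀ α ∈ codes, pri α < p.q
  hlev : ∀ α ∈ cds, lev α < p.Λ
  hcert : ∀ α ∈ cds, ∀ b x, D α b x → ∃ S ⊆ all, S.card ≤ p.τ ∧
    Cert (D α b) (K α) x (S.biUnion fun β => Q β x)
  hC : 1 ≤ p.C
  hd1 : 1 ≤ d
  n1 : (all.card : ℝ) * ((d : ℝ) * (p.C ^ p.q : ℕ) / Fintype.card U) ^ p.t ≤ 1 / 20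
  n2 : (all.card : ℝ) * (p.t * ((d : ℝ) ^ p.t * (9 / 10) ^ p.C)) ≤ 1 / 20
  n3 : (z : ℝ) * (((p.C ^ p.q : ℕ) : ℝ) / Fintype.card U) ≤ 1 / 2

namespace Core2
variable (c : Core2 U ι)

noncomputable def out (α : ι) (x : Finset U) : Bool :=
  trOut c.p (c.kind α) (c.pri α) (c.lev α) (c.D α) (c.K α) x

def Good (α : ι) (x : Finset U) : Prop :=
  GoodBit (c.kind α) (fun b => c.D α b x) (c.out α x)

def Sound (α : ι) (x : Finset U) : Prop :=
  c.kind α = false → c.out α x = true → ¬ c.D α true x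

def H (α : ι) : Prop := Hyp2 c.p (c.kind α) (c.pri α) (c.lev α) (c.D α) (c.K α)

/-- Codes of priority below `j` and level below `l` are good, all codes of level below `l`
are sound. -/
def Fine (j l : ℕ) (x : Finset U) : Prop :=
  (∀ α ∈ c.codes, c.pri α < j → c.lev α < l → c.Good α x) ∧
    ∀ α ∈ c.cds, c.lev α < l → c.Sound α x

theorem lemA [Nonempty U] (j l : ℕ) (hl : l ≤ c.p.Λ)
    (hH : ∀ α ∈ c.codes, c.lev α < l → c.H α)
    (P₀ : Finset U) (hP : P₀.card ≤ c.p.r l) (M : ℕ) (hM : M ≤ c.p.C ^ c.p.q)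
    (hM' : ∀ j' < j, c.p.C * c.p.m j' ≤ M) :
    pr (fun y : Fin M → U => ¬ c.Fine j l (P₀ ∪ im y)) ≤ 1 / 10 := by
  classical
  have hr0 : c.p.r l ≤ c.p.r 0 := rr_mono _ (by omega)
  have hX : P₀.card + M + 1 ≤ c.p.X := by unfold Par2.X; omega
  let Long : (Fin M → U) → Prop := fun y =>
    ∃ β ∈ c.all, ∃ P' ∈ chains (c.Q β) P₀ c.p.t, P' ⊆ P₀ ∪ im y
  let Leaf : ι → Finset U → (Fin M → U) → Prop := fun α P y =>
    P ⊆ P₀ ∪ im y ∧ (P₀ ∪ im y) ∩ heavy (c.D α) (c.K α) (c.p.m (c.pri α)) (100 * c.p.X) P ⊆ P ∧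
      ¬ c.D α (coBit (c.D α) (c.K α) (c.p.m (c.pri α)) P) (P₀ ∪ im y)
  let act := c.codes.filter fun α => c.pri α < j ∧ c.lev α < l ∧ c.kind α = true
  have h1 : pr Long ≤ 1 / 20 := by
    refine (pr_exists_le _ _ (((c.d : ℝ) * (c.p.C ^ c.p.q : ℕ) / Fintype.card U) ^ c.p.t)
      ?_).trans c.n1
    intro β hβ
    refine (pr_long_chain (c.Q β) c.d c.p.t M P₀ (c.hd β hβ)).trans ?_
    have : (M : ℝ) ≤ (c.p.C ^ c.p.q : ℕ) := by exact_mod_cast hM
    gcongr
  have h2 : pr (fun y => ∃ α ∈ act, ∃ s ∈ range c.p.t, ∃ P' ∈ chains (c.Q α) P₀ s,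
      Leaf α (P' ∩ c.Q α P') y) ≤ 1 / 20 := by
    refine (pr_exists_le _ _ (c.p.t * ((c.d : ℝ) ^ c.p.t * (9 / 10) ^ c.p.C)) ?_).trans
      (le_trans ?_ c.n2)
    · intro α hα
      obtain ⟨hα1, hα2, hα4, hα3⟩ := mem_filter.1 hα
      refine (pr_exists_le _ _ ((c.d : ℝ) ^ c.p.t * (9 / 10) ^ c.p.C) ?_).trans (by simp)
      intro s hs
      have hs' := mem_range.1 hs
      refine (pr_exists_le _ _ ((9 / 10) ^ c.p.C) ?_).trans ?_
      · intro P' hP'
        apply co_leaf _ _ _ _ _ _ _ _ (by omega) (hM' _ hα2) (by omega)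
        have hh := hH α hα1 hα4
        unfold H at hh
        rw [hα3] at hh
        apply hh
        have e1 := (chains_spec _ _ _ P' hP').2
        have e2 := card_le_card (inter_subset_left (s₁ := P') (s₂ := c.Q α P'))
        have e3 : 2 * (c.p.r l + (c.p.τ * c.p.t + c.p.t)) ≤ c.p.r (c.lev α) :=
          rr_step _ (by omega)
        omega
      · apply mul_le_mul_of_nonneg_right _ (by positivity)
        have := (chains_card (c.Q α) P₀ c.d (c.hd α (c.hsub (c.hsub' hα1))) s).trans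
          (Nat.pow_le_pow_right c.hd1 hs'.le)
        exact_mod_cast this
    · apply mul_le_mul_of_nonneg_right _ (by positivity)
      exact_mod_cast card_le_card ((filter_subset _ _).trans (c.hsub'.trans c.hsub))
  refine le_trans (pr_mono (F := fun y => Long y ∨ ∃ α ∈ act, ∃ s ∈ range c.p.t,
    ∃ P' ∈ chains (c.Q α) P₀ s, Leaf α (P' ∩ c.Q α P') y) ?_) ((pr_or _ _).trans (by linarith))
  intro y hbad
  by_cases hL : Long y
  · exact Or.inl hL
  right
  have hshort : ∀ β ∈ c.all, ∃ s < c.p.t, ∃ P' ∈ chains (c.Q β) P₀ s, P' ⊆ P₀ ∪ im y ∧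
      (P₀ ∪ im y) ∩ c.Q β (P₀ ∪ im y) = P' ∩ c.Q β P' := by
    intro β hβ
    rcases chains_dichotomy (c.Q β) P₀ (P₀ ∪ im y) subset_union_left c.p.t with h | h
    · exact absurd ⟨β, hβ, h⟩ hL
    · obtain ⟨s, hs, P', h1, h2, h3⟩ := h
      exact ⟨s, hs, P', h1, h2, by rw [c.hadapt β hβ _ _ h3, h3.inter_eq]⟩
  have hthin : ∀ α ∈ c.cds, c.lev α < l → ∀ b, c.D α b (P₀ ∪ im y) →
      ∃ cc, Thin (c.D α b) (c.K α) (c.p.r (c.lev α)) (P₀ ∪ im y) cc := by
    intro α hα hlv b hb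
    have e3 : 2 * (c.p.r l + (c.p.τ * c.p.t + c.p.t)) ≤ c.p.r (c.lev α) := rr_step _ (by omega)
    obtain ⟨S, hS1, hS2, hS3⟩ := c.hcert α hα b _ hb
    refine ⟨_, hS3, ?_⟩
    have hsub : (P₀ ∪ im y) ∩ (S.biUnion fun β => c.Q β (P₀ ∪ im y)) ⊆
        P₀ ∪ S.biUnion fun β => ((P₀ ∪ im y) ∩ c.Q β (P₀ ∪ im y)) \ P₀ := by
      intro u hu
      obtain ⟨hu1, hu2⟩ := mem_inter.1 hu
      obtain ⟨β, hβ, hu2⟩ := mem_biUnion.1 hu2
      by_cases h : u ∈ P₀
      · exact mem_union_left _ h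
      · exact mem_union_right _ (mem_biUnion.2 ⟨β, hβ, mem_sdiff.2 ⟨mem_inter.2 ⟨hu1, hu2⟩, h⟩⟩)
    have hc1 := (card_le_card hsub).trans (card_union_le _ _)
    have hc2 : (S.biUnion fun β => ((P₀ ∪ im y) ∩ c.Q β (P₀ ∪ im y)) \ P₀).card ≤
        S.card * c.p.t := by
      apply card_biUnion_le_card_mul
      intro β hβ
      obtain ⟨s, hs, P', h1, _, h3⟩ := hshort β (hS1 hβ)
      obtain ⟨h4, h5⟩ := chains_spec _ _ _ P' h1
      rw [h3]
      have := card_le_card (sdiff_subset_sdiff (inter_subset_left (s₁ := P') (s₂ := c.Q β P'))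
        (Subset.refl P₀))
      rw [card_sdiff_of_subset h4] at this
      omega
    have := Nat.mul_le_mul_right c.p.t hS2
    omega
  have hsound : ∀ α ∈ c.cds, c.lev α < l → c.Sound α (P₀ ∪ im y) := by
    intro α hα hlv hk ho
    unfold out trOut at ho
    rw [hk] at ho
    exact np_sound (hthin α hα hlv true) ho
  have hbad' : ¬ ∀ α ∈ c.codes, c.pri α < j → c.lev α < l → c.Good α (P₀ ∪ im y) :=
    fun h => hbad ⟨h, hsound⟩
  simp only [not_forall] at hbad'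
  obtain ⟨α, hα, hpr, hlv, hbad⟩ := hbad'
  have hh := hH α hα hlv
  unfold H at hh
  cases hk : c.kind α
  · exfalso
    apply hbad
    rw [hk] at hh
    unfold Good out
    rw [hk]
    exact np_correct hh (hthin α (c.hsub' hα) hlv)
  · obtain ⟨s, hs, P', h1, h2, h3⟩ := hshort α (c.hsub (c.hsub' hα))
    refine ⟨α, mem_filter.2 ⟨hα, hpr, hlv, hk⟩, s, mem_range.2 hs, P', h1, ?_⟩
    have hQ : c.Q α = coQ (c.D α) (c.K α) (c.p.m (c.pri α)) (100 * c.p.X) (c.p.X + 1) := by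
      rw [c.hQ α (c.hsub' hα), hk]; rfl
    rw [← h3]
    refine ⟨inter_subset_left, ?_, ?_⟩
    · rw [hQ]
      apply coQ_stab
      have := card_union_le P₀ (im y)
      have := im_card y
      omega
    · intro hD
      apply hbad
      unfold Good out
      rw [hk]
      rw [hQ] at hD
      exact hD

theorem m_le (j : ℕ) (hj : j ≤ c.p.q) : c.p.m j ≤ c.p.C ^ c.p.q := by
  unfold Par2.m mOf
  split_ifs
  · omega
  · exact Nat.pow_le_pow_right c.hC hj

theorem m_step {j j' : ℕ} (hj : j' < j) : c.p.C * c.p.m j' ≤ c.p.m j := by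
  unfold Par2.m mOf
  split_ifs with h1 h2 h2
  · omega
  · omega
  · omega
  · rw [← pow_succ']; exact Nat.pow_le_pow_right c.hC hj

theorem m_pos {j : ℕ} (hj : c.p.e ≤ j) : 1 ≤ c.p.m j := by
  unfold Par2.m mOf
  rw [if_neg (by omega)]
  exact Nat.one_le_pow _ _ c.hC

theorem exists_fine [Nonempty U] (j l : ℕ) (hl : l ≤ c.p.Λ)
    (hH : ∀ α ∈ c.codes, c.lev α < l → c.H α)
    (P₀ : Finset U) (hP : P₀.card ≤ c.p.r l) (M : ℕ) (hM : M ≤ c.p.C ^ c.p.q)
    (hM' : ∀ j' < j, c.p.C * c.p.m j' ≤ M) (Z : Finset U) (hZ : Z.card ≤ c.z) :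
    ∃ y : Fin M → U, (∀ u ∈ Z, u ∉ im y) ∧ c.Fine j l (P₀ ∪ im y) := by
  have h1 := c.lemA j l hl hH P₀ hP M hM hM'
  have h2 : pr (fun y : Fin M → U => ∃ u ∈ Z, u ∈ im y) ≤ 1 / 2 := by
    refine (pr_hit (I := Fin M) Z).trans (le_trans ?_ c.n3)
    have a1 : (Z.card : ℝ) ≤ c.z := by exact_mod_cast hZ
    have a2 : (Fintype.card (Fin M) : ℝ) ≤ (c.p.C ^ c.p.q : ℕ) := by
      rw [Fintype.card_fin]; exact_mod_cast hM
    gcongr
  obtain ⟨y, hy⟩ := exists_not_of_pr_lt_one (lt_of_le_of_lt (pr_or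
    (fun y : Fin M → U => ¬ c.Fine j l (P₀ ∪ im y))
    (fun y : Fin M → U => ∃ u ∈ Z, u ∈ im y)) (by linarith))
  rw [not_or, not_not] at hy
  exact ⟨y, fun u hu h => hy.2 ⟨u, hu, h⟩, hy.1⟩

theorem kill [Nonempty U] (α : ι) (hα : α ∈ c.codes) (hn : ¬ c.H α)
    (ih : ∀ β ∈ c.codes, c.lev β < c.lev α → c.H β) :
    ∃ x : Finset U, (c.p.e ≤ c.pri α → x.Nonempty) ∧ c.Fine (c.pri α) (c.lev α) x ∧
      Viol (c.kind α) (fun b => c.D α b x) := by
  have hq := (c.hpri α hα).le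
  have hl := (c.hlev α (c.hsub' hα)).le
  unfold H at hn
  cases hk : c.kind α
  · rw [hk] at hn
    have hn' : ¬ Conf (c.D α) (c.K α) (c.p.r (c.lev α)) := hn
    unfold Conf at hn'
    push Not at hn'
    obtain ⟨x₀, c₀, x₁, c₁, h₀, h₁, hno⟩ := hn'
    have hP : ((x₀ ∩ c₀) ∪ (x₁ ∩ c₁)).card ≤ c.p.r (c.lev α) := by
      have := card_union_le (x₀ ∩ c₀) (x₁ ∩ c₁)
      have := h₀.2
      have := h₁.2
      omega
    obtain ⟨y, hy1, hy2⟩ := c.exists_fine (c.pri α) (c.lev α) hl ih _ hP (c.p.m (c.pri α))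
      (c.m_le _ hq) (fun j' hj' => c.m_step hj') (c₀ ∪ c₁) (by
        have := card_union_le c₀ c₁
        have := h₀.1.1
        have := h₁.1.1
        have := c.hK α (c.hsub' hα)
        omega)
    refine ⟨_, fun he => Core.im_nonempty (c.m_pos he) y _, hy2, ?_⟩
    refine ⟨h₁.1.2 _ ?_, h₀.1.2 _ ?_⟩
    · intro u hu
      have := hy1 u (mem_union_right _ hu)
      simp only [mem_union, mem_inter, this, or_false, hu, and_true]
      constructor
      · rintro (⟨h1, h2⟩ | h1)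
        · exact (hno u h2 hu).1 h1
        · exact h1
      · exact Or.inr
    · intro u hu
      have := hy1 u (mem_union_left _ hu)
      simp only [mem_union, mem_inter, this, or_false, hu, and_true]
      constructor
      · rintro (h1 | ⟨h1, h2⟩)
        · exact h1
        · exact (hno u hu h2).2 h1
      · exact Or.inl
  · rw [hk] at hn
    have hn' : ¬ ∀ P : Finset U, P.card ≤ c.p.r (c.lev α) →
        pr (fun B : Fin (c.p.m (c.pri α)) → U => ¬ (HasCert (c.D α false) (c.K α) (P ∪ im B) ∨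
          HasCert (c.D α true) (c.K α) (P ∪ im B))) ≤ 1 / 5 := hn
    by_contra hno
    apply hn'
    intro P hP
    refine le_trans (pr_mono ?_) ((c.lemA (c.pri α) (c.lev α) hl ih P hP (c.p.m (c.pri α))
      (c.m_le _ hq) (fun j' hj' => c.m_step hj')).trans (by norm_num))
    intro y hy hg
    apply hno
    refine ⟨_, fun he => Core.im_nonempty (c.m_pos he) y _, hg, ?_⟩
    constructor
    · intro hD
      obtain ⟨S, _, _, h⟩ := c.hcert α (c.hsub' hα) _ _ hD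
      exact hy (Or.inl ⟨_, h⟩)
    · intro hD
      obtain ⟨S, _, _, h⟩ := c.hcert α (c.hsub' hα) _ _ hD
      exact hy (Or.inr ⟨_, h⟩)

theorem dichotomy [Nonempty U] : (∀ α ∈ c.codes, c.H α) ∨
    ∃ α ∈ c.codes, ∃ x : Finset U, (c.p.e ≤ c.pri α → x.Nonempty) ∧
      c.Fine (c.pri α) (c.lev α) x ∧ Viol (c.kind α) (fun b => c.D α b x) := by
  classical
  by_cases h : ∃ l, ∃ α ∈ c.codes, c.lev α = l ∧ ¬ c.H α
  · right
    obtain ⟨α, hα, h1, h2⟩ := Nat.find_spec h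
    refine ⟨α, hα, c.kill α hα h2 fun β hβ hlt => ?_⟩
    by_contra hn
    exact Nat.find_min h (h1 ▸ hlt) ⟨β, hβ, rfl, hn⟩
  · left
    intro α hα
    by_contra hn
    exact h ⟨_, α, hα, rfl, hn⟩

theorem good_avoid [Nonempty U] (hN : ∀ α ∈ c.codes, c.H α) (Z : Finset U) (hZ : Z.card ≤ c.z) :
    ∃ x : Finset U, x.Nonempty ∧ (∀ u ∈ Z, u ∉ x) ∧ (∀ α ∈ c.codes, c.Good α x) ∧
      ∀ α ∈ c.cds, c.Sound α x := by
  obtain ⟨y, hy1, hy2⟩ := c.exists_fine c.p.q c.p.Λ le_rfl (fun α hα _ => hN α hα) ∅ (by simp)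
    (c.p.C ^ c.p.q) le_rfl (fun j' hj' => by
      unfold Par2.m mOf
      split_ifs
      · omega
      · rw [← pow_succ']; exact Nat.pow_le_pow_right c.hC hj') Z hZ
  refine ⟨∅ ∪ im y, Core.im_nonempty (Nat.one_le_pow _ _ c.hC) y _, by simpa using hy1,
    fun α hα => hy2.1 α hα (c.hpri α hα) (c.hlev α (c.hsub' hα)),
    fun α hα => hy2.2 α hα (c.hlev α hα)⟩

theorem good_empty [Nonempty U] (hN : ∀ α ∈ c.codes, c.H α) :
    (∀ α ∈ c.codes, c.pri α < c.p.e → c.Good α ∅) ∧ ∀ α ∈ c.cds, c.Sound α ∅ := by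
  obtain ⟨y, _, hy2⟩ := c.exists_fine c.p.e c.p.Λ le_rfl (fun α hα _ => hN α hα) ∅
    (by simp) 0 (Nat.zero_le _) (fun j' hj' => by
      unfold Par2.m mOf
      rw [if_pos hj']; omega) ∅ (by simp)
  have e : (∅ : Finset U) ∪ im y = ∅ := by simp [im]
  rw [e] at hy2
  exact ⟨fun α hα h => hy2.1 α hα h (c.hlev α (c.hsub' hα)), fun α hα => hy2.2 α hα (c.hlev α hα)⟩

end Core2
end

end Pool.Agent.Lib.MP_2c6a5a_lc.Pf
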