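import Pool.Agent.Lib.MP_2c6a5a_lc.PfStep
import Pool.Agent.Lib.MP_2c6a5a_lc.PfBuild

/-! Assembly of the oracle from its stages. -/

namespace Pool.Agent.Lib.MP_2c6a5a_lc.Pf

open Finset Pool.Agent.Lib.MP_8a52c3_lc.Orc

theorem exists_oracle2 (E : ℕ → Req2) (Cd : ℕ → Ver) (Rd : ℕ → Red) :
    ∃ (A : List Bool → Bool) (L : ℕ → ℕ), L 0 = 0 ∧ StrictMono L ∧
      ∀ i, StageOK2 E (Cd (eOf i)) (Rd (kOf i)) (Nat.sqrt i) (eOf i) (Nat.pair (eOf i) (sOf i))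
        (L i) (L (i + 1)) A := by
  choose nσ nL h1 h2 h3 using fun (i L : ℕ) (σ : List Bool → Bool) =>
    stage2 E (Cd (eOf i)) (Rd (kOf i)) (Nat.sqrt i) (eOf i) (Nat.pair (eOf i) (sOf i)) L σ
  let st : ℕ → (List Bool → Bool) × ℕ := fun i =>
    Nat.rec (fun _ => false, 0) (fun i s => (nσ i s.2 s.1, nL i s.2 s.1)) i
  have hmono : StrictMono fun i => (st i).2 :=
    strictMono_nat_of_lt_succ fun i => h1 i (st i).2 (st i).1
  have hagree : ∀ i j, i ≤ j → ∀ α : List Bool, α.length < (st i).2 → (st j).1 α = (st i).1 α := by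
    intro i j hij
    induction j, hij using Nat.le_induction with
    | base => intro _ _; rfl
    | succ j hij ih =>
      intro α hα
      rw [← ih α hα]
      exact h2 j (st j).2 (st j).1 α (lt_of_lt_of_le hα (hmono.monotone hij))
  refine ⟨fun α => (st (α.length + 1)).1 α, fun i => (st i).2, rfl, hmono, fun i => ?_⟩
  refine (h3 i (st i).2 (st i).1).congr (h1 i (st i).2 (st i).1).le fun α hα => ?_
  have hl : α.length < (st (α.length + 1)).2 := hmono.id_le (α.length + 1)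
  rcases le_total (i + 1) (α.length + 1) with h | h
  · exact hagree _ _ h α hα
  · exact (hagree _ _ h α hl).symm

theorem QB_ptm2 (R : Req2) {f : ℕ → ℕ} (hf : QB f) : QB fun n => ptm2 R (f n) :=
  ((hf.tm _).add (hf.tm _)).add (QB.const 4)

section
variable {E : ℕ → Req2} {Cd : ℕ → Ver} {Rd : ℕ → Red} {A : List Bool → Bool} {L : ℕ → ℕ}
  (hL : StrictMono L)
  (hS : ∀ i, StageOK2 E (Cd (eOf i)) (Rd (kOf i)) (Nat.sqrt i) (eOf i) (Nat.pair (eOf i) (sOf i))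
    (L i) (L (i + 1)) A)
include hL hS

theorem good_part (j : ℕ) (hj : ∀ w s, ¬ Viol (kd (E j)) (Dp A (E j) w s)) :
    ∃ l, ∀ α, IsCode2 E α → ci α = j → l ≤ α.length → GoodAt2 E A α := by
  obtain ⟨i₁, h₁⟩ := settle (fun j i => DeadP2 E A (L i) j)
    (fun _ _ _ h hd => hd.mono (hL.monotone h) fun _ _ => rfl) j
  obtain ⟨i₂, h₂⟩ := settle (fun e i => DeadC (Cd e) A (L i))
    (fun _ _ _ h hd => hd.mono (hL.monotone h) fun _ _ => rfl) (j + 1)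
  set i₀ := i₁ + i₂ + (j + 1) * (j + 1) with hi₀
  refine ⟨L i₀, fun α hcode e1 hl => ?_⟩
  obtain ⟨i, a1, a2, a3⟩ := find_stage hL i₀ α.length hl
  have hq : j + 1 ≤ Nat.sqrt i := Nat.le_sqrt.2 (by omega)
  exact (hS i).1 j hq (fun ⟨w, s, _, _, h⟩ => hj w s h) (h₁ i (by omega))
    (fun he => h₂ i (by omega) _ (by omega)) α hcode e1 a2 a3

theorem pad_part (a j : ℕ) (ha : 1 ≤ a)
    (hj : ∀ w s, ¬ Viol (kd (E (Nat.pair a j))) (Dp A (E (Nat.pair a j)) w s))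
    {f : ℕ → ℕ} (hf : QB f) :
    ∃ s c, ∀ (n : ℕ) (y : List Bool), y.length ≤ f n → ∃ t, f n ≤ t ∧
      GoodBit (kd (E (Nat.pair a j))) (Dp A (E (Nat.pair a j)) y t)
        (A (fmt a j (s * (n + 1) ^ c) y)) := by
  obtain ⟨l, hl⟩ := good_part hL hS _ hj
  obtain ⟨s, c, hsc⟩ := ((((QB_ptm2 (E (Nat.pair a j)) hf).add hf).pow 2).add (QB.const l)).poly
  refine ⟨s, c, fun n y hy => ?_⟩
  set α := fmt a j (s * (n + 1) ^ c) y with hα
  have hb := hsc n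
  have hlen : s * (n + 1) ^ c ≤ α.length := by rw [hα, fmt_length]; omega
  have h1 : ptm2 (E (Nat.pair a j)) (f n) + f n ≤ cs α := Nat.le_sqrt'.2 (by omega)
  have h2 := ptm2_mono (E (Nat.pair a j)) hy
  have hcode : IsCode2 E α := by
    refine ⟨by rw [hα, ca_fmt]; exact ha, ?_⟩
    rw [hα, ci_fmt, cy_fmt, ← hα]
    omega
  have := hl α hcode (ci_fmt _ _ _ _) (by omega)
  unfold GoodAt2 Da at this
  rw [show ci α = Nat.pair a j from ci_fmt _ _ _ _, show cy α = y from cy_fmt _ _ _ _] at this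
  exact ⟨cs α, by omega, this⟩

theorem pair_part2 (j : ℕ) (k : Bool) (V₀ V₁ : Ver) (hE : E (Nat.pair 1 j) = (some k, V₀, V₁))
    (hj : ∀ w, ¬ Viol k (fun b => Acc A (if b then V₁ else V₀) w)) :
    ∃ S, InP A S ∧ ∀ w, ∃ b : Bool, (w ∈ S ↔ b = true) ∧
      GoodBit k (fun b => Acc A (if b then V₁ else V₀) w) b := by
  have hD : ∀ w s, Dp A (some k, V₀, V₁) w s = fun b => Acc A (if b then V₁ else V₀) w := by
    intro w s
    funext b
    cases b <;> simp [Dp]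
  obtain ⟨s, c, h⟩ := pad_part hL hS 1 j le_rfl (by
    intro w s
    rw [hE, hD]
    exact hj w) QB.id
  refine ⟨{w | A (fmt 1 j (s * (w.length + 1) ^ c) w) = true},
    ⟨_, ask_FP1 A 1 j s c, fun w => by simp⟩, fun w => ⟨_, Iff.rfl, ?_⟩⟩
  obtain ⟨t, _, h2⟩ := h w.length w le_rfl
  rw [hE, hD] at h2
  exact h2

theorem sound_part (hL0 : L 0 = 0) (α : List Bool) : SoundAt E A α := by
  obtain ⟨i, _, a2, a3⟩ := find_stage hL 0 α.length (by omega)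
  exact (hS i).2.2.2 α a2 a3

theorem opt_part (hL0 : L 0 = 0) (a : ℕ) (ha : 1 ≤ a) (V : Ver)
    (h1 : ∀ j, ∃ W, E (Nat.pair a j) = (none, W, V))
    (h2 : ∀ W, ∃ j, E (Nat.pair a j) = (none, W, V)) (y₀ : List Bool) (hy : ¬ Acc A V y₀) :
    (∀ d, ¬ Acc A V (sysP A a y₀ d)) ∧
      ∀ Q, FP1 A Q → (∀ d, ¬ Acc A V (Q d)) → ∃ f, FP1 A f ∧ ∀ d, sysP A a y₀ (f d) = Q d := by
  constructor
  · intro d
    rcases sysP_cases A a y₀ d with h | ⟨h, j, p, e⟩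
    · rw [h]; exact hy
    · obtain ⟨W, hW⟩ := h1 j
      have := (sound_part hL hS hL0 d (by rw [e, ca_fmt]; exact ha) h).2
      unfold Da at this
      rw [show ci d = Nat.pair a j by rw [e, ci_fmt],
        show cy d = sysP A a y₀ d by conv_lhs => rw [e, cy_fmt], hW] at this
      simpa [Dp] using this rfl
  · rintro Q ⟨M, k, hM⟩ hQ
    obtain ⟨j, hj⟩ := h2 (M, k, 0)
    obtain ⟨s, c, h⟩ := pad_part hL hS a j ha (f := fun n => n + (n ^ k + k)) (by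
      intro w s
      rw [hj]
      rintro ⟨⟨d, _, h3⟩, h4⟩
      have h5 : Q d = w := (hM d).2.symm.trans h3
      exact hQ d (h5 ▸ h4)) (QB.id.add ((QB.id.pow k).add (QB.const k)))
    refine ⟨_, addr_FP1 A ⟨M, k, hM⟩ a j s c, fun d => sysP_fmt A a j _ y₀ _ ?_⟩
    have hlen : (Q d).length ≤ d.length + (d.length ^ k + k) := by
      have := run_len A M d [] (d.length ^ k + k) 0
      rw [(hM d).2] at this
      simpa using this
    obtain ⟨t, t1, t2⟩ := h d.length (Q d) hlen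
    rw [hj] at t2
    by_contra hne
    rw [Bool.not_eq_true] at hne
    rw [hne] at t2
    exact t2 ⟨d, t1, (hM d).2⟩

theorem tfnp_part2 (hL0 : L 0 = 0) (hCd : Function.Surjective Cd) (hRd : Function.Surjective Rd) :
    ¬ ∃ T, IsTFNP A T ∧ ∀ S, IsTFNP A S → Reduces A S T := by
  rintro ⟨T, ⟨hT1, hT2⟩, hT⟩
  obtain ⟨V, hV⟩ := npRel_ver hT1
  obtain ⟨e, rfl⟩ := hCd V
  have hnd : ∀ l, ¬ DeadC (Cd e) A l := by
    rintro l ⟨v, _, h⟩
    obtain ⟨y, hy⟩ := hT2 v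
    exact h ⟨y, (hV _ _).1 hy⟩
  have hmono : ∀ j i i', i ≤ i' → DeadP2 E A (L i) j → DeadP2 E A (L i') j :=
    fun _ _ _ h hd => hd.mono (hL.monotone h) fun _ _ => rfl
  obtain ⟨s, hs⟩ := settle (fun j i => DeadP2 E A (L i) j) hmono e
  have hSt : IsTFNP A fun x y =>
      y.length ≤ x.length ^ 1 + 1 ∧ [A (xadr (Nat.pair e s) x.length y)] = [true] := by
    refine ⟨⟨_, 1, tester_FP2 A (Nat.pair e s), fun _ _ => Iff.rfl⟩, fun x => ?_⟩
    obtain ⟨i, _, a2, a3⟩ := find_stage hL 0 (xadr (Nat.pair e s) x.length []).length (by omega)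
    obtain ⟨u, u1, _, u3⟩ := (hS i).2.1 _ _ a2 a3 (fun h => by
      obtain ⟨h1, h2⟩ := Nat.pair_eq_pair.1 h
      have b1 : sOf i ≤ i := by
        unfold sOf
        exact (Nat.unpair_left_le _).trans ((Nat.unpair_right_le _).trans (Nat.sqrt_le_self i))
      rw [← h1]
      exact ⟨hs i (by omega), fun h => absurd h (hnd _)⟩)
    exact ⟨u, by simpa using u1, by rw [u3]⟩
  obtain ⟨f, g, ⟨Mf, kf, hf⟩, ⟨Mg, kg, hg⟩, hred⟩ := hT _ hSt
  obtain ⟨k, hk⟩ := hRd ((Mf, kf), (Mg, kg))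
  set q := Nat.pair e (Nat.pair s k) with hq
  obtain ⟨i, i1, i2, i3⟩ := quiet (fun j i => DeadP2 E A (L i) j) hmono q (q * q)
  have hsq : Nat.sqrt i = q := (Nat.eq_sqrt.2 ⟨i1, by nlinarith⟩).symm
  have b1 : eOf i = e := by simp [eOf, hsq, hq]
  have b2 : sOf i = s := by simp [sOf, hsq, hq]
  have b3 : kOf i = k := by simp [kOf, hsq, hq]
  have := (hS i).2.2.1
  rw [b1, b2, b3, hsq, hk] at this
  obtain ⟨w, z, h⟩ := this i3 (hnd _)
  obtain ⟨h1, h2⟩ := h A fun _ _ => rfl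
  have ef : fout A ((Mf, kf), (Mg, kg)) w = f w := (hf w).2
  have eg : gout A ((Mf, kf), (Mg, kg)) w z = g w z := (hg w z).2
  rw [ef] at h1
  rw [eg] at h2
  have := hred w z ((hV _ _).2 h1)
  exact h2 ⟨by simpa using this.1, by simpa using this.2⟩

end

theorem main : ∃ A : List Bool → Bool,
    (¬ ∃ T, IsTFNP A T ∧ ∀ S, IsTFNP A S → Reduces A S T) ∧
    (∀ L : Set (List Bool), L.Nonempty → InNP A Lᶜ → ∃ P, FP1 A P ∧ Set.range P = L ∧
      ∀ Q, FP1 A Q → Set.range Q = L → ∃ f, FP1 A f ∧ ∀ d, P (f d) = Q d) ∧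
    (∀ B₀ B₁ : Set (List Bool), InNP A B₀ᶜ → InNP A B₁ᶜ → Disjoint B₀ B₁ → PSeparable A B₀ B₁) ∧
    (∀ B₀ B₁ : Set (List Bool), InNP A B₀ → InNP A B₁ → Disjoint B₀ B₁ → PSeparable A B₀ B₁) := by
  obtain ⟨E₁, hE₁⟩ := exists_surjective_nat (Bool × Ver × Ver)
  obtain ⟨Cd, hCd⟩ := exists_surjective_nat Ver
  obtain ⟨Rd, hRd⟩ := exists_surjective_nat Red
  let E : ℕ → Req2 := fun i =>
    if (Nat.unpair i).1 ≤ 1 then (some (E₁ (Nat.unpair i).2).1, (E₁ (Nat.unpair i).2).2)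
    else (none, Cd (Nat.unpair i).2, Cd ((Nat.unpair i).1 - 2))
  have hE1 : ∀ j, E (Nat.pair 1 j) = (some (E₁ j).1, (E₁ j).2) := by
    intro j; simp [E]
  have hE2 : ∀ a j, E (Nat.pair (a + 2) j) = (none, Cd j, Cd a) := by
    intro a j; simp [E]
  obtain ⟨A, L, hL0, hL, hS⟩ := exists_oracle2 E Cd Rd
  refine ⟨A, tfnp_part2 hL hS hL0 hCd hRd, ?_, ?_, ?_⟩
  · rintro T ⟨y₀, hy₀⟩ hT
    obtain ⟨V, hV⟩ := inNP_ver hT
    obtain ⟨a, rfl⟩ := hCd V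
    have hmem : ∀ y, y ∈ T ↔ ¬ Acc A (Cd a) y := fun y => by
      rw [← hV, Set.mem_compl_iff, not_not]
    obtain ⟨h1, h2⟩ := opt_part hL hS hL0 (a + 2) (by omega) (Cd a)
      (fun j => ⟨_, hE2 a j⟩) (fun W => by
        obtain ⟨j, rfl⟩ := hCd W
        exact ⟨j, hE2 a j⟩) y₀ ((hmem _).1 hy₀)
    refine ⟨sysP A (a + 2) y₀, sysP_FP1 A _ _, ?_, fun Q hQ hr => h2 Q hQ fun d => ?_⟩
    · ext y
      constructor
      · rintro ⟨d, rfl⟩
        exact (hmem _).2 (h1 d)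
      · intro hy
        obtain ⟨f, _, hf⟩ := h2 _ (const_FP1 A y) fun _ => (hmem _).1 hy
        exact ⟨f [], hf []⟩
    · exact (hmem _).1 (hr ▸ Set.mem_range_self d)
  · intro B₀ B₁ h₀ h₁ hd
    obtain ⟨V₀, hV₀⟩ := inNP_ver h₀
    obtain ⟨V₁, hV₁⟩ := inNP_ver h₁
    obtain ⟨j, hj⟩ := hE₁ (true, V₀, V₁)
    obtain ⟨S, hS1, hS2⟩ := pair_part2 hL hS j true V₀ V₁ (by rw [hE1, hj]) (by
      intro w h
      obtain ⟨a, b⟩ : ¬ Acc A V₀ w ∧ ¬ Acc A V₁ w := h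
      rw [← hV₀, Set.mem_compl_iff, not_not] at a
      rw [← hV₁, Set.mem_compl_iff, not_not] at b
      exact Set.disjoint_left.1 hd a b)
    refine ⟨S, hS1, fun w hw => ?_, Set.disjoint_left.2 fun w hw hw' => ?_⟩
    · obtain ⟨b, hb1, hb2⟩ := hS2 w
      cases b
      · exact absurd hw ((hV₀ w).2 hb2)
      · exact hb1.2 rfl
    · obtain ⟨b, hb1, hb2⟩ := hS2 w
      rw [hb1.1 hw] at hb2
      exact (hV₁ w).2 hb2 hw'
  · intro B₀ B₁ h₀ h₁ hd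
    obtain ⟨V₀, hV₀⟩ := inNP_ver h₀
    obtain ⟨V₁, hV₁⟩ := inNP_ver h₁
    obtain ⟨j, hj⟩ := hE₁ (false, V₀, V₁)
    obtain ⟨S, hS1, hS2⟩ := pair_part2 hL hS j false V₀ V₁ (by rw [hE1, hj]) (by
      intro w h
      obtain ⟨a, b⟩ : Acc A V₀ w ∧ Acc A V₁ w := h
      exact Set.disjoint_left.1 hd ((hV₀ w).2 a) ((hV₁ w).2 b))
    refine ⟨S, hS1, fun w hw => ?_, Set.disjoint_left.2 fun w hw hw' => ?_⟩
    · obtain ⟨b, hb1, hb2⟩ := hS2 w
      cases b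
      · exact absurd ((hV₀ w).1 hw) hb2
      · exact hb1.2 rfl
    · obtain ⟨b, hb1, hb2⟩ := hS2 w
      rw [hb1.1 hw] at hb2
      exact hb2 ((hV₁ w).1 hw')

end Pool.Agent.Lib.MP_2c6a5a_lc.Pf
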