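import Pool.Agent.Lib.MP_8a52c3_lc.OrcStep
import Pool.Agent.Lib.MP_2c6a5a_lc.PfCore

/-! One stage of the oracle construction: definitions and worlds. -/

namespace Pool.Agent.Lib.MP_2c6a5a_lc.Pf

open Finset Pool.Agent.Lib.MP_8a52c3_lc.Orc

/-- Oracle addresses `1^a 0 1^j 0 1^p 0 r`. -/
def fmt (a j p : ℕ) (r : List Bool) : List Bool :=
  adr a j (List.replicate p true ++ false :: r)

theorem fmt_length (a j p : ℕ) (r : List Bool) :
    (fmt a j p r).length = a + j + p + 3 + r.length := by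
  simp [fmt, adr_length]; omega

theorem xadr_eq (T n : ℕ) (u : List Bool) : xadr T n u = fmt 0 T n u := rfl

noncomputable def dec2 (α : List Bool) : ℕ × ℕ × ℕ × List Bool :=
  Function.invFun (fun z : ℕ × ℕ × ℕ × List Bool => fmt z.1 z.2.1 z.2.2.1 z.2.2.2) α

theorem dec2_fmt (a j p : ℕ) (r : List Bool) : dec2 (fmt a j p r) = (a, j, p, r) := by
  have : Function.Injective
      (fun z : ℕ × ℕ × ℕ × List Bool => fmt z.1 z.2.1 z.2.2.1 z.2.2.2) := by
    rintro ⟨a, b, c, d⟩ ⟨a', b', c', d'⟩ h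
    obtain ⟨h1, h2, h3⟩ := adr_inj h
    obtain ⟨h4, h5⟩ := rep_inj h3
    simp only at h1 h2 h4 h5
    rw [h1, h2, h4, h5]
  exact Function.leftInverse_invFun this (a, j, p, r)

noncomputable def ca (α : List Bool) : ℕ := (dec2 α).1

noncomputable def ci (α : List Bool) : ℕ := Nat.pair (dec2 α).1 (dec2 α).2.1

noncomputable def cy (α : List Bool) : List Bool := (dec2 α).2.2.2

def cs (α : List Bool) : ℕ := Nat.sqrt α.length

theorem ca_fmt (a j p : ℕ) (r : List Bool) : ca (fmt a j p r) = a := by simp [ca, dec2_fmt]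

theorem ci_fmt (a j p : ℕ) (r : List Bool) : ci (fmt a j p r) = Nat.pair a j := by
  simp [ci, dec2_fmt]

theorem cy_fmt (a j p : ℕ) (r : List Bool) : cy (fmt a j p r) = r := by simp [cy, dec2_fmt]

theorem ca_xadr (T n : ℕ) (u : List Bool) : ca (xadr T n u) = 0 := by rw [xadr_eq, ca_fmt]

/-- A requirement: a promise pair (`some kind`) or a proof system against a verifier (`none`). -/
abbrev Req2 := Option Bool × Ver × Ver

def kd (R : Req2) : Bool := R.1.getD false

def ptm2 (R : Req2) (n : ℕ) : ℕ := tm R.2.1 n + tm R.2.2 n + 4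

theorem ptm2_mono (R : Req2) {n n' : ℕ} (h : n ≤ n') : ptm2 R n ≤ ptm2 R n' := by
  have := tm_mono R.2.1 h
  have := tm_mono R.2.2 h
  unfold ptm2; omega

/-- `w` is the output of the clocked program on an input of cost at most `s`. -/
def Rng (B : List Bool → Bool) (V : Ver) (w : List Bool) (s : ℕ) : Prop :=
  ∃ d : List Bool, d.length + (d.length ^ V.2.1 + V.2.1) ≤ s ∧
    (run B V.1 d [] (d.length ^ V.2.1 + V.2.1)).2 0 = w

def Dp (B : List Bool → Bool) (R : Req2) (w : List Bool) (s : ℕ) (b : Bool) : Prop :=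
  if b then Acc B R.2.2 w else if R.1.isNone then Rng B R.2.1 w s else Acc B R.2.1 w

theorem Dp_local {B : List Bool → Bool} {R : Req2} {w : List Bool} {s : ℕ} {b : Bool}
    (hs : ptm2 R w.length ≤ s) (h : Dp B R w s b) :
    ∃ S : Finset (List Bool), S.card ≤ s ∧ (∀ α ∈ S, α.length ≤ s) ∧
      ∀ B' : List Bool → Bool, (∀ α ∈ S, B' α = B α) → Dp B' R w s b := by
  unfold ptm2 at hs
  unfold Dp at h ⊢
  split_ifs at h ⊢
  · obtain ⟨z, hz⟩ := h
    obtain ⟨S, s1, s2, s3⟩ := sol_local hz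
    exact ⟨S, by omega, fun α hα => by have := s2 α hα; omega, fun B' hB => ⟨z, s3 B' hB⟩⟩
  · obtain ⟨d, h1, h2⟩ := h
    obtain ⟨S, s1, s2, s3⟩ := run_local B R.2.1.1 d [] (d.length ^ R.2.1.2.1 + R.2.1.2.1)
    refine ⟨S, by omega, fun α hα => by have := s2 α hα; simp at this; omega,
      fun B' hB => ⟨d, h1, ?_⟩⟩
    rw [s3 B' hB]; exact h2
  · obtain ⟨z, hz⟩ := h
    obtain ⟨S, s1, s2, s3⟩ := sol_local hz
    exact ⟨S, by omega, fun α hα => by have := s2 α hα; omega, fun B' hB => ⟨z, s3 B' hB⟩⟩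

theorem Dp_congr {R : Req2} {B B' : List Bool → Bool} {w : List Bool} {s l : ℕ}
    (hs : ptm2 R w.length ≤ s) (hl : s < l) (hB : ∀ α : List Bool, α.length < l → B' α = B α) :
    Dp B' R w s = Dp B R w s := by
  funext b
  apply propext
  constructor
  · intro h
    obtain ⟨S, _, s2, s3⟩ := Dp_local hs h
    exact s3 B fun α hα => (hB α (by have := s2 α hα; omega)).symm
  · intro h
    obtain ⟨S, _, s2, s3⟩ := Dp_local hs h
    exact s3 B' fun α hα => hB α (by have := s2 α hα; omega)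

def IsCode2 (E : ℕ → Req2) (α : List Bool) : Prop :=
  1 ≤ ca α ∧ ptm2 (E (ci α)) (cy α).length ≤ cs α

theorem IsCode2.ge {E : ℕ → Req2} {α : List Bool} (h : IsCode2 E α) : 4 ≤ cs α := by
  have := h.2
  unfold ptm2 at this; omega

theorem cs_sq (α : List Bool) : cs α ^ 2 ≤ α.length := Nat.sqrt_le' _

theorem IsCode2.lt {E : ℕ → Req2} {α : List Bool} (h : IsCode2 E α) : cs α < α.length := by
  have := h.ge
  have := cs_sq α
  nlinarith

theorem not_isCode2_xadr (E : ℕ → Req2) (T n : ℕ) (u : List Bool) : ¬ IsCode2 E (xadr T n u) := by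
  intro h
  have := h.1
  rw [ca_xadr] at this
  omega

/-- The two promise predicates of an address. -/
def Da (E : ℕ → Req2) (B : List Bool → Bool) (α : List Bool) : Bool → Prop :=
  Dp B (E (ci α)) (cy α) (cs α)

theorem Da_congr {E : ℕ → Req2} {B B' : List Bool → Bool} {α : List Bool} {l : ℕ}
    (h : IsCode2 E α) (hl : cs α < l) (hB : ∀ β : List Bool, β.length < l → B' β = B β) :
    Da E B' α = Da E B α := Dp_congr h.2 hl hB

def DeadP2 (E : ℕ → Req2) (B : List Bool → Bool) (l j : ℕ) : Prop :=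
  ∃ (w : List Bool) (s : ℕ), ptm2 (E j) w.length ≤ s ∧ s < l ∧ Viol (kd (E j)) (Dp B (E j) w s)

def GoodAt2 (E : ℕ → Req2) (B : List Bool → Bool) (α : List Bool) : Prop :=
  GoodBit (kd (E (ci α))) (Da E B α) (B α)

def GoodRange2 (E : ℕ → Req2) (B : List Bool → Bool) (L L' j : ℕ) : Prop :=
  ∀ α, IsCode2 E α → ci α = j → L ≤ α.length → α.length < L' → GoodAt2 E B α

def SoundAt (E : ℕ → Req2) (B : List Bool → Bool) (α : List Bool) : Prop :=
  1 ≤ ca α → B α = true → IsCode2 E α ∧ (kd (E (ci α)) = false → ¬ Da E B α true)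

theorem DeadP2.mono {E : ℕ → Req2} {B B' : List Bool → Bool} {l l' j : ℕ} (h : DeadP2 E B l j)
    (hl : l ≤ l') (hB : ∀ α : List Bool, α.length < l → B' α = B α) : DeadP2 E B' l' j := by
  obtain ⟨w, s, h1, h2, h3⟩ := h
  exact ⟨w, s, h1, by omega, by rw [Dp_congr h1 h2 hB]; exact h3⟩

theorem GoodAt2.congr {E : ℕ → Req2} {B B' : List Bool → Bool} {α : List Bool}
    (h : GoodAt2 E B α) (hc : IsCode2 E α)
    (hB : ∀ β : List Bool, β.length ≤ α.length → B' β = B β) : GoodAt2 E B' α := by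
  unfold GoodAt2 at h ⊢
  rw [hB α le_rfl, Da_congr hc hc.lt fun β hβ => hB β hβ.le]
  exact h

theorem SoundAt.congr {E : ℕ → Req2} {B B' : List Bool → Bool} {α : List Bool}
    (h : SoundAt E B α)
    (hB : ∀ β : List Bool, β.length ≤ α.length → B' β = B β) : SoundAt E B' α := by
  intro h1 h2
  rw [hB α le_rfl] at h2
  obtain ⟨hc, h3⟩ := h h1 h2
  refine ⟨hc, ?_⟩
  rw [Da_congr hc hc.lt fun β hβ => hB β hβ.le]
  exact h3

/-- What one stage guarantees. -/
def StageOK2 (E : ℕ → Req2) (V : Ver) (ρ : Red) (q e T L L' : ℕ) (B : List Bool → Bool) : Prop :=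
  (∀ j < q, ¬ DeadP2 E B L' j → (∀ j' < j, DeadP2 E B L' j' → DeadP2 E B L j') →
    (e ≤ j → DeadC V B L' → DeadC V B L) → GoodRange2 E B L L' j) ∧
  (∀ T' n', L ≤ (xadr T' n' []).length → (xadr T' n' []).length < L' →
    (T' = T → (∀ j' < e, DeadP2 E B L' j' → DeadP2 E B L j') ∧ (DeadC V B L' → DeadC V B L)) →
    ∃ u : List Bool, u.length ≤ n' + 1 ∧ (xadr T' n' u).length < L' ∧ B (xadr T' n' u) = true) ∧
  ((∀ j' < q, DeadP2 E B L' j' → DeadP2 E B L j') → ¬ DeadC V B L' →
    ∃ w z, ∀ A : List Bool → Bool, (∀ α : List Bool, α.length < L' → A α = B α) →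
      Sol A V (fout A ρ w) z ∧
        ¬ ((gout A ρ w z).length ≤ w.length + 1 ∧ A (xadr T w.length (gout A ρ w z)) = true)) ∧
  (∀ α : List Bool, L ≤ α.length → α.length < L' → SoundAt E B α)

theorem StageOK2.congr {E : ℕ → Req2} {V : Ver} {ρ : Red} {q e T L L' : ℕ}
    {B A : List Bool → Bool} (h : StageOK2 E V ρ q e T L L' B) (hL : L ≤ L')
    (hA : ∀ α : List Bool, α.length < L' → A α = B α) : StageOK2 E V ρ q e T L L' A := by
  have hA' : ∀ α : List Bool, α.length < L → A α = B α := fun α h => hA α (by omega)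
  have p1 : ∀ j, DeadP2 E A L' j ↔ DeadP2 E B L' j := fun j =>
    ⟨fun h => h.mono le_rfl fun α hα => (hA α hα).symm, fun h => h.mono le_rfl hA⟩
  have p2 : ∀ j, DeadP2 E A L j ↔ DeadP2 E B L j := fun j =>
    ⟨fun h => h.mono le_rfl fun α hα => (hA' α hα).symm, fun h => h.mono le_rfl hA'⟩
  have p3 : DeadC V A L' ↔ DeadC V B L' :=
    ⟨fun h => h.mono le_rfl fun α hα => (hA α hα).symm, fun h => h.mono le_rfl hA⟩
  have p4 : DeadC V A L ↔ DeadC V B L :=
    ⟨fun h => h.mono le_rfl fun α hα => (hA' α hα).symm, fun h => h.mono le_rfl hA'⟩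
  obtain ⟨h1, h2, h3, h4⟩ := h
  unfold StageOK2
  simp only [p1, p2, p3, p4]
  refine ⟨fun j hj a b c α d e f g => ?_, fun T' n' a b c => ?_, fun a b => ?_,
    fun α a b => ?_⟩
  · exact (h1 j hj a b c α d e f g).congr d fun β hβ => hA β (by omega)
  · obtain ⟨u, u1, u2, u3⟩ := h2 T' n' a b c
    exact ⟨u, u1, u2, by rw [hA _ u2, u3]⟩
  · obtain ⟨w, z, hw⟩ := h3 a b
    exact ⟨w, z, fun A' hA'' => hw A' fun α hα => (hA'' α hα).trans (hA α hα)⟩
  · exact (h4 α a b).congr fun β hβ => hA β (by omega)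

section world
variable (E : ℕ → Req2) (σ : List Bool → Bool) (L T n Φ : ℕ) (p : Par2)

def Kc2 (α : List Bool) : ℕ := cs α * Φ ^ (Nat.log 2 (cs α) ^ 2)

def lv (α : List Bool) : ℕ := Nat.log 2 α.length

def Dof2 (B : Finset (List.Vector Bool n) → List Bool → Bool) (α : List Bool) :
    Bool → Finset (List.Vector Bool n) → Prop :=
  fun b x => Da E (B x) α b

open Classical in
noncomputable def Psi2 (B : Finset (List.Vector Bool n) → List Bool → Bool) (α : List Bool)
    (x : Finset (List.Vector Bool n)) : Bool :=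
  if α.length < L then σ α
  else if IsCode2 E α then trOut p (kd (E (ci α))) (ci α) (lv α) (Dof2 E n B α) (Kc2 Φ α) x
  else if ∃ u, α = xadr T n u then decide (∃ v ∈ x, α = xadr T n v.1) else decide (ca α = 0)

open Classical in
noncomputable def Qof2 (B : Finset (List.Vector Bool n) → List Bool → Bool) (α : List Bool)
    (x : Finset (List.Vector Bool n)) : Finset (List.Vector Bool n) :=
  if α.length < L then ∅
  else if IsCode2 E α then trQ p (kd (E (ci α))) (ci α) (lv α) (Dof2 E n B α) (Kc2 Φ α) x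
  else univ.filter fun v => α = xadr T n v.1

theorem exists_world2 : ∃ A : Finset (List.Vector Bool n) → List Bool → Bool,
    ∀ x α, A x α = Psi2 E σ L T n Φ p A α x := by
  apply exists_fix
  intro α B B' h
  funext x
  unfold Psi2
  split_ifs with h1 h2
  · rfl
  · have : Dof2 E n B α = Dof2 E n B' α := by
      funext b x'
      exact congrFun (Da_congr h2 h2.lt (h x')) b
    rw [this]
  · rfl
  · rfl

theorem Qof2_adapt (B : Finset (List.Vector Bool n) → List Bool → Bool) (α : List Bool) :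
    Adapt (Qof2 E L T n Φ p B α) := by
  intro x x' h
  unfold Qof2 at h ⊢
  split_ifs at h ⊢
  · rfl
  · exact trQ_adapt _ _ _ _ _ _ _ _ h
  · rfl

theorem Psi2_loc (B : Finset (List.Vector Bool n) → List Bool → Bool) (α : List Bool)
    (x x' : Finset (List.Vector Bool n)) (h : Agree (Qof2 E L T n Φ p B α x) x x') :
    Psi2 E σ L T n Φ p B α x' = Psi2 E σ L T n Φ p B α x := by
  unfold Qof2 at h
  unfold Psi2
  split_ifs at h ⊢
  · rfl
  · exact trOut_loc _ _ _ _ _ _ _ _ h
  · rw [decide_eq_decide]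
    constructor
    · rintro ⟨v, hv, e⟩
      exact ⟨v, (h v (by simp [e])).1 hv, e⟩
    · rintro ⟨v, hv, e⟩
      exact ⟨v, (h v (by simp [e])).2 hv, e⟩
  · rfl

theorem Kc2_le {α : List Bool} (h : IsCode2 E α) (hΦ : α.length ≤ Φ) :
    Kc2 Φ α ≤ Φ ^ (Nat.log 2 (cs α) ^ 2 + 1) := by
  unfold Kc2
  rw [pow_succ' Φ]
  exact Nat.mul_le_mul_right _ (by have := h.lt; omega)

theorem log_two_le {α : List Bool} (h : IsCode2 E α) :
    2 ≤ Nat.log 2 (cs α) ∧ Nat.log 2 (cs α) * 2 ≤ Nat.log 2 α.length := by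
  have h4 := h.ge
  have h1 : 2 ≤ Nat.log 2 (cs α) := Nat.le_log_of_pow_le (by omega) (by omega)
  have h2 : 2 ^ Nat.log 2 (cs α) ≤ cs α := Nat.pow_log_le_self 2 (by omega)
  refine ⟨h1, ?_⟩
  apply Nat.le_log_of_pow_le (by omega)
  rw [pow_mul]
  exact (Nat.pow_le_pow_left h2 2).trans (cs_sq α)

theorem log_code2 {α : List Bool} (h : IsCode2 E α) :
    2 * Nat.log 2 (cs α) ^ 2 + 3 ≤ Nat.log 2 α.length ^ 2 := by
  obtain ⟨h1, h3⟩ := log_two_le E h
  have := Nat.pow_le_pow_left h3 2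
  nlinarith

theorem lv_lt {α β : List Bool} (h : IsCode2 E α) (hβ : β.length ≤ cs α) : lv β < lv α := by
  obtain ⟨h1, h3⟩ := log_two_le E h
  have := Nat.log_mono_right (b := 2) hβ
  unfold lv
  omega

theorem Qof2_card (hΦ2 : 2 ≤ Φ) (hΨ : (p.X + 1) * (100 * p.X) + 1 ≤ Φ)
    (B : Finset (List.Vector Bool n) → List Bool → Bool) (α : List Bool) (hα : α.length ≤ Φ)
    (x : Finset (List.Vector Bool n)) :
    (Qof2 E L T n Φ p B α x).card ≤ Φ ^ (Nat.log 2 α.length ^ 2) := by
  have h1 : ∀ k, 1 ≤ Φ ^ k := fun k => Nat.one_le_pow _ _ (by omega)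
  unfold Qof2
  split_ifs with a b
  · simp
  · refine (trQ_card _ _ _ _ _ _ _).trans ?_
    have h2 := Kc2_le E Φ b hα
    have h3 := log_code2 E b
    set s := Nat.log 2 (cs α) ^ 2
    have h4 : Φ ≤ Φ ^ (s + 1) := Nat.le_self_pow (by omega) _
    have h5 : (p.X + 1) * (100 * p.X) + 1 + Kc2 Φ α ≤ Φ ^ (s + 2) := by
      rw [pow_succ Φ (s + 1)]
      nlinarith
    refine (Nat.mul_le_mul h5 h2).trans ?_
    rw [← pow_add]
    exact Nat.pow_le_pow_right (by omega) (by omega)
  · refine le_trans (card_le_one.2 ?_) (h1 _)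
    intro v hv v' hv'
    have e1 := (mem_filter.1 hv).2
    have e2 := (mem_filter.1 hv').2
    exact Subtype.ext (xadr_inj (e1.symm.trans e2)).2.2

end world

/-- Above a cut, code bits can be given their exact values. -/
theorem exists_exact (E : ℕ → Req2) (B₀ : List Bool → Bool) (l : ℕ) :
    ∃ B : List Bool → Bool, (∀ α : List Bool, α.length < l → B α = B₀ α) ∧
      (∀ α, ¬ IsCode2 E α → B α = B₀ α) ∧
      ∀ α, IsCode2 E α → l ≤ α.length →
        (GoodAt2 E B α ∨ Viol (kd (E (ci α))) (Da E B α)) ∧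
          (kd (E (ci α)) = false → B α = true → ¬ Da E B α true) := by
  classical
  obtain ⟨A, hA⟩ := exists_fix (X := Unit) (fun B α _ =>
    if IsCode2 E α ∧ l ≤ α.length then decide (¬ Da E (B ()) α (!kd (E (ci α)))) else B₀ α) (by
      intro α B B' h
      funext x
      split_ifs with h1
      · rw [Da_congr h1.1 h1.1.lt (h ())]
      · rfl)
  refine ⟨A (), fun α h => ?_, fun α h => ?_, fun α h1 h2 => ?_⟩
  · rw [hA, if_neg (by omega)]
  · rw [hA, if_neg fun h' => h h'.1]
  · have e := hA () α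
    rw [if_pos ⟨h1, h2⟩] at e
    unfold GoodAt2 GoodBit Viol
    cases hk : kd (E (ci α))
    · rw [hk] at e
      by_cases h3 : Da E (A ()) α true
      · have e' : A () α = false := by rw [e]; simpa using h3
        rw [e']
        simp only [Bool.false_eq_true, if_false]
        tauto
      · have e' : A () α = true := by rw [e]; simpa using h3
        rw [e']
        simp only [Bool.false_eq_true, if_false]
        tauto
    · rw [hk] at e
      by_cases h3 : Da E (A ()) α false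
      · have e' : A () α = false := by rw [e]; simpa using h3
        rw [e']
        simp only [if_true]
        tauto
      · have e' : A () α = true := by rw [e]; simpa using h3
        rw [e']
        simp only [if_true]
        tauto

end Pool.Agent.Lib.MP_2c6a5a_lc.Pf
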