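import Pool.Agent.Lib.MP_8a52c3_lc.OrcMain
import Pool.Agent.Lib.MP_2c6a5a_lc.PfStage

/-! Small programs: constants and the checker that reads a marked address. -/

namespace Pool.Agent.Lib.MP_2c6a5a_lc.Pf

open Pool.Agent.Lib.MP_8a52c3_lc.Orc

theorem QB_clock {f : ℕ → ℕ} (h : QB f) : ∃ k, ∀ n, f n ≤ n ^ k + k := by
  obtain ⟨s, c, h1⟩ := h.poly
  obtain ⟨k, h2⟩ := poly_bound s c
  exact ⟨k, fun n => (h1 n).trans (h2 n)⟩

theorem clr_reach (A : List Bool → Bool) (M : List Instr) {i l e : ℕ}
    (h : M.getD l Instr.halt = Instr.pop i e l l) (w : List Bool) :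
    ∀ st : ℕ → List Bool, st i = w →
      Reach A M (l, st) (e, Function.update st i []) (w.length + 1) := by
  induction w with
  | nil =>
    intro st hs
    have := Reach.one (step_pop_nil (A := A) h st hs)
    refine this.cast (by simp) ?_
    rw [← hs]; simp
  | cons b w ih =>
    intro st hs
    have s1 : Reach A M (l, st) (l, Function.update st i w) 1 := by
      cases b
      · exact Reach.one (step_pop_false h st hs)
      · exact Reach.one (step_pop_true h st hs)
    have s2 := ih (Function.update st i w) (by simp)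
    refine (s1.trans s2).cast (by simp; omega) (by simp)

/-- Clear stack 0, write `y` on it and halt. -/
def outB (y : List Bool) (l : ℕ) : List Instr :=
  Instr.pop 0 (l + 1) l l :: (pushR 0 y.reverse (l + 1) ++ [Instr.halt])

theorem outB_length (y : List Bool) (l : ℕ) : (outB y l).length = y.length + 2 := by
  simp [outB, pushR_length]

theorem outB_reach (A : List Bool → Bool) (M : List Instr) (y : List Bool) {l : ℕ}
    (h : Has M l (outB y l)) (st : ℕ → List Bool) :
    ∃ c : Cfg, Reach A M (l, st) c ((st 0).length + 1 + y.length) ∧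
      M.getD c.1 Instr.halt = Instr.halt ∧ c.2 0 = y := by
  have s1 := clr_reach A M h.head _ st rfl
  have s2 := pushR_reach A M 0 y.reverse (l + 1) (Function.update st 0 []) h.tail.left
  have h3 := h.tail.right.head
  rw [pushR_length] at h3
  refine ⟨_, (s1.trans s2).mono (by simp), h3, by simp⟩

theorem const_FP1 (A : List Bool → Bool) (y : List Bool) : FP1 A fun _ => y := by
  obtain ⟨k, hk⟩ := QB_clock ((QB.id.add (QB.const 1)).add (QB.const y.length))
  refine ⟨outB y 0, k, fun x => ?_⟩
  obtain ⟨c, h1, h2, h3⟩ := outB_reach A (outB y 0) y (has_self _)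
    (fun i => if i = 0 then x else if i = 1 then [] else [])
  exact outputs_of_reach h1 h2 h3 (by simpa using hk x.length)

def eatU : ℕ → List Bool → Option (List Bool)
  | 0, false :: s => some s
  | a + 1, true :: s => eatU a s
  | _, _ => none

def skipU : List Bool → Option (List Bool)
  | [] => none
  | false :: s => some s
  | true :: s => skipU s

theorem eatU_rep (a : ℕ) (s : List Bool) :
    eatU a (List.replicate a true ++ false :: s) = some s := by
  induction a with
  | zero => rfl
  | succ a ih => simpa [List.replicate_succ, eatU] using ih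

theorem skipU_rep (a : ℕ) (s : List Bool) :
    skipU (List.replicate a true ++ false :: s) = some s := by
  induction a with
  | zero => rfl
  | succ a ih => simpa [List.replicate_succ, skipU] using ih

theorem eatU_some {a : ℕ} {d s : List Bool} (h : eatU a d = some s) :
    d = List.replicate a true ++ false :: s := by
  induction a generalizing d with
  | zero =>
    rcases d with _ | ⟨_ | _, d⟩ <;> simp_all [eatU]
  | succ a ih =>
    rcases d with _ | ⟨_ | _, d⟩
    · simp [eatU] at h
    · simp [eatU] at h
    · simp only [eatU] at h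
      rw [ih h, List.replicate_succ]; rfl

theorem skipU_some {d s : List Bool} (h : skipU d = some s) :
    ∃ a, d = List.replicate a true ++ false :: s := by
  induction d with
  | nil => simp [skipU] at h
  | cons b d ih =>
    cases b
    · simp only [skipU, Option.some.injEq] at h
      exact ⟨0, by simp [h]⟩
    · simp only [skipU] at h
      obtain ⟨a, ha⟩ := ih h
      exact ⟨a + 1, by rw [ha, List.replicate_succ]; rfl⟩

/-- Pop `1^a 0` from stack 0, or jump to `F`. -/
def eatB (F : ℕ) : ℕ → ℕ → List Instr
  | 0, l => [Instr.pop 0 F (l + 1) F]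
  | a + 1, l => Instr.pop 0 F F (l + 1) :: eatB F a (l + 1)

theorem eatB_length (F a l : ℕ) : (eatB F a l).length = a + 1 := by
  induction a generalizing l with
  | zero => rfl
  | succ a ih => simp [eatB, ih]

theorem eatB_reach (A : List Bool → Bool) (M : List Instr) (F a : ℕ) :
    ∀ (l : ℕ) (st : ℕ → List Bool), Has M l (eatB F a l) →
      ∃ s : List Bool, s.length ≤ (st 0).length ∧
        ((eatU a (st 0) = some s ∧
          Reach A M (l, st) (l + a + 1, Function.update st 0 s) (a + 1)) ∨
        (eatU a (st 0) = none ∧ Reach A M (l, st) (F, Function.update st 0 s) (a + 1))) := by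
  induction a with
  | zero =>
    intro l st h
    have h0 := h.head
    rcases hs : st 0 with _ | ⟨_ | _, s⟩
    · refine ⟨[], le_rfl, Or.inr ⟨rfl, ?_⟩⟩
      refine (Reach.one (step_pop_nil (A := A) h0 st hs)).cast le_rfl ?_
      rw [← hs]; simp
    · exact ⟨s, by simp, Or.inl ⟨rfl, Reach.one (step_pop_false h0 st hs)⟩⟩
    · exact ⟨s, by simp, Or.inr ⟨rfl, Reach.one (step_pop_true h0 st hs)⟩⟩
  | succ a ih =>
    intro l st h
    have h0 := h.head
    rcases hs : st 0 with _ | ⟨_ | _, s⟩
    · refine ⟨[], le_rfl, Or.inr ⟨rfl, ?_⟩⟩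
      refine (Reach.one (step_pop_nil (A := A) h0 st hs)).cast (by omega) ?_
      rw [← hs]; simp
    · exact ⟨s, by simp, Or.inr ⟨rfl,
        (Reach.one (step_pop_false h0 st hs)).mono (by omega)⟩⟩
    · have s1 := Reach.one (step_pop_true (A := A) h0 st hs)
      obtain ⟨s', h1, h2⟩ := ih (l + 1) (Function.update st 0 s) h.tail
      simp only [Function.update_self, Function.update_idem] at h1 h2
      refine ⟨s', by simp; omega, ?_⟩
      rcases h2 with ⟨h2, h3⟩ | ⟨h2, h3⟩
      · left
        refine ⟨h2, ?_⟩
        have e : l + (a + 1) + 1 = l + 1 + a + 1 := by omega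
        rw [e]
        exact (s1.trans h3).mono (by omega)
      · exact Or.inr ⟨h2, (s1.trans h3).mono (by omega)⟩

theorem skip_reach (A : List Bool → Bool) (M : List Instr) {F l : ℕ}
    (h : M.getD l Instr.halt = Instr.pop 0 F (l + 1) l) (w : List Bool) :
    ∀ st : ℕ → List Bool, st 0 = w →
      ∃ s : List Bool, s.length ≤ w.length ∧
        ((skipU w = some s ∧
          Reach A M (l, st) (l + 1, Function.update st 0 s) (w.length + 1)) ∨
        (skipU w = none ∧ Reach A M (l, st) (F, Function.update st 0 s) (w.length + 1))) := by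
  induction w with
  | nil =>
    intro st hs
    refine ⟨[], le_rfl, Or.inr ⟨rfl, ?_⟩⟩
    refine (Reach.one (step_pop_nil (A := A) h st hs)).cast le_rfl ?_
    rw [← hs]; simp
  | cons b w ih =>
    intro st hs
    cases b
    · exact ⟨w, by simp, Or.inl ⟨rfl, (Reach.one (step_pop_false h st hs)).mono (by simp)⟩⟩
    · have s1 := Reach.one (step_pop_true (A := A) h st hs)
      obtain ⟨s', h1, h2⟩ := ih (Function.update st 0 w) (by simp)
      simp only [Function.update_idem] at h2
      refine ⟨s', by simp; omega, ?_⟩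
      rcases h2 with ⟨h2, h3⟩ | ⟨h2, h3⟩
      · exact Or.inl ⟨h2, (s1.trans h3).mono (by simp; omega)⟩
      · exact Or.inr ⟨h2, (s1.trans h3).mono (by simp; omega)⟩

/-- The proof system: the string part of a marked address with tag `a`, else `y₀`. -/
def sysP (A : List Bool → Bool) (a : ℕ) (y₀ d : List Bool) : List Bool :=
  if A d = true then (((eatU a d).bind skipU).bind skipU).getD y₀ else y₀

theorem sysP_fmt (A : List Bool → Bool) (a j p : ℕ) (y₀ y : List Bool)
    (h : A (fmt a j p y) = true) : sysP A a y₀ (fmt a j p y) = y := by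
  unfold sysP
  rw [if_pos h]
  simp [fmt, adr, eatU_rep, skipU_rep]

theorem sysP_cases (A : List Bool → Bool) (a : ℕ) (y₀ d : List Bool) :
    sysP A a y₀ d = y₀ ∨ (A d = true ∧ ∃ j p, d = fmt a j p (sysP A a y₀ d)) := by
  unfold sysP
  split_ifs with h
  · rcases h1 : eatU a d with _ | s1
    · simp
    · rcases h2 : skipU s1 with _ | s2
      · simp [h2]
      · rcases h3 : skipU s2 with _ | s3
        · simp [h2, h3]
        · right
          obtain ⟨j, hj⟩ := skipU_some h2
          obtain ⟨p, hp⟩ := skipU_some h3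
          refine ⟨h, j, p, ?_⟩
          simp only [Option.bind_some, h2, h3, Option.getD_some]
          rw [eatU_some h1, hj, hp]
          rfl
  · exact Or.inl rfl

def chk (a : ℕ) (y₀ : List Bool) : List Instr :=
  Instr.query 0 (a + 5) 1 :: (eatB (a + 5) a 1 ++
    (Instr.pop 0 (a + 5) (a + 2 + 1) (a + 2) :: Instr.pop 0 (a + 5) (a + 3 + 1) (a + 3) ::
      Instr.halt :: outB y₀ (a + 5)))

theorem sysP_FP1 (A : List Bool → Bool) (a : ℕ) (y₀ : List Bool) : FP1 A (sysP A a y₀) := by
  obtain ⟨k, hk⟩ := QB_clock (((QB.const 3).mul QB.id).add (QB.const (a + 5 + y₀.length)))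
  refine ⟨chk a y₀, k, fun x => ?_⟩
  have H := has_self (chk a y₀)
  have H0 := H.head
  have H1 := H.tail.left
  have H2 := H.tail.right
  rw [eatB_length] at H2
  have e2 : 0 + 1 + (a + 1) = a + 2 := by omega
  rw [e2] at H2
  have H3 := H2.head
  have H4 := H2.tail.head
  have H5 := H2.tail.tail.head
  have H6 : Has (chk a y₀) (a + 5) (outB y₀ (a + 5)) := H2.tail.tail.tail
  have hk' := hk x.length
  set st0 : ℕ → List Bool := fun i => if i = 0 then x else if i = 1 then [] else [] with hst0
  have x0 : st0 0 = x := by simp [hst0]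
  have fail : ∀ (s : List Bool) (T : ℕ), s.length ≤ x.length → T ≤ 2 * x.length + a + 4 →
      Reach A (chk a y₀) (0, st0) (a + 5, Function.update st0 0 s) T → sysP A a y₀ x = y₀ →
      Outputs A (chk a y₀) x [] (x.length ^ k + k) (sysP A a y₀ x) := by
    intro s T h1 h2 h3 h4
    obtain ⟨c, c1, c2, c3⟩ := outB_reach A (chk a y₀) y₀ H6 (Function.update st0 0 s)
    rw [h4]
    refine outputs_of_reach (h3.trans c1) c2 c3 ?_
    simp only [Function.update_self]
    omega
  have s0 := Reach.one (step_query (A := A) H0 st0)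
  rw [x0] at s0
  by_cases hA : A x = true
  · rw [if_pos hA] at s0
    obtain ⟨s1, a1, a2⟩ := eatB_reach A (chk a y₀) (a + 5) a 1 st0 H1
    rw [x0] at a1 a2
    rcases a2 with ⟨a2, a3⟩ | ⟨a2, a3⟩
    · have e3 : 1 + a + 1 = a + 2 := by omega
      rw [e3] at a3
      obtain ⟨s2, b1, b2⟩ := skip_reach A (chk a y₀) H3 s1 (Function.update st0 0 s1) (by simp)
      simp only [Function.update_idem] at b2
      rcases b2 with ⟨b2, b3⟩ | ⟨b2, b3⟩
      · obtain ⟨s3, c1, c2⟩ := skip_reach A (chk a y₀) H4 s2 (Function.update st0 0 s2) (by simp)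
        simp only [Function.update_idem] at c2
        rcases c2 with ⟨c2, c3⟩ | ⟨c2, c3⟩
        · refine outputs_of_reach (((s0.trans a3).trans b3).trans c3) H5 ?_ (by omega)
          simp [sysP, hA, a2, b2, c2]
        · exact fail s3 _ (by omega) (by omega) (((s0.trans a3).trans b3).trans c3)
            (by simp [sysP, a2, b2, c2])
      · exact fail s2 _ (by omega) (by omega) ((s0.trans a3).trans b3) (by simp [sysP, a2, b2])
    · exact fail s1 _ a1 (by omega) (s0.trans a3) (by simp [sysP, a2])
  · rw [if_neg hA] at s0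
    refine fail x 1 le_rfl (by omega) ?_ (by simp [sysP, hA])
    refine s0.cast le_rfl ?_
    rw [← x0]; simp

end Pool.Agent.Lib.MP_2c6a5a_lc.Pf
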