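import Pool.Agent.Lib.MP_2c6a5a_lc.PfStage

/-! The stage lemma. -/

namespace Pool.Agent.Lib.MP_2c6a5a_lc.Pf

open Finset Pool.Agent.Lib.MP_8a52c3_lc.Orc

theorem stage_at2 (E : ℕ → Req2) (V : Ver) (ρ : Red) (q e T L : ℕ) (σ : List Bool → Bool)
    (n Φ : ℕ) (p : Par2) (hn : L ≤ n) (hq : p.q = q) (he : p.e = e)
    (hτ : p.τ = tauOf V ρ T n) (ht : p.t = p.τ + 5)
    (hC : p.C = 7 * (p.τ + p.t + n * p.t + 5)) (hΛ : p.Λ = Nat.log 2 p.τ + 1)
    (hΦτ : p.τ + 2 ≤ Φ)
    (hΨ : (p.X + 1) * (100 * p.X) + 1 ≤ Φ)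
    (hbig : 2 * ((p.τ + 2) * p.C ^ p.q) * Φ ^ (Nat.log 2 p.τ ^ 2) ≤ 2 ^ n) :
    ∃ σ' : List Bool → Bool, (∀ α : List Bool, α.length < L → σ' α = σ α) ∧
      StageOK2 E V ρ q e T L p.τ σ' := by
  classical
  obtain ⟨A, hA⟩ := exists_world2 E σ L T n Φ p
  have : Nonempty (List.Vector Bool n) := ⟨List.Vector.replicate n true⟩
  have hN : Fintype.card (List.Vector Bool n) = 2 ^ n := by simp
  set d := Φ ^ (Nat.log 2 p.τ ^ 2) with hd
  have hτn : T + 2 * n + 5 ≤ p.τ := by rw [hτ]; unfold tauOf; omega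
  have hC1 : 1 ≤ p.C := by omega
  have hCq : 1 ≤ p.C ^ p.q := Nat.one_le_pow _ _ hC1
  have hd1 : 1 ≤ d := Nat.one_le_pow _ _ (by omega)
  have hlow : ∀ x (α : List Bool), α.length < L → A x α = σ α := by
    intro x α h
    rw [hA]; unfold Psi2; rw [if_pos h]
  have hQc : ∀ (β : List Bool) (l : ℕ), β.length ≤ l → l ≤ Φ → ∀ x,
      (Qof2 E L T n Φ p A β x).card ≤ Φ ^ (Nat.log 2 l ^ 2) := by
    intro β l h1 h2 x
    refine (Qof2_card E L T n Φ p (by omega) hΨ A β (by omega) x).trans ?_
    exact Nat.pow_le_pow_right (by omega) (Nat.pow_le_pow_left (Nat.log_mono_right h1) 2)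
  have hloc : ∀ (β : List Bool) x x', Agree (Qof2 E L T n Φ p A β x) x x' → A x' β = A x β := by
    intro β x x' h
    rw [hA, hA]; exact Psi2_loc E σ L T n Φ p A β x x' h
  have hz : 2 * ((p.τ + 2) * d * p.C ^ p.q) ≤ 2 ^ n := by
    refine le_trans (le_of_eq ?_) hbig
    ring
  let c : Core2 (List.Vector Bool n) (List Bool) :=
    { p := p
      d := d
      z := (p.τ + 2) * d
      all := short p.τ
      cds := (short p.τ).filter fun α => L ≤ α.length ∧ IsCode2 E α
      codes := (short p.τ).filter fun α =>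
        (L ≤ α.length ∧ IsCode2 E α) ∧ ci α < q ∧ ¬ DeadP2 E σ L (ci α)
      Q := Qof2 E L T n Φ p A
      pri := ci
      lev := lv
      kind := fun α => kd (E (ci α))
      D := Dof2 E n A
      K := Kc2 Φ
      hsub := filter_subset _ _
      hsub' := fun α hα => mem_filter.2 ⟨(mem_filter.1 hα).1, (mem_filter.1 hα).2.1⟩
      hadapt := fun β _ => Qof2_adapt E L T n Φ p A β
      hd := fun β hβ x => hQc β p.τ ((mem_short _ _).1 hβ).le (by omega) x
      hQ := fun α hα => by
        obtain ⟨_, h1, h2⟩ := mem_filter.1 hα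
        funext x
        unfold Qof2
        rw [if_neg (by omega), if_pos h2]
      hK := fun α hα => by
        obtain ⟨h0, h1, h2⟩ := mem_filter.1 hα
        have h0' := (mem_short _ _).1 h0
        have h3 := Kc2_le E Φ h2 (by omega)
        have h4 := log_code2 E h2
        have h5 : Nat.log 2 α.length ^ 2 ≤ Nat.log 2 p.τ ^ 2 :=
          Nat.pow_le_pow_left (Nat.log_mono_right h0'.le) 2
        have h6 : Φ ^ (Nat.log 2 (cs α) ^ 2 + 1) ≤ d :=
          Nat.pow_le_pow_right (by omega) (by omega)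
        nlinarith
      hpri := fun α hα => by rw [hq]; exact (mem_filter.1 hα).2.2.1
      hlev := fun α hα => by
        have h0' := (mem_short _ _).1 (mem_filter.1 hα).1
        have := Nat.log_mono_right (b := 2) h0'.le
        show Nat.log 2 α.length < p.Λ
        omega
      hcert := fun α hα b x hD => by
        obtain ⟨h0, h1, h2⟩ := mem_filter.1 hα
        have h0' := (mem_short _ _).1 h0
        obtain ⟨S, s1, s2, s3⟩ := Dp_local h2.2 hD
        have l2 := h2.lt
        refine ⟨S, fun β hβ => (mem_short _ _).2 (by have := s2 β hβ; omega), by omega, ?_, ?_⟩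
        · refine (card_biUnion_le_card_mul S _ (Φ ^ (Nat.log 2 (cs α) ^ 2)) ?_).trans ?_
          · intro β hβ
            exact hQc β _ (s2 β hβ) (by omega) x
          · exact Nat.mul_le_mul_right _ s1
        · intro x' hx'
          exact s3 _ fun β hβ => hloc β x x'
            (hx'.mono (subset_biUnion_of_mem (fun β => Qof2 E L T n Φ p A β x) hβ))
      hC := hC1
      hd1 := hd1
      n1 := by
        rw [ht, hN]
        apply numeric1 (short_card _) _ (Nat.two_pow_pos n)
        refine le_trans ?_ hz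
        nlinarith [Nat.zero_le (p.τ * d * p.C ^ p.q), Nat.zero_le (d * p.C ^ p.q)]
      n2 := by
        have := numeric2 (t := p.t) (short_card p.τ) (show d ≤ 2 ^ n by
          refine le_trans ?_ hz
          have : d * 1 ≤ d * p.C ^ p.q := Nat.mul_le_mul_left _ hCq
          nlinarith [Nat.zero_le (p.τ * d * p.C ^ p.q), Nat.zero_le (d * p.C ^ p.q)])
        rwa [← hC] at this
      n3 := by
        rw [hN, ← mul_div_assoc, div_le_div_iff₀ (by positivity) (by norm_num)]
        have : ((2 * ((p.τ + 2) * d * p.C ^ p.q) : ℕ) : ℝ) ≤ ((2 ^ n : ℕ) : ℝ) := by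
          exact_mod_cast hz
        push_cast at this ⊢
        linarith }
  have hLτ : L ≤ p.τ := by omega
  have hmem : ∀ α, α ∈ c.codes ↔ α.length < p.τ ∧
      ((L ≤ α.length ∧ IsCode2 E α) ∧ ci α < q ∧ ¬ DeadP2 E σ L (ci α)) := by
    intro α
    rw [← mem_short]
    exact mem_filter
  have hmem' : ∀ α, α ∈ c.cds ↔ α.length < p.τ ∧ (L ≤ α.length ∧ IsCode2 E α) := by
    intro α
    rw [← mem_short]
    exact mem_filter
  have hout : ∀ α ∈ c.cds, ∀ x, A x α = c.out α x := by
    intro α hα x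
    obtain ⟨_, h1, h2⟩ := (hmem' α).1 hα
    rw [hA x α]
    unfold Psi2
    rw [if_neg (by omega), if_pos h2]
    rfl
  have hgood : ∀ α ∈ c.codes, ∀ x, c.Good α x → GoodAt2 E (A x) α := by
    intro α hα x h
    unfold GoodAt2
    rw [hout α (c.hsub' hα) x]
    exact h
  have hnon : ∀ x α, L ≤ α.length → ¬ IsCode2 E α → 1 ≤ ca α → A x α = false := by
    intro x α h1 h2 h3
    rw [hA x α]
    unfold Psi2
    rw [if_neg (by omega), if_neg h2, if_neg]
    · exact decide_eq_false (by omega)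
    · rintro ⟨u, rfl⟩
      rw [ca_xadr] at h3
      omega
  have hsnd : ∀ x α, L ≤ α.length → α.length < p.τ → (α ∈ c.cds → c.Sound α x) →
      SoundAt E (A x) α := by
    intro x α h1 h2 h3 h4 h5
    by_cases hc : IsCode2 E α
    · have hα := (hmem' α).2 ⟨h2, h1, hc⟩
      rw [hout α hα x] at h5
      exact ⟨hc, fun hk => h3 hα hk h5⟩
    · rw [hnon x α h1 hc h4] at h5
      exact absurd h5 (by simp)
  have dP : ∀ x j, DeadP2 E (A x) L j ↔ DeadP2 E σ L j := fun x j =>
    ⟨fun h => h.mono le_rfl fun α hα => (hlow x α hα).symm, fun h => h.mono le_rfl (hlow x)⟩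
  have dC : ∀ x, DeadC V (A x) L ↔ DeadC V σ L := fun x =>
    ⟨fun h => h.mono le_rfl fun α hα => (hlow x α hα).symm, fun h => h.mono le_rfl (hlow x)⟩
  have hrange : ∀ x j, j < q → ¬ DeadP2 E (A x) p.τ j →
      (∀ α ∈ c.codes, ci α = j → c.Good α x) → GoodRange2 E (A x) L p.τ j := by
    intro x j hj hnd h α a1 a2 a3 a4
    have hα : α ∈ c.codes := (hmem α).2 ⟨a4, ⟨a3, a1⟩, by omega, fun hd => hnd (by
      rw [a2] at hd
      exact ((dP x j).2 hd).mono hLτ fun _ _ => rfl)⟩
    exact hgood α hα x (h α hα a2)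
  have hxval : ∀ x (u : List Bool), A x (xadr T n u) = decide (∃ v ∈ x, u = v.1) := by
    intro x u
    rw [hA]
    unfold Psi2
    rw [if_neg (by rw [xadr_length]; omega), if_neg (not_isCode2_xadr E T n u), if_pos ⟨u, rfl⟩,
      decide_eq_decide]
    constructor
    · rintro ⟨v, hv, h⟩; exact ⟨v, hv, (xadr_inj h).2.2⟩
    · rintro ⟨v, hv, h⟩; exact ⟨v, hv, by rw [h]⟩
  have htot : ∀ x T' n', L ≤ (xadr T' n' []).length → (xadr T' n' []).length < p.τ →
      (T' = T → x.Nonempty) →
      ∃ u : List Bool, u.length ≤ n' + 1 ∧ (xadr T' n' u).length < p.τ ∧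
        A x (xadr T' n' u) = true := by
    intro x T' n' h1 h2 h3
    by_cases hTn : T' = T ∧ n' = n
    · obtain ⟨rfl, rfl⟩ := hTn
      obtain ⟨v, hv⟩ := h3 rfl
      refine ⟨v.1, by rw [v.2]; omega, by rw [xadr_length, v.2]; omega, ?_⟩
      rw [hxval]
      exact decide_eq_true ⟨v, hv, rfl⟩
    · refine ⟨[], by simp, h2, ?_⟩
      rw [hA]
      unfold Psi2
      rw [if_neg (by omega), if_neg (not_isCode2_xadr E T' n' []), if_neg]
      · exact decide_eq_true (ca_xadr _ _ _)
      rintro ⟨u, hu⟩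
      exact hTn ⟨(xadr_inj hu).1, (xadr_inj hu).2.1⟩
  rcases c.dichotomy with hNK | hNK
  · by_cases hK2 : ¬ DeadC V σ L ∧ DeadC V (A ∅) p.τ
    · obtain ⟨g1, g2⟩ := c.good_empty hNK
      refine ⟨A ∅, hlow ∅, fun j hj a b d' => ?_, fun T' n' a b d' => ?_, fun _ b => ?_,
        fun α a b => hsnd ∅ α a b (g2 α)⟩
      · apply hrange ∅ j hj a
        intro α hα h
        apply g1 α hα
        show ci α < p.e
        by_contra hh
        exact hK2.1 ((dC ∅).1 (d' (by omega) hK2.2))
      · apply htot ∅ T' n' a b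
        intro h
        exact absurd ((dC ∅).1 ((d' h).2 hK2.2)) hK2.1
      · exact absurd hK2.2 b
    · by_cases hdead : DeadC V σ L
      · obtain ⟨x, x1, _, x3, x4⟩ := c.good_avoid hNK ∅ (by simp)
        refine ⟨A x, hlow x, fun j hj a _ _ => ?_, fun T' n' a b _ => ?_, fun _ b => ?_,
          fun α a b => hsnd x α a b (x4 α)⟩
        · exact hrange x j hj a fun α hα _ => x3 α hα
        · exact htot x T' n' a b fun _ => x1
        · exact absurd (((dC x).2 hdead).mono hLτ fun _ _ => rfl) b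
      · have hnd : ¬ DeadC V (A ∅) (tauOf V ρ T n) := fun h => hK2 ⟨hdead, by rwa [hτ]⟩
        obtain ⟨z, S, s1, s2, s3⟩ := diag_local (A ∅) V ρ T n hnd
        rw [← hτ] at s1 s2
        set u₀ := gout (A ∅) ρ (List.replicate n true) z with hu₀
        let Z : Finset (List.Vector Bool n) :=
          (S.biUnion fun β => Qof2 E L T n Φ p A β ∅) ∪ univ.filter fun v => u₀ = v.1
        have hZ : Z.card ≤ (p.τ + 2) * d := by
          have h1 := card_union_le (S.biUnion fun β => Qof2 E L T n Φ p A β ∅)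
            (univ.filter fun v : List.Vector Bool n => u₀ = v.1)
          have h2 : (S.biUnion fun β => Qof2 E L T n Φ p A β ∅).card ≤ S.card * d :=
            card_biUnion_le_card_mul _ _ _ fun β hβ => hQc β p.τ (s2 β hβ).le (by omega) ∅
          have h3 : (univ.filter fun v : List.Vector Bool n => u₀ = v.1).card ≤ 1 := by
            apply card_le_one.2
            intro v hv v' hv'
            exact Subtype.ext ((mem_filter.1 hv).2.symm.trans (mem_filter.1 hv').2)
          have h4 := Nat.mul_le_mul_right d s1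
          have h5 : Z.card ≤ p.τ * d + 1 := by
            show (_ ∪ _ : Finset (List.Vector Bool n)).card ≤ _
            omega
          nlinarith
        obtain ⟨x, x1, x2, x3, x4⟩ := c.good_avoid hNK Z hZ
        refine ⟨A x, hlow x, fun j hj a _ _ => ?_, fun T' n' a b _ => ?_, fun _ _ => ?_,
          fun α a b => hsnd x α a b (x4 α)⟩
        · exact hrange x j hj a fun α hα _ => x3 α hα
        · exact htot x T' n' a b fun _ => x1
        · refine ⟨List.replicate n true, z, fun A' hA' => ?_⟩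
          have hS : ∀ α ∈ S, A' α = A ∅ α := by
            intro α hα
            rw [hA' α (s2 α hα)]
            apply hloc
            intro u hu
            have := x2 u (mem_union_left _ (mem_biUnion.2 ⟨α, hα, hu⟩))
            simp [this]
          obtain ⟨r1, r2⟩ := s3 A' hS
          refine ⟨r1, ?_⟩
          rw [r2, List.length_replicate]
          rintro ⟨r3, r4⟩
          rw [hA' _ (by rw [xadr_length]; omega), hxval] at r4
          obtain ⟨v, hv, e⟩ := of_decide_eq_true r4
          exact x2 v (mem_union_right _ (mem_filter.2 ⟨mem_univ _, e⟩)) hv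
  · obtain ⟨α, hα, x, k1, ⟨k2, k4⟩, k3⟩ := hNK
    obtain ⟨a0, ⟨a1, a2⟩, a3, a4⟩ := (hmem α).1 hα
    obtain ⟨B, b1, b2, b3⟩ := exists_exact E (A x) (max L (cs α + 1))
    have hBlow : ∀ β : List Bool, β.length < L → B β = σ β := fun β h =>
      (b1 β (by omega)).trans (hlow x β h)
    have hBcs : ∀ β : List Bool, β.length < cs α + 1 → B β = A x β := fun β h =>
      b1 β (by omega)
    have hkill : DeadP2 E B p.τ (ci α) := by
      refine ⟨cy α, cs α, a2.2, lt_trans a2.lt a0, ?_⟩
      have := Da_congr a2 (Nat.lt_succ_self _) hBcs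
      unfold Da at this
      rw [this]
      exact k3
    have hal : ¬ DeadP2 E B L (ci α) := fun h =>
      a4 (h.mono le_rfl fun β hβ => (hBlow β hβ).symm)
    refine ⟨B, hBlow, fun j hj a b _ => ?_, fun T' n' a b d' => ?_, fun a _ => ?_,
      fun β h1 h2 => ?_⟩
    · intro β c1 c2 c3 c4
      by_cases hβ : β.length ≤ cs α
      · have hβc : β ∈ c.codes := (hmem β).2 ⟨c4, ⟨c3, c1⟩, by omega, fun hd => a (by
          rw [c2] at hd
          exact hd.mono hLτ hBlow)⟩
        refine (hgood β hβc x (k2 β hβc ?_ (lv_lt E a2 hβ))).congr c1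
          fun γ hγ => hBcs γ (by omega)
        show ci β < ci α
        rcases lt_trichotomy j (ci α) with h' | h' | h'
        · omega
        · exact absurd (h' ▸ hkill) a
        · exact absurd (b _ h' hkill) hal
      · rcases (b3 β c1 (by omega)).1 with h | h
        · exact h
        · exfalso
          apply a
          rw [← c2]
          exact ⟨cy β, cs β, c1.2, lt_trans c1.lt c4, h⟩
    · obtain ⟨u, u1, u2, u3⟩ := htot x T' n' a b (by
        intro h
        apply k1
        show p.e ≤ ci α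
        by_contra hh
        exact hal ((d' h).1 _ (by omega) hkill))
      exact ⟨u, u1, u2, by rw [b2 _ (not_isCode2_xadr E T' n' u), u3]⟩
    · exact absurd (a _ a3 hkill) hal
    · by_cases hβ : β.length ≤ cs α
      · exact (hsnd x β h1 h2 fun hβc => k4 β hβc (lv_lt E a2 hβ)).congr
          fun γ hγ => hBcs γ (by omega)
      · intro h3 h4
        by_cases hc : IsCode2 E β
        · exact ⟨hc, fun hk => (b3 β hc (by omega)).2 hk h4⟩
        · rw [b2 β hc, hnon x β h1 hc h3] at h4
          exact absurd h4 (by simp)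

theorem stage2 (E : ℕ → Req2) (V : Ver) (ρ : Red) (q e T L : ℕ) (σ : List Bool → Bool) :
    ∃ (σ' : List Bool → Bool) (L' : ℕ), L < L' ∧ (∀ α : List Bool, α.length < L → σ' α = σ α) ∧
      StageOK2 E V ρ q e T L L' σ' := by
  let P : ℕ → Par2 := fun n =>
    { q := q, e := e, τ := tauOf V ρ T n, t := tauOf V ρ T n + 5,
      C := 7 * (tauOf V ρ T n + (tauOf V ρ T n + 5) + n * (tauOf V ρ T n + 5) + 5),
      Λ := Nat.log 2 (tauOf V ρ T n) + 1 }
  have q1 : QB fun n => n + (n ^ ρ.1.2 + ρ.1.2) := QB.id.add ((QB.id.pow _).add (QB.const _))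
  have q2 : QB fun n => n + tm V (n + (n ^ ρ.1.2 + ρ.1.2)) := QB.id.add (q1.tm V)
  have qτ : QB fun n => (P n).τ :=
    ((q1.add (q1.tm V)).add (q2.add ((q2.pow _).add (QB.const _)))).add
      (((QB.const T).add ((QB.const 2).mul QB.id)).add (QB.const 5))
  have qt : QB fun n => (P n).t := qτ.add (QB.const 5)
  have qC : QB fun n => (P n).C :=
    (QB.const 7).mul (((qτ.add qt).add (QB.id.mul qt)).add (QB.const 5))
  have qX : QB fun n => (P n).X := by
    refine QB.le (g := fun n => 4 * (P n).τ * ((P n).τ * (P n).t + (P n).t) + (P n).C ^ q + 1)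
      (((((QB.const 4).mul qτ).mul ((qτ.mul qt).add qt)).add (qC.pow q)).add (QB.const 1))
      fun n => ?_
    have h1 := rr_le ((P n).τ * (P n).t + (P n).t) (Nat.log 2 (P n).τ + 1)
    have h2 : 2 ^ Nat.log 2 (P n).τ ≤ (P n).τ :=
      Nat.pow_log_le_self 2 (by show tauOf V ρ T n ≠ 0; unfold tauOf; omega)
    have h3 : 2 ^ (Nat.log 2 (P n).τ + 1 + 1) ≤ 4 * (P n).τ := by
      rw [pow_succ, pow_succ]; omega
    have h4 := Nat.mul_le_mul_right ((P n).τ * (P n).t + (P n).t) h3
    show rr ((P n).τ * (P n).t + (P n).t) (Nat.log 2 (P n).τ + 1 - 0) + (P n).C ^ q + 1 ≤ _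
    rw [Nat.sub_zero]
    omega
  obtain ⟨n, hn, hbig⟩ := exists_big
    (f := fun n => 2 * (((P n).τ + 2) * (P n).C ^ q))
    (Φ := fun n => (P n).τ + 2 + (((P n).X + 1) * (100 * (P n).X) + 1))
    (τ := fun n => (P n).τ)
    ((QB.const 2).mul ((qτ.add (QB.const 2)).mul (qC.pow q)))
    ((qτ.add (QB.const 2)).add (((qX.add (QB.const 1)).mul ((QB.const 100).mul qX)).add
      (QB.const 1))) qτ L
  obtain ⟨σ', h1, h2⟩ := stage_at2 E V ρ q e T L σ n _ (P n) hn rfl rfl rfl rfl rfl rfl
    (Nat.le_add_right _ _) (Nat.le_add_left _ _) hbig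
  refine ⟨σ', (P n).τ, ?_, h1, h2⟩
  show L < tauOf V ρ T n
  unfold tauOf
  omega

end Pool.Agent.Lib.MP_2c6a5a_lc.Pf
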